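import Mathlib

/-!
A predictor-corrector interior-point method for `max c·x` subject to `A x ≤ b`, with `b > 0`,
using the logarithmic barrier and starting at the interior point `x = 0`.
-/

namespace Pool.Agent.Work.MP_6af739_lc

open Matrix Finset

variable {m n : ℕ} (A : Matrix (Fin m) (Fin n) ℝ) (b : Fin m → ℝ) (c : Fin n → ℝ)

/-- The slack vector `s = b - A x`. -/
def slack (x : Fin n → ℝ) : Fin m → ℝ := b - A *ᵥ x

/-- Gradient of the logarithmic barrier `-∑ log s_j`. -/
noncomputable def grad (x : Fin n → ℝ) : Fin n → ℝ := Aᵀ *ᵥ fun j => (slack A b x j)⁻¹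

/-- Hessian of the logarithmic barrier. -/
noncomputable def hess (x : Fin n → ℝ) : Matrix (Fin n) (Fin n) ℝ :=
  Aᵀ * diagonal (fun j => (slack A b x j)⁻¹ ^ 2) * A

/-- Predictor direction at the state `p = (λ, x)`: the solution of `H(x) z = λ c`. -/
noncomputable def dir (p : ℝ × (Fin n → ℝ)) : Fin n → ℝ := (hess A b p.2)⁻¹ *ᵥ (p.1 • c)

/-- Predictor step length `(1/10) / 2^k`, with `k` least such that `∑ ((A z)_j / s_j)^4 ≤ 16^k`. -/
noncomputable def stepLen (p : ℝ × (Fin n → ℝ)) : ℝ :=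
  (1 / 10) / 2 ^ Nat.clog 16 ⌈∑ j, ((A *ᵥ dir A b c p) j / slack A b p.2 j) ^ 4⌉₊

/-- Predictor step. -/
noncomputable def predict (p : ℝ × (Fin n → ℝ)) : ℝ × (Fin n → ℝ) :=
  ((1 + stepLen A b c p) * p.1, p.2 + stepLen A b c p • dir A b c p)

/-- Corrector: one Newton step for the equation `grad x - grad 0 = λ c`. -/
noncomputable def correct (p : ℝ × (Fin n → ℝ)) : ℝ × (Fin n → ℝ) :=
  (p.1, p.2 - (hess A b p.2)⁻¹ *ᵥ (grad A b p.2 - grad A b 0 - p.1 • c))

/-- The iterates `(λ_i, x_i)`. -/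
noncomputable def iter : ℕ → ℝ × (Fin n → ℝ)
  | 0 => ((1 / 100) / ∑ j, |(A *ᵥ ((hess A b 0)⁻¹ *ᵥ c)) j / b j|, 0)
  | i + 1 => correct A b c (predict A b c (iter i))

/-- The diagonal 0-1 matrix of a set of rows. -/
def ind (B : Finset (Fin m)) : Matrix (Fin m) (Fin m) ℝ := diagonal fun j => if j ∈ B then 1 else 0

/-- Primal candidate of a set of rows: the solution of `A_B x = b_B` (normal equations). -/
noncomputable def candX (B : Finset (Fin m)) : Fin n → ℝ :=
  (Aᵀ * ind B * A)⁻¹ *ᵥ (Aᵀ *ᵥ (ind B *ᵥ b))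

/-- Dual candidate of a set of rows: the solution of `A_Bᵀ y = c`, zero off `B`. -/
noncomputable def candY (B : Finset (Fin m)) : Fin m → ℝ :=
  ind B *ᵥ (A *ᵥ ((Aᵀ * ind B * A)⁻¹ *ᵥ c))

/-- The optimality test: primal feasibility, dual feasibility, no duality gap. -/
def Passes (B : Finset (Fin m)) : Prop :=
  (∀ j, (A *ᵥ candX A b B) j ≤ b j) ∧ (∀ j, 0 ≤ candY A c B j) ∧ Aᵀ *ᵥ candY A c B = c ∧
    b ⬝ᵥ candY A c B = c ⬝ᵥ candX A b B

open Classical in
/-- The rows with the `n` smallest slacks at `x`. -/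
noncomputable def guess (x : Fin n → ℝ) : Finset (Fin m) :=
  univ.filter fun j => (univ.filter fun i => slack A b x i ≤ slack A b x j).card ≤ n

/-- Iteration `i` stops: the rows with the smallest slacks pass the test, or the safeguard
set `e i` passes the test, or all `n`-sets of rows have been tried. -/
def Stops (e : ℕ → Finset (Fin m)) (i : ℕ) : Prop :=
  Passes A b c (guess A b (iter A b c i).2) ∨ Passes A b c (e i) ∨ i = m.choose n

/-- The first iteration that stops. -/
noncomputable def stopTime (e : ℕ → Finset (Fin m)) : ℕ := sInf {i | Stops A b c e i}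

open Classical in
/-- The output: an optimal point, or `none` for unbounded. -/
noncomputable def output (e : ℕ → Finset (Fin m)) : Option (Fin n → ℝ) :=
  if Passes A b c (guess A b (iter A b c (stopTime A b c e)).2) then
    some (candX A b (guess A b (iter A b c (stopTime A b c e)).2))
  else if Passes A b c (e (stopTime A b c e)) then some (candX A b (e (stopTime A b c e)))
  else none

/-- A correct answer: an optimal feasible point, or `none` when the objective is unbounded. -/
def Correct : Option (Fin n → ℝ) → Prop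
  | some x => (∀ j, (A *ᵥ x) j ≤ b j) ∧
      ∀ x' : Fin n → ℝ, (∀ j, (A *ᵥ x') j ≤ b j) → c ⬝ᵥ x' ≤ c ⬝ᵥ x
  | none => ∀ M : ℝ, ∃ x : Fin n → ℝ, (∀ j, (A *ᵥ x) j ≤ b j) ∧ M < c ⬝ᵥ x

end Pool.Agent.Work.MP_6af739_lc
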