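import Pool.Agent.Work.MP_6af739_lc.Defs
import Pool.Agent.Work.MP_6a50bc_pr.Quad
import Pool.Agent.Work.MP_6a50bc_pr.Ibp
import Pool.Agent.Work.MP_5c5849_an.Walsh
import Pool.Agent.Work.MP_6a50bc_pr.Haar

-- merged part: Pool.Agent.Work.MP_6af739_lc.Base
section
/-! Proof-level definitions. See the write-up `h93_ipm_avg.md`. -/

namespace Pool.Agent.Work.MP_6af739_lc

open Matrix Finset
open Pool.Agent.Work.MP_6a50bc_pr (nrm gv gm Orth)
open Pool.Agent.Work.MP_5c5849_an (sg av)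

section General

variable {ι κ : Type*} [Fintype ι] [Fintype κ]

/-- The 4-norm. -/
noncomputable def n4 (v : ι → ℝ) : ℝ := √(√(∑ j, v j ^ 4))

/-- Orthogonal projection on the range of `M` (zero if `M` is not injective). -/
noncomputable def proj [DecidableEq κ] (M : Matrix ι κ ℝ) : Matrix ι ι ℝ := M * (Mᵀ * M)⁻¹ * Mᵀ

/-- Symmetric idempotent matrices. -/
structure IsProj (P : Matrix ι ι ℝ) : Prop where
  symm : Pᵀ = P
  idem : P * P = P

/-- `M` is injective. -/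
def Inj (M : Matrix ι κ ℝ) : Prop := ∀ z, M *ᵥ z = 0 → z = 0

variable (P : Matrix ι ι ℝ) (v0 v1 ψ : ι → ℝ)

/-- The complementary projection applied to a vector. -/
def co (v : ι → ℝ) : ι → ℝ := v - P *ᵥ v

/-- `a = |P v0|^2`. -/
def aa : ℝ := v0 ⬝ᵥ P *ᵥ v0

/-- `B01`. -/
def b01 : ℝ := v1 ⬝ᵥ P *ᵥ v0

/-- `ν`. -/
def nu : ℝ := co P ψ ⬝ᵥ v0

/-- `β = ν^2 + a |h|^2`. -/
def beta : ℝ := nu P v0 ψ ^ 2 + aa P v0 * (co P ψ ⬝ᵥ co P ψ)

/-- `ρ`. -/
def rho : ℝ :=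
  (b01 P v0 v1 • co P ψ + nu P v0 ψ • co P v1) ⬝ᵥ (b01 P v0 v1 • co P ψ + nu P v0 ψ • co P v1) +
    aa P v0 * ((co P v1 ⬝ᵥ co P v1) * (co P ψ ⬝ᵥ co P ψ) - (co P v1 ⬝ᵥ co P ψ) ^ 2)

/-- `Ξ`. -/
def xi : ι → ℝ :=
  (b01 P v0 v1 * (co P ψ ⬝ᵥ co P ψ) + nu P v0 ψ * (co P v1 ⬝ᵥ co P ψ)) • P *ᵥ v0 +
    beta P v0 ψ • co P v1 +
    (nu P v0 ψ * b01 P v0 v1 - aa P v0 * (co P v1 ⬝ᵥ co P ψ)) • co P ψ

/-- `a0 = ∑ P_kk v0_k^2`. -/
def a0 : ℝ := ∑ k, P k k * v0 k ^ 2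

/-- `Mψ = ∑ (1 - P_kk) ψ_k^2`. -/
def mpsi : ℝ := ∑ k, (1 - P k k) * ψ k ^ 2

/-- `ν0 = ∑ (1 - P_kk) ψ_k v0_k`. -/
def nu0 : ℝ := ∑ k, (1 - P k k) * (ψ k * v0 k)

/-- `Z`, for a bound `Y` on the entries of `ψ`. -/
noncomputable def zz (Y : ℝ) : ℝ := √(nu0 P v0 ψ * min Y √(mpsi P ψ) / mpsi P ψ)

end General

variable {m n : ℕ}

/-- Conjugation by a sign matrix. -/
def flip (D : Fin m → Fin 2) (P : Matrix (Fin m) (Fin m) ℝ) : Matrix (Fin m) (Fin m) ℝ :=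
  diagonal (sg D) * P * diagonal (sg D)

/-- The hypotheses of the sign lemma, with bounds `U, V, Y` on the entries of `v0, v1, ψ`. -/
structure SignHyp (P : Matrix (Fin m) (Fin m) ℝ) (v0 v1 ψ : Fin m → ℝ) (U V Y σ B : ℝ) : Prop where
  hU : ∀ k, |v0 k| ≤ U
  hV : ∀ k, |v1 k| ≤ V
  hY : ∀ k, |ψ k| ≤ Y
  h01 : ∀ k, 0 ≤ ψ k * v0 k
  h11 : ∀ k, 0 ≤ ψ k * v1 k
  hσ : ∀ k, ψ k * v1 k ≤ σ * ψ k ^ 2
  hE : 0 < v0 ⬝ᵥ v1
  ha : 24 * U ^ 2 ≤ a0 P v0
  hUB : U ≤ B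
  haB : v0 ⬝ᵥ v0 ≤ B * a0 P v0
  hn : v0 ⬝ᵥ v0 ≤ B ^ 2 * m
  hβ : v0 ⬝ᵥ v0 * m * V ^ 2 ≤ B ^ 2 * (v0 ⬝ᵥ v1) ^ 2
  hVB : v0 ⬝ᵥ v0 * V ≤ B * (v0 ⬝ᵥ v1)
  hYB : v0 ⬝ᵥ v0 * (σ * Y) ≤ B * (v0 ⬝ᵥ v1)

section Path

variable (A : Matrix (Fin m) (Fin n) ℝ) (b : Fin m → ℝ) (c : Fin n → ℝ)

/-- `ω = 1/s - 1/b`. -/
noncomputable def om (x : Fin n → ℝ) : Fin m → ℝ := fun j => (slack A b x j)⁻¹ - (b j)⁻¹

/-- `x` is strictly feasible. -/
def Inter (x : Fin n → ℝ) : Prop := ∀ j, 0 < slack A b x j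

/-- `x` is the point of the path for the cost `c`. -/
def Sol (x : Fin n → ℝ) : Prop := Inter A b x ∧ Aᵀ *ᵥ om A b x = c

/-- `A` is injective and the path point exists. -/
def Dom : Prop := Inj A ∧ ∃ x, Sol A b c x

open Classical in
/-- The path point. -/
noncomputable def X : Fin n → ℝ := if h : Dom A b c then h.2.choose else 0

/-- `S⁻¹ A`. -/
noncomputable def sc (x : Fin n → ℝ) : Matrix (Fin m) (Fin n) ℝ :=
  diagonal (fun j => (slack A b x j)⁻¹) * A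

/-- `v0 = u / b`. -/
noncomputable def vz (x : Fin n → ℝ) : Fin m → ℝ := fun j => (A *ᵥ x) j / b j

/-- `v1 = u / s`. -/
noncomputable def vo (x : Fin n → ℝ) : Fin m → ℝ := fun j => (A *ᵥ x) j / slack A b x j

/-- The scaled tangent `q = P_W v0`. -/
noncomputable def qv (x : Fin n → ℝ) : Fin m → ℝ := proj (sc A b x) *ᵥ vz A b x

/-- `x` is within Newton decrement `δ` of the path point for `lam • c`. -/
def Near (δ lam : ℝ) (x : Fin n → ℝ) : Prop :=
  Inter A b x ∧ ∃ w, Aᵀ *ᵥ om A b x - lam • c = (sc A b x)ᵀ *ᵥ w ∧ nrm w ≤ δ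

/-- `A` with row `k` replaced by zero. -/
def zr (k : Fin m) : Matrix (Fin m) (Fin n) ℝ := A.updateRow k 0

open Classical in
/-- Good matrices. -/
def Good (θ : ℝ) : Prop :=
  (∀ z, (A *ᵥ z) ⬝ᵥ (A *ᵥ z) ≤ 50 * m * (z ⬝ᵥ z)) ∧
    ∀ z, θ * m ≤ ((univ.filter fun j => nrm z / 50 ≤ (A *ᵥ z) j).card : ℝ)

/-- Normalised right-hand sides. -/
def Box : Prop := ∀ j, 1 ≤ b j ∧ b j ≤ 3

/-- `B` is a nondegenerate vertex basis. -/
def Vtx (B : Finset (Fin m)) : Prop :=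
  (Aᵀ * ind B * A).det ≠ 0 ∧ B.card = n ∧ ∀ j ∉ B, (A *ᵥ candX A b B) j < b j

/-- `B` is a strictly complementary optimal basis. -/
def Strict (B : Finset (Fin m)) : Prop := Vtx A b B ∧ ∀ j ∈ B, 0 < candY A c B j

/-- General position. -/
def GenPos : Prop :=
  Inj A ∧ ∀ B : Finset (Fin m), B.card = n → (Aᵀ * ind B * A).det ≠ 0 →
    (∀ j ∉ B, (A *ᵥ candX A b B) j ≠ b j) ∧ ∀ j ∈ B, candY A c B j ≠ 0

/-- `∑ (1 - P^W_kk) / (s_k (1 + s_k))`. -/
noncomputable def nn (x : Fin n → ℝ) : ℝ :=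
  ∑ k, (1 - proj (sc A b x) k k) / (slack A b x k * (1 + slack A b x k))

end Path

/-- The standing assumptions on the sizes and on the large parameter `P`. -/
structure Par (m n : ℕ) (P : ℝ) : Prop where
  big : 10 ^ 20 ≤ P
  rat : (m : ℝ) ≤ P * n
  pow : P ^ 10 ≤ n
  mn : 10 ^ 6 * n ≤ m
  log : (m : ℝ) ^ 24 ≤ Real.exp P

/-- `α = λ √n / m`. -/
noncomputable def al (m n : ℕ) (lam : ℝ) : ℝ := lam * √n / m

/-- The good event for a pair `(A, x)`. -/
structure GG (P lam : ℝ) (b : Fin m → ℝ) (A : Matrix (Fin m) (Fin n) ℝ) (x : Fin n → ℝ) :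
    Prop where
  good : Good A (45 / 100)
  row : ∀ k, A k ⬝ᵥ A k ≤ 4 * n
  int : Inter A b x
  lo : lam * √n / 2 ≤ nrm (Aᵀ *ᵥ om A b x)
  hi : nrm (Aᵀ *ᵥ om A b x) ≤ 2 * (lam * √n)
  dir : nrm (Aᵀ *ᵥ om A b x) * min (al m n lam) 1 / (4 * P) ≤ (Aᵀ *ᵥ om A b x) ⬝ᵥ x
  u : ∀ k, |(A *ᵥ x) k| ≤ P ^ 2 * min (al m n lam) 1
  w : ∀ k, om A b x k ≤ P ^ 3 * lam / √n

section Hat

variable (b : Fin m → ℝ) (lam : ℝ) (p : ℝ × (Fin m → ℝ)) (G : Matrix (Fin m) (Fin n) ℝ)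

/-- Slacks at `u = r a0`, for `p = (r, a0)`. -/
def hs : Fin m → ℝ := fun j => b j - p.1 * p.2 j

/-- `ω` at `u = r a0`. -/
noncomputable def hw : Fin m → ℝ := fun j => (hs b p j)⁻¹ - (b j)⁻¹

/-- `σ = √(1 + |ω|^2/λ^2)`. -/
noncomputable def hsig : ℝ := √(1 + hw b p ⬝ᵥ hw b p / lam ^ 2)

/-- `θ = 1/(λ^2 σ (σ+1))`. -/
noncomputable def hth : ℝ := 1 / (lam ^ 2 * (hsig b lam p * (hsig b lam p + 1)))

/-- `1 - θ ω ωᵀ`. -/
noncomputable def hB : Matrix (Fin m) (Fin m) ℝ := 1 - hth b lam p • vecMulVec (hw b p) (hw b p)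

/-- The matrix `[a0 | (1 - θ ω ωᵀ) G]`. -/
noncomputable def hA : Fin m → Fin (n + 1) → ℝ :=
  fun j => Fin.cons (p.2 j) ((hB b lam p * G) j)

/-- The point `r e0`. -/
def hx (n : ℕ) (p : ℝ × (Fin m → ℝ)) : Fin (n + 1) → ℝ := Fin.cons p.1 0

/-- `S⁻¹ G`. -/
noncomputable def hG : Matrix (Fin m) (Fin n) ℝ := diagonal (fun j => (hs b p j)⁻¹) * G

/-- `v0`. -/
noncomputable def h0 : Fin m → ℝ := fun j => p.1 * p.2 j / b j

/-- `v1`. -/
noncomputable def h1 : Fin m → ℝ := fun j => p.1 * p.2 j / hs b p j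

/-- `v2`. -/
noncomputable def h2 : Fin m → ℝ := fun j => hw b p j / hs b p j

/-- `ψ = v1/σ + θ E1 v2`. -/
noncomputable def hpsi : Fin m → ℝ :=
  (hsig b lam p)⁻¹ • h1 b p + (hth b lam p * (h0 b p ⬝ᵥ h1 b p)) • h2 b p

/-- The weight `det H`. -/
noncomputable def hdet : ℝ := (hess (Matrix.of (hA b lam p G)) b (hx n p)).det

/-- `p` is admissible. -/
def Adm : Prop := 0 < p.1 ∧ ∀ j, 0 < hs b p j

/-- The Gram matrix of `S⁻¹ G` without row `k`. -/
noncomputable def hXk (k : Fin m) : Matrix (Fin n) (Fin n) ℝ := (zr (hG b p G) k)ᵀ * zr (hG b p G) k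

/-- The bad event for the base cavity at row `k`. -/
def BadK (P : ℝ) (k : Fin m) : Prop :=
  (hXk b p G k).det ≠ 0 ∧ P ^ 2 * (hXk b p G k)⁻¹.trace < G k ⬝ᵥ (hXk b p G k)⁻¹ *ᵥ G k

/-- The sign-invariant good event. -/
def EInv (P : ℝ) : Prop :=
  SignHyp (proj (hG b p G)) (h0 b p) (h1 b p) (hpsi b lam p) (P ^ 2 * min (al m (n + 1) lam) 1)
    (P ^ 5 * al m (n + 1) lam) (P ^ 12 * al m (n + 1) lam) (hsig b lam p) (P ^ 21)

/-- `Z` in the coordinates `(p, G)`. -/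
noncomputable def hZ (P : ℝ) : ℝ :=
  zz (proj (hG b p G)) (h0 b p) (hpsi b lam p) (P ^ 12 * al m (n + 1) lam)

end Hat

end Pool.Agent.Work.MP_6af739_lc
end

-- merged part: Pool.Agent.Work.MP_6af739_lc.Proj
section
/-! Projection matrices and the 4-norm. -/

namespace Pool.Agent.Work.MP_6af739_lc

open Matrix Finset MeasureTheory ProbabilityTheory
open Pool.Agent.Work.MP_6a50bc_pr
open Pool.Agent.Work.MP_5c5849_an (sg av)
open scoped ENNReal

variable {ι κ : Type*} [Fintype ι] [Fintype κ]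

section IsProj

variable {P : Matrix ι ι ℝ}

lemma IsProj.dot_symm (h : IsProj P) (v w : ι → ℝ) : v ⬝ᵥ P *ᵥ w = P *ᵥ v ⬝ᵥ w := by
  rw [dotProduct_mulVec, ← mulVec_transpose, h.symm]

lemma IsProj.mulVec_idem (h : IsProj P) (v : ι → ℝ) : P *ᵥ (P *ᵥ v) = P *ᵥ v := by
  rw [mulVec_mulVec, h.idem]

lemma IsProj.dot_eq (h : IsProj P) (v w : ι → ℝ) : v ⬝ᵥ P *ᵥ w = P *ᵥ v ⬝ᵥ P *ᵥ w := by
  rw [← h.dot_symm, h.mulVec_idem]

lemma IsProj.apply_symm (h : IsProj P) (j k : ι) : P j k = P k j := by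
  conv_lhs => rw [← h.symm]
  rfl

lemma IsProj.one_sub [DecidableEq ι] (h : IsProj P) : IsProj (1 - P) :=
  ⟨by rw [transpose_sub, transpose_one, h.symm], by
    rw [Matrix.sub_mul, Matrix.mul_sub, Matrix.mul_sub, h.idem]; simp⟩

lemma IsProj.diag_eq (h : IsProj P) (k : ι) : P k k = ∑ j, P k j ^ 2 := by
  conv_lhs => rw [← h.idem, mul_apply]
  exact sum_congr rfl fun j _ => by rw [h.apply_symm j k, sq]

lemma IsProj.diag_nonneg (h : IsProj P) (k : ι) : 0 ≤ P k k := by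
  rw [h.diag_eq]; positivity

lemma IsProj.diag_le_one (h : IsProj P) (k : ι) : P k k ≤ 1 := by
  classical
  have := h.one_sub.diag_nonneg k
  simpa using this

lemma co_eq [DecidableEq ι] (P : Matrix ι ι ℝ) (v : ι → ℝ) : co P v = (1 - P) *ᵥ v := by
  rw [co, sub_mulVec, one_mulVec]

lemma IsProj.mulVec_co (h : IsProj P) (v : ι → ℝ) : P *ᵥ co P v = 0 := by
  rw [co, mulVec_sub, h.mulVec_idem, sub_self]

lemma IsProj.dot_co (h : IsProj P) (v w : ι → ℝ) : P *ᵥ v ⬝ᵥ co P w = 0 := by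
  rw [← h.dot_symm, h.mulVec_co, dotProduct_zero]

lemma IsProj.co_dot_co (h : IsProj P) (v w : ι → ℝ) : co P v ⬝ᵥ co P w = v ⬝ᵥ co P w := by
  conv_lhs => rw [co, sub_dotProduct, h.dot_co, sub_zero]

lemma IsProj.pyth (h : IsProj P) (v : ι → ℝ) :
    v ⬝ᵥ v = P *ᵥ v ⬝ᵥ P *ᵥ v + co P v ⬝ᵥ co P v := by
  rw [h.co_dot_co, ← h.dot_eq, co, dotProduct_sub]; ring

lemma IsProj.dot_self_le (h : IsProj P) (v : ι → ℝ) : P *ᵥ v ⬝ᵥ P *ᵥ v ≤ v ⬝ᵥ v := by
  have := h.pyth v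
  linarith [dot_self_nonneg (co P v)]

lemma IsProj.co_dot_self_le (h : IsProj P) (v : ι → ℝ) : co P v ⬝ᵥ co P v ≤ v ⬝ᵥ v := by
  have := h.pyth v
  linarith [dot_self_nonneg (P *ᵥ v)]

lemma IsProj.nrm_le (h : IsProj P) (v : ι → ℝ) : nrm (P *ᵥ v) ≤ nrm v :=
  Real.sqrt_le_sqrt (h.dot_self_le v)

lemma IsProj.eq_zero_of_trace (h : IsProj P) (ht : P.trace = 0) : P = 0 := by
  have h1 : ∀ k, P k k = 0 := fun k =>
    (sum_eq_zero_iff_of_nonneg fun j _ => h.diag_nonneg j).1 ht k (mem_univ k)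
  ext k j
  have h2 := h1 k
  rw [h.diag_eq] at h2
  exact pow_eq_zero_iff two_ne_zero |>.1
    ((sum_eq_zero_iff_of_nonneg fun j _ => sq_nonneg (P k j)).1 h2 j (mem_univ j))

end IsProj

variable [DecidableEq κ] {M : Matrix ι κ ℝ}

lemma dot_gram (M : Matrix ι κ ℝ) (z w : κ → ℝ) :
    z ⬝ᵥ (Mᵀ * M) *ᵥ w = M *ᵥ z ⬝ᵥ M *ᵥ w := by
  rw [← mulVec_mulVec, dotProduct_mulVec, vecMul_transpose]

lemma Inj.det_ne_zero (h : Inj M) : (Mᵀ * M).det ≠ 0 := by
  intro h0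
  obtain ⟨z, hz, h1⟩ := exists_mulVec_eq_zero_iff.2 h0
  refine hz (h z ?_)
  have h2 := dot_gram M z z
  rw [h1, dotProduct_zero] at h2
  exact dotProduct_self_eq_zero.1 h2.symm

lemma inj_of_det (h : (Mᵀ * M).det ≠ 0) : Inj M := fun z hz => by
  by_contra h0
  exact h (exists_mulVec_eq_zero_iff.1 ⟨z, h0, by rw [← mulVec_mulVec, hz, mulVec_zero]⟩)

lemma gram_posSemidef' (M : Matrix ι κ ℝ) : (Mᵀ * M).PosSemidef := by
  simpa using posSemidef_conjTranspose_mul_self M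

lemma gram_det_nonneg (M : Matrix ι κ ℝ) : 0 ≤ (Mᵀ * M).det := (gram_posSemidef' M).det_nonneg

lemma gram_inv_transpose (M : Matrix ι κ ℝ) : ((Mᵀ * M)⁻¹)ᵀ = (Mᵀ * M)⁻¹ := by
  rw [transpose_nonsing_inv, transpose_mul, transpose_transpose]

lemma proj_mul (h : (Mᵀ * M).det ≠ 0) : proj M * M = M := by
  rw [proj, Matrix.mul_assoc, Matrix.mul_assoc, nonsing_inv_mul _ h.isUnit, Matrix.mul_one]

lemma transpose_mul_proj (h : (Mᵀ * M).det ≠ 0) : Mᵀ * proj M = Mᵀ := by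
  rw [proj, ← Matrix.mul_assoc, ← Matrix.mul_assoc, mul_nonsing_inv _ h.isUnit, Matrix.one_mul]

lemma isProj_proj (M : Matrix ι κ ℝ) : IsProj (proj M) := by
  refine ⟨by rw [proj, transpose_mul, transpose_mul, transpose_transpose, gram_inv_transpose,
    Matrix.mul_assoc], ?_⟩
  by_cases h : (Mᵀ * M).det = 0
  · simp [proj, nonsing_inv_apply_not_isUnit _ (by simp [h] : ¬IsUnit (Mᵀ * M).det)]
  · conv_lhs => enter [2]; rw [proj]
    rw [← Matrix.mul_assoc, ← Matrix.mul_assoc, proj_mul h, proj]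

lemma proj_mulVec (h : (Mᵀ * M).det ≠ 0) (z : κ → ℝ) : proj M *ᵥ (M *ᵥ z) = M *ᵥ z := by
  rw [mulVec_mulVec, proj_mul h]

lemma transpose_mulVec_proj (h : (Mᵀ * M).det ≠ 0) (w : ι → ℝ) :
    Mᵀ *ᵥ (proj M *ᵥ w) = Mᵀ *ᵥ w := by
  rw [mulVec_mulVec, transpose_mul_proj h]

lemma proj_mulVec_eq (M : Matrix ι κ ℝ) (w : ι → ℝ) :
    proj M *ᵥ w = M *ᵥ ((Mᵀ * M)⁻¹ *ᵥ (Mᵀ *ᵥ w)) := by
  rw [proj, mulVec_mulVec, mulVec_mulVec]

lemma trace_proj (h : (Mᵀ * M).det ≠ 0) : (proj M).trace = Fintype.card κ := by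
  rw [proj, Matrix.mul_assoc, trace_mul_comm, Matrix.mul_assoc, nonsing_inv_mul _ h.isUnit,
    trace_one]

section N4

variable (v w : ι → ℝ)

lemma n4_nonneg : 0 ≤ n4 v := Real.sqrt_nonneg _

lemma sum_four_nonneg : 0 ≤ ∑ j, v j ^ 4 := sum_nonneg fun j _ => by positivity

lemma n4_sq : n4 v ^ 2 = √(∑ j, v j ^ 4) := Real.sq_sqrt (Real.sqrt_nonneg _)

lemma n4_pow : n4 v ^ 4 = ∑ j, v j ^ 4 := by
  rw [show n4 v ^ 4 = (n4 v ^ 2) ^ 2 by ring, n4_sq, Real.sq_sqrt (sum_four_nonneg v)]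

lemma n4_le_iff {v : ι → ℝ} {t : ℝ} (ht : 0 ≤ t) : n4 v ≤ t ↔ ∑ j, v j ^ 4 ≤ t ^ 4 := by
  rw [← n4_pow, pow_le_pow_iff_left₀ (n4_nonneg v) ht (by norm_num)]

lemma n4_sq_eq_nrm : n4 v ^ 2 = nrm fun j => v j ^ 2 := by
  rw [n4_sq, nrm]
  congr 1
  exact sum_congr rfl fun j _ => by ring

lemma n4_mono {v w : ι → ℝ} (h : ∀ j, |v j| ≤ |w j|) : n4 v ≤ n4 w := by
  rw [n4_le_iff (n4_nonneg w), n4_pow]
  refine sum_le_sum fun j _ => ?_
  have := pow_le_pow_left₀ (abs_nonneg _) (h j) 4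
  rwa [← abs_pow, ← abs_pow, abs_of_nonneg (by positivity), abs_of_nonneg (by positivity)] at this

lemma abs_le_n4 (j : ι) : |v j| ≤ n4 v := by
  refine le_of_pow_le_pow_left₀ (by norm_num : 4 ≠ 0) (n4_nonneg v) ?_
  rw [n4_pow, ← abs_pow, abs_of_nonneg (by positivity)]
  exact single_le_sum (f := fun j => v j ^ 4) (fun j _ => by positivity) (mem_univ j)

lemma n4_le_nrm : n4 v ≤ nrm v := by
  rw [n4_le_iff (nrm_nonneg v), show nrm v ^ 4 = nrm v ^ 2 * nrm v ^ 2 by ring]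
  conv_rhs => enter [2]; rw [nrm_sq, dotProduct]
  rw [mul_sum]
  refine sum_le_sum fun j _ => ?_
  have h1 : v j ^ 2 ≤ nrm v ^ 2 := sq_le_sq' (abs_le.1 (abs_le_nrm v j)).1 (abs_le.1 (abs_le_nrm v j)).2
  linarith only [h1, sq_nonneg (v j), mul_nonneg_of_nonpos_of_nonpos (Mathlib.Tactic.Linarith.sub_nonpos_of_le (mul_self_nonneg (v j))) (Mathlib.Tactic.Linarith.sub_nonpos_of_le h1)]

lemma nrm_mul_le_n4 : (nrm fun j => v j * w j) ≤ n4 v * n4 w := by
  rw [nrm_le_iff (mul_nonneg (n4_nonneg v) (n4_nonneg w)), mul_pow, n4_sq_eq_nrm, n4_sq_eq_nrm]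
  refine le_trans (le_of_eq ?_) (dot_le (fun j => v j ^ 2) fun j => w j ^ 2)
  exact sum_congr rfl fun j _ => by ring

lemma n4_smul (t : ℝ) : n4 (t • v) = |t| * n4 v := by
  refine (pow_left_inj₀ (n4_nonneg _) (mul_nonneg (abs_nonneg t) (n4_nonneg v))
    (by norm_num : 4 ≠ 0)).1 ?_
  rw [mul_pow, n4_pow, n4_pow, ← abs_pow, abs_of_nonneg (by positivity), mul_sum]
  exact sum_congr rfl fun j _ => by simp [mul_pow]

lemma n4_add_le : n4 (v + w) ≤ n4 v + n4 w := by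
  have h0 := add_nonneg (n4_nonneg v) (n4_nonneg w)
  refine le_of_pow_le_pow_left₀ two_ne_zero h0 ?_
  rw [n4_sq_eq_nrm]
  have h1 : (fun j => (v + w) j ^ 2) =
      ((fun j => v j ^ 2) + (2 : ℝ) • fun j => v j * w j) + fun j => w j ^ 2 := by
    funext j; simp; ring
  rw [h1]
  refine (nrm_add_le _ _).trans ?_
  have h2 := nrm_add_le (fun j => v j ^ 2) ((2 : ℝ) • fun j => v j * w j)
  rw [nrm_smul, abs_two] at h2
  have h3 := nrm_mul_le_n4 v w
  rw [← n4_sq_eq_nrm] at h2 ⊢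
  linarith only [h2, h3]

lemma continuous_n4 : Continuous fun v : ι → ℝ => n4 v := by unfold n4; fun_prop

end N4

variable {m n : ℕ} (A : Matrix (Fin m) (Fin n) ℝ) (b : Fin m → ℝ)

lemma hess_eq (x : Fin n → ℝ) : hess A b x = (sc A b x)ᵀ * sc A b x := by
  rw [hess, sc, transpose_mul, diagonal_transpose, Matrix.mul_assoc, Matrix.mul_assoc,
    ← Matrix.mul_assoc (diagonal _) (diagonal _), diagonal_mul_diagonal]
  simp only [sq]

lemma sc_mulVec (x z : Fin n → ℝ) (j : Fin m) :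
    (sc A b x *ᵥ z) j = (A *ᵥ z) j / slack A b x j := by
  rw [sc, ← mulVec_mulVec, mulVec_diagonal, div_eq_inv_mul]

lemma sc_transpose_mulVec (x : Fin n → ℝ) (w : Fin m → ℝ) :
    (sc A b x)ᵀ *ᵥ w = Aᵀ *ᵥ fun j => w j / slack A b x j := by
  rw [sc, transpose_mul, diagonal_transpose, ← mulVec_mulVec]
  congr 1
  funext j
  rw [mulVec_diagonal, div_eq_inv_mul]

lemma slack_apply (x : Fin n → ℝ) (j : Fin m) : slack A b x j = b j - (A *ᵥ x) j := rfl

variable {A b}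

lemma Inj.sc {x : Fin n → ℝ} (hA : Inj A) (hx : Inter A b x) : Inj (sc A b x) := fun z hz => by
  refine hA z (funext fun j => ?_)
  have := congrFun hz j
  rw [sc_mulVec] at this
  exact (div_eq_zero_iff.1 this).resolve_right (hx j).ne'

lemma Inj.hess_det {x : Fin n → ℝ} (hA : Inj A) (hx : Inter A b x) : (hess A b x).det ≠ 0 := by
  rw [hess_eq]; exact (hA.sc hx).det_ne_zero

lemma grad_sub (x : Fin n → ℝ) : grad A b x - grad A b 0 = Aᵀ *ᵥ om A b x := by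
  rw [grad, grad, ← mulVec_sub]
  congr 1
  funext j
  simp [om, slack]

end Pool.Agent.Work.MP_6af739_lc
end

-- merged part: Pool.Agent.Work.MP_6af739_lc.Base2
section
/-! More proof-level definitions. -/

namespace Pool.Agent.Work.MP_6af739_lc

open Matrix Finset MeasureTheory ProbabilityTheory
open Pool.Agent.Work.MP_6a50bc_pr
open Pool.Agent.Work.MP_5c5849_an (sg av)
open scoped ENNReal

variable {m n : ℕ}

/-- Right multiplication by a matrix, on plain functions. -/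
def rot (O : Matrix (Fin n) (Fin n) ℝ) (a : Fin m → Fin n → ℝ) : Fin m → Fin n → ℝ :=
  fun j i => (Matrix.of a * O) j i

lemma of_rot (O : Matrix (Fin n) (Fin n) ℝ) (a : Fin m → Fin n → ℝ) :
    Matrix.of (rot O a) = Matrix.of a * O := rfl

/-- Invariance under the orthogonal group. -/
def Invar (F : (Fin m → Fin n → ℝ) × (Fin n → ℝ) → ℝ≥0∞) : Prop :=
  ∀ O : Matrix (Fin n) (Fin n) ℝ, Orth O → ∀ a x, F (rot O a, Oᵀ *ᵥ x) = F (a, x)

/-- The matrix `[v1/r | Gt - θ v2 v0ᵀ Gt]`. -/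
noncomputable def mM (r θ : ℝ) (Gt : Matrix (Fin m) (Fin n) ℝ) (v0 v1 v2 : Fin m → ℝ) :
    Matrix (Fin m) (Fin (n + 1)) ℝ :=
  Matrix.of fun j => Fin.cons (v1 j / r) ((Gt - θ • vecMulVec v2 (v0 ᵥ* Gt)) j)

/-- The standard Gaussian density. -/
noncomputable def dens {κ : Type*} [Fintype κ] (c : κ → ℝ) : ℝ := ∏ i, gaussianPDFReal 0 1 (c i)

/-- `(c · x / |c|) * nn` with `c = Aᵀ ω`. -/
noncomputable def phi1 (A : Matrix (Fin m) (Fin n) ℝ) (b : Fin m → ℝ) (x : Fin n → ℝ) : ℝ :=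
  (Aᵀ *ᵥ om A b x) ⬝ᵥ x / nrm (Aᵀ *ᵥ om A b x) * nn A b x

end Pool.Agent.Work.MP_6af739_lc
end

-- merged part: Pool.Agent.Work.MP_6af739_lc.Base3
section
/-! Definitions for the final assembly. -/

namespace Pool.Agent.Work.MP_6af739_lc

open Matrix Finset MeasureTheory ProbabilityTheory
open Pool.Agent.Work.MP_6a50bc_pr
open Pool.Agent.Work.MP_5c5849_an (sg av)
open scoped ENNReal

variable {m n : ℕ}

/-- Integral against the measure of the master formula. -/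
noncomputable def II (b : Fin m → ℝ) (lam : ℝ) (ν : Measure (ℝ × (Fin m → ℝ)))
    (Φ : (ℝ × (Fin m → ℝ)) × (Fin m → Fin n → ℝ) → ℝ≥0∞) : ℝ≥0∞ :=
  ∫⁻ p, ∫⁻ a, Φ (p, a) * ENNReal.ofReal (hdet b lam p (Matrix.of a)) ∂(gm (Fin m) (Fin n)) ∂ν

/-- The conclusion of the master formula. -/
def MasterP (n : ℕ) (b : Fin m → ℝ) (lam : ℝ) (ν : Measure (ℝ × (Fin m → ℝ))) : Prop :=
  (∀ᵐ p ∂ν, Adm b p) ∧
    ∀ F : (Fin m → Fin (n + 1) → ℝ) × (Fin (n + 1) → ℝ) → ℝ≥0∞, Measurable F → Invar F →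
      ∫⁻ q, {q : (Fin m → Fin (n + 1) → ℝ) × (Fin (n + 1) → ℝ) |
          Dom (Matrix.of q.1) b (lam • q.2)}.indicator
            (fun q => F (q.1, X (Matrix.of q.1) b (lam • q.2))) q
          ∂((gm (Fin m) (Fin (n + 1))).prod (gv (Fin (n + 1)))) =
        ∫⁻ p, ∫⁻ a, F (hA b lam p (Matrix.of a), hx n p) *
          ENNReal.ofReal (hdet b lam p (Matrix.of a)) ∂(gm (Fin m) (Fin n)) ∂ν

/-- The set of `(p, G)` with the good event. -/
def GGs (n : ℕ) (P lam : ℝ) (b : Fin m → ℝ) : Set ((ℝ × (Fin m → ℝ)) × (Fin m → Fin n → ℝ)) :=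
  {z | GG P lam b (Matrix.of (hA b lam z.1 (Matrix.of z.2))) (hx n z.1)}

/-- The path integral over the main range of the parameter. -/
noncomputable def JJ (A : Matrix (Fin m) (Fin n) ℝ) (b : Fin m → ℝ) (c : Fin n → ℝ) : ℝ≥0∞ :=
  ∫⁻ t in Set.Ioc (Real.log (1 / 10 ^ 8)) (20 * Real.log m),
    ENNReal.ofReal (1 + 4 * n4 (qv A b (X A b (Real.exp t • c))))

/-- The optimal basis has a primal slack or a dual value at most `t`. -/
def BadT (A : Matrix (Fin m) (Fin n) ℝ) (b : Fin m → ℝ) (c : Fin n → ℝ) (t : ℝ) : Prop :=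
  Good A (45 / 100) ∧ ∃ B, Strict A b c B ∧
    ((∃ j ∉ B, slack A b (candX A b B) j ≤ t) ∨ ∃ j ∈ B, candY A c B j ≤ t)

/-- The thresholds. -/
noncomputable def tt (m i : ℕ) : ℝ := 2000 * Real.exp (-(i : ℝ) / 2) / (m : ℝ) ^ 9

/-- The number of bad thresholds. -/
noncomputable def NB (b : Fin m → ℝ) (c : Fin n → ℝ) (a : Fin m → Fin n → ℝ) : ℝ≥0∞ :=
  ∑' i : ℕ, {a : Fin m → Fin n → ℝ | BadT (Matrix.of a) b c (tt m i)}.indicator 1 a

end Pool.Agent.Work.MP_6af739_lc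
end

-- merged part: Pool.Agent.Work.MP_6af739_lc.Path1
section
/-!
Elementary facts on path points. u = A x, s = b - u, om = 1/s - 1/b = u/(s b).

sol_mono: (c1 - c2)·(x1 - x2) = (om1 - om2)·(u1 - u2) = sum (u1-u2)^2/(s1 s2) ≥ 0; equality
forces u1 = u2. sol_dot: c·x = om·u. sol_convex: coordinatewise log t ≤ t - 1 gives
ψ(u0) ≥ ψ(u) + om (u0 - u) for ψ(u) = -log (1 - u/b) - u/b ≥ 0, and ψ(u0) ≤ (u0/b)^2 ≤ u0^2 when
u0/b ≤ 1/2 (for t ≤ 1/2: -log (1-t) ≤ t + t^2); sum over j.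
inv_slack_le: if s_k < 1/2 then u_k > 1/2 and u_k^2/(s_k b_k) ≥ 1/(12 s_k), all terms of
sol_dot are nonnegative and c·x ≤ nrm c * R.
Leave-one-out: zeroing row k gives slack b k, om 0 in row k. sol_zr is a computation. For abs_le_loo
apply sol_mono to x' and x for the matrix zr A k: om_k (u'_k - u_k) ≥ 0 where u'_k = A k · x',
and om_k = u_k/(s_k b_k), so u_k^2 ≤ u_k u'_k. For pos_of_lt_om: (om_k - w)(A k · x' - u_k) ≥ 0,
and om_k > 0 gives u_k > 0.
-/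

namespace Pool.Agent.Work.MP_6af739_lc

open Matrix Finset MeasureTheory ProbabilityTheory
open Pool.Agent.Work.MP_6a50bc_pr
open Pool.Agent.Work.MP_5c5849_an (sg av)
open scoped ENNReal

variable {m n : ℕ} {A : Matrix (Fin m) (Fin n) ℝ} {b : Fin m → ℝ} {c : Fin n → ℝ}

theorem om_eq (hb : ∀ j, 0 < b j) {x : Fin n → ℝ} (hx : Inter A b x) (j : Fin m) :
    om A b x j = (A *ᵥ x) j / (slack A b x j * b j) := by
  have h1 := (hx j).ne'
  have h2 := (hb j).ne'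
  have h3 : (A *ᵥ x) j = b j - slack A b x j := by rw [slack_apply]; ring
  rw [om, h3]
  field_simp

lemma p1_tdot (A : Matrix (Fin m) (Fin n) ℝ) (w : Fin m → ℝ) (z : Fin n → ℝ) :
    (Aᵀ *ᵥ w) ⬝ᵥ z = w ⬝ᵥ (A *ᵥ z) := by
  rw [dotProduct_mulVec, mulVec_transpose]

lemma p1_sub_dot {c₁ c₂ x₁ x₂ : Fin n → ℝ} (h₁ : Sol A b c₁ x₁) (h₂ : Sol A b c₂ x₂) :
    (c₁ - c₂) ⬝ᵥ (x₁ - x₂) =
      ∑ j, ((A *ᵥ x₁) j - (A *ᵥ x₂) j) ^ 2 / (slack A b x₁ j * slack A b x₂ j) := by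
  rw [← h₁.2, ← h₂.2, ← mulVec_sub, p1_tdot, mulVec_sub, dotProduct]
  refine sum_congr rfl fun j _ => ?_
  have e1 := (h₁.1 j).ne'
  have e2 := (h₂.1 j).ne'
  have h3 : (A *ᵥ x₁) j - (A *ᵥ x₂) j = slack A b x₂ j - slack A b x₁ j := by
    rw [slack_apply, slack_apply]; ring
  simp only [Pi.sub_apply, om]
  rw [h3]
  field_simp
  ring

theorem sol_mono {c₁ c₂ x₁ x₂ : Fin n → ℝ} (h₁ : Sol A b c₁ x₁) (h₂ : Sol A b c₂ x₂) :
    0 ≤ (c₁ - c₂) ⬝ᵥ (x₁ - x₂) := by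
  rw [p1_sub_dot h₁ h₂]
  exact sum_nonneg fun j _ => div_nonneg (sq_nonneg _) (mul_pos (h₁.1 j) (h₂.1 j)).le

theorem sol_unique (hA : Inj A) {x y : Fin n → ℝ} (hx : Sol A b c x) (hy : Sol A b c y) :
    x = y := by
  have h := p1_sub_dot hx hy
  rw [sub_self, zero_dotProduct] at h
  have h0 := (sum_eq_zero_iff_of_nonneg fun j _ =>
    div_nonneg (sq_nonneg _) (mul_pos (hx.1 j) (hy.1 j)).le).1 h.symm
  refine sub_eq_zero.1 (hA _ (funext fun j => ?_))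
  have h1 := (div_eq_zero_iff.1 (h0 j (mem_univ j))).resolve_right
    (mul_pos (hx.1 j) (hy.1 j)).ne'
  rw [mulVec_sub]
  exact pow_eq_zero_iff two_ne_zero |>.1 h1

theorem X_sol (h : Dom A b c) : Sol A b c (X A b c) := by
  rw [X, dif_pos h]
  exact h.2.choose_spec

theorem X_eq (hA : Inj A) {x : Fin n → ℝ} (hx : Sol A b c x) : X A b c = x := by
  exact sol_unique hA (X_sol ⟨hA, x, hx⟩) hx

theorem sol_dot (hb : ∀ j, 0 < b j) {x : Fin n → ℝ} (hx : Sol A b c x) :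
    c ⬝ᵥ x = ∑ j, (A *ᵥ x) j ^ 2 / (slack A b x j * b j) := by
  conv_lhs => rw [← hx.2]
  rw [p1_tdot, dotProduct]
  refine sum_congr rfl fun j _ => ?_
  rw [om_eq hb hx.1]
  ring

theorem sol_dot_nonneg (hb : ∀ j, 0 < b j) {x : Fin n → ℝ} (hx : Sol A b c x) : 0 ≤ c ⬝ᵥ x := by
  rw [sol_dot hb hx]
  exact sum_nonneg fun j _ => div_nonneg (sq_nonneg _) (mul_pos (hx.1 j) (hb j)).le

/-- The coordinatewise inequality, without logarithms. -/
lemma p1_coord {β s u v : ℝ} (hβ : 1 ≤ β) (hs : 0 < s) (e : s = β - u) (hv : v ≤ 1 / 2) :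
    u / (s * β) * v - v * v ≤ u / (s * β) * u := by
  have hβ0 : 0 < β := lt_of_lt_of_le one_pos hβ
  have hp : 0 < s * β := mul_pos hs hβ0
  have key : u * v - v * v * (s * β) ≤ u * u := by
    by_cases hu : u ≤ 1 / 2
    · have h1 : 1 / 2 ≤ s * β := by linarith only [hβ, e, hu, hs, mul_nonneg_of_nonpos_of_nonpos (Mathlib.Tactic.Linarith.sub_nonpos_of_le hβ) (le_of_lt (Mathlib.Tactic.Linarith.sub_neg_of_lt hs))]
      linarith only [h1, sq_nonneg (u - v / 2), sq_nonneg v, mul_nonneg (sub_nonneg.2 h1) (sq_nonneg v), mul_self_nonneg v, sq_nonneg ((2 : ℝ) * u - (1 : ℝ) * v), sq_nonneg v]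
    · have hu' : 1 / 2 < u := not_le.1 hu
      linarith only [hv, hu, hp, mul_nonneg hp.le (sq_nonneg v), sq_nonneg v, mul_nonneg_of_nonpos_of_nonpos (Mathlib.Tactic.Linarith.sub_nonpos_of_le hv) (le_of_lt (Mathlib.Tactic.Linarith.sub_neg_of_lt (lt_of_not_ge hu))), mul_pos_of_neg_of_neg (Mathlib.Tactic.Linarith.sub_neg_of_lt (lt_of_not_ge hu)) (Mathlib.Tactic.Linarith.sub_neg_of_lt (lt_of_not_ge hu))]
  have h2 : u / (s * β) * u - (u / (s * β) * v - v * v) =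
      (u * u - (u * v - v * v * (s * β))) / (s * β) := by
    field_simp
  have h3 : 0 ≤ (u * u - (u * v - v * v * (s * β))) / (s * β) :=
    div_nonneg (sub_nonneg.2 key) hp.le
  linarith only [h2, h3]

theorem sol_convex (hb : ∀ j, 1 ≤ b j) {x x₀ : Fin n → ℝ} (hx : Sol A b c x)
    (h₀ : ∀ j, (A *ᵥ x₀) j ≤ 1 / 2) : c ⬝ᵥ x₀ - (A *ᵥ x₀) ⬝ᵥ (A *ᵥ x₀) ≤ c ⬝ᵥ x := by
  have hb' : ∀ j, 0 < b j := fun j => lt_of_lt_of_le one_pos (hb j)
  rw [← hx.2, p1_tdot, p1_tdot, dotProduct, dotProduct, dotProduct, ← sum_sub_distrib]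
  refine sum_le_sum fun j _ => ?_
  rw [om_eq hb' hx.1]
  exact p1_coord (hb j) (hx.1 j) (slack_apply A b x j) (h₀ j)

theorem inv_slack_le (hb : Box b) {x : Fin n → ℝ} (hx : Sol A b c x) {R : ℝ} (hR : nrm x ≤ R)
    (k : Fin m) : (slack A b x k)⁻¹ ≤ 2 + 12 * (nrm c * R) := by
  have hb' : ∀ j, 0 < b j := fun j => lt_of_lt_of_le one_pos (hb j).1
  have h1 : c ⬝ᵥ x ≤ nrm c * R :=
    (dot_le c x).trans (mul_le_mul_of_nonneg_left hR (nrm_nonneg c))
  have h0 := sol_dot_nonneg hb' hx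
  have hs := hx.1 k
  by_cases h : 1 / 2 ≤ slack A b x k
  · have : (slack A b x k)⁻¹ ≤ 2 := by
      rw [inv_le_comm₀ hs two_pos]
      linarith only [h]
    linarith only [h1, h0, this]
  · have h' : slack A b x k < 1 / 2 := not_le.1 h
    have h2 : (A *ᵥ x) k ^ 2 / (slack A b x k * b k) ≤ c ⬝ᵥ x := by
      rw [sol_dot hb' hx]
      exact single_le_sum (f := fun j => (A *ᵥ x) j ^ 2 / (slack A b x j * b j))
        (fun j _ => div_nonneg (sq_nonneg _) (mul_pos (hx.1 j) (hb' j)).le) (mem_univ k)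
    have hu : 1 / 2 < (A *ᵥ x) k := by
      have := slack_apply A b x k
      linarith only [h, this, hb, (hb k).1]
    have h3 : (slack A b x k)⁻¹ ≤ 12 * ((A *ᵥ x) k ^ 2 / (slack A b x k * b k)) := by
      rw [← mul_div_assoc, le_div_iff₀ (mul_pos hs (hb' k)), ← mul_assoc, inv_mul_cancel₀ hs.ne']
      (refine le_of_not_gt fun h_nl => ?_; linarith only [h_nl, hb, hs, hu, h, (hb k).2, mul_pos_of_neg_of_neg (Mathlib.Tactic.Linarith.sub_neg_of_lt hs) (Mathlib.Tactic.Linarith.sub_neg_of_lt hu), mul_pos_of_neg_of_neg (Mathlib.Tactic.Linarith.sub_neg_of_lt hs) (Mathlib.Tactic.Linarith.sub_neg_of_lt h_nl), mul_pos_of_neg_of_neg (Mathlib.Tactic.Linarith.sub_neg_of_lt (lt_of_not_ge h)) (Mathlib.Tactic.Linarith.sub_neg_of_lt hu), mul_pos_of_neg_of_neg (Mathlib.Tactic.Linarith.sub_neg_of_lt (lt_of_not_ge h)) (Mathlib.Tactic.Linarith.sub_neg_of_lt h_nl), mul_pos_of_neg_of_neg (Mathlib.Tactic.Linarith.sub_neg_of_lt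 hu) (Mathlib.Tactic.Linarith.sub_neg_of_lt hu)])
    linarith only [h1, hs, h, h2, h3]

lemma p1_zr_self (k : Fin m) (x : Fin n → ℝ) : (zr A k *ᵥ x) k = 0 := by
  simp [zr, mulVec]

lemma p1_zr_ne {j k : Fin m} (h : j ≠ k) (x : Fin n → ℝ) : (zr A k *ᵥ x) j = (A *ᵥ x) j := by
  simp [zr, mulVec, updateRow_ne h]

theorem inter_zr (hb : ∀ j, 0 < b j) {x : Fin n → ℝ} (hx : Inter A b x) (k : Fin m) :
    Inter (zr A k) b x := by
  intro j
  by_cases h : j = k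
  · rw [h, slack_apply, p1_zr_self, sub_zero]
    exact hb k
  · rw [slack_apply, p1_zr_ne h]
    exact hx j

theorem Inj.of_zr {k : Fin m} (h : Inj (zr A k)) : Inj A := by
  intro z hz
  refine h z (funext fun j => ?_)
  by_cases e : j = k
  · rw [e, p1_zr_self]; rfl
  · rw [p1_zr_ne e, hz]

theorem sol_zr (hb : ∀ j, 0 < b j) {x : Fin n → ℝ} (hx : Sol A b c x) (k : Fin m) :
    Sol (zr A k) b (c - om A b x k • A k) x := by
  refine ⟨inter_zr hb hx.1 k, ?_⟩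
  rw [← hx.2]
  funext i
  simp only [mulVec, dotProduct, transpose_apply, Pi.sub_apply, Pi.smul_apply, smul_eq_mul]
  rw [← add_sum_erase _ _ (mem_univ k), ← add_sum_erase _ _ (mem_univ k)]
  have e1 : zr A k k i = 0 := by simp [zr]
  have e2 : ∑ j ∈ univ.erase k, zr A k j i * om (zr A k) b x j =
      ∑ j ∈ univ.erase k, A j i * om A b x j := by
    refine sum_congr rfl fun j hj => ?_
    have hj' := ne_of_mem_erase hj
    have e3 : zr A k j i = A j i := by simp [zr, updateRow_ne hj']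
    rw [e3, om, om, slack_apply, slack_apply, p1_zr_ne hj']
  rw [e1, e2]
  ring

theorem abs_le_loo (hb : ∀ j, 0 < b j) {x x' : Fin n → ℝ} (hx : Sol A b c x) (k : Fin m)
    (hx' : Sol (zr A k) b c x') : |(A *ᵥ x) k| ≤ |A k ⬝ᵥ x'| := by
  have h := sol_mono hx' (sol_zr hb hx k)
  have e : (A *ᵥ x) k = A k ⬝ᵥ x := rfl
  rw [sub_sub_cancel, smul_dotProduct, dotProduct_sub, ← e, om_eq hb hx.1, smul_eq_mul,
    div_mul_eq_mul_div] at h
  have hp := mul_pos (hx.1 k) (hb k)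
  have h1 : 0 ≤ (A *ᵥ x) k * (A k ⬝ᵥ x' - (A *ᵥ x) k) := by
    have := mul_nonneg h hp.le
    rwa [div_mul_cancel₀ _ hp.ne'] at this
  refine sq_le_sq.1 ?_
  linarith only [h1, sq_nonneg ((A *ᵥ x) k - A k ⬝ᵥ x'), sq_nonneg ((A *ᵥ x) k - A k ⬝ᵥ x')]

theorem pos_of_lt_om (hb : ∀ j, 0 < b j) {x x' : Fin n → ℝ} (hx : Sol A b c x) (k : Fin m) {w : ℝ}
    (hx' : Sol (zr A k) b (c - w • A k) x') (hw : 0 ≤ w) (h : w < om A b x k) :
    0 < A k ⬝ᵥ x' := by
  have h1 := sol_mono hx' (sol_zr hb hx k)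
  have e : (A *ᵥ x) k = A k ⬝ᵥ x := rfl
  have e2 : c - w • A k - (c - om A b x k • A k) = (om A b x k - w) • A k := by
    rw [sub_smul]; abel
  rw [e2, smul_dotProduct, dotProduct_sub, ← e, smul_eq_mul] at h1
  have h2 : 0 ≤ A k ⬝ᵥ x' - (A *ᵥ x) k := nonneg_of_mul_nonneg_right h1 (sub_pos.2 h)
  have h3 : 0 < om A b x k := lt_of_le_of_lt hw h
  rw [om_eq hb hx.1] at h3
  have h4 : 0 < (A *ᵥ x) k := (div_pos_iff_of_pos_right (mul_pos (hx.1 k) (hb k))).1 h3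
  linarith only [h2, h4]

end Pool.Agent.Work.MP_6af739_lc
end

-- merged part: Pool.Agent.Work.MP_6af739_lc.Path3
section
/-!
Smoothness and measurability of the path point. Let E = (Fin m → Fin n → ℝ) × (Fin n → ℝ),
Φ (a, x) = (a, (of a)ᵀ om (of a) b x), U = the open set of (a, x) with Inter and
det ((of a)ᵀ (of a)) ≠ 0 (Inj.det_ne_zero, inj_of_det). Φ is ContDiffAt 1 on U. Its derivative at
(a, x) is injective: the first component is the projection, and along (0, v) the second component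
has derivative hess v (hasFDerivAt_gradMap), hess is invertible (Inj.hess_det). So the derivative is a
continuous linear equivalence (finite dimension), Φ has a strict derivative, and
g (a, c) = (a, X (of a) b c) satisfies g (Φ q) = q for q in U (X_eq). Then
HasStrictFDerivAt.to_local_left_inverse gives differentiability of g at Φ q and
HasStrictFDerivAt.map_nhds_eq_of_equiv gives that Φ '' U = the Dom set is open.
Measurability: continuous on the open set, zero outside (measurable_of_restrict_of_restrict_compl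
or ContinuousOn.measurable_piecewise). hasDerivAt_X: s ↦ X is differentiable at t by the chain rule
with some derivative x'; near t the identity (A s)ᵀ om (A s) b (X s) = c s holds (Dom is open);
differentiate it coordinatewise and solve hess x' = right-hand side.
-/

namespace Pool.Agent.Work.MP_6af739_lc

open Matrix Finset MeasureTheory ProbabilityTheory
open Pool.Agent.Work.MP_6a50bc_pr
open Pool.Agent.Work.MP_5c5849_an (sg av)
open scoped ENNReal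

variable {m n : ℕ} {A : Matrix (Fin m) (Fin n) ℝ} {b : Fin m → ℝ} {c : Fin n → ℝ}

lemma p3_hess (A : Matrix (Fin m) (Fin n) ℝ) (b : Fin m → ℝ) (x v : Fin n → ℝ) :
    hess A b x *ᵥ v = Aᵀ *ᵥ fun j => (slack A b x j)⁻¹ ^ 2 * (A *ᵥ v) j := by
  rw [hess, ← mulVec_mulVec, ← mulVec_mulVec]
  congr 1
  funext j
  rw [mulVec_diagonal]

lemma p3_curve {Af : ℝ → Fin m → Fin n → ℝ} {xf : ℝ → Fin n → ℝ} {A' : Fin m → Fin n → ℝ}
    {x' : Fin n → ℝ} {t : ℝ} (hA : HasDerivAt Af A' t) (hx : HasDerivAt xf x' t)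
    (hI : Inter (Matrix.of (Af t)) b (xf t)) :
    HasDerivAt (fun s => (Matrix.of (Af s))ᵀ *ᵥ om (Matrix.of (Af s)) b (xf s))
      ((Matrix.of A')ᵀ *ᵥ om (Matrix.of (Af t)) b (xf t) +
        ((Matrix.of (Af t))ᵀ *ᵥ fun j => (slack (Matrix.of (Af t)) b (xf t) j)⁻¹ ^ 2 *
          (Matrix.of A' *ᵥ xf t) j) + hess (Matrix.of (Af t)) b (xf t) *ᵥ x') t := by
  have ha : ∀ j k, HasDerivAt (fun s => Af s j k) (A' j k) t := fun j k =>
    hasDerivAt_pi.1 (hasDerivAt_pi.1 hA j) k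
  have hu : ∀ j, HasDerivAt (fun s => slack (Matrix.of (Af s)) b (xf s) j)
      (-((Matrix.of A' *ᵥ xf t) j + (Matrix.of (Af t) *ᵥ x') j)) t := by
    intro j
    have h1 : HasDerivAt (fun s => ∑ k, Af s j k * xf s k)
        (∑ k, (A' j k * xf t k + Af t j k * x' k)) t :=
      HasDerivAt.fun_sum fun k _ => (ha j k).mul (hasDerivAt_pi.1 hx k)
    rw [sum_add_distrib] at h1
    exact h1.const_sub (b j)
  have ho : ∀ j, HasDerivAt (fun s => om (Matrix.of (Af s)) b (xf s) j)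
      ((slack (Matrix.of (Af t)) b (xf t) j)⁻¹ ^ 2 *
        ((Matrix.of A' *ᵥ xf t) j + (Matrix.of (Af t) *ᵥ x') j)) t := by
    intro j
    have h1 := ((hu j).fun_inv (hI j).ne').sub_const (b j)⁻¹
    rw [neg_neg, div_eq_inv_mul, ← inv_pow] at h1
    exact h1
  rw [p3_hess, hasDerivAt_pi]
  intro i
  have h1 : HasDerivAt (fun s => ∑ j, Af s j i * om (Matrix.of (Af s)) b (xf s) j) _ t :=
    HasDerivAt.fun_sum fun j (_ : j ∈ univ) => (ha j i).mul (ho j)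
  refine HasDerivAt.congr_deriv h1 ?_
  simp only [Pi.add_apply, mul_add, sum_add_distrib, add_assoc]
  rfl

/-- The gradient map as a function of the pair. -/
noncomputable def p3Psi (b : Fin m → ℝ) (q : (Fin m → Fin n → ℝ) × (Fin n → ℝ)) : Fin n → ℝ :=
  (Matrix.of q.1)ᵀ *ᵥ om (Matrix.of q.1) b q.2

lemma p3_slack (b : Fin m → ℝ) (j : Fin m) : ContDiff ℝ 1
    fun q : (Fin m → Fin n → ℝ) × (Fin n → ℝ) => slack (Matrix.of q.1) b q.2 j := by
  change ContDiff ℝ 1 fun q : (Fin m → Fin n → ℝ) × (Fin n → ℝ) => b j - ∑ k, q.1 j k * q.2 k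
  fun_prop

lemma p3_contDiff {q : (Fin m → Fin n → ℝ) × (Fin n → ℝ)} (hI : Inter (Matrix.of q.1) b q.2) :
    ContDiffAt ℝ 1 (p3Psi b) q := by
  refine contDiffAt_pi.2 fun i => ?_
  change ContDiffAt ℝ 1 (fun q : (Fin m → Fin n → ℝ) × (Fin n → ℝ) =>
    ∑ j, q.1 j i * ((slack (Matrix.of q.1) b q.2 j)⁻¹ - (b j)⁻¹)) q
  refine ContDiffAt.sum fun j _ => ContDiffAt.mul (by fun_prop) (ContDiffAt.sub ?_ contDiffAt_const)
  exact (p3_slack b j).contDiffAt.inv (hI j).ne'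

lemma p3_fderiv {q : (Fin m → Fin n → ℝ) × (Fin n → ℝ)} (hI : Inter (Matrix.of q.1) b q.2)
    (v : Fin n → ℝ) : fderiv ℝ (p3Psi b) q (0, v) = hess (Matrix.of q.1) b q.2 *ᵥ v := by
  have h0 : HasDerivAt (fun s : ℝ => q.2 + s • v) v 0 := by
    simpa using ((hasDerivAt_id (0 : ℝ)).smul_const v).const_add q.2
  have h1 : HasDerivAt (fun s : ℝ => (q.1, q.2 + s • v)) (0, v) 0 :=
    (hasDerivAt_const _ _).prodMk h0
  have h2 := ((p3_contDiff hI).differentiableAt one_ne_zero).hasFDerivAt.comp_hasDerivAt_of_eq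
    (0 : ℝ) h1 (by simp)
  have h3 := p3_curve (b := b) (hasDerivAt_const (0 : ℝ) q.1) h0 (by simpa using hI)
  have h4 := h2.unique h3
  have h5 : (Matrix.of (0 : Fin m → Fin n → ℝ)) = 0 := rfl
  rw [h4, h5]
  simp only [zero_smul, add_zero, transpose_zero, zero_mulVec, Pi.zero_apply, mul_zero, zero_add,
    add_eq_right]
  exact mulVec_zero _

lemma p3_open (b : Fin m → ℝ) : IsOpen {q : (Fin m → Fin n → ℝ) × (Fin n → ℝ) |
    Inj (Matrix.of q.1) ∧ Inter (Matrix.of q.1) b q.2} := by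
  have h1 : IsOpen {q : (Fin m → Fin n → ℝ) × (Fin n → ℝ) |
      ((Matrix.of q.1)ᵀ * Matrix.of q.1).det ≠ 0} := by
    have hc : Continuous fun q : (Fin m → Fin n → ℝ) × (Fin n → ℝ) =>
        (Matrix.of q.1 : Matrix (Fin m) (Fin n) ℝ) := continuous_fst
    exact isOpen_ne_fun (hc.matrix_transpose.matrix_mul hc).matrix_det continuous_const
  have h2 : IsOpen (⋂ j, {q : (Fin m → Fin n → ℝ) × (Fin n → ℝ) |
      0 < slack (Matrix.of q.1) b q.2 j}) :=
    isOpen_iInter_of_finite fun j => isOpen_lt continuous_const (p3_slack b j).continuous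
  convert h1.inter h2 using 1
  ext q
  simp only [Set.mem_inter_iff, Set.mem_iInter]
  exact and_congr ⟨fun h => h.det_ne_zero, inj_of_det⟩ Iff.rfl

lemma p3_strict {q : (Fin m → Fin n → ℝ) × (Fin n → ℝ)} (hA : Inj (Matrix.of q.1))
    (hI : Inter (Matrix.of q.1) b q.2) :
    ∃ e : ((Fin m → Fin n → ℝ) × (Fin n → ℝ)) ≃L[ℝ] ((Fin m → Fin n → ℝ) × (Fin n → ℝ)),
      HasStrictFDerivAt (fun q : (Fin m → Fin n → ℝ) × (Fin n → ℝ) => (q.1, p3Psi b q))
        (e : _ →L[ℝ] _) q := by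
  have h1 := (hasStrictFDerivAt_fst (𝕜 := ℝ) (p := q)).prodMk
    ((p3_contDiff hI).hasStrictFDerivAt one_ne_zero)
  have h2 : Function.Injective ((ContinuousLinearMap.fst ℝ (Fin m → Fin n → ℝ) (Fin n → ℝ)).prod
      (fderiv ℝ (p3Psi b) q)).toLinearMap := by
    refine (injective_iff_map_eq_zero _).2 ?_
    rintro ⟨a, v⟩ h
    have h3 : a = 0 := congrArg Prod.fst h
    have h4 : fderiv ℝ (p3Psi b) q (a, v) = 0 := congrArg Prod.snd h
    rw [h3, p3_fderiv hI] at h4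
    have h5 : v = 0 := by
      by_contra h0
      exact hA.hess_det hI (exists_mulVec_eq_zero_iff.1 ⟨v, h0, h4⟩)
    rw [h3, h5]
    rfl
  exact ⟨(LinearEquiv.ofInjectiveEndo _ h2).toContinuousLinearEquiv, h1⟩

theorem hasFDerivAt_gradMap {x : Fin n → ℝ} (hx : Inter A b x) :
    HasFDerivAt (fun y => Aᵀ *ᵥ om A b y)
      (LinearMap.toContinuousLinearMap (Matrix.toLin' (hess A b x))) x := by
  have hI : Inter (Matrix.of ((Matrix.of.symm A, x) : (Fin m → Fin n → ℝ) × (Fin n → ℝ)).1) b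
    ((Matrix.of.symm A, x) : (Fin m → Fin n → ℝ) × (Fin n → ℝ)).2 := hx
  have h1 := ((p3_contDiff hI).differentiableAt one_ne_zero).hasFDerivAt.comp x
    (hasFDerivAt_prodMk_right (𝕜 := ℝ) (Matrix.of.symm A) x)
  refine HasFDerivAt.congr_fderiv h1 ?_
  exact ContinuousLinearMap.ext fun v => p3_fderiv hI v

theorem isOpen_dom (b : Fin m → ℝ) :
    IsOpen {p : (Fin m → Fin n → ℝ) × (Fin n → ℝ) | Dom (Matrix.of p.1) b p.2} := by
  rw [isOpen_iff_mem_nhds]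
  rintro ⟨a, c⟩ ⟨hA, x, hI, hc⟩
  obtain ⟨e, he⟩ := p3_strict (b := b) (q := (a, x)) hA hI
  have h1 := he.map_nhds_eq_of_equiv
  have h2 : p3Psi b (a, x) = c := hc
  rw [h2] at h1
  rw [← h1, Filter.mem_map]
  refine Filter.mem_of_superset ((p3_open b).mem_nhds (x := (a, x)) ⟨hA, hI⟩) ?_
  rintro q ⟨h3, h4⟩
  exact ⟨h3, q.2, h4, rfl⟩

theorem differentiableAt_X {p : (Fin m → Fin n → ℝ) × (Fin n → ℝ)}
    (h : Dom (Matrix.of p.1) b p.2) :
    DifferentiableAt ℝ (fun q : (Fin m → Fin n → ℝ) × (Fin n → ℝ) => X (Matrix.of q.1) b q.2) p := by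
  obtain ⟨a, c⟩ := p
  obtain ⟨hA, x, hI, hc⟩ := h
  obtain ⟨e, he⟩ := p3_strict (b := b) (q := (a, x)) hA hI
  have h1 := he.to_local_left_inverse
    (g := fun q : (Fin m → Fin n → ℝ) × (Fin n → ℝ) => (q.1, X (Matrix.of q.1) b q.2)) (by
      filter_upwards [(p3_open b).mem_nhds (x := (a, x)) ⟨hA, hI⟩] with q hq
      exact Prod.ext rfl (X_eq hq.1 ⟨hq.2, rfl⟩))
  have h2 : p3Psi b (a, x) = c := hc
  rw [h2] at h1
  exact h1.hasFDerivAt.differentiableAt.snd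

theorem measurable_X (b : Fin m → ℝ) :
    Measurable fun q : (Fin m → Fin n → ℝ) × (Fin n → ℝ) => X (Matrix.of q.1) b q.2 := by
  classical
  have h1 : ContinuousOn (fun q : (Fin m → Fin n → ℝ) × (Fin n → ℝ) => X (Matrix.of q.1) b q.2)
      {p | Dom (Matrix.of p.1) b p.2} := fun p hp =>
    (differentiableAt_X hp).continuousAt.continuousWithinAt
  have h2 := h1.measurable_piecewise (g := fun _ => 0) continuousOn_const
    (isOpen_dom b).measurableSet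
  convert h2 using 1
  funext q
  by_cases h : Dom (Matrix.of q.1) b q.2
  · exact (if_pos h).symm
  · exact (dif_neg h).trans (if_neg h).symm

theorem hasDerivAt_X {Af : ℝ → Fin m → Fin n → ℝ} {cf : ℝ → Fin n → ℝ} {A' : Fin m → Fin n → ℝ}
    {c' : Fin n → ℝ} {t : ℝ} (hA : HasDerivAt Af A' t) (hc : HasDerivAt cf c' t)
    (hD : Dom (Matrix.of (Af t)) b (cf t)) :
    HasDerivAt (fun s => X (Matrix.of (Af s)) b (cf s))
      ((hess (Matrix.of (Af t)) b (X (Matrix.of (Af t)) b (cf t)))⁻¹ *ᵥ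
        (c' - (Matrix.of A')ᵀ *ᵥ om (Matrix.of (Af t)) b (X (Matrix.of (Af t)) b (cf t)) -
          (Matrix.of (Af t))ᵀ *ᵥ fun j =>
            (slack (Matrix.of (Af t)) b (X (Matrix.of (Af t)) b (cf t)) j)⁻¹ ^ 2 *
              (Matrix.of A' *ᵥ X (Matrix.of (Af t)) b (cf t)) j)) t := by
  have h0 : HasDerivAt (fun s => (Af s, cf s)) (A', c') t := hA.prodMk hc
  have h1 := (differentiableAt_X (b := b) (p := (Af t, cf t)) hD).hasFDerivAt.comp_hasDerivAt t h0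
  obtain ⟨x', hx'⟩ : ∃ x', HasDerivAt (fun s => X (Matrix.of (Af s)) b (cf s)) x' t := ⟨_, h1⟩
  have h2 := p3_curve (b := b) hA hx' (X_sol hD).1
  have h3 : cf =ᶠ[nhds t] fun s => (Matrix.of (Af s))ᵀ *ᵥ
      om (Matrix.of (Af s)) b (X (Matrix.of (Af s)) b (cf s)) := by
    filter_upwards [h0.continuousAt ((isOpen_dom b).mem_nhds hD)] with s hs
    exact (X_sol hs).2.symm
  have h4 := hc.unique (h2.congr_of_eventuallyEq h3)
  refine HasDerivAt.congr_deriv hx' ?_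
  rw [h4, add_assoc, add_sub_cancel_left, add_sub_cancel_left, mulVec_mulVec,
    nonsing_inv_mul _ (hD.1.hess_det (X_sol hD).1).isUnit, one_mulVec]

end Pool.Agent.Work.MP_6af739_lc
end

-- merged part: Pool.Agent.Work.MP_6af739_lc.Path2
section
/-!
Existence of the path point on a bounded polytope. Let f x = -sum log (slack x j) - (g + c)·x with
g = Aᵀ (1/b). On feasible points slack ≤ S := a bound depending on A, b, R and |(g+c)·x| ≤ nrm (g+c) R.
Choose ε > 0 with ε ≤ min b and so small that any feasible x with positive slacks and some slack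
equal to ε has f x > f 0 (f x ≥ -log ε - (m-1) log S - nrm (g+c) R). The set K of x with all slacks
≥ ε is compact (closed, bounded), contains 0, f is continuous on K; a minimiser x has all slacks
> ε, so it is a local minimum (IsMinOn.isLocalMin, K is a neighbourhood), and the derivative of
t ↦ f (x + t e_i) at 0 vanishes (IsLocalMin.hasDerivAt_eq_zero): this is (Aᵀ om x)_i = c_i.
-/

namespace Pool.Agent.Work.MP_6af739_lc

open Matrix Finset MeasureTheory ProbabilityTheory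
open Pool.Agent.Work.MP_6a50bc_pr
open Pool.Agent.Work.MP_5c5849_an (sg av)
open scoped ENNReal

variable {m n : ℕ} {A : Matrix (Fin m) (Fin n) ℝ} {b : Fin m → ℝ} {c : Fin n → ℝ}

lemma Path2_compact {R : ℝ} (hb : ∀ j, 0 < b j)
    (hR : ∀ x : Fin n → ℝ, (∀ j, (A *ᵥ x) j ≤ b j) → nrm x ≤ R) :
    IsCompact {x : Fin n → ℝ | ∀ j, (A *ᵥ x) j ≤ b j} := by
  refine Metric.isCompact_of_isClosed_isBounded ?_ ?_
  · rw [Set.ofPred_forall]
    exact isClosed_iInter fun j => isClosed_le (by fun_prop) continuous_const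
  · have h0 : 0 ≤ R := (nrm_nonneg _).trans (hR 0 fun j => by simpa using (hb j).le)
    refine (Metric.isBounded_closedBall (x := 0) (r := R)).subset fun x hx => ?_
    rw [mem_closedBall_zero_iff, pi_norm_le_iff_of_nonneg h0]
    exact fun i => (abs_le_nrm x i).trans (hR x hx)

lemma Path2_crit {s a : Fin m → ℝ} {h : ℝ} (hs : ∀ j, 0 < s j)
    (hm : ∀ t : ℝ, (∀ j, 0 < s j - t * a j) →
      (∏ j, (s j - t * a j)) * Real.exp (t * h) ≤ ∏ j, s j) : ∑ j, a j * (s j)⁻¹ = h := by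
  have hev : ∀ᶠ t in nhds (0 : ℝ), ∀ j, 0 < s j - t * a j := by
    rw [Filter.eventually_all]
    intro j
    have hc : ContinuousAt (fun t : ℝ => s j - t * a j) 0 := by fun_prop
    exact hc.eventually (lt_mem_nhds (by simpa using hs j))
  have hloc : IsLocalMax (fun t : ℝ => ∑ j, Real.log (s j - t * a j) + t * h) 0 :=
    hev.mono fun t ht => by
      simp only [zero_mul, sub_zero, add_zero]
      rw [← Real.exp_le_exp, Real.exp_add, Real.exp_sum, Real.exp_sum,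
        Finset.prod_congr rfl fun j _ => Real.exp_log (ht j),
        Finset.prod_congr rfl fun j _ => Real.exp_log (hs j)]
      exact hm t ht
  have hder : HasDerivAt (fun t : ℝ => ∑ j, Real.log (s j - t * a j) + t * h)
      (∑ j, -a j / (s j - 0 * a j) + h) 0 :=
    (HasDerivAt.fun_sum fun j _ => ((hasDerivAt_mul_const (a j)).const_sub (s j)).log
      (by simpa using (hs j).ne')).add (hasDerivAt_mul_const h)
  have h1 := hloc.hasDerivAt_eq_zero hder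
  simp only [zero_mul, sub_zero, div_eq_mul_inv, neg_mul, Finset.sum_neg_distrib] at h1
  linarith only [h1]

theorem exists_sol (hb : ∀ j, 0 < b j) {R : ℝ}
    (hR : ∀ x : Fin n → ℝ, (∀ j, (A *ᵥ x) j ≤ b j) → nrm x ≤ R) (c : Fin n → ℝ) :
    ∃ x, Sol A b c x := by
  obtain ⟨h, hh⟩ : ∃ h : Fin n → ℝ, h = (Aᵀ *ᵥ fun j => (b j)⁻¹) + c := ⟨_, rfl⟩
  have h0 : (0 : Fin n → ℝ) ∈ {x : Fin n → ℝ | ∀ j, (A *ᵥ x) j ≤ b j} :=
    fun j => by simpa using (hb j).le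
  obtain ⟨x, hx, hmax⟩ := (Path2_compact hb hR).exists_isMaxOn ⟨0, h0⟩
    (f := fun x => (∏ j, (b j - (A *ᵥ x) j)) * Real.exp (h ⬝ᵥ x))
    (Continuous.continuousOn (by fun_prop))
  have hpos : ∀ j, 0 < slack A b x j := fun j => by
    have h1 : (∏ j, (b j - (A *ᵥ 0) j)) * Real.exp (h ⬝ᵥ 0) ≤
      (∏ j, (b j - (A *ᵥ x) j)) * Real.exp (h ⬝ᵥ x) := hmax h0
    refine (sub_nonneg.2 (hx j)).lt_of_ne fun e => ?_
    rw [Finset.prod_eq_zero (f := fun j => b j - (A *ᵥ x) j) (Finset.mem_univ j) e.symm,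
      zero_mul] at h1
    refine h1.not_gt (mul_pos (Finset.prod_pos fun j _ => ?_) (Real.exp_pos _))
    simpa using hb j
  refine ⟨x, hpos, funext fun i => ?_⟩
  have hs : ∀ t j, b j - (A *ᵥ (x + Pi.single i t)) j = slack A b x j - t * A j i := fun t j => by
    rw [slack_apply, mulVec_add, Pi.add_apply, mulVec_single]
    simp only [MulOpposite.smul_eq_mul_unop, MulOpposite.unop_op, Pi.smul_apply, col_apply]
    ring
  have h1 := Path2_crit (a := fun j => A j i) (h := h i) hpos fun t ht => by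
    have h2 : (∏ j, (b j - (A *ᵥ (x + Pi.single i t)) j)) * Real.exp (h ⬝ᵥ (x + Pi.single i t)) ≤
        (∏ j, (b j - (A *ᵥ x) j)) * Real.exp (h ⬝ᵥ x) :=
      hmax fun j => sub_nonneg.1 (by rw [hs]; exact (ht j).le)
    simp only [hs] at h2
    rw [dotProduct_add, dotProduct_single, Real.exp_add, mul_comm (h i), mul_comm (Real.exp _),
      ← mul_assoc] at h2
    exact le_of_mul_le_mul_right h2 (Real.exp_pos _)
  rw [hh] at h1
  simp only [Pi.add_apply, mulVec, dotProduct, transpose_apply] at h1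
  simp only [mulVec, dotProduct, transpose_apply, om, mul_sub, Finset.sum_sub_distrib]
  linarith only [h1]

end Pool.Agent.Work.MP_6af739_lc
end

-- merged part: Pool.Agent.Work.MP_6af739_lc.SignMom
section
/-!
Moments over random signs (av, sg from Work/MP_5c5849_an/Walsh.lean: av_sg_mul, av_wal_mul,
av_lin_four, av_mul_le, av_le_of_sq, av_sum). For i ≠ j and k ≠ l, av (sg i sg j sg k sg l) is 1 if
the pairs {i,j}, {k,l} agree and 0 otherwise (av_wal_mul), so the variance of the quadratic form is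
the sum over i ≠ j of Z i j (Z i j + Z j i) ≤ 2 sum Z i j ^2. For a projection Q:
sum_j Q j k ^2 = Q k k (IsProj.diag_eq), and Q j k ^2 ≤ Q j j Q k k.
(flip D Q *ᵥ w) k = sg D k * sum_j (Q k j w j) sg D j; t_k = sum_j Q k j ^2 w j ^2 satisfies
t_k ≤ Y^2, t_k ≤ M := sum of t_k.
-/

namespace Pool.Agent.Work.MP_6af739_lc

open Matrix Finset MeasureTheory ProbabilityTheory
open Pool.Agent.Work.MP_6a50bc_pr
open Pool.Agent.Work.MP_5c5849_an (sg av)
open Pool.Agent.Work.MP_5c5849_an (sg_sq av_sum av_const_mul av_sg_mul wal av_wal_mul av_add av_sub av_const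
  av_nonneg av_lin_four av_mul_le av_le_of_sq)
open scoped ENNReal

variable {m : ℕ} {Q : Matrix (Fin m) (Fin m) ℝ}

theorem flip_apply (D : Fin m → Fin 2) (Q : Matrix (Fin m) (Fin m) ℝ) (j k : Fin m) :
    flip D Q j k = sg D j * Q j k * sg D k := by
  rw [flip, mul_diagonal, diagonal_mul]

theorem flip_diag (D : Fin m → Fin 2) (Q : Matrix (Fin m) (Fin m) ℝ) (k : Fin m) :
    flip D Q k k = Q k k := by
  rw [flip_apply, mul_right_comm, sg_sq, one_mul]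

theorem IsProj.flip (h : IsProj Q) (D : Fin m → Fin 2) : IsProj (flip D Q) := by
  constructor
  · ext j k
    rw [transpose_apply, flip_apply, flip_apply, h.apply_symm k j]
    ring
  · ext j k
    rw [mul_apply, flip_apply]
    conv_rhs => rw [← h.idem, mul_apply, mul_sum, sum_mul]
    refine sum_congr rfl fun l _ => ?_
    rw [flip_apply, flip_apply]
    linear_combination (sg D j * Q j l * Q l k * sg D k) * sg_sq D l

theorem co_flip (D : Fin m → Fin 2) (Q : Matrix (Fin m) (Fin m) ℝ) (v : Fin m → ℝ) :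
    co (flip D Q) v = flip D (1 - Q) *ᵥ v := by
  rw [co_eq]
  congr 1
  ext j k
  rw [flip_apply, Matrix.sub_apply, Matrix.sub_apply, flip_apply]
  by_cases hjk : j = k
  · subst hjk
    rw [one_apply_eq]
    linear_combination -sg_sq D j
  · rw [one_apply_ne hjk]
    ring

theorem signMom_quad (Z : Matrix (Fin m) (Fin m) ℝ) (D : Fin m → Fin 2) :
    sg D ⬝ᵥ Z *ᵥ sg D = ∑ i, ∑ j, Z i j * (sg D i * sg D j) := by
  simp only [dotProduct, mulVec, mul_sum]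
  exact sum_congr rfl fun i _ => sum_congr rfl fun j _ => by ring

theorem signMom_four {i j k l : Fin m} (a : i ≠ j) (b : k ≠ l) :
    av (fun D => sg D i * sg D j * (sg D k * sg D l))
      = if (k = i ∧ l = j) ∨ (k = j ∧ l = i) then 1 else 0 := by
  have h := av_wal_mul ({i, j} : Finset (Fin m)) {k, l}
  simp only [wal, prod_pair a, prod_pair b] at h
  rw [h]
  refine if_congr ?_ rfl rfl
  rw [← coe_inj, coe_pair, coe_pair, Set.pair_eq_pair_iff]
  tauto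

theorem av_quad (Z : Matrix (Fin m) (Fin m) ℝ) : av (fun D => sg D ⬝ᵥ Z *ᵥ sg D) = Z.trace := by
  simp only [signMom_quad]
  rw [av_sum, trace]
  refine sum_congr rfl fun i _ => ?_
  rw [av_sum]
  simp only [av_const_mul, av_sg_mul]
  rw [sum_eq_single i (fun b _ hb => by simp [Ne.symm hb]) (by simp)]
  simp

theorem av_quad_var (Z : Matrix (Fin m) (Fin m) ℝ) :
    av (fun D => (sg D ⬝ᵥ Z *ᵥ sg D - Z.trace) ^ 2) ≤ 2 * ∑ i, ∑ j, Z i j ^ 2 := by
  let W : Fin m → Fin m → ℝ := fun i j => if i = j then 0 else Z i j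
  have h1 : ∀ D, sg D ⬝ᵥ Z *ᵥ sg D - Z.trace = ∑ i, ∑ j, W i j * (sg D i * sg D j) := by
    intro D
    rw [signMom_quad, trace, ← sum_sub_distrib]
    refine sum_congr rfl fun i _ => ?_
    rw [sub_eq_iff_eq_add, ← add_sum_erase _ _ (mem_univ i), ← add_sum_erase _ _ (mem_univ i),
      sg_sq]
    have : ∑ j ∈ univ.erase i, W i j * (sg D i * sg D j)
        = ∑ j ∈ univ.erase i, Z i j * (sg D i * sg D j) :=
      sum_congr rfl fun j hj => by simp only [W, if_neg (ne_of_mem_erase hj).symm]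
    rw [this]
    simp [W]
    ring
  have h2 : ∀ D, (sg D ⬝ᵥ Z *ᵥ sg D - Z.trace) ^ 2 = ∑ i, ∑ j, ∑ k, ∑ l,
      W i j * W k l * (sg D i * sg D j * (sg D k * sg D l)) := by
    intro D
    rw [h1, sq, sum_mul]
    refine sum_congr rfl fun i _ => ?_
    rw [sum_mul]
    refine sum_congr rfl fun j _ => ?_
    rw [mul_sum]
    refine sum_congr rfl fun k _ => ?_
    rw [mul_sum]
    exact sum_congr rfl fun l _ => by ring
  have h3 : ∀ i j k l, W i j * W k l * av (fun D => sg D i * sg D j * (sg D k * sg D l))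
      = (if k = i then if l = j then W i j * W k l else 0 else 0)
        + (if k = j then if l = i then W i j * W k l else 0 else 0) := by
    intro i j k l
    by_cases a : i = j
    · simp [W, a]
    by_cases b : k = l
    · simp [W, b]
    rw [signMom_four a b]
    by_cases c1 : k = i <;> by_cases c2 : l = j <;> by_cases c3 : k = j <;> by_cases c4 : l = i <;>
      simp [c1, c2, c3, c4] <;> simp_all
  simp only [h2, av_sum, av_const_mul, h3, sum_add_distrib]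
  have h4 : ∀ i j a b, ∑ k, ∑ l, (if k = a then if l = b then W i j * W k l else 0 else 0)
      = W i j * W a b := by
    intro i j a b
    rw [sum_eq_single a (fun k _ hk => by simp [hk]) (by simp)]
    simp
  simp only [h4]
  have h5 : ∀ i j, W i j ^ 2 ≤ Z i j ^ 2 := by
    intro i j
    simp only [W]
    split_ifs
    · rw [zero_pow two_ne_zero]; positivity
    · exact le_rfl
  have h6 : ∑ i, ∑ j, W i j * W j i ≤ ∑ i, ∑ j, (W i j ^ 2 + W j i ^ 2) / 2 :=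
    sum_le_sum fun i _ => sum_le_sum fun j _ => by linarith only [sq_nonneg (W i j - W j i), sq_nonneg (W i j - W j i)]
  have h7 : ∑ i, ∑ j, (W i j ^ 2 + W j i ^ 2) / 2 = ∑ i, ∑ j, W i j ^ 2 := by
    simp only [← sum_div, sum_add_distrib]
    rw [sum_comm (f := fun i j => W j i ^ 2)]
    ring
  have h8 : ∑ i, ∑ j, W i j ^ 2 ≤ ∑ i, ∑ j, Z i j ^ 2 :=
    sum_le_sum fun i _ => sum_le_sum fun j _ => h5 i j
  have h9 : ∑ i, ∑ j, W i j * W i j = ∑ i, ∑ j, W i j ^ 2 := by simp only [sq]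
  linarith only [h6, h7, h8, h9]

theorem signMom_bil (Q : Matrix (Fin m) (Fin m) ℝ) (v w : Fin m → ℝ) (D : Fin m → Fin 2) :
    v ⬝ᵥ flip D Q *ᵥ w = sg D ⬝ᵥ (Matrix.of fun j k => v j * Q j k * w k) *ᵥ sg D := by
  simp only [dotProduct, mulVec, mul_sum, flip_apply, of_apply]
  exact sum_congr rfl fun i _ => sum_congr rfl fun j _ => by ring

theorem signMom_trace (Q : Matrix (Fin m) (Fin m) ℝ) (v w : Fin m → ℝ) :
    (Matrix.of fun j k => v j * Q j k * w k).trace = ∑ k, Q k k * (v k * w k) :=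
  sum_congr rfl fun k _ => by simp only [diag_apply, of_apply]; ring

theorem signMom_var (f : (Fin m → Fin 2) → ℝ) {μ : ℝ} (h : av f = μ) :
    av (fun D => f D ^ 2) = μ ^ 2 + av (fun D => (f D - μ) ^ 2) := by
  have e : (fun D => (f D - μ) ^ 2) = fun D => (f D ^ 2 - 2 * μ * f D) + μ ^ 2 := by
    funext D
    ring
  rw [e, av_add, av_sub, av_const_mul, av_const, h]
  ring

theorem signMom_entry (h : IsProj Q) (i j : Fin m) : Q i j ^ 2 ≤ Q i i * Q j j := by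
  rw [h.diag_eq i, h.diag_eq j]
  refine le_trans (le_of_eq ?_) (sum_mul_sq_le_sq_mul_sq univ (Q i) (Q j))
  conv_lhs => rw [← h.idem, mul_apply]
  congr 1
  exact sum_congr rfl fun l _ => by rw [h.apply_symm l j]

theorem av_bil (Q : Matrix (Fin m) (Fin m) ℝ) (v w : Fin m → ℝ) :
    av (fun D => v ⬝ᵥ flip D Q *ᵥ w) = ∑ k, Q k k * (v k * w k) := by
  simp only [signMom_bil]
  rw [av_quad, signMom_trace]

theorem av_bil_var (h : IsProj Q) {v : Fin m → ℝ} (w : Fin m → ℝ) {V : ℝ} (hV : ∀ k, |v k| ≤ V) :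
    av (fun D => (v ⬝ᵥ flip D Q *ᵥ w - ∑ k, Q k k * (v k * w k)) ^ 2) ≤
      2 * V ^ 2 * ∑ k, Q k k * w k ^ 2 := by
  simp only [signMom_bil, ← signMom_trace]
  refine (av_quad_var _).trans ?_
  rw [mul_assoc, sum_comm, mul_sum univ _ (V ^ 2)]
  refine mul_le_mul_of_nonneg_left (sum_le_sum fun k _ => ?_) zero_le_two
  rw [h.diag_eq, sum_mul, mul_sum]
  refine sum_le_sum fun j _ => ?_
  have h1 : v j ^ 2 ≤ V ^ 2 := sq_le_sq' (abs_le.1 (hV j)).1 (abs_le.1 (hV j)).2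
  rw [of_apply, h.apply_symm j k]
  calc (v j * Q k j * w k) ^ 2 = v j ^ 2 * (Q k j ^ 2 * w k ^ 2) := by ring
    _ ≤ _ := by gcongr

theorem av_bil_sq (h : IsProj Q) {v : Fin m → ℝ} (w : Fin m → ℝ) {V : ℝ} (hV : ∀ k, |v k| ≤ V) :
    av (fun D => (v ⬝ᵥ flip D Q *ᵥ w) ^ 2) ≤
      (∑ k, Q k k * (v k * w k)) ^ 2 + 2 * V ^ 2 * ∑ k, Q k k * w k ^ 2 := by
  rw [signMom_var _ (av_bil Q v w)]
  linarith [av_bil_var h w hV]

theorem sq_le_av_bil_sq (Q : Matrix (Fin m) (Fin m) ℝ) (v w : Fin m → ℝ) :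
    (∑ k, Q k k * (v k * w k)) ^ 2 ≤ av (fun D => (v ⬝ᵥ flip D Q *ᵥ w) ^ 2) := by
  rw [signMom_var _ (av_bil Q v w)]
  exact le_add_of_nonneg_right (av_nonneg fun D => sq_nonneg _)

theorem av_self_sq (h : IsProj Q) (w : Fin m → ℝ) :
    av (fun D => (w ⬝ᵥ flip D Q *ᵥ w) ^ 2) ≤ 3 * (∑ k, Q k k * w k ^ 2) ^ 2 := by
  rw [signMom_var _ (av_bil Q w w)]
  have h1 : av (fun D => (w ⬝ᵥ flip D Q *ᵥ w - ∑ k, Q k k * (w k * w k)) ^ 2)
      ≤ 2 * (∑ k, Q k k * w k ^ 2) ^ 2 := by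
    simp only [signMom_bil, ← signMom_trace]
    refine (av_quad_var _).trans (mul_le_mul_of_nonneg_left ?_ zero_le_two)
    rw [sq (∑ k, Q k k * w k ^ 2), sum_mul_sum]
    refine sum_le_sum fun i _ => sum_le_sum fun j _ => ?_
    rw [of_apply]
    calc (w i * Q i j * w j) ^ 2 = Q i j ^ 2 * (w i ^ 2 * w j ^ 2) := by ring
      _ ≤ Q i i * Q j j * (w i ^ 2 * w j ^ 2) :=
        mul_le_mul_of_nonneg_right (signMom_entry h i j) (by positivity)
      _ = _ := by ring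
  have h2 : ∑ k, Q k k * (w k * w k) = ∑ k, Q k k * w k ^ 2 := by simp only [sq]
  rw [h2] at h1 ⊢
  linarith

theorem av_four (h : IsProj Q) {w : Fin m → ℝ} {Y : ℝ} (hY : ∀ k, |w k| ≤ Y) :
    av (fun D => ∑ k, (flip D Q *ᵥ w) k ^ 4) ≤
      3 * min (Y ^ 2) (∑ k, Q k k * w k ^ 2) * ∑ k, Q k k * w k ^ 2 := by
  let t : Fin m → ℝ := fun k => ∑ j, (Q k j * w j) ^ 2
  have ht0 : ∀ k, 0 ≤ t k := fun k => sum_nonneg fun j _ => sq_nonneg _
  have hM : ∑ k, t k = ∑ k, Q k k * w k ^ 2 := by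
    simp only [t]
    rw [sum_comm]
    refine sum_congr rfl fun j _ => ?_
    rw [h.diag_eq, sum_mul]
    exact sum_congr rfl fun k _ => by rw [h.apply_symm k j]; ring
  have h1 : ∀ k, t k ≤ Y ^ 2 := by
    intro k
    calc t k ≤ ∑ j, Q k j ^ 2 * Y ^ 2 := by
          refine sum_le_sum fun j _ => ?_
          rw [mul_pow]
          exact mul_le_mul_of_nonneg_left
            (sq_le_sq' (abs_le.1 (hY j)).1 (abs_le.1 (hY j)).2) (sq_nonneg _)
      _ = Q k k * Y ^ 2 := by rw [← sum_mul, ← h.diag_eq]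
      _ ≤ Y ^ 2 := mul_le_of_le_one_left (sq_nonneg _) (h.diag_le_one k)
  have h2 : ∀ k, t k ≤ ∑ k, Q k k * w k ^ 2 := fun k =>
    hM ▸ single_le_sum (f := t) (fun j _ => ht0 j) (mem_univ k)
  have h3 : ∀ D k, (flip D Q *ᵥ w) k ^ 4 = (∑ j, Q k j * w j * sg D j) ^ 4 := by
    intro D k
    have e : (flip D Q *ᵥ w) k = sg D k * ∑ j, Q k j * w j * sg D j := by
      rw [mulVec, dotProduct, mul_sum]
      exact sum_congr rfl fun j _ => by rw [flip_apply]; ring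
    have e2 : sg D k ^ 4 = 1 := by
      rw [show sg D k ^ 4 = (sg D k * sg D k) ^ 2 by ring, sg_sq, one_pow]
    rw [e, mul_pow, e2, one_mul]
  simp only [h3]
  rw [av_sum]
  conv_rhs => rw [← hM]
  rw [mul_sum]
  refine sum_le_sum fun k _ => (av_lin_four fun j => Q k j * w j).trans ?_
  have h4 : t k ≤ min (Y ^ 2) (∑ k, t k) := le_min (h1 k) (hM ▸ h2 k)
  calc 3 * t k ^ 2 = 3 * t k * t k := by ring
    _ ≤ _ := by have := ht0 k; gcongr

theorem av_mul_n4 {f : (Fin m → Fin 2) → ℝ} {h : (Fin m → Fin 2) → Fin m → ℝ} {x y : ℝ}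
    (hx : 0 ≤ x) (hy : 0 ≤ y) (hf : av (fun D => f D ^ 2) ≤ x ^ 2)
    (hh : av (fun D => ∑ k, h D k ^ 4) ≤ y ^ 4) : av (fun D => |f D| * n4 (h D)) ≤ x * y := by
  refine av_mul_le (fun D => |f D|) (fun D => n4 (h D)) hx hy (by simpa only [sq_abs] using hf) ?_
  refine av_le_of_sq _ (sq_nonneg y) ?_
  have e : ∀ D, (n4 (h D) ^ 2) ^ 2 = ∑ k, h D k ^ 4 := fun D => by rw [← n4_pow]; ring
  simp only [e]
  calc _ ≤ y ^ 4 := hh
    _ = _ := by ring

end Pool.Agent.Work.MP_6af739_lc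
end

-- merged part: Pool.Agent.Work.MP_6af739_lc.Inv
section
/-!
Invariance under (A, x, c) ↦ (A O, Oᵀ x, Oᵀ c) for orthogonal O (Orth O : Oᵀ O = 1, and
Orth.mul_transpose : O Oᵀ = 1). Everything follows from (A O)(Oᵀ x) = A x. exists_orth: use
exists_orth_extend (Haar.lean) with one-column matrices, or a Householder reflection.
lintegral_rot: mp_rows with the matrix Oᵀ, since rot O a j = Oᵀ *ᵥ a j.
-/

namespace Pool.Agent.Work.MP_6af739_lc

open Matrix Finset MeasureTheory ProbabilityTheory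
open Pool.Agent.Work.MP_6a50bc_pr
open Pool.Agent.Work.MP_5c5849_an (sg av)
open scoped ENNReal

variable {m n : ℕ} {A : Matrix (Fin m) (Fin n) ℝ} {b : Fin m → ℝ} {c : Fin n → ℝ}

variable {O : Matrix (Fin n) (Fin n) ℝ}

lemma Inv_mv (hO : Orth O) (M : Matrix (Fin m) (Fin n) ℝ) (x : Fin n → ℝ) :
    (M * O) *ᵥ (Oᵀ *ᵥ x) = M *ᵥ x := by
  rw [mulVec_mulVec, Matrix.mul_assoc, hO.mul_transpose, Matrix.mul_one]

lemma Inv_surj (hO : Orth O) (z : Fin n → ℝ) : Oᵀ *ᵥ (O *ᵥ z) = z := by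
  rw [mulVec_mulVec, hO, one_mulVec]

lemma Inv_left (hO : Orth O) (z : Fin n → ℝ) : O *ᵥ (Oᵀ *ᵥ z) = z := by
  rw [mulVec_mulVec, hO.mul_transpose, one_mulVec]

lemma Inv_forall (hO : Orth O) {p : (Fin n → ℝ) → Prop} : (∀ z, p z) ↔ ∀ z, p (Oᵀ *ᵥ z) :=
  ⟨fun h _ => h _, fun h z => Inv_surj hO z ▸ h (O *ᵥ z)⟩

lemma Inv_gram (M : Matrix (Fin m) (Fin n) ℝ) (D : Matrix (Fin m) (Fin m) ℝ) :
    (M * O)ᵀ * D * (M * O) = Oᵀ * (Mᵀ * D * M) * O := by
  simp only [transpose_mul, Matrix.mul_assoc]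

lemma Inv_inv (hO : Orth O) (H : Matrix (Fin n) (Fin n) ℝ) : (Oᵀ * H * O)⁻¹ = Oᵀ * H⁻¹ * O := by
  rw [Matrix.mul_inv_rev, Matrix.mul_inv_rev, inv_eq_left_inv hO, inv_eq_left_inv hO.mul_transpose,
    Matrix.mul_assoc]

lemma Inv_det (hO : Orth O) (H : Matrix (Fin n) (Fin n) ℝ) : (Oᵀ * H * O).det = H.det := by
  rw [det_mul_comm, ← Matrix.mul_assoc, hO.mul_transpose, Matrix.one_mul]

lemma Inv_tmv (M : Matrix (Fin m) (Fin n) ℝ) (w : Fin m → ℝ) :
    (M * O)ᵀ *ᵥ w = Oᵀ *ᵥ (Mᵀ *ᵥ w) := by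
  rw [transpose_mul, mulVec_mulVec]

lemma Inv_conj (hO : Orth O) (H : Matrix (Fin n) (Fin n) ℝ) (z : Fin n → ℝ) :
    (Oᵀ * H * O) *ᵥ (Oᵀ *ᵥ z) = Oᵀ *ᵥ (H *ᵥ z) := by
  rw [← mulVec_mulVec, Inv_left hO, mulVec_mulVec]

theorem slack_rot (hO : Orth O) (x : Fin n → ℝ) : slack (A * O) b (Oᵀ *ᵥ x) = slack A b x := by
  rw [slack, Inv_mv hO, slack]

theorem om_rot (hO : Orth O) (x : Fin n → ℝ) : om (A * O) b (Oᵀ *ᵥ x) = om A b x := by
  funext j
  rw [om, slack_rot hO, om]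

theorem inter_rot (hO : Orth O) (x : Fin n → ℝ) : Inter (A * O) b (Oᵀ *ᵥ x) ↔ Inter A b x := by
  rw [Inter, slack_rot hO, Inter]

theorem inj_rot (hO : Orth O) : Inj (A * O) ↔ Inj A := by
  rw [Inj, Inv_forall hO]
  refine forall_congr' fun z => ?_
  rw [Inv_mv hO, ← nrm_eq_zero (v := Oᵀ *ᵥ z), hO.transpose.nrm_mulVec, nrm_eq_zero]

theorem proj_rot (hO : Orth O) (M : Matrix (Fin m) (Fin n) ℝ) : proj (M * O) = proj M := by
  have h := Inv_gram (O := O) M 1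
  rw [Matrix.mul_one, Matrix.mul_one] at h
  rw [proj, h, Inv_inv hO, transpose_mul, proj]
  simp only [Matrix.mul_assoc]
  rw [← Matrix.mul_assoc O Oᵀ, ← Matrix.mul_assoc O Oᵀ, hO.mul_transpose, Matrix.one_mul,
    Matrix.one_mul]

lemma Inv_sc (hO : Orth O) (x : Fin n → ℝ) : sc (A * O) b (Oᵀ *ᵥ x) = sc A b x * O := by
  rw [sc, slack_rot hO, sc, Matrix.mul_assoc]

lemma Inv_hess (hO : Orth O) (x : Fin n → ℝ) :
    hess (A * O) b (Oᵀ *ᵥ x) = Oᵀ * hess A b x * O := by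
  rw [hess, slack_rot hO, Inv_gram, hess]

theorem qv_rot (hO : Orth O) (x : Fin n → ℝ) : qv (A * O) b (Oᵀ *ᵥ x) = qv A b x := by
  rw [qv, Inv_sc hO, proj_rot hO, qv]
  congr 1
  funext j
  rw [vz, Inv_mv hO, vz]

theorem nn_rot (hO : Orth O) (x : Fin n → ℝ) : nn (A * O) b (Oᵀ *ᵥ x) = nn A b x := by
  rw [nn, Inv_sc hO, proj_rot hO, slack_rot hO, nn]

theorem phi1_rot (hO : Orth O) (x : Fin n → ℝ) : phi1 (A * O) b (Oᵀ *ᵥ x) = phi1 A b x := by
  rw [phi1, nn_rot hO, om_rot hO, Inv_tmv, hO.transpose.dot_mulVec, hO.transpose.nrm_mulVec, phi1]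

theorem det_hess_rot (hO : Orth O) (x : Fin n → ℝ) :
    (hess (A * O) b (Oᵀ *ᵥ x)).det = (hess A b x).det := by
  rw [Inv_hess hO, Inv_det hO]

theorem trace_inv_hess_rot (hO : Orth O) (x : Fin n → ℝ) :
    (hess (A * O) b (Oᵀ *ᵥ x))⁻¹.trace = (hess A b x)⁻¹.trace := by
  rw [Inv_hess hO, Inv_inv hO, trace_mul_comm, ← Matrix.mul_assoc, hO.mul_transpose, Matrix.one_mul]

theorem grad_rot (hO : Orth O) (x : Fin n → ℝ) :
    (A * O)ᵀ *ᵥ om (A * O) b (Oᵀ *ᵥ x) = Oᵀ *ᵥ (Aᵀ *ᵥ om A b x) := by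
  rw [om_rot hO, Inv_tmv]

lemma Inv_sol (hO : Orth O) (x : Fin n → ℝ) :
    Sol (A * O) b (Oᵀ *ᵥ c) (Oᵀ *ᵥ x) ↔ Sol A b c x := by
  rw [Sol, inter_rot hO, grad_rot hO, Sol]
  refine and_congr_right fun _ => ⟨fun h => ?_, fun h => by rw [h]⟩
  rw [← Inv_left hO c, ← h, Inv_left hO]

theorem dom_rot (hO : Orth O) : Dom (A * O) b (Oᵀ *ᵥ c) ↔ Dom A b c := by
  refine and_congr (inj_rot hO) ⟨fun ⟨x, hx⟩ => ⟨O *ᵥ x, (Inv_sol hO _).1 ?_⟩,
    fun ⟨x, hx⟩ => ⟨_, (Inv_sol hO x).2 hx⟩⟩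
  rwa [Inv_surj hO]

theorem X_rot (hO : Orth O) : X (A * O) b (Oᵀ *ᵥ c) = Oᵀ *ᵥ X A b c := by
  by_cases h : Dom A b c
  · exact X_eq ((inj_rot hO).2 h.1) ((Inv_sol hO _).2 (X_sol h))
  · rw [X, dif_neg (mt (dom_rot hO).1 h), X, dif_neg h, mulVec_zero]

theorem good_rot (hO : Orth O) (θ : ℝ) : Good (A * O) θ ↔ Good A θ := by
  refine and_congr ?_ ?_ <;> rw [Inv_forall hO] <;> refine forall_congr' fun z => ?_
  · rw [Inv_mv hO, hO.transpose.dot_mulVec]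
  · rw [Inv_mv hO, hO.transpose.nrm_mulVec]

theorem gg_rot (hO : Orth O) (P lam : ℝ) (x : Fin n → ℝ) :
    GG P lam b (A * O) (Oᵀ *ᵥ x) ↔ GG P lam b A x := by
  have e : ∀ k, (A * O) k ⬝ᵥ (A * O) k = A k ⬝ᵥ A k := fun k => by
    have : (A * O) k = Oᵀ *ᵥ A k := by
      rw [mulVec_transpose]
      rfl
    rw [this, hO.transpose.dot_mulVec]
  have e1 := grad_rot (A := A) (b := b) hO x
  have e2 : nrm ((A * O)ᵀ *ᵥ om (A * O) b (Oᵀ *ᵥ x)) = nrm (Aᵀ *ᵥ om A b x) := by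
    rw [e1, hO.transpose.nrm_mulVec]
  have e3 : ((A * O)ᵀ *ᵥ om (A * O) b (Oᵀ *ᵥ x)) ⬝ᵥ (Oᵀ *ᵥ x) = (Aᵀ *ᵥ om A b x) ⬝ᵥ x := by
    rw [e1, hO.transpose.dot_mulVec]
  constructor
  · rintro ⟨h1, h2, h3, h4, h5, h6, h7, h8⟩
    rw [e2] at h4 h5 h6
    rw [e3] at h6
    rw [Inv_mv hO] at h7
    rw [om_rot hO] at h8
    exact ⟨(good_rot hO _).1 h1, fun k => e k ▸ h2 k, (inter_rot hO x).1 h3, h4, h5, h6, h7, h8⟩
  · rintro ⟨h1, h2, h3, h4, h5, h6, h7, h8⟩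
    rw [← e2] at h4 h5 h6
    rw [← e3] at h6
    rw [← Inv_mv hO] at h7
    rw [← om_rot hO] at h8
    exact ⟨(good_rot hO _).2 h1, fun k => (e k).trans_le (h2 k), (inter_rot hO x).2 h3, h4, h5, h6,
      h7, h8⟩

theorem det_gram_rot (hO : Orth O) (B : Finset (Fin m)) :
    ((A * O)ᵀ * ind B * (A * O)).det = (Aᵀ * ind B * A).det := by
  rw [Inv_gram, Inv_det hO]

theorem candX_rot (hO : Orth O) (B : Finset (Fin m)) :
    candX (A * O) b B = Oᵀ *ᵥ candX A b B := by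
  rw [candX, Inv_gram, Inv_inv hO, Inv_tmv, Inv_conj hO, candX]

theorem candY_rot (hO : Orth O) (B : Finset (Fin m)) :
    candY (A * O) (Oᵀ *ᵥ c) B = candY A c B := by
  rw [candY, Inv_gram, Inv_inv hO, Inv_conj hO, Inv_mv hO, candY]

theorem strict_rot (hO : Orth O) (B : Finset (Fin m)) :
    Strict (A * O) b (Oᵀ *ᵥ c) B ↔ Strict A b c B := by
  rw [Strict, Vtx, det_gram_rot hO, candX_rot hO, candY_rot hO, Inv_mv hO, Strict, Vtx]

theorem exists_orth {x y : Fin n → ℝ} (h : nrm x = nrm y) :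
    ∃ O : Matrix (Fin n) (Fin n) ℝ, Orth O ∧ Oᵀ *ᵥ x = y := by
  by_cases h0 : nrm x = 0
  · refine ⟨1, by simp [Orth], ?_⟩
    rw [nrm_eq_zero.1 h0, nrm_eq_zero.1 (h.symm.trans h0), mulVec_zero]
  have key : ∀ {v : Fin n → ℝ}, nrm v = nrm x →
      Orth (Matrix.of fun i (_ : Unit) => v i / nrm x) := fun {v} hv => by
    ext i j
    simp only [mul_apply, transpose_apply, of_apply, one_apply_eq, div_mul_div_comm]
    rw [← sum_div, ← sq, ← hv, nrm_sq, ← dotProduct, div_self]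
    rw [← nrm_sq, hv]
    exact pow_ne_zero 2 h0
  obtain ⟨R, hR, e⟩ := exists_orth_extend (key h.symm) (key rfl)
  refine ⟨Rᵀ, hR.transpose, funext fun i => ?_⟩
  have := congrFun (congrFun e i) ()
  simp only [mul_apply, of_apply, ← mul_div_assoc] at this
  rw [← sum_div, div_left_inj' h0] at this
  exact this

theorem mp_rotm (hO : Orth O) :
    MeasurePreserving (rot (m := m) O) (gm (Fin m) (Fin n)) (gm (Fin m) (Fin n)) := by
  have e : rot (m := m) O = fun a j => Oᵀ *ᵥ a j := by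
    funext a j
    rw [mulVec_transpose]
    rfl
  rw [e]
  exact mp_rows hO

theorem lintegral_rot {F : (Fin m → Fin n → ℝ) × (Fin n → ℝ) → ℝ≥0∞} (hF : Invar F)
    {x y : Fin n → ℝ} (hm : Measurable fun a => F (a, x)) (h : nrm x = nrm y) :
    ∫⁻ a, F (a, x) ∂(gm (Fin m) (Fin n)) = ∫⁻ a, F (a, y) ∂(gm (Fin m) (Fin n)) := by
  obtain ⟨O, hO, rfl⟩ := exists_orth h.symm
  rw [← (mp_rotm hO).lintegral_comp hm]
  exact lintegral_congr fun a => hF O hO a y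

end Pool.Agent.Work.MP_6af739_lc
end

-- merged part: Pool.Agent.Work.MP_6af739_lc.Newton
section
/-!
Newton step, predictor step, invariant of the iteration. Notation: s = slack, M = sc A b x,
hess = Mᵀ M (hess_eq), om = 1/s - 1/b, grad x - grad 0 = Aᵀ om (grad_sub).

near_correct. Near gives Aᵀ om - lam c = Mᵀ w. The Newton direction is d = (MᵀM)⁻¹ Mᵀ w and
e := M d = proj M w (proj_mulVec_eq), nrm e ≤ nrm w ≤ δ < 1. New slack s' = s (1 + e) > 0 and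
Aᵀ om' - lam c = Aᵀ (1/s' - 1/s + e/s) = Aᵀ (e^2 / s') (use Mᵀ w = Mᵀ e, transpose_mulVec_proj,
sc_transpose_mulVec). So w' = e^2 and nrm w' = n4 e ^2 ≤ nrm e ^2 (n4_sq_eq_nrm, n4_le_nrm).

step facts. With S = sum of q^4, q = M dir, k = clog 16 (ceil S): S ≤ 16^k (Nat.le_pow_clog) gives
n4 q ≤ 2^k; if k ≥ 1 then 16^(k-1) < ceil S (Nat.pow_pred_clog_lt_self) so 16^(k-1) < S and
2^(k-1) < n4 q. Hence 2^k ≤ 1 + 2 n4 q.

near_predict. x' = x + a z, M z = q, s' = s (1 - a q), |a q_j| ≤ a n4 q ≤ 1/10,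
lam c = hess z = Mᵀ q. Aᵀ om' - (1+a) lam c = Aᵀ ((w (1 - a q) + a^2 q^2) / s'), and
nrm (w (1 - a q)) ≤ 1.1/100, nrm (a^2 q^2) = (a n4 q)^2 ≤ 1/100.

near_iter. At x = 0, s = b, om = 0, -lam0 c = Mᵀ w with w = -lam0 M hess⁻¹ c,
nrm w ≤ sum |w_j| = 1/100 (nrm_le_sum_abs); the sum is positive since c ≠ 0.
-/

namespace Pool.Agent.Work.MP_6af739_lc

open Matrix Finset MeasureTheory ProbabilityTheory
open Pool.Agent.Work.MP_6a50bc_pr
open Pool.Agent.Work.MP_5c5849_an (sg av)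
open scoped ENNReal

variable {m n : ℕ} {A : Matrix (Fin m) (Fin n) ℝ} {b : Fin m → ℝ} {c : Fin n → ℝ}

theorem newton_slack (x z : Fin n → ℝ) (hx : Inter A b x) (a : ℝ) (j : Fin m) :
    slack A b (x + a • z) j = slack A b x j * (1 - a * (sc A b x *ᵥ z) j) := by
  rw [sc_mulVec, slack_apply, mulVec_add, mulVec_smul, Pi.add_apply, Pi.smul_apply, smul_eq_mul,
    mul_sub, mul_one, mul_left_comm, mul_div_cancel₀ _ (hx j).ne', slack_apply]
  ring

theorem newton_om (x x' : Fin n → ℝ) : Aᵀ *ᵥ om A b x' =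
    Aᵀ *ᵥ om A b x + Aᵀ *ᵥ fun j => (slack A b x' j)⁻¹ - (slack A b x j)⁻¹ := by
  rw [← mulVec_add]
  refine congrArg _ (funext fun j => ?_)
  simp only [om, Pi.add_apply]
  ring

theorem newton_dir (hA : Inj A) {x : Fin n → ℝ} (hx : Inter A b x) (v : Fin n → ℝ) :
    (sc A b x)ᵀ *ᵥ (sc A b x *ᵥ ((hess A b x)⁻¹ *ᵥ v)) = v := by
  rw [mulVec_mulVec, ← hess_eq, mulVec_mulVec, mul_nonsing_inv _ (hA.hess_det hx).isUnit,
    one_mulVec]

theorem near_correct (hA : Inj A) {δ lam : ℝ} {x : Fin n → ℝ} (h : Near A b c δ lam x)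
    (hδ : δ < 1) : Near A b c (δ ^ 2) lam (correct A b c (lam, x)).2 := by
  obtain ⟨hx, w, h1, h2⟩ := h
  have e : (correct A b c (lam, x)).2 = x + (-1 : ℝ) • ((hess A b x)⁻¹ *ᵥ ((sc A b x)ᵀ *ᵥ w)) := by
    rw [correct, grad_sub, h1, neg_one_smul, sub_eq_add_neg]
  have h3 := newton_dir hA hx ((sc A b x)ᵀ *ᵥ w)
  have h4 : nrm (sc A b x *ᵥ ((hess A b x)⁻¹ *ᵥ ((sc A b x)ᵀ *ᵥ w))) ≤ δ := by
    rw [hess_eq, ← proj_mulVec_eq]
    exact ((isProj_proj _).nrm_le w).trans h2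
  have h5 := newton_slack x ((hess A b x)⁻¹ *ᵥ ((sc A b x)ᵀ *ᵥ w)) hx (-1)
  rw [← e] at h5
  generalize sc A b x *ᵥ ((hess A b x)⁻¹ *ᵥ ((sc A b x)ᵀ *ᵥ w)) = q at h3 h4 h5
  have h6 : ∀ j, 0 < 1 - -1 * q j := fun j => by
    linarith only [hδ, h4, (abs_le.1 ((abs_le_nrm q j).trans h4)).1]
  refine ⟨fun j => (h5 j).symm ▸ mul_pos (hx j) (h6 j), fun j => q j ^ 2, ?_, ?_⟩
  · rw [newton_om x, add_sub_right_comm, h1, ← h3, sc_transpose_mulVec, sc_transpose_mulVec,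
      ← mulVec_add]
    refine congrArg _ (funext fun j => ?_)
    have := (hx j).ne'
    have : 1 + q j ≠ 0 := ne_of_gt (by linarith [h6 j])
    rw [Pi.add_apply, h5, neg_one_mul, sub_neg_eq_add]
    field_simp
    ring
  · rw [← n4_sq_eq_nrm]
    exact pow_le_pow_left₀ (n4_nonneg _) ((n4_le_nrm q).trans h4) 2

theorem stepLen_pos (p : ℝ × (Fin n → ℝ)) : 0 < stepLen A b c p := by
  unfold stepLen
  positivity

theorem stepLen_le (p : ℝ × (Fin n → ℝ)) : stepLen A b c p ≤ 1 / 10 := by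
  exact div_le_self (by norm_num) (one_le_pow₀ one_le_two)

theorem newton_step (p : ℝ × (Fin n → ℝ)) : stepLen A b c p =
    (1 / 10) / 2 ^ Nat.clog 16 ⌈n4 (sc A b p.2 *ᵥ dir A b c p) ^ 4⌉₊ := by
  simp only [stepLen, n4_pow, sc_mulVec]

theorem newton_pow (k : ℕ) : ((16 ^ k : ℕ) : ℝ) = (2 ^ k) ^ 4 := by
  rw [pow_right_comm]
  norm_num

theorem stepLen_mul_le (p : ℝ × (Fin n → ℝ)) :
    stepLen A b c p * n4 (sc A b p.2 *ᵥ dir A b c p) ≤ 1 / 10 := by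
  rw [newton_step, div_mul_eq_mul_div, div_le_iff₀ (by positivity)]
  refine mul_le_mul_of_nonneg_left
    (le_of_pow_le_pow_left₀ (by norm_num : 4 ≠ 0) (by positivity) ?_) (by norm_num)
  rw [← newton_pow]
  exact (Nat.le_ceil _).trans (Nat.cast_le.2 (Nat.le_pow_clog (by norm_num) _))

theorem le_stepLen_mul (p : ℝ × (Fin n → ℝ)) :
    1 / 10 ≤ stepLen A b c p * (1 + 2 * n4 (sc A b p.2 *ᵥ dir A b c p)) := by
  rw [newton_step, div_mul_eq_mul_div, le_div_iff₀ (by positivity)]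
  refine mul_le_mul_of_nonneg_left ?_ (by norm_num)
  have h0 := n4_nonneg (sc A b p.2 *ᵥ dir A b c p)
  generalize n4 (sc A b p.2 *ᵥ dir A b c p) = t at h0
  rcases h : Nat.clog 16 ⌈t ^ 4⌉₊ with _ | k
  · linarith only [h0]
  · have h1 : 16 ^ k < ⌈t ^ 4⌉₊ := (Nat.lt_clog_iff_pow_lt (by norm_num)).1 (by omega)
    have h2 := Nat.lt_ceil.1 h1
    rw [newton_pow] at h2
    have h3 := lt_of_pow_lt_pow_left₀ 4 h0 h2
    rw [pow_succ]
    linarith only [h3]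

theorem near_predict (hA : Inj A) {lam a : ℝ} {x : Fin n → ℝ} (h : Near A b c (1 / 100) lam x)
    (h0 : 0 ≤ a) (h1 : a ≤ stepLen A b c (lam, x)) :
    Near A b c (21 / 1000) ((1 + a) * lam) (x + a • dir A b c (lam, x)) := by
  obtain ⟨hx, w, h2, h3⟩ := h
  have h4 : (sc A b x)ᵀ *ᵥ (sc A b x *ᵥ dir A b c (lam, x)) = lam • c := newton_dir hA hx _
  have h5 := newton_slack x (dir A b c (lam, x)) hx a
  have h6 := (mul_le_mul_of_nonneg_right h1 (n4_nonneg _)).trans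
    (stepLen_mul_le (A := A) (b := b) (c := c) (lam, x))
  dsimp only at h6
  generalize sc A b x *ᵥ dir A b c (lam, x) = q at h4 h5 h6
  have h7 : ∀ j, |a * q j| ≤ 1 / 10 := fun j => by
    rw [abs_mul, abs_of_nonneg h0]
    exact (mul_le_mul_of_nonneg_left (abs_le_n4 q j) h0).trans h6
  have h8 : ∀ j, 0 < 1 - a * q j := fun j => by linarith only [h7, (abs_le.1 (h7 j)).2]
  refine ⟨fun j => (h5 j).symm ▸ mul_pos (hx j) (h8 j),
    (fun j => w j * (1 - a * q j)) + fun j => (a • q) j ^ 2, ?_, (nrm_add_le _ _).trans ?_⟩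
  · rw [newton_om x, add_mul, one_mul, add_smul, add_sub_add_comm, h2, mul_smul, ← h4,
      ← mulVec_smul, sc_transpose_mulVec, sc_transpose_mulVec, sc_transpose_mulVec, ← mulVec_sub,
      ← mulVec_add]
    refine congrArg _ (funext fun j => ?_)
    have := (hx j).ne'
    have := (h8 j).ne'
    simp only [Pi.add_apply, Pi.sub_apply, Pi.smul_apply, smul_eq_mul, h5]
    field_simp
    ring
  · have h9 : (nrm fun j => w j * (1 - a * q j)) ≤ nrm ((11 / 10 : ℝ) • w) := nrm_mono fun j => by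
      rw [Pi.smul_apply, smul_eq_mul, abs_mul, abs_mul, mul_comm]
      refine mul_le_mul_of_nonneg_right ?_ (abs_nonneg _)
      rw [abs_of_pos (h8 j), abs_of_pos (by norm_num)]
      linarith only [h7, (abs_le.1 (h7 j)).1]
    rw [nrm_smul, abs_of_pos (by norm_num)] at h9
    rw [← n4_sq_eq_nrm, n4_smul, abs_of_nonneg h0]
    linarith only [h3, h9, h0, h6, pow_le_pow_left₀ (mul_nonneg h0 (n4_nonneg q)) h6 2]

theorem near_iter (hA : Inj A) (hb : ∀ j, 0 < b j) (hc : c ≠ 0) (i : ℕ) :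
    0 < (iter A b c i).1 ∧ Near A b c (1 / 100) (iter A b c i).1 (iter A b c i).2 ∧
      Inter A b (predict A b c (iter A b c i)).2 := by
  have key : ∀ i, 0 < (iter A b c i).1 ∧ Near A b c (1 / 100) (iter A b c i).1 (iter A b c i).2 := by
    intro i
    induction i with
    | zero =>
      have hs : ∀ j, slack A b 0 j = b j := fun j => by simp [slack]
      have hx : Inter A b 0 := fun j => (hs j).symm ▸ hb j
      have h1 := newton_dir hA hx c
      have h2 : ∑ j, |(A *ᵥ ((hess A b 0)⁻¹ *ᵥ c)) j / b j| =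
          ∑ j, |(sc A b 0 *ᵥ ((hess A b 0)⁻¹ *ᵥ c)) j| := by simp only [sc_mulVec, hs]
      simp only [iter, h2]
      generalize sc A b 0 *ᵥ ((hess A b 0)⁻¹ *ᵥ c) = q at h1
      have h3 := nrm_le_sum_abs q
      have h4 : 0 < ∑ j, |q j| :=
        (nrm_pos fun h => hc (by rw [← h1, h, mulVec_zero])).trans_le h3
      refine ⟨by positivity, hx, -((1 / 100 / ∑ j, |q j|) • q), ?_, ?_⟩
      · rw [mulVec_neg, mulVec_smul, h1, ← grad_sub, sub_self, zero_sub]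
      · rw [nrm_neg, nrm_smul, abs_of_pos (by positivity), div_mul_eq_mul_div, div_le_iff₀ h4]
        linarith only [h3]
    | succ i ih =>
      have h1 := stepLen_pos (A := A) (b := b) (c := c) (iter A b c i)
      obtain ⟨h2, w, h3, h4⟩ := near_correct hA (near_predict hA ih.2 h1.le le_rfl) (by norm_num)
      exact ⟨mul_pos (by linarith) ih.1, h2, w, h3, h4.trans (by norm_num)⟩
  exact ⟨(key i).1, (key i).2, (near_predict hA (key i).2 (stepLen_pos _).le le_rfl).1⟩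

end Pool.Agent.Work.MP_6af739_lc
end

-- merged part: Pool.Agent.Work.MP_6af739_lc.Close
section
/-!
Closeness to the path, comparison of tangents, lower bound for the step length.

close. e := s_y/s_x - 1. Aᵀ (1/s_x - 1/s_y) = Mᵀ w. Pair with x - y (A (x - y) = s_y - s_x):
sum e^2/(1+e) = w · e ≤ δ nrm e, and 0 < 1 + e_j ≤ 1 + nrm e, so nrm e ^2/(1 + nrm e) ≤ δ nrm e.

qv_eq. c = Aᵀ om = Mᵀ vz (om_j = vz_j / s_j needs b j ≠ 0), then proj_mulVec_eq and hess_eq.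

tangent. e := s_y/s_x - 1, |e_j| ≤ 1/5. p = M_x z, p' = M_y z', z = H_x⁻¹ c, z' = H_y⁻¹ c.
M_x z' = (1+e) p', M_xᵀ p = c = M_yᵀ p' = M_xᵀ (p'/(1+e)). So d := p - (1+e) p' = M_x (z - z')
equals proj M_x (p'/(1+e) - (1+e) p'); nrm d ≤ nrm (g p') with |g_j| ≤ (11/4) |e_j|, so
nrm d ≤ (11/4) n4 e n4 p' (nrm_mul_le_n4, nrm_mono). n4 p ≤ (6/5) n4 p' + nrm d ≤ 2 n4 p'.

step_lower. Write l = (1+a) lam with 0 ≤ a ≤ stepLen, x' = x + a dir. near_predict and close give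
nrm (s_y/s_x' - 1) ≤ 21/979; s_x' = s_x (1 - a q) with a n4 q ≤ 1/10, so
s_y/s_x - 1 = e' (1 - a q) - a q has n4 ≤ 1.1 * 21/979 + 1/10 ≤ 1/5. M_x dir = lam • p,
qv y = l • p' (qv_eq), so n4 (M_x dir) ≤ 2 n4 (qv y); finish with le_stepLen_mul.
-/

namespace Pool.Agent.Work.MP_6af739_lc

open Matrix Finset MeasureTheory ProbabilityTheory
open Pool.Agent.Work.MP_6a50bc_pr
open Pool.Agent.Work.MP_5c5849_an (sg av)
open scoped ENNReal

variable {m n : ℕ} {A : Matrix (Fin m) (Fin n) ℝ} {b : Fin m → ℝ} {c : Fin n → ℝ}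

theorem close {δ lam : ℝ} {x y : Fin n → ℝ} (h : Near A b c δ lam x) (hy : Sol A b (lam • c) y)
    (hδ : δ < 1) : (nrm fun j => slack A b y j / slack A b x j - 1) ≤ δ / (1 - δ) := by
  obtain ⟨hx, w, hw, hn⟩ := h
  set e : Fin m → ℝ := fun j => slack A b y j / slack A b x j - 1 with he
  let t : Fin m → ℝ := fun j => (slack A b y j - slack A b x j) *
    ((slack A b x j)⁻¹ - (slack A b y j)⁻¹)
  have h0 : Aᵀ *ᵥ (om A b x - om A b y - fun j => w j / slack A b x j) = 0 := by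
    rw [mulVec_sub, mulVec_sub, hy.2, hw, sc_transpose_mulVec, sub_self]
  have h1 : ∑ j, t j = e ⬝ᵥ w := by
    have h2 := congrArg (fun v => (x - y) ⬝ᵥ v) h0
    simp only [dotProduct_zero] at h2
    rw [dotProduct_mulVec, vecMul_transpose, dotProduct] at h2
    rw [← sub_eq_zero, dotProduct, ← sum_sub_distrib, ← h2]
    refine sum_congr rfl fun j _ => ?_
    have h3 : (A *ᵥ (x - y)) j = slack A b y j - slack A b x j := by
      rw [mulVec_sub, slack_apply, slack_apply, Pi.sub_apply]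
      ring
    have := (hx j).ne'
    simp only [h3, t, he, om, Pi.sub_apply]
    field_simp
    ring
  have hN := nrm_nonneg e
  have h4 : nrm e ^ 2 ≤ (1 + nrm e) * (nrm e * δ) := by
    refine le_trans ?_ (mul_le_mul_of_nonneg_left (h1.trans_le ((dot_le e w).trans
      (mul_le_mul_of_nonneg_left hn hN))) (by linarith only [hN]))
    rw [nrm_sq, dotProduct, mul_sum]
    refine sum_le_sum fun j _ => ?_
    have a1 := hx j
    have a2 := hy.1 j
    have a3 : t j = (slack A b y j - slack A b x j) ^ 2 / (slack A b x j * slack A b y j) := by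
      simp only [t]
      field_simp
    have a4 : e j * e j = (1 + e j) * t j := by
      simp only [t, he]
      field_simp
      ring
    rw [a4]
    exact mul_le_mul_of_nonneg_right (by linarith only [(abs_le.1 (abs_le_nrm e j)).2])
      (by rw [a3]; positivity)
  have hδ0 : 0 ≤ δ := (nrm_nonneg w).trans hn
  rw [le_div_iff₀ (by linarith)]
  rcases hN.eq_or_lt with h5 | h5
  · rw [← h5, zero_mul]
    exact hδ0
  · refine le_of_mul_le_mul_left ?_ h5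
    linarith only [h4]

theorem qv_eq (hA : Inj A) (hb : ∀ j, 0 < b j) {x : Fin n → ℝ} (hx : Sol A b c x) :
    qv A b x = sc A b x *ᵥ ((hess A b x)⁻¹ *ᵥ c) := by
  rw [qv, proj_mulVec_eq, ← hess_eq, sc_transpose_mulVec, ← hx.2]
  congr 3
  funext j
  have h1 := (hx.1 j).ne'
  have h2 := (hb j).ne'
  have h3 : (A *ᵥ x) j = b j - slack A b x j := by rw [slack_apply]; ring
  simp only [vz, om, h3]
  field_simp

theorem tangent (hA : Inj A) {x y : Fin n → ℝ} (hx : Inter A b x) (hy : Inter A b y)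
    (h : (n4 fun j => slack A b y j / slack A b x j - 1) ≤ 1 / 5) :
    n4 (sc A b x *ᵥ ((hess A b x)⁻¹ *ᵥ c)) ≤ 2 * n4 (sc A b y *ᵥ ((hess A b y)⁻¹ *ᵥ c)) := by
  have hc : ∀ u, Inter A b u → (sc A b u)ᵀ *ᵥ (sc A b u *ᵥ ((hess A b u)⁻¹ *ᵥ c)) = c := by
    intro u hu
    rw [mulVec_mulVec, ← hess_eq, mulVec_mulVec, mul_nonsing_inv _ (hA.hess_det hu).isUnit,
      one_mulVec]
  set z := (hess A b x)⁻¹ *ᵥ c
  set z' := (hess A b y)⁻¹ *ᵥ c
  set p' := sc A b y *ᵥ z' with hp'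
  set e : Fin m → ℝ := fun j => slack A b y j / slack A b x j - 1 with he
  have hb : ∀ j, |e j| ≤ 1 / 5 := fun j => (abs_le_n4 e j).trans h
  have h1 : sc A b x *ᵥ z' = fun j => (1 + e j) * p' j := by
    funext j
    have := (hx j).ne'
    have := (hy j).ne'
    simp only [hp', he, sc_mulVec]
    field_simp
    ring
  have h2 : (sc A b x)ᵀ *ᵥ (fun j => p' j / (1 + e j)) = c := by
    rw [← hc y hy, sc_transpose_mulVec, sc_transpose_mulVec]
    congr 1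
    funext j
    have := (hx j).ne'
    have := (hy j).ne'
    simp only [he, add_sub_cancel]
    field_simp
    rfl
  have h3 : sc A b x *ᵥ (z - z') =
      proj (sc A b x) *ᵥ ((fun j => p' j / (1 + e j)) - fun j => (1 + e j) * p' j) := by
    rw [← proj_mulVec (hA.sc hx).det_ne_zero (z - z'), proj_mulVec_eq, proj_mulVec_eq,
      mulVec_sub (sc A b x), mulVec_sub (sc A b x)ᵀ, mulVec_sub (sc A b x)ᵀ, hc x hx, h2, h1]
  have h4 : nrm (sc A b x *ᵥ (z - z')) ≤ 11 / 4 * (n4 e * n4 p') := by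
    rw [h3]
    refine ((isProj_proj _).nrm_le _).trans (le_trans ?_
      (mul_le_mul_of_nonneg_left (nrm_mul_le_n4 e p') (by norm_num)))
    rw [← abs_of_pos (show (0 : ℝ) < 11 / 4 by norm_num), ← nrm_smul]
    refine nrm_mono fun j => ?_
    obtain ⟨b1, b2⟩ := abs_le.1 (hb j)
    have b3 : 0 < 1 + e j := by linarith only [b1]
    have b4 : p' j / (1 + e j) - (1 + e j) * p' j = -((2 + e j) / (1 + e j)) * (e j * p' j) := by
      field_simp
      ring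
    simp only [Pi.sub_apply, Pi.smul_apply, smul_eq_mul, b4]
    rw [abs_mul, abs_mul (11 / 4), abs_neg]
    refine mul_le_mul_of_nonneg_right ?_ (abs_nonneg _)
    rw [abs_of_pos (div_pos (by linarith only [b3]) b3), abs_of_pos (by norm_num), div_le_iff₀ b3]
    linarith only [b1, b3]
  have h5 : n4 (sc A b x *ᵥ z') ≤ 6 / 5 * n4 p' := by
    rw [h1, ← abs_of_pos (show (0 : ℝ) < 6 / 5 by norm_num), ← n4_smul]
    refine n4_mono fun j => ?_
    obtain ⟨b1, b2⟩ := abs_le.1 (hb j)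
    simp only [Pi.smul_apply, smul_eq_mul, abs_mul]
    refine mul_le_mul_of_nonneg_right ?_ (abs_nonneg _)
    rw [abs_of_pos (by linarith only [b1]), abs_of_pos (by norm_num)]
    linarith only [b2]
  have h6 := n4_add_le (sc A b x *ᵥ z') (sc A b x *ᵥ (z - z'))
  rw [← mulVec_add, add_sub_cancel] at h6
  have h7 := n4_le_nrm (sc A b x *ᵥ (z - z'))
  have h8 := mul_le_mul_of_nonneg_right h (n4_nonneg p')
  linarith only [h4, h5, h6, h7, h8, n4_nonneg p']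

theorem step_lower (hA : Inj A) (hb : ∀ j, 0 < b j) {lam l : ℝ} {x y : Fin n → ℝ}
    (h : Near A b c (1 / 100) lam x) (h0 : 0 < lam) (h1 : lam ≤ l)
    (h2 : l ≤ (1 + stepLen A b c (lam, x)) * lam) (hy : Sol A b (l • c) y) :
    1 / 10 ≤ stepLen A b c (lam, x) * (1 + 4 * n4 (qv A b y)) := by
  obtain ⟨a, rfl⟩ : ∃ a, l = (1 + a) * lam := ⟨l / lam - 1, by field_simp; ring⟩
  have a0 : 0 ≤ a := by
    have := le_of_mul_le_mul_right ((one_mul lam).trans_le h1) h0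
    linarith
  have a1 : a ≤ stepLen A b c (lam, x) := by
    have := le_of_mul_le_mul_right h2 h0
    linarith
  have hp := near_predict hA h a0 a1
  have hc := (n4_le_nrm _).trans (close hp hy (by norm_num))
  set q := sc A b x *ᵥ dir A b c (lam, x) with hq
  set x' := x + a • dir A b c (lam, x) with hx'
  set e : Fin m → ℝ := fun j => slack A b y j / slack A b x' j - 1 with he
  have q1 : n4 (a • q) ≤ 1 / 10 := by
    rw [n4_smul, abs_of_nonneg a0]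
    exact (mul_le_mul_of_nonneg_right a1 (n4_nonneg q)).trans (stepLen_mul_le (lam, x))
  have h3 : (fun j => slack A b y j / slack A b x j - 1) =
      (fun j => (1 - (a • q) j) * e j) + (-1 : ℝ) • (a • q) := by
    funext j
    have b1 := (h.1 j).ne'
    have b2 := (hp.1 j).ne'
    have b3 : 1 - (a • q) j = slack A b x' j / slack A b x j := by
      rw [eq_div_iff b1, Pi.smul_apply, hq, sc_mulVec, hx', slack_apply A b (x + _), mulVec_add,
        mulVec_smul, smul_eq_mul, sub_mul, mul_assoc, div_mul_cancel₀ _ b1, slack_apply]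
      simp only [Pi.add_apply, Pi.smul_apply, smul_eq_mul]
      ring
    have b4 : (a • q) j = 1 - slack A b x' j / slack A b x j := by rw [← b3]; ring
    rw [Pi.add_apply, Pi.smul_apply (-1 : ℝ), b3, b4]
    simp only [he, smul_eq_mul]
    field_simp
    ring
  have h4 : n4 (fun j => (1 - (a • q) j) * e j) ≤ 11 / 10 * n4 e := by
    rw [← abs_of_pos (show (0 : ℝ) < 11 / 10 by norm_num), ← n4_smul]
    refine n4_mono fun j => ?_
    obtain ⟨b1, b2⟩ := abs_le.1 ((abs_le_n4 (a • q) j).trans q1)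
    rw [Pi.smul_apply (11 / 10 : ℝ), smul_eq_mul, abs_mul, abs_mul]
    refine mul_le_mul_of_nonneg_right ?_ (abs_nonneg _)
    rw [abs_of_pos (by linarith only [b2]), abs_of_pos (by norm_num)]
    linarith only [b1]
  have h5 := tangent (c := ((1 + a) * lam) • c) hA h.1 hy.1 (by
    rw [h3]
    refine (n4_add_le _ _).trans ?_
    rw [n4_smul (a • q), abs_neg, abs_one]
    linarith only [hc, q1, h4])
  rw [← qv_eq hA hb hy, mul_smul, mulVec_smul, mulVec_smul, n4_smul,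
    abs_of_nonneg (by linarith only [a0])] at h5
  have h6 : n4 q ≤ 2 * n4 (qv A b y) :=
    (le_mul_of_one_le_left (n4_nonneg q) (by linarith only [a0])).trans h5
  refine (le_stepLen_mul (A := A) (b := b) (c := c) (lam, x)).trans
    (mul_le_mul_of_nonneg_left ?_ (stepLen_pos _).le)
  show 1 + 2 * n4 q ≤ _
  linarith only [h6]

end Pool.Agent.Work.MP_6af739_lc
end

-- merged part: Pool.Agent.Work.MP_6af739_lc.DetF
section
/-!
Determinant formula. Let X = Gtᵀ Gt, γ_i = Gtᵀ v_i, B_ij = γ_i · X⁻¹ γ_j = v_i · proj Gt v_j,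
Xh = block diagonal (1, X) on Fin (n+1), Uh = the (n+1) × 4 matrix with columns e0, (0,γ0), (0,γ1),
(0,γ2). Then Mᵀ M = Xh + Uh C Uhᵀ with the symmetric 4 × 4 matrix C: C00 = v1·v1/r^2 - 1,
C(0,γ0) = -θ v1·v2/r, C(0,γ1) = 1/r, C(γ0,γ0) = θ^2 v2·v2, C(γ0,γ2) = -θ, other entries 0.
Matrix.det_add_mul gives det (MᵀM) = det X * det (1 + C Uhᵀ Xh⁻¹ Uh), Uhᵀ Xh⁻¹ Uh = diag (1, B).
Expand the 4 × 4 determinant (det_succ_row_zero, Fin.sum_univ_succ). With C_ij = v_i·v_j - B_ij it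
equals ρ0 / r^2, ρ0 = |(1 - θ B02) f1 + θ B01 f2|^2 + θ^2 B00 (C11 C22 - C12^2), f_i = co v_i, and
rho = (v0·v1)^2 ρ0 because co ψ = ε f1 + θ E f2 and nu = E (1 - θ B02) - ε B01 (uses hθ).
It may be easier to reindex Fin (n+1) by Unit ⊕ Fin n or Option (Fin n) first.
det_zero_of: a kernel vector z of Gt gives the kernel vector Fin.cons 0 z of mM (inj_of_det).
-/

namespace Pool.Agent.Work.MP_6af739_lc

open Matrix Finset MeasureTheory ProbabilityTheory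
open Pool.Agent.Work.MP_6a50bc_pr
open Pool.Agent.Work.MP_5c5849_an (sg av)
open scoped ENNReal

variable {m n : ℕ} {r θ ε : ℝ} {Gt : Matrix (Fin m) (Fin n) ℝ} {v0 v1 v2 : Fin m → ℝ}

theorem mM_mulVec (t : ℝ) (z : Fin n → ℝ) :
    mM r θ Gt v0 v1 v2 *ᵥ Fin.cons t z = (t / r) • v1 + Gt *ᵥ z - (θ * (v0 ⬝ᵥ Gt *ᵥ z)) • v2 := by
  have h : (Gt - θ • vecMulVec v2 (v0 ᵥ* Gt)) *ᵥ z = Gt *ᵥ z - (θ * (v0 ⬝ᵥ Gt *ᵥ z)) • v2 := by
    rw [sub_mulVec, smul_mulVec, vecMulVec_mulVec, dotProduct_mulVec, op_smul_eq_smul, smul_smul]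
  rw [add_sub_assoc, ← h]
  funext j
  simp only [mM, mulVec, dotProduct, of_apply, Fin.sum_univ_succ, Fin.cons_zero, Fin.cons_succ,
    Pi.add_apply, Pi.smul_apply, smul_eq_mul]
  ring

theorem mM_transpose_mulVec (w : Fin m → ℝ) :
    (mM r θ Gt v0 v1 v2)ᵀ *ᵥ w =
      Fin.cons (v1 ⬝ᵥ w / r) (Gtᵀ *ᵥ w - (θ * (v2 ⬝ᵥ w)) • Gtᵀ *ᵥ v0) := by
  have h : (Gt - θ • vecMulVec v2 (v0 ᵥ* Gt))ᵀ *ᵥ w =
      Gtᵀ *ᵥ w - (θ * (v2 ⬝ᵥ w)) • Gtᵀ *ᵥ v0 := by
    rw [transpose_sub, transpose_smul, transpose_vecMulVec, sub_mulVec, smul_mulVec,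
      vecMulVec_mulVec, op_smul_eq_smul, smul_smul, mulVec_transpose Gt v0]
  rw [← h]
  funext i
  refine Fin.cases ?_ (fun i => rfl) i
  simp only [mM, mulVec, dotProduct, of_apply, transpose_apply, Fin.cons_zero, sum_div]
  exact sum_congr rfl fun j _ => by ring

theorem det_zero_of (hG : (Gtᵀ * Gt).det = 0) :
    ((mM r θ Gt v0 v1 v2)ᵀ * mM r θ Gt v0 v1 v2).det = 0 := by
  by_contra h
  refine Inj.det_ne_zero (fun z hz => ?_) hG
  have h1 := inj_of_det h (Fin.cons 0 z) (by rw [mM_mulVec, hz]; simp)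
  exact funext fun i => congrFun h1 i.succ

theorem DetF_rank {ι κ : Type*} [Fintype ι] [Fintype κ] [DecidableEq ι] [DecidableEq κ]
    (N X : Matrix ι ι ℝ) (U V : κ → ι → ℝ)
    (h : ∀ x, N *ᵥ x = X *ᵥ (x + ∑ k, (V k ⬝ᵥ x) • U k)) :
    N.det = X.det * (1 + Matrix.of fun k l => V k ⬝ᵥ U l).det := by
  have h1 : N = X * (1 + (Matrix.of U)ᵀ * Matrix.of V) := ext_iff_mulVec.2 fun x => by
    rw [h, ← mulVec_mulVec, add_mulVec, one_mulVec, ← mulVec_mulVec, mulVec_transpose,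
      vecMul_eq_sum]
    rfl
  rw [h1, det_mul, det_one_add_mul_comm]
  rfl

/-- block diagonal matrix `(1, X)` -/
def DetF_blk (X : Matrix (Fin n) (Fin n) ℝ) : Matrix (Fin (n + 1)) (Fin (n + 1)) ℝ :=
  Matrix.of (Fin.cons (Fin.cons 1 0) fun i => Fin.cons 0 (X i))

theorem DetF_blk_det (X : Matrix (Fin n) (Fin n) ℝ) : (DetF_blk X).det = X.det := by
  rw [det_succ_row_zero, Fin.sum_univ_succ]
  simp only [DetF_blk, of_apply, Fin.cons_zero, Fin.cons_succ, Pi.zero_apply, mul_zero, zero_mul,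
    sum_const_zero, add_zero, Fin.val_zero, pow_zero, one_mul]
  rfl

theorem DetF_blk_mulVec (X : Matrix (Fin n) (Fin n) ℝ) (t : ℝ) (z : Fin n → ℝ) :
    DetF_blk X *ᵥ Fin.cons t z = Fin.cons t (X *ᵥ z) := by
  funext i
  refine Fin.cases ?_ (fun i => ?_) i <;> simp [DetF_blk, mulVec, dotProduct, Fin.sum_univ_succ]

theorem DetF_dot (s t : ℝ) (y z : Fin n → ℝ) :
    (Fin.cons s y : Fin (n + 1) → ℝ) ⬝ᵥ Fin.cons t z = s * t + y ⬝ᵥ z := by
  simp [dotProduct, Fin.sum_univ_succ]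

theorem DetF_four (a b c d e f g h i j k l : ℝ) :
    Matrix.det !![a, b, c, d; e, f, g, h; i, 0, 1, 0; 0, j, k, l] =
      a * (f * l - h * j) - e * (b * l - d * j) +
        i * (b * (g * l - h * k) - c * (f * l - h * j) + d * (f * k - g * j)) := by
  simp [det_succ_row_zero, Fin.sum_univ_succ, Fin.succAbove]
  ring

theorem det_formula (hr : r ≠ 0) (hG : (Gtᵀ * Gt).det ≠ 0) (hθ : θ * (v0 ⬝ᵥ v2) + ε = 1) :
    ((mM r θ Gt v0 v1 v2)ᵀ * mM r θ Gt v0 v1 v2).det * (r ^ 2 * (v0 ⬝ᵥ v1) ^ 2) =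
      (Gtᵀ * Gt).det * rho (proj Gt) v0 v1 (ε • v1 + (θ * (v0 ⬝ᵥ v1)) • v2) := by
  obtain ⟨y, hy⟩ : ∃ y : (Fin m → ℝ) → Fin n → ℝ, ∀ v, y v = (Gtᵀ * Gt)⁻¹ *ᵥ (Gtᵀ *ᵥ v) :=
    ⟨_, fun _ => rfl⟩
  have hP := isProj_proj Gt
  have h1 : ∀ v, Gtᵀ *ᵥ (Gt *ᵥ y v) = Gtᵀ *ᵥ v := fun v => by
    rw [hy, ← proj_mulVec_eq, transpose_mulVec_proj hG]
  have h2 : ∀ v z, Gtᵀ *ᵥ v ⬝ᵥ z = v ⬝ᵥ Gt *ᵥ z := fun v z => by
    rw [dotProduct_mulVec, mulVec_transpose]
  have h3 : ∀ v w, Gtᵀ *ᵥ v ⬝ᵥ y w = v ⬝ᵥ proj Gt *ᵥ w := fun v w => by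
    rw [h2, hy, proj_mulVec_eq]
  have h4 : ∀ v w, v ⬝ᵥ proj Gt *ᵥ w = w ⬝ᵥ proj Gt *ᵥ v := fun v w => by
    rw [hP.dot_symm, dotProduct_comm]
  rw [DetF_rank _ (DetF_blk (Gtᵀ * Gt))
    ![Fin.cons 1 0, Fin.cons 0 (y v0), Fin.cons 0 (y v1), Fin.cons 0 (y v2)]
    ![Fin.cons (v1 ⬝ᵥ v1 / r ^ 2 - 1) (r⁻¹ • Gtᵀ *ᵥ v1 - (θ * (v1 ⬝ᵥ v2) / r) • Gtᵀ *ᵥ v0),
      Fin.cons (-(θ * (v1 ⬝ᵥ v2) / r)) ((θ ^ 2 * (v2 ⬝ᵥ v2)) • Gtᵀ *ᵥ v0 - θ • Gtᵀ *ᵥ v2),
      Fin.cons r⁻¹ 0, Fin.cons 0 ((-θ) • Gtᵀ *ᵥ v0)] fun x => ?_]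
  · have h5 : co (proj Gt) (ε • v1 + (θ * (v0 ⬝ᵥ v1)) • v2) =
        ε • co (proj Gt) v1 + (θ * (v0 ⬝ᵥ v1)) • co (proj Gt) v2 := by
      simp only [co_eq, mulVec_add, mulVec_smul]
    have h6 : ∀ v w, co (proj Gt) v ⬝ᵥ co (proj Gt) w = v ⬝ᵥ w - v ⬝ᵥ proj Gt *ᵥ w := fun v w => by
      rw [hP.co_dot_co, co, dotProduct_sub]
    have h7 : ∀ v, co (proj Gt) v ⬝ᵥ v0 = v0 ⬝ᵥ v - v0 ⬝ᵥ proj Gt *ᵥ v := fun v => by
      rw [dotProduct_comm, co, dotProduct_sub]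
    rw [DetF_blk_det, mul_assoc]
    congr 1
    simp only [rho, nu, aa, b01, h5, add_dotProduct, dotProduct_add, smul_dotProduct,
      dotProduct_smul, smul_eq_mul, h6, h7]
    rw [eq_sub_of_add_eq' hθ, h4 v1 v0, h4 v2 v1, dotProduct_comm v2 v1]
    refine Eq.trans (congrArg (· * _) ((congrArg det ?_).trans (DetF_four (v1 ⬝ᵥ v1 / r ^ 2)
      ((v0 ⬝ᵥ proj Gt *ᵥ v1 - θ * (v1 ⬝ᵥ v2) * (v0 ⬝ᵥ proj Gt *ᵥ v0)) / r)
      ((v1 ⬝ᵥ proj Gt *ᵥ v1 - θ * (v1 ⬝ᵥ v2) * (v0 ⬝ᵥ proj Gt *ᵥ v1)) / r)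
      ((v1 ⬝ᵥ proj Gt *ᵥ v2 - θ * (v1 ⬝ᵥ v2) * (v0 ⬝ᵥ proj Gt *ᵥ v2)) / r)
      (-(θ * (v1 ⬝ᵥ v2) / r))
      (1 + θ ^ 2 * (v2 ⬝ᵥ v2) * (v0 ⬝ᵥ proj Gt *ᵥ v0) - θ * (v0 ⬝ᵥ proj Gt *ᵥ v2))
      (θ ^ 2 * (v2 ⬝ᵥ v2) * (v0 ⬝ᵥ proj Gt *ᵥ v1) - θ * (v1 ⬝ᵥ proj Gt *ᵥ v2))
      (θ ^ 2 * (v2 ⬝ᵥ v2) * (v0 ⬝ᵥ proj Gt *ᵥ v2) - θ * (v2 ⬝ᵥ proj Gt *ᵥ v2))
      r⁻¹ (-θ * (v0 ⬝ᵥ proj Gt *ᵥ v0)) (-θ * (v0 ⬝ᵥ proj Gt *ᵥ v1))
      (1 - θ * (v0 ⬝ᵥ proj Gt *ᵥ v2))))) ?_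
    · ext k l
      fin_cases k <;> fin_cases l <;>
        simp [DetF_dot, h3, h4 v1 v0, h4 v2 v0, h4 v2 v1] <;> ring
    · field_simp
      ring
  · rw [← Fin.cons_self_tail x]
    generalize x 0 = t
    generalize Fin.tail x = z
    have h5 : ∀ s : Fin 4 → ℝ, (Fin.cons t z : Fin (n + 1) → ℝ) + ∑ k, s k •
        (![Fin.cons 1 0, Fin.cons 0 (y v0), Fin.cons 0 (y v1), Fin.cons 0 (y v2)] :
          Fin 4 → Fin (n + 1) → ℝ) k =
        Fin.cons (t + s 0) (z + s 1 • y v0 + s 2 • y v1 + s 3 • y v2) := fun s => by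
      funext i
      refine Fin.cases ?_ (fun i => ?_) i <;> simp [Fin.sum_univ_four, add_assoc]
    rw [h5, DetF_blk_mulVec, ← mulVec_mulVec, mM_mulVec, mM_transpose_mulVec, ← mulVec_mulVec]
    simp only [cons_val_zero, Matrix.cons_val, DetF_dot, mulVec_add, mulVec_sub, mulVec_smul,
      h1, h2, dotProduct_add, dotProduct_sub, dotProduct_smul, sub_dotProduct, smul_dotProduct,
      smul_eq_mul, zero_dotProduct, dotProduct_comm v2 v1]
    congr 1
    · ring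
    · module

end Pool.Agent.Work.MP_6af739_lc
end

-- merged part: Pool.Agent.Work.MP_6af739_lc.Basis
section
/-!
Bases. Let D = ind B (symmetric, D D = D), M = D A, so Aᵀ D A = Mᵀ M and
Q := D A (Aᵀ D A)⁻¹ Aᵀ D = proj M.
proj_ind: D Q = Q = Q D, so D - Q is IsProj with trace card B - n = 0 (trace_proj), hence zero
(IsProj.eq_zero_of_trace). tight: D A candX = Q b = D b. candY_add: A i = Aᵀ D e_i so
candY changes by t Q e_i = t e_i. candY_dual: Aᵀ D A (..)⁻¹ c = c. passes_correct: weak duality.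
strict_unique: for x = candX B, x' = candX B': c·x - c·x' = y·(b - A x') ≥ 0 and symmetrically,
so both vanish; y > 0 on B forces b - A x' = 0 on B, so B ⊆ B'; same cardinality or symmetry.
candX and candY only depend on the rows in B (ind B * zr A j = ind B * A if j is not in B; write
Aᵀ D A = (D A)ᵀ (D A)).
guess_eq: let x* = candX, y* = candY, s* = slack x*, s = slack y, u = A y.
Aᵀ (om - lam y*) = 0 paired with y - x*: sum s*/s + lam sum y* s + sum s/b = m + sum s*/b ≤ D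
(y* s* = 0 termwise). So s_k ≥ t/D off B and s_j ≤ D/(lam t') ≤ s_k/2 on B. By close with
δ = 1/100, slack x j < slack x k for j in B, k off B. Then for j in B the set of i with
slack x i ≤ slack x j is inside B, and for k off B it contains insert k B.
-/

namespace Pool.Agent.Work.MP_6af739_lc

open Matrix Finset MeasureTheory ProbabilityTheory
open Pool.Agent.Work.MP_6a50bc_pr
open Pool.Agent.Work.MP_5c5849_an (sg av)
open scoped ENNReal

variable {m n : ℕ} {A : Matrix (Fin m) (Fin n) ℝ} {b : Fin m → ℝ} {c : Fin n → ℝ}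

lemma basis_ind_mulVec (B : Finset (Fin m)) (v : Fin m → ℝ) (j : Fin m) :
    (ind B *ᵥ v) j = if j ∈ B then v j else 0 := by
  rw [ind, Matrix.mulVec_diagonal]
  split_ifs <;> simp

lemma basis_ind_transpose (B : Finset (Fin m)) : (ind B)ᵀ = ind B := Matrix.diagonal_transpose _

lemma basis_ind_mul (B : Finset (Fin m)) : ind B * ind B = ind B := by
  rw [ind, Matrix.diagonal_mul_diagonal]
  congr 1
  funext j
  split_ifs <;> simp

lemma basis_gram (A : Matrix (Fin m) (Fin n) ℝ) (B : Finset (Fin m)) :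
    (ind B * A)ᵀ * (ind B * A) = Aᵀ * ind B * A := by
  rw [Matrix.transpose_mul, basis_ind_transpose, Matrix.mul_assoc, ← Matrix.mul_assoc (ind B),
    basis_ind_mul, Matrix.mul_assoc]

lemma basis_trace (B : Finset (Fin m)) : (ind B).trace = B.card := by
  simp [ind, Matrix.trace_diagonal]

lemma basis_dot (A : Matrix (Fin m) (Fin n) ℝ) (y : Fin m → ℝ) (x : Fin n → ℝ) :
    (Aᵀ *ᵥ y) ⬝ᵥ x = y ⬝ᵥ A *ᵥ x := by
  rw [Matrix.dotProduct_mulVec, Matrix.mulVec_transpose]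

theorem proj_ind {B : Finset (Fin m)} (hd : (Aᵀ * ind B * A).det ≠ 0) (hB : B.card = n) :
    ind B * A * (Aᵀ * ind B * A)⁻¹ * Aᵀ * ind B = ind B := by
  have h1 : proj (ind B * A) = ind B * A * (Aᵀ * ind B * A)⁻¹ * Aᵀ * ind B := by
    rw [proj, basis_gram, Matrix.transpose_mul, basis_ind_transpose, ← Matrix.mul_assoc]
  have h2 := isProj_proj (ind B * A)
  have h3 := trace_proj (M := ind B * A) (by rwa [basis_gram])
  rw [h1] at h2 h3
  have h4 : ind B * (ind B * A * (Aᵀ * ind B * A)⁻¹ * Aᵀ * ind B) =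
      ind B * A * (Aᵀ * ind B * A)⁻¹ * Aᵀ * ind B := by
    simp only [← Matrix.mul_assoc, basis_ind_mul]
  have h5 : ind B * A * (Aᵀ * ind B * A)⁻¹ * Aᵀ * ind B * ind B =
      ind B * A * (Aᵀ * ind B * A)⁻¹ * Aᵀ * ind B := by
    rw [Matrix.mul_assoc _ (ind B) (ind B), basis_ind_mul]
  generalize ind B * A * (Aᵀ * ind B * A)⁻¹ * Aᵀ * ind B = Q at h2 h3 h4 h5 ⊢
  have h6 : IsProj (ind B - Q) := ⟨by rw [Matrix.transpose_sub, basis_ind_transpose, h2.symm], by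
    rw [Matrix.sub_mul, Matrix.mul_sub, Matrix.mul_sub, basis_ind_mul, h4, h5, h2.idem, sub_self,
      sub_zero]⟩
  have h7 := h6.eq_zero_of_trace (by
    rw [Matrix.trace_sub, basis_trace, h3, hB, Fintype.card_fin, sub_self])
  exact (sub_eq_zero.1 h7).symm

theorem tight {B : Finset (Fin m)} (hd : (Aᵀ * ind B * A).det ≠ 0) (hB : B.card = n) {j : Fin m}
    (hj : j ∈ B) : (A *ᵥ candX A b B) j = b j := by
  have h1 : ind B *ᵥ (A *ᵥ candX A b B) = ind B *ᵥ b := by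
    conv_rhs => rw [← proj_ind hd hB]
    simp only [candX, Matrix.mulVec_mulVec, Matrix.mul_assoc]
  have h2 := congrFun h1 j
  rwa [basis_ind_mulVec, basis_ind_mulVec, if_pos hj, if_pos hj] at h2

theorem candY_off {B : Finset (Fin m)} {j : Fin m} (hj : j ∉ B) : candY A c B j = 0 := by
  rw [candY, basis_ind_mulVec, if_neg hj]

theorem candY_dual {B : Finset (Fin m)} (hd : (Aᵀ * ind B * A).det ≠ 0) :
    Aᵀ *ᵥ candY A c B = c := by
  rw [candY, Matrix.mulVec_mulVec, Matrix.mulVec_mulVec, Matrix.mulVec_mulVec,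
    Matrix.mul_nonsing_inv _ (Ne.isUnit hd), Matrix.one_mulVec]

theorem candY_add {B : Finset (Fin m)} (hd : (Aᵀ * ind B * A).det ≠ 0) (hB : B.card = n)
    {i : Fin m} (hi : i ∈ B) (t : ℝ) :
    candY A (c + t • A i) B = candY A c B + t • (Pi.single i 1 : Fin m → ℝ) := by
  have h1 : ind B *ᵥ (Pi.single i 1 : Fin m → ℝ) = Pi.single i 1 := by
    funext j
    rw [basis_ind_mulVec]
    split_ifs with hj
    · rfl
    · rw [Pi.single_eq_of_ne (by rintro rfl; exact hj hi)]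
  have h2 : A i = Aᵀ *ᵥ (ind B *ᵥ (Pi.single i 1 : Fin m → ℝ)) := by
    rw [h1, Matrix.mulVec_single_one]
    rfl
  have h3 : ind B *ᵥ (A *ᵥ ((Aᵀ * ind B * A)⁻¹ *ᵥ A i)) = Pi.single i 1 := by
    conv_rhs => rw [← h1, ← proj_ind hd hB]
    rw [h2]
    simp only [Matrix.mulVec_mulVec, Matrix.mul_assoc]
  simp only [candY, Matrix.mulVec_add, Matrix.mulVec_smul, h3]

theorem candY_smul (B : Finset (Fin m)) (t : ℝ) : candY A (t • c) B = t • candY A c B := by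
  simp only [candY, Matrix.mulVec_smul]

lemma basis_ind_zr {B : Finset (Fin m)} {j : Fin m} (hj : j ∉ B) : ind B * zr A j = ind B * A := by
  ext i k
  rw [ind, Matrix.diagonal_mul, Matrix.diagonal_mul]
  by_cases h : i = j
  · subst h
    simp [hj]
  · rw [zr, Matrix.updateRow_ne h]

lemma basis_zr_lt (hb : ∀ j, 0 < b j) (j k : Fin m) {x : Fin n → ℝ} (h : (A *ᵥ x) k < b k) :
    (zr A j *ᵥ x) k < b k := by
  by_cases hk : k = j
  · subst hk
    simpa [zr, Matrix.mulVec] using hb k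
  · simpa [zr, Matrix.mulVec, Matrix.updateRow_ne hk] using h

theorem gram_zr {B : Finset (Fin m)} {j : Fin m} (hj : j ∉ B) :
    (zr A j)ᵀ * ind B * zr A j = Aᵀ * ind B * A := by
  rw [← basis_gram, basis_ind_zr hj, basis_gram]

theorem candX_zr {B : Finset (Fin m)} {j : Fin m} (hj : j ∉ B) :
    candX (zr A j) b B = candX A b B := by
  have h1 : (zr A j)ᵀ * ind B = Aᵀ * ind B := by
    have := congrArg Matrix.transpose (basis_ind_zr (A := A) hj)
    rwa [Matrix.transpose_mul, Matrix.transpose_mul, basis_ind_transpose] at this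
  rw [candX, candX, gram_zr hj, Matrix.mulVec_mulVec b, Matrix.mulVec_mulVec b, h1,
    Matrix.mulVec_mulVec b, Matrix.mulVec_mulVec b]

theorem candY_zr {B : Finset (Fin m)} {j : Fin m} (hj : j ∉ B) :
    candY (zr A j) c B = candY A c B := by
  rw [candY, candY, gram_zr hj, Matrix.mulVec_mulVec _ (ind B), Matrix.mulVec_mulVec _ (ind B),
    basis_ind_zr hj]

theorem Strict.zr (hb : ∀ j, 0 < b j) {B : Finset (Fin m)} (h : Strict A b c B) {j : Fin m}
    (hj : j ∉ B) : Strict (zr A j) b c B := by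
  obtain ⟨⟨h1, h2, h3⟩, h4⟩ := h
  refine ⟨⟨by rwa [gram_zr hj], h2, fun k hk => ?_⟩, fun k hk => ?_⟩
  · rw [candX_zr hj]
    exact basis_zr_lt hb j k (h3 k hk)
  · rw [candY_zr hj]
    exact h4 k hk

theorem Strict.passes {B : Finset (Fin m)} (h : Strict A b c B) : Passes A b c B := by
  obtain ⟨⟨h1, h2, h3⟩, h4⟩ := h
  refine ⟨fun j => ?_, fun j => ?_, candY_dual h1, ?_⟩
  · by_cases hj : j ∈ B
    · exact (tight h1 h2 hj).le
    · exact (h3 j hj).le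
  · by_cases hj : j ∈ B
    · exact (h4 j hj).le
    · exact (candY_off hj).ge
  · conv_rhs => rw [← candY_dual (c := c) h1, basis_dot]
    refine Finset.sum_congr rfl fun j _ => ?_
    by_cases hj : j ∈ B
    · rw [tight h1 h2 hj, mul_comm]
    · rw [candY_off hj, mul_zero, zero_mul]

theorem passes_correct {B : Finset (Fin m)} (h : Passes A b c B) :
    Correct A b c (some (candX A b B)) := by
  obtain ⟨h1, h2, h3, h4⟩ := h
  refine ⟨h1, fun x' hx' => ?_⟩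
  rw [← h4]
  conv_lhs => rw [← h3, basis_dot]
  refine Finset.sum_le_sum fun j _ => ?_
  rw [mul_comm (b j)]
  exact mul_le_mul_of_nonneg_left (hx' j) (h2 j)

theorem strict_unique {B B' : Finset (Fin m)} (h : Strict A b c B) (h' : Strict A b c B') :
    B = B' := by
  obtain ⟨p1, p2, p3, p4⟩ := h.passes
  have q := h'.passes
  have h1 := (passes_correct q).2 _ p1
  have h2 : c ⬝ᵥ candX A b B' = candY A c B ⬝ᵥ A *ᵥ candX A b B' := by
    conv_lhs => rw [← p3, basis_dot]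
  have h3 : ∀ j ∈ (univ : Finset (Fin m)), 0 ≤ candY A c B j * (b j - (A *ᵥ candX A b B') j) :=
    fun j _ => mul_nonneg (p2 j) (sub_nonneg.2 (q.1 j))
  have h4 : ∑ j, candY A c B j * (b j - (A *ᵥ candX A b B') j) =
      b ⬝ᵥ candY A c B - candY A c B ⬝ᵥ A *ᵥ candX A b B' := by
    rw [dotProduct, dotProduct, ← Finset.sum_sub_distrib]
    exact Finset.sum_congr rfl fun j _ => by ring
  have h5 := (Finset.sum_eq_zero_iff_of_nonneg h3).1
    (le_antisymm (by rw [h4]; linarith) (Finset.sum_nonneg h3))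
  refine Finset.eq_of_subset_of_card_le (fun j hj => ?_) (by rw [h.1.2.1, h'.1.2.1])
  by_contra hj'
  exact (mul_pos (h.2 j hj) (sub_pos.2 (h'.1.2.2 j hj'))).ne' (h5 j (mem_univ j))

theorem guess_eq (hb : ∀ j, 0 < b j) {B : Finset (Fin m)} (h : Strict A b c B) {lam t t' D : ℝ}
    {x y : Fin n → ℝ} (hx : Near A b c (1 / 100) lam x) (hy : Sol A b (lam • c) y)
    (hlam : 0 < lam) (ht : 0 < t) (ht' : 0 < t') (hD0 : 0 < D)
    (hs : ∀ j ∉ B, t ≤ slack A b (candX A b B) j) (hy' : ∀ j ∈ B, t' ≤ candY A c B j)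
    (hD : m + ∑ j, slack A b (candX A b B) j / b j ≤ D) (hl : 2 * D ^ 2 ≤ lam * t * t') :
    guess A b x = B := by
  obtain ⟨p1, p2, p3, -⟩ := h.passes
  obtain ⟨⟨h1, h2, -⟩, -⟩ := h
  have hs0 : ∀ j, 0 ≤ slack A b (candX A b B) j := fun j => by
    rw [slack_apply]
    exact sub_nonneg.2 (p1 j)
  have hcs : ∀ j, candY A c B j * slack A b (candX A b B) j = 0 := fun j => by
    by_cases hj : j ∈ B
    · rw [slack_apply, tight h1 h2 hj, sub_self, mul_zero]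
    · rw [candY_off hj, zero_mul]
  have h3 : (om A b y - lam • candY A c B) ⬝ᵥ A *ᵥ (y - candX A b B) = 0 := by
    rw [← basis_dot, Matrix.mulVec_sub, Matrix.mulVec_smul, hy.2, p3, sub_self, zero_dotProduct]
  have h4 : ∑ j, (slack A b (candX A b B) j / slack A b y j + slack A b y j / b j +
      lam * (candY A c B j * slack A b y j)) ≤ D := by
    refine le_trans (le_of_eq ?_) hD
    have h5 : (m : ℝ) = ∑ _j : Fin m, (1 : ℝ) := by simp
    rw [h5, ← Finset.sum_add_distrib, ← sub_eq_zero, ← Finset.sum_sub_distrib, ← h3]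
    refine Finset.sum_congr rfl fun j _ => ?_
    have e1 : (A *ᵥ (y - candX A b B)) j = slack A b (candX A b B) j - slack A b y j := by
      rw [Matrix.mulVec_sub, slack_apply, slack_apply, Pi.sub_apply]
      ring
    have e2 := (hy.1 j).ne'
    have e3 : slack A b y j * (slack A b y j)⁻¹ = 1 := mul_inv_cancel₀ e2
    rw [e1, Pi.sub_apply, Pi.smul_apply, smul_eq_mul, om]
    simp only [div_eq_mul_inv]
    linear_combination lam * hcs j + e3
  have h5 : ∀ j, slack A b (candX A b B) j / slack A b y j ≤ D ∧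
      lam * (candY A c B j * slack A b y j) ≤ D := by
    have a1 : ∀ j, 0 ≤ slack A b (candX A b B) j / slack A b y j := fun j =>
      div_nonneg (hs0 j) (hy.1 j).le
    have a2 : ∀ j, 0 ≤ slack A b y j / b j := fun j => div_nonneg (hy.1 j).le (hb j).le
    have a3 : ∀ j, 0 ≤ lam * (candY A c B j * slack A b y j) := fun j =>
      mul_nonneg hlam.le (mul_nonneg (p2 j) (hy.1 j).le)
    intro j
    have a4 := (Finset.single_le_sum (f := fun j => slack A b (candX A b B) j / slack A b y j +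
      slack A b y j / b j + lam * (candY A c B j * slack A b y j))
      (fun j _ => add_nonneg (add_nonneg (a1 j) (a2 j)) (a3 j)) (mem_univ j)).trans h4
    exact ⟨by linarith only [a4, a2, a3, a2 j, a3 j], by linarith only [a4, a1, a2, a1 j, a2 j]⟩
  have h6 : ∀ j, 98 * slack A b x j ≤ 99 * slack A b y j ∧ 99 * slack A b y j ≤ 100 * slack A b x j := by
    intro j
    have a1 := (abs_le_nrm _ j).trans (close hx hy (by norm_num))
    have a2 := hx.1 j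
    rw [abs_le] at a1
    obtain ⟨a3, a4⟩ := a1
    rw [le_sub_iff_add_le, le_div_iff₀ a2] at a3
    rw [sub_le_iff_le_add, div_le_iff₀ a2] at a4
    norm_num at a3 a4
    exact ⟨by linarith only [a3], by linarith only [a4]⟩
  have h7 : ∀ j ∈ B, ∀ k ∉ B, slack A b x j < slack A b x k := by
    intro j hj k hk
    have a1 : t ≤ D * slack A b y k := (hs k hk).trans ((div_le_iff₀ (hy.1 k)).1 (h5 k).1)
    have a2 : lam * (t' * slack A b y j) ≤ D :=
      (mul_le_mul_of_nonneg_left (mul_le_mul_of_nonneg_right (hy' j hj) (hy.1 j).le) hlam.le).trans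
        (h5 j).2
    have a3 : 0 < lam * t' := mul_pos hlam ht'
    have a4 : D * (2 * D) ≤ D * (lam * t' * slack A b y k) := by
      have := mul_le_mul_of_nonneg_left a1 a3.le
      linarith only [hl, this]
    have a5 := le_of_mul_le_mul_left a4 hD0
    have a6 : 2 * slack A b y j ≤ slack A b y k := le_of_mul_le_mul_left (by linarith only [a2, a5]) a3
    linarith only [a6, h6, hy, (h6 j).1, (h6 k).2, hy.1 k]
  ext j
  rw [guess, Finset.mem_filter]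
  simp only [mem_univ, true_and]
  by_cases hj : j ∈ B
  · refine iff_of_true ?_ hj
    refine (Finset.card_le_card fun i hi => ?_).trans h2.le
    by_contra hi'
    exact absurd (Finset.mem_filter.1 hi).2 (not_le.2 (h7 j hj i hi'))
  · refine iff_of_false (not_le.2 ?_) hj
    have a1 : n < (insert j B).card := by
      rw [Finset.card_insert_of_notMem hj]
      omega
    refine a1.trans_le (Finset.card_le_card fun i hi => Finset.mem_filter.2 ⟨mem_univ i, ?_⟩)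
    rcases Finset.mem_insert.1 hi with rfl | hi
    · exact le_rfl
    · exact (h7 i hi j hj).le

end Pool.Agent.Work.MP_6af739_lc
end

-- merged part: Pool.Agent.Work.MP_6af739_lc.Exist
section
/-!
Existence of a strict basis for a bounded program in general position.

Step 1 (vertex above a point). Let act x be the set of tight rows of a feasible x. Call J spanning if
A d = 0 on J forces d = 0. Claim: every feasible x is dominated (c·x ≤ c·x') by a feasible x' with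
act x' spanning. Strong induction on m - card (act x): if d ≠ 0 kills the rows of act x, replace d by
-d so that c·d ≥ 0, and if c·d = 0 so that some (A d)_j > 0 (A d ≠ 0 by Inj). If c·d > 0 some
(A d)_j > 0 as well, otherwise x + τ d is feasible for all τ ≥ 0 and the objective is unbounded.
Move by τ = min over (A d)_j > 0 of slack_j/(A d)_j: act grows strictly.
Step 2. A spanning J contains a spanning B with card n: take B ⊆ J spanning of least cardinality;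
if card B > n the rows are dependent (LinearIndependent.fintype_card_le_finrank,
Fintype.not_linearIndependent_iff) and one row can be removed; spanning means Inj (ind B * A), so
the determinant is nonzero (Inj.det_ne_zero) and n = trace of proj (ind B * A) ≤ card B.
Then x' = candX B (normal equations).
Step 3. Among the finitely many B with card n, nonzero determinant and feasible candX take one
maximising c · candX (nonempty by steps 1, 2 from x = 0); it is optimal. GenPos gives strict slacks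
off B and candY j ≠ 0 on B. If candY i < 0, the direction d = -(Aᵀ D A)⁻¹ (A i) has A d = -e_i on B
(proj_ind) and c·d = -candY i > 0; a small step is feasible, contradiction.
-/

namespace Pool.Agent.Work.MP_6af739_lc

open Matrix Finset MeasureTheory ProbabilityTheory
open Pool.Agent.Work.MP_6a50bc_pr
open Pool.Agent.Work.MP_5c5849_an (sg av)
open scoped ENNReal

variable {m n : ℕ} {A : Matrix (Fin m) (Fin n) ℝ} {b : Fin m → ℝ} {c : Fin n → ℝ}

/-- One pivot: the set of rows with nonzero slack shrinks. -/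
lemma exist_step {x d : Fin n → ℝ} (hx : ∀ j, (A *ᵥ x) j ≤ b j)
    (hd : ∀ j, (A *ᵥ x) j = b j → (A *ᵥ d) j = 0) (hc : 0 ≤ c ⬝ᵥ d) (hj : ∃ j, 0 < (A *ᵥ d) j) :
    ∃ x', (∀ j, (A *ᵥ x') j ≤ b j) ∧ c ⬝ᵥ x ≤ c ⬝ᵥ x' ∧
      (univ.filter fun j => (A *ᵥ x') j ≠ b j) ⊂ univ.filter fun j => (A *ᵥ x) j ≠ b j := by
  obtain ⟨j₁, h1⟩ := hj
  obtain ⟨i, hi, hm⟩ := (univ.filter fun j => 0 < (A *ᵥ d) j).exists_min_image
    (fun j => (b j - (A *ᵥ x) j) / (A *ᵥ d) j) ⟨j₁, mem_filter.2 ⟨mem_univ _, h1⟩⟩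
  have hi' := (mem_filter.1 hi).2
  set τ := (b i - (A *ᵥ x) i) / (A *ᵥ d) i with hτ
  have h0 : 0 ≤ τ := div_nonneg (sub_nonneg.2 (hx i)) hi'.le
  have e : ∀ j, (A *ᵥ (x + τ • d)) j = (A *ᵥ x) j + τ * (A *ᵥ d) j := fun j => by
    rw [mulVec_add, mulVec_smul]
    rfl
  refine ⟨x + τ • d, fun j => ?_, ?_, fun j hj => ?_, fun h => ?_⟩
  · rw [e]
    rcases lt_or_ge 0 ((A *ᵥ d) j) with h | h
    · have h2 := (le_div_iff₀ h).1 (hm j (mem_filter.2 ⟨mem_univ _, h⟩))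
      linarith only [h2]
    · have h2 := mul_nonpos_of_nonneg_of_nonpos h0 h
      linarith [hx j]
  · rw [dotProduct_add, dotProduct_smul, smul_eq_mul]
    linarith [mul_nonneg h0 hc]
  · refine mem_filter.2 ⟨mem_univ _, fun h => (mem_filter.1 hj).2 ?_⟩
    rw [e, hd j h, h, mul_zero, add_zero]
  · refine (mem_filter.1 (h (mem_filter.2 ⟨mem_univ i, fun h2 => hi'.ne' (hd i h2)⟩))).2 ?_
    rw [e, hτ, div_mul_cancel₀ _ hi'.ne']
    ring

lemma exist_dir (hM : ∃ M : ℝ, ∀ x : Fin n → ℝ, (∀ j, (A *ᵥ x) j ≤ b j) → c ⬝ᵥ x ≤ M)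
    {x d : Fin n → ℝ} (hx : ∀ j, (A *ᵥ x) j ≤ b j) (hc : 0 < c ⬝ᵥ d) : ∃ j, 0 < (A *ᵥ d) j := by
  by_contra h
  obtain ⟨M, hM⟩ := hM
  have h0 : 0 ≤ (M - c ⬝ᵥ x) / c ⬝ᵥ d + 1 :=
    add_nonneg (div_nonneg (sub_nonneg.2 (hM x hx)) hc.le) zero_le_one
  have h1 := hM (x + ((M - c ⬝ᵥ x) / c ⬝ᵥ d + 1) • d) fun j => by
    rw [mulVec_add, mulVec_smul, Pi.add_apply, Pi.smul_apply, smul_eq_mul]
    have h2 := mul_nonpos_of_nonneg_of_nonpos h0 (not_lt.1 fun h3 => h ⟨j, h3⟩)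
    linarith only [h2, hx, hx j]
  rw [dotProduct_add, dotProduct_smul, smul_eq_mul, add_mul, div_mul_cancel₀ _ hc.ne'] at h1
  linarith

/-- A vertex above every feasible point. -/
lemma exist_vertex (hA : Inj A)
    (hM : ∃ M : ℝ, ∀ x : Fin n → ℝ, (∀ j, (A *ᵥ x) j ≤ b j) → c ⬝ᵥ x ≤ M)
    (x : Fin n → ℝ) (hx : ∀ j, (A *ᵥ x) j ≤ b j) :
    ∃ x', (∀ j, (A *ᵥ x') j ≤ b j) ∧ c ⬝ᵥ x ≤ c ⬝ᵥ x' ∧
      ∀ d, (∀ j, (A *ᵥ x') j = b j → (A *ᵥ d) j = 0) → d = 0 := by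
  induction hk : (univ.filter fun j => (A *ᵥ x) j ≠ b j).card using Nat.strong_induction_on
    generalizing x with
  | _ k ih =>
    by_cases h : ∀ d, (∀ j, (A *ᵥ x) j = b j → (A *ᵥ d) j = 0) → d = 0
    · exact ⟨x, hx, le_rfl, h⟩
    push Not at h
    obtain ⟨d, hd, hd0⟩ := h
    have hd' : ∀ j, (A *ᵥ x) j = b j → (A *ᵥ (-d)) j = 0 := fun j hj => by
      rw [mulVec_neg, Pi.neg_apply, hd j hj, neg_zero]
    have key : ∃ d, (∀ j, (A *ᵥ x) j = b j → (A *ᵥ d) j = 0) ∧ 0 ≤ c ⬝ᵥ d ∧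
        ∃ j, 0 < (A *ᵥ d) j := by
      rcases lt_trichotomy (c ⬝ᵥ d) 0 with h1 | h1 | h1
      · have h2 : 0 < c ⬝ᵥ (-d) := by
          rw [dotProduct_neg]
          linarith only [h1]
        exact ⟨-d, hd', h2.le, exist_dir hM hx h2⟩
      · obtain ⟨j, hj⟩ := Function.ne_iff.1 fun h2 => hd0 (hA d h2)
        rcases lt_or_gt_of_ne hj with h3 | h3
        · refine ⟨-d, hd', by rw [dotProduct_neg, h1, neg_zero], j, ?_⟩
          rw [mulVec_neg, Pi.neg_apply]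
          exact neg_pos.2 h3
        · exact ⟨d, hd, h1.ge, j, h3⟩
      · exact ⟨d, hd, h1.le, exist_dir hM hx h1⟩
    obtain ⟨d', h1, h2, h3⟩ := key
    obtain ⟨y, a1, a2, a3⟩ := exist_step hx h1 h2 h3
    obtain ⟨z, b1, b2, b3⟩ := ih _ (hk ▸ card_lt_card a3) y a1 rfl
    exact ⟨z, b1, a2.trans b2, b3⟩

lemma exist_ind (B : Finset (Fin m)) (v : Fin m → ℝ) (j : Fin m) :
    (ind B *ᵥ v) j = if j ∈ B then v j else 0 := by
  rw [ind, mulVec_diagonal, boole_mul]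

lemma exist_gram (B : Finset (Fin m)) : (ind B * A)ᵀ * (ind B * A) = Aᵀ * ind B * A := by
  have h : ind B * ind B = ind B := by
    rw [ind, diagonal_mul_diagonal]
    refine congrArg diagonal (funext fun j => ?_)
    split_ifs <;> simp
  have h2 : (ind B)ᵀ = ind B := diagonal_transpose _
  rw [transpose_mul, h2, Matrix.mul_assoc, ← Matrix.mul_assoc (ind B), h, Matrix.mul_assoc]

/-- A spanning set of rows contains a basis. -/
lemma exist_basis {J : Set (Fin m)} (hJ : ∀ d, (∀ j ∈ J, (A *ᵥ d) j = 0) → d = 0) :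
    ∃ B : Finset (Fin m), (∀ j ∈ B, j ∈ J) ∧ B.card = n ∧ (Aᵀ * ind B * A).det ≠ 0 ∧
      ∀ d, (∀ j ∈ B, (A *ᵥ d) j = 0) → d = 0 := by
  classical
  obtain ⟨S, h1, -, h2, h3⟩ := exists_linearIndepOn_extension
    (linearIndepOn_empty ℝ (fun j => A j)) (Set.empty_subset J)
  have h4 : ∀ d, (∀ j ∈ S, (A *ᵥ d) j = 0) → d = 0 := by
    intro d hd
    refine hJ d fun j hj => ?_
    have h5 : ∀ v ∈ Submodule.span ℝ ((fun j => A j) '' S), v ⬝ᵥ d = 0 := by
      intro v hv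
      induction hv using Submodule.span_induction with
      | mem v hv =>
        obtain ⟨i, hi, rfl⟩ := hv
        exact hd i hi
      | zero => exact zero_dotProduct d
      | add u v _ _ hu hv => rw [add_dotProduct, hu, hv, add_zero]
      | smul t v _ hv => rw [smul_dotProduct, hv, smul_zero]
    exact h5 _ (h2 ⟨j, hj, rfl⟩)
  refine ⟨S.toFinset, fun j hj => h1 (Set.mem_toFinset.1 hj), le_antisymm ?_ ?_, ?_,
    fun d hd => h4 d fun j hj => hd j (Set.mem_toFinset.2 hj)⟩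
  · have h5 := LinearIndependent.fintype_card_le_finrank h3
    rwa [Module.finrank_fin_fun, ← Set.toFinset_card] at h5
  · have h5 := LinearMap.finrank_le_finrank_of_injective
      (f := (LinearMap.funLeft ℝ ℝ (Subtype.val : S → Fin m)).comp A.mulVecLin)
      ((injective_iff_map_eq_zero _).2 fun d hd => h4 d fun j hj => congrFun hd ⟨j, hj⟩)
    rwa [Module.finrank_fin_fun, Module.finrank_fintype_fun_eq_card, ← Set.toFinset_card] at h5
  · rw [← exist_gram]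
    refine Inj.det_ne_zero fun d hd => h4 d fun j hj => ?_
    have h5 := congrFun hd j
    rwa [← mulVec_mulVec, exist_ind, if_pos (Set.mem_toFinset.2 hj)] at h5

lemma exist_cand (hA : Inj A)
    (hM : ∃ M : ℝ, ∀ x : Fin n → ℝ, (∀ j, (A *ᵥ x) j ≤ b j) → c ⬝ᵥ x ≤ M)
    (x : Fin n → ℝ) (hx : ∀ j, (A *ᵥ x) j ≤ b j) :
    ∃ B : Finset (Fin m), (B.card = n ∧ (Aᵀ * ind B * A).det ≠ 0 ∧
      ∀ j, (A *ᵥ candX A b B) j ≤ b j) ∧ c ⬝ᵥ x ≤ c ⬝ᵥ candX A b B := by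
  obtain ⟨y, h1, h2, h3⟩ := exist_vertex hA hM x hx
  obtain ⟨B, a1, a2, a3, a4⟩ := exist_basis (A := A) (J := {j | (A *ᵥ y) j = b j}) h3
  have e : candX A b B = y := sub_eq_zero.1 (a4 _ fun j hj => by
    rw [mulVec_sub, Pi.sub_apply, tight a3 a2 hj, a1 j hj, sub_self])
  exact ⟨B, ⟨a2, a3, e ▸ h1⟩, e ▸ h2⟩

theorem exists_strict (hG : GenPos A b c) (hb : ∀ j, 0 ≤ b j)
    (hM : ∃ M : ℝ, ∀ x : Fin n → ℝ, (∀ j, (A *ᵥ x) j ≤ b j) → c ⬝ᵥ x ≤ M) :
    ∃ B, Strict A b c B := by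
  classical
  obtain ⟨B₀, h0, -⟩ := exist_cand hG.1 hM 0 fun j => by
    rw [mulVec_zero]
    exact hb j
  obtain ⟨B, hB, hm⟩ := (univ.filter fun B : Finset (Fin m) => B.card = n ∧
    (Aᵀ * ind B * A).det ≠ 0 ∧ ∀ j, (A *ᵥ candX A b B) j ≤ b j).exists_max_image
    (fun B => c ⬝ᵥ candX A b B) ⟨B₀, mem_filter.2 ⟨mem_univ _, h0⟩⟩
  obtain ⟨h1, h2, h3⟩ := (mem_filter.1 hB).2
  obtain ⟨g1, g2⟩ := hG.2 B h1 h2
  have hs : ∀ j ∉ B, (A *ᵥ candX A b B) j < b j := fun j hj => lt_of_le_of_ne (h3 j) (g1 j hj)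
  refine ⟨B, ⟨h2, h1, hs⟩, fun i hi => lt_of_le_of_ne (not_lt.1 fun hy => ?_) (g2 i hi).symm⟩
  set w := (Aᵀ * ind B * A)⁻¹ *ᵥ A i with hw
  have e1 : ∀ j ∈ B, (A *ᵥ w) j = (Pi.single i 1 : Fin m → ℝ) j := by
    intro j hj
    have h4 := congrFun (candY_add (c := 0) h2 h1 hi 1) j
    simpa [candY, exist_ind, hj, hw] using h4
  have e2 : c ⬝ᵥ w = candY A c B i := by
    conv_lhs => rw [← candY_dual (c := c) h2, mulVec_transpose, ← dotProduct_mulVec, dotProduct]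
    rw [Finset.sum_eq_single i, e1 i hi, Pi.single_eq_same, mul_one]
    · intro j _ hj
      by_cases h : j ∈ B
      · rw [e1 j h, Pi.single_eq_of_ne hj, mul_zero]
      · rw [candY_off h, zero_mul]
    · exact fun h => absurd (mem_univ i) h
  have ev : ∀ᶠ ε in nhdsWithin (0 : ℝ) (Set.Ioi 0), ∀ j ∉ B,
      (A *ᵥ candX A b B) j - ε * (A *ᵥ w) j < b j := by
    refine Filter.Eventually.filter_mono nhdsWithin_le_nhds (Filter.eventually_all.2 fun j => ?_)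
    by_cases hj : j ∈ B
    · exact Filter.Eventually.of_forall fun _ h => absurd hj h
    · have hc : Continuous fun ε : ℝ => (A *ᵥ candX A b B) j - ε * (A *ᵥ w) j := by fun_prop
      have h4 := (hc.tendsto 0).eventually (gt_mem_nhds (a := b j) (by simpa using hs j hj))
      exact h4.mono fun _ h _ => h
  obtain ⟨ε, a1, a2⟩ := (ev.and self_mem_nhdsWithin).exists
  have a3 : 0 < ε := a2
  obtain ⟨B', b1, b2⟩ := exist_cand hG.1 hM (candX A b B - ε • w) fun j => by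
    rw [mulVec_sub, mulVec_smul, Pi.sub_apply, Pi.smul_apply, smul_eq_mul]
    by_cases hj : j ∈ B
    · have h4 : 0 ≤ (Pi.single i 1 : Fin m → ℝ) j := by
        rw [Pi.single_apply]
        split_ifs <;> norm_num
      rw [e1 j hj]
      linarith only [h3, a3, h4, h3 j, mul_nonneg a3.le h4]
    · exact (a1 j hj).le
  have b3 := hm B' (mem_filter.2 ⟨mem_univ _, b1⟩)
  rw [dotProduct_sub, dotProduct_smul, smul_eq_mul, e2] at b2
  linarith only [b2, b3, a3, hy, mul_neg_of_pos_of_neg a3 hy]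

end Pool.Agent.Work.MP_6af739_lc
end
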