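import Pool.Agent.Work.MP_6af739_lc.DetF
import Pool.Agent.Work.MP_6a50bc_pr.Sing
import Pool.Agent.Work.MP_5c5849_an.Span

-- merged part: Pool.Agent.Work.MP_6af739_lc.GenPosAE
section
-- merged part: Pool.Agent.Work.MP_6af739_lc.Meas
section
/-!
Measurability of the explicit quantities, for measurable families of data. The inverse of a matrix is
(Ring.inverse det) • adjugate (Matrix.inv_def, Ring.inverse_eq_inv'), det and adjugate are continuous
(Continuous.matrix_det, Continuous.matrix_adjugate) or finite sums of products. The set of Good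
matrices is closed: for fixed z the condition on the cardinality is a finite union over finsets J
with θ m ≤ card J of closed sets.
-/

namespace Pool.Agent.Work.MP_6af739_lc

open Matrix Finset MeasureTheory ProbabilityTheory
open Pool.Agent.Work.MP_6a50bc_pr
open Pool.Agent.Work.MP_5c5849_an (sg av)
open scoped ENNReal

variable {α : Type*} [MeasurableSpace α] {m n : ℕ}

/-- A family of matrices with measurable entries. -/
def MM {ι κ : Type*} (f : α → Matrix ι κ ℝ) : Prop := ∀ i j, Measurable fun a => f a i j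

/-- A family of vectors with measurable entries. -/
def MV {ι : Type*} (v : α → ι → ℝ) : Prop := ∀ i, Measurable fun a => v a i

section Aux

variable {ι κ μ : Type*} {f f' : α → Matrix ι κ ℝ} {v w : α → ι → ℝ} {r : α → ℝ}

lemma MM.const (M : Matrix ι κ ℝ) : MM fun _ : α => M := fun _ _ => measurable_const

lemma MV.const (u : ι → ℝ) : MV fun _ : α => u := fun _ => measurable_const

lemma MV.of (h : Measurable v) : MV v := fun i => (measurable_pi_apply i).comp h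

lemma MV.meas (h : MV v) : Measurable v := measurable_pi_lambda _ h

lemma MM.of {g : α → ι → κ → ℝ} (h : Measurable g) : MM fun a => Matrix.of (g a) :=
  fun i j => (measurable_pi_apply j).comp ((measurable_pi_apply i).comp h)

lemma MM.mul [Fintype κ] {g : α → Matrix κ μ ℝ} (hf : MM f) (hg : MM g) :
    MM fun a => f a * g a := fun i j => by
  simp only [Matrix.mul_apply]
  exact Finset.measurable_sum _ fun k _ => (hf i k).mul (hg k j)

lemma MM.tr (hf : MM f) : MM fun a => (f a)ᵀ := fun i j => hf j i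

lemma MM.sub (hf : MM f) (hg : MM f') : MM fun a => f a - f' a := fun i j => (hf i j).sub (hg i j)

lemma MM.smul (hr : Measurable r) (hf : MM f) : MM fun a => r a • f a := fun i j => hr.mul (hf i j)

lemma MM.row (hf : MM f) (i : ι) : MV fun a => f a i := fun j => hf i j

lemma MV.diag [DecidableEq ι] (h : MV v) : MM fun a => diagonal (v a) := fun i j => by
  simp only [diagonal_apply]
  split_ifs
  · exact h i
  · exact measurable_const

lemma MV.vv {u : α → κ → ℝ} (h : MV v) (hu : MV u) : MM fun a => vecMulVec (v a) (u a) :=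
  fun i j => (h i).mul (hu j)

lemma MV.dot [Fintype ι] (hv : MV v) (hw : MV w) : Measurable fun a => v a ⬝ᵥ w a :=
  Finset.measurable_sum _ fun k _ => (hv k).mul (hw k)

lemma MM.mv [Fintype κ] {u : α → κ → ℝ} (hf : MM f) (hu : MV u) : MV fun a => f a *ᵥ u a :=
  fun i => (hf.row i).dot hu

lemma MV.sub (hv : MV v) (hw : MV w) : MV fun a => v a - w a := fun i => (hv i).sub (hw i)

lemma MV.add (hv : MV v) (hw : MV w) : MV fun a => v a + w a := fun i => (hv i).add (hw i)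

lemma MV.smul (hr : Measurable r) (hv : MV v) : MV fun a => r a • v a := fun i => hr.mul (hv i)

lemma MV.nrm [Fintype ι] (hv : MV v) : Measurable fun a => nrm (v a) := (hv.dot hv).sqrt

lemma MM.trace [Fintype ι] {g : α → Matrix ι ι ℝ} (hg : MM g) : Measurable fun a => (g a).trace :=
  Finset.measurable_sum _ fun k _ => hg k k

lemma MM.upd [DecidableEq ι] {u : α → κ → ℝ} (hf : MM f) (k : ι) (hu : MV u) :
    MM fun a => (f a).updateRow k (u a) := fun i j => by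
  simp only [updateRow_apply]
  split_ifs
  · exact hu j
  · exact hf i j

end Aux

theorem measurable_det {κ : Type*} [Fintype κ] [DecidableEq κ] {f : α → Matrix κ κ ℝ}
    (hf : ∀ i j, Measurable fun a => f a i j) : Measurable fun a => (f a).det := by
    simp only [Matrix.det_apply']
    exact Finset.measurable_sum _ fun s _ =>
      measurable_const.mul (Finset.measurable_prod _ fun i _ => hf _ _)

theorem measurable_inv_apply {κ : Type*} [Fintype κ] [DecidableEq κ] {f : α → Matrix κ κ ℝ}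
    (hf : ∀ i j, Measurable fun a => f a i j) (i j : κ) : Measurable fun a => (f a)⁻¹ i j := by
    simp only [Matrix.inv_def, Ring.inverse_eq_inv', Matrix.smul_apply, smul_eq_mul,
      Matrix.adjugate_apply]
    exact (measurable_det hf).inv.mul (measurable_det (MM.upd hf j (MV.const _)))

theorem measurable_proj_apply {ι κ : Type*} [Fintype ι] [Fintype κ] [DecidableEq κ]
    {f : α → Matrix ι κ ℝ} (hf : ∀ i j, Measurable fun a => f a i j) (i j : ι) :
    Measurable fun a => proj (f a) i j := by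
    exact (MM.mul (MM.mul hf (measurable_inv_apply (MM.mul (MM.tr hf) hf))) (MM.tr hf)) i j

lemma MM.det {κ : Type*} [Fintype κ] [DecidableEq κ] {f : α → Matrix κ κ ℝ} (hf : MM f) :
    Measurable fun a => (f a).det := measurable_det hf

lemma MM.inv {κ : Type*} [Fintype κ] [DecidableEq κ] {f : α → Matrix κ κ ℝ} (hf : MM f) :
    MM fun a => (f a)⁻¹ := measurable_inv_apply hf

lemma MM.proj {ι κ : Type*} [Fintype ι] [Fintype κ] [DecidableEq κ] {f : α → Matrix ι κ ℝ}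
    (hf : MM f) : MM fun a => proj (f a) := measurable_proj_apply hf

lemma cont_mv (z : Fin n → ℝ) (j : Fin m) :
    Continuous fun A : Fin m → Fin n → ℝ => (Matrix.of A *ᵥ z) j := by
  simp only [mulVec, dotProduct, of_apply]
  fun_prop

lemma isClosed_good (θ : ℝ) : IsClosed {A : Fin m → Fin n → ℝ | Good (Matrix.of A) θ} := by
  classical
  have h1 : {A : Fin m → Fin n → ℝ | Good (Matrix.of A) θ} =
      (⋂ z : Fin n → ℝ, {A | (Matrix.of A *ᵥ z) ⬝ᵥ (Matrix.of A *ᵥ z) ≤ 50 * m * (z ⬝ᵥ z)}) ∩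
        ⋂ z : Fin n → ℝ, ⋃ J : {J : Finset (Fin m) // θ * m ≤ (J.card : ℝ)},
          ⋂ j ∈ J.1, {A | nrm z / 50 ≤ (Matrix.of A *ᵥ z) j} := by
    ext A
    simp only [Good, Set.mem_ofPred_eq, Set.mem_inter_iff, Set.mem_iInter, Set.mem_iUnion]
    refine and_congr Iff.rfl (forall_congr' fun z => ⟨fun h => ⟨⟨_, h⟩, fun j hj => ?_⟩, ?_⟩)
    · exact (Finset.mem_filter.1 hj).2
    · rintro ⟨J, hJ⟩
      refine J.2.trans (Nat.cast_le.2 (Finset.card_le_card fun j hj => ?_))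
      exact Finset.mem_filter.2 ⟨Finset.mem_univ _, hJ j hj⟩
  rw [h1]
  refine (isClosed_iInter fun z => isClosed_le ?_ continuous_const).inter
    (isClosed_iInter fun z => isClosed_iUnion_of_finite fun J =>
      isClosed_biInter fun j _ => isClosed_le continuous_const (cont_mv z j))
  exact continuous_finsetSum _ fun j _ => (cont_mv z j).mul (cont_mv z j)

theorem measurableSet_good {Af : α → Fin m → Fin n → ℝ} (hA : Measurable Af) (θ : ℝ) :
    MeasurableSet {a | Good (Matrix.of (Af a)) θ} := by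
    exact hA (isClosed_good θ).measurableSet

theorem measurable_zr (k : Fin m) :
    Measurable fun (a : Fin m → Fin n → ℝ) (j : Fin m) (i : Fin n) => zr (Matrix.of a) k j i := by
    exact measurable_pi_lambda _ fun j => measurable_pi_lambda _ fun i =>
      (MM.upd (MM.of measurable_id) k (MV.const 0)) j i

variable {Af : α → Fin m → Fin n → ℝ} {xf : α → Fin n → ℝ} (b : Fin m → ℝ)

section Aux2

variable {A : α → Matrix (Fin m) (Fin n) ℝ}

lemma mv_slack (hA : MM A) (hx : MV xf) : MV fun a => slack (A a) b (xf a) :=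
  (MV.const b).sub (hA.mv hx)

lemma mv_om (hA : MM A) (hx : MV xf) : MV fun a => om (A a) b (xf a) :=
  fun j => (mv_slack b hA hx j).inv.sub measurable_const

lemma mm_sc (hA : MM A) (hx : MV xf) : MM fun a => sc (A a) b (xf a) :=
  MM.mul (MV.diag fun j => (mv_slack b hA hx j).inv) hA

lemma mm_hess (hA : MM A) (hx : MV xf) : MM fun a => hess (A a) b (xf a) :=
  (hA.tr.mul (MV.diag fun j => (mv_slack b hA hx j).inv.pow_const 2)).mul hA

lemma mm_gram (hA : MM A) (B : Finset (Fin m)) : MM fun a => (A a)ᵀ * ind B * A a :=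
  (hA.tr.mul (MM.const _)).mul hA

lemma mv_candX (hA : MM A) (B : Finset (Fin m)) : MV fun a => candX (A a) b B :=
  (mm_gram hA B).inv.mv (hA.tr.mv (MV.const _))

lemma mv_candY (hA : MM A) (hx : MV xf) (B : Finset (Fin m)) : MV fun a => candY (A a) (xf a) B :=
  (MM.const _).mv (hA.mv ((mm_gram hA B).inv.mv hx))

end Aux2

lemma ms_all {ι : Type*} [Countable ι] {p : α → ι → Prop} (h : ∀ i, MeasurableSet {a | p a i}) :
    MeasurableSet {a | ∀ i, p a i} := by
  rw [Set.ofPred_forall]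
  exact MeasurableSet.iInter h

lemma ms_imp {q : Prop} {p : α → Prop} (h : MeasurableSet {a | p a}) :
    MeasurableSet {a | q → p a} := by
  by_cases hq : q
  · simpa [hq] using h
  · simp [hq]

lemma ms_and {p q : α → Prop} (h : MeasurableSet {a | p a}) (h' : MeasurableSet {a | q a}) :
    MeasurableSet {a | p a ∧ q a} := h.inter h'

lemma ms_iff {p q : α → Prop} (h : MeasurableSet {a | p a}) (h' : ∀ a, p a ↔ q a) :
    MeasurableSet {a | q a} := (funext fun a => propext (h' a) : p = q) ▸ h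

lemma ms_ne {f : α → ℝ} (h : Measurable f) : MeasurableSet {a | f a ≠ 0} :=
  (measurableSet_eq_fun h measurable_const).compl

theorem measurable_slack (hA : Measurable Af) (hx : Measurable xf) :
    Measurable fun a => slack (Matrix.of (Af a)) b (xf a) := by
    exact (mv_slack b (MM.of hA) (MV.of hx)).meas

theorem measurable_om (hA : Measurable Af) (hx : Measurable xf) :
    Measurable fun a => om (Matrix.of (Af a)) b (xf a) := by
    exact (mv_om b (MM.of hA) (MV.of hx)).meas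

theorem measurableSet_inter (hA : Measurable Af) (hx : Measurable xf) :
    MeasurableSet {a | Inter (Matrix.of (Af a)) b (xf a)} := by
    exact ms_all fun j => measurableSet_lt measurable_const (mv_slack b (MM.of hA) (MV.of hx) j)

theorem measurable_qv (hA : Measurable Af) (hx : Measurable xf) :
    Measurable fun a => qv (Matrix.of (Af a)) b (xf a) := by
    refine MV.meas ((mm_sc b (MM.of hA) (MV.of hx)).proj.mv fun j => ?_)
    exact ((MM.of hA).mv (MV.of hx) j).div_const _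

theorem measurable_nn (hA : Measurable Af) (hx : Measurable xf) :
    Measurable fun a => nn (Matrix.of (Af a)) b (xf a) := by
    have h := mv_slack b (MM.of hA) (MV.of hx)
    exact Finset.measurable_sum _ fun k _ =>
      (measurable_const.sub ((mm_sc b (MM.of hA) (MV.of hx)).proj k k)).div
        ((h k).mul (measurable_const.add (h k)))

theorem measurable_phi1 (hA : Measurable Af) (hx : Measurable xf) :
    Measurable fun a => phi1 (Matrix.of (Af a)) b (xf a) := by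
    have h := (MM.of hA).tr.mv (mv_om b (MM.of hA) (MV.of hx))
    exact ((h.dot (MV.of hx)).div h.nrm).mul (measurable_nn b hA hx)

theorem measurable_hess_apply (hA : Measurable Af) (hx : Measurable xf) (i j : Fin n) :
    Measurable fun a => hess (Matrix.of (Af a)) b (xf a) i j := by
    exact mm_hess b (MM.of hA) (MV.of hx) i j

theorem measurable_trace_inv_hess (hA : Measurable Af) (hx : Measurable xf) :
    Measurable fun a => (hess (Matrix.of (Af a)) b (xf a))⁻¹.trace := by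
    exact (mm_hess b (MM.of hA) (MV.of hx)).inv.trace

theorem measurableSet_gg (hA : Measurable Af) (hx : Measurable xf) (P lam : ℝ) :
    MeasurableSet {a | GG P lam b (Matrix.of (Af a)) (xf a)} := by
    have h0 := mv_om b (MM.of hA) (MV.of hx)
    have h := (MM.of hA).tr.mv h0
    have h1 := ms_and (measurableSet_good hA (45 / 100)) <| ms_and
      (ms_all fun k => measurableSet_le (((MM.of hA).row k).dot ((MM.of hA).row k))
        (measurable_const (a := (4 * n : ℝ)))) <| ms_and (measurableSet_inter b hA hx) <| ms_and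
      (measurableSet_le (measurable_const (a := lam * √n / 2)) h.nrm) <| ms_and
      (measurableSet_le h.nrm (measurable_const (a := 2 * (lam * √n)))) <| ms_and
      (measurableSet_le ((h.nrm.mul_const (min (al m n lam) 1)).div_const (4 * P))
        (h.dot (MV.of hx))) <| ms_and
      (ms_all fun k => measurableSet_le ((MM.of hA).mv (MV.of hx) k).abs
        (measurable_const (a := P ^ 2 * min (al m n lam) 1)))
      (ms_all fun k => measurableSet_le (h0 k) (measurable_const (a := P ^ 3 * lam / √n)))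
    refine ms_iff h1 fun _ => ?_
    exact ⟨fun ⟨a, b, c, d, e, f, g, h⟩ => ⟨a, b, c, d, e, f, g, h⟩,
      fun ⟨a, b, c, d, e, f, g, h⟩ => ⟨a, b, c, d, e, f, g, h⟩⟩

theorem measurable_candX (hA : Measurable Af) (B : Finset (Fin m)) :
    Measurable fun a => candX (Matrix.of (Af a)) b B := by
    exact (mv_candX b (MM.of hA) B).meas

theorem measurable_candY (hA : Measurable Af) (hx : Measurable xf) (B : Finset (Fin m)) :
    Measurable fun a => candY (Matrix.of (Af a)) (xf a) B := by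
    exact (mv_candY (MM.of hA) (MV.of hx) B).meas

theorem measurableSet_vtx (hA : Measurable Af) (B : Finset (Fin m)) :
    MeasurableSet {a | Vtx (Matrix.of (Af a)) b B} := by
    exact ms_and (ms_ne (mm_gram (MM.of hA) B).det) (ms_and (MeasurableSet.const _)
      (ms_all fun j => ms_imp (measurableSet_lt ((MM.of hA).mv (mv_candX b (MM.of hA) B) j)
        measurable_const)))

theorem measurableSet_strict (hA : Measurable Af) (hx : Measurable xf) (B : Finset (Fin m)) :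
    MeasurableSet {a | Strict (Matrix.of (Af a)) b (xf a) B} := by
    exact ms_and (measurableSet_vtx b hA B) (ms_all fun j => ms_imp
      (measurableSet_lt measurable_const (mv_candY (MM.of hA) (MV.of hx) B j)))

variable {pf : α → ℝ × (Fin m → ℝ)} (lam : ℝ)

lemma mv_p2 (hp : Measurable pf) : MV fun a => (pf a).2 := MV.of hp.snd

lemma mv_hs (hp : Measurable pf) : MV fun a => hs b (pf a) :=
  fun j => measurable_const.sub (hp.fst.mul (mv_p2 hp j))

lemma mv_hw (hp : Measurable pf) : MV fun a => hw b (pf a) :=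
  fun j => (mv_hs b hp j).inv.sub measurable_const

lemma m_hsig (hp : Measurable pf) : Measurable fun a => hsig b lam (pf a) :=
  (measurable_const.add (((mv_hw b hp).dot (mv_hw b hp)).div_const _)).sqrt

lemma m_hth (hp : Measurable pf) : Measurable fun a => hth b lam (pf a) :=
  measurable_const.div (measurable_const.mul
    ((m_hsig b lam hp).mul ((m_hsig b lam hp).add measurable_const)))

lemma mm_hB (hp : Measurable pf) : MM fun a => hB b lam (pf a) :=
  (MM.const 1).sub (MM.smul (m_hth b lam hp) ((mv_hw b hp).vv (mv_hw b hp)))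

lemma mm_hG (hp : Measurable pf) (hg : Measurable Af) :
    MM fun a => hG b (pf a) (Matrix.of (Af a)) :=
  MM.mul (MV.diag fun j => (mv_hs b hp j).inv) (MM.of hg)

lemma mv_h0 (hp : Measurable pf) : MV fun a => h0 b (pf a) :=
  fun j => (hp.fst.mul (mv_p2 hp j)).div_const _

lemma mv_h1 (hp : Measurable pf) : MV fun a => h1 b (pf a) :=
  fun j => (hp.fst.mul (mv_p2 hp j)).div (mv_hs b hp j)

lemma mv_h2 (hp : Measurable pf) : MV fun a => h2 b (pf a) :=
  fun j => (mv_hw b hp j).div (mv_hs b hp j)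

lemma mv_hpsi (hp : Measurable pf) : MV fun a => hpsi b lam (pf a) :=
  (MV.smul (m_hsig b lam hp).inv (mv_h1 b hp)).add
    (MV.smul ((m_hth b lam hp).mul ((mv_h0 b hp).dot (mv_h1 b hp))) (mv_h2 b hp))

section Aux3

variable {ι : Type*} [Fintype ι] {Q : α → Matrix ι ι ℝ} {v w : α → ι → ℝ}

lemma m_a0 (hQ : MM Q) (hv : MV v) : Measurable fun a => a0 (Q a) (v a) :=
  Finset.measurable_sum _ fun k _ => (hQ k k).mul ((hv k).pow_const 2)

lemma m_mpsi (hQ : MM Q) (hv : MV v) : Measurable fun a => mpsi (Q a) (v a) :=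
  Finset.measurable_sum _ fun k _ => (measurable_const.sub (hQ k k)).mul ((hv k).pow_const 2)

lemma m_nu0 (hQ : MM Q) (hv : MV v) (hw : MV w) : Measurable fun a => nu0 (Q a) (v a) (w a) :=
  Finset.measurable_sum _ fun k _ => (measurable_const.sub (hQ k k)).mul ((hw k).mul (hv k))

lemma m_zz (hQ : MM Q) (hv : MV v) (hw : MV w) (Y : ℝ) :
    Measurable fun a => zz (Q a) (v a) (w a) Y :=
  (((m_nu0 hQ hv hw).mul (measurable_const.min (m_mpsi hQ hw).sqrt)).div (m_mpsi hQ hw)).sqrt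

end Aux3

lemma ms_sign {Q : α → Matrix (Fin m) (Fin m) ℝ} {v0 v1 ψ : α → Fin m → ℝ} {σ : α → ℝ}
    (hQ : MM Q) (h0 : MV v0) (h1 : MV v1) (h2 : MV ψ) (hσ : Measurable σ) (U V Y B : ℝ) :
    MeasurableSet {a | SignHyp (Q a) (v0 a) (v1 a) (ψ a) U V Y (σ a) B} := by
  have h00 := h0.dot h0
  have h01 := h0.dot h1
  have ha := m_a0 hQ h0
  have h := ms_and (ms_all fun k => measurableSet_le (h0 k).abs (measurable_const (a := U))) <|
    ms_and (ms_all fun k => measurableSet_le (h1 k).abs (measurable_const (a := V))) <|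
    ms_and (ms_all fun k => measurableSet_le (h2 k).abs (measurable_const (a := Y))) <|
    ms_and (ms_all fun k => measurableSet_le (measurable_const (a := (0 : ℝ)))
      ((h2 k).mul (h0 k))) <|
    ms_and (ms_all fun k => measurableSet_le (measurable_const (a := (0 : ℝ)))
      ((h2 k).mul (h1 k))) <|
    ms_and (ms_all fun k => measurableSet_le ((h2 k).mul (h1 k)) (hσ.mul ((h2 k).pow_const 2))) <|
    ms_and (measurableSet_lt (measurable_const (a := (0 : ℝ))) h01) <|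
    ms_and (measurableSet_le (measurable_const (a := 24 * U ^ 2)) ha) <|
    ms_and (MeasurableSet.const (U ≤ B)) <|
    ms_and (measurableSet_le h00 (ha.const_mul B)) <|
    ms_and (measurableSet_le h00 (measurable_const (a := B ^ 2 * m))) <|
    ms_and (measurableSet_le ((h00.mul_const (m : ℝ)).mul_const (V ^ 2))
      ((h01.pow_const 2).const_mul (B ^ 2))) <|
    ms_and (measurableSet_le (h00.mul_const V) (h01.const_mul B))
      (measurableSet_le (h00.mul (hσ.mul_const Y)) (h01.const_mul B))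
  refine ms_iff h fun _ => ?_
  exact ⟨fun ⟨a, b, c, d, e, f, g, h, i, j, k, l, o, p⟩ =>
      ⟨a, b, c, d, e, f, g, h, i, j, k, l, o, p⟩,
    fun ⟨a, b, c, d, e, f, g, h, i, j, k, l, o, p⟩ => ⟨a, b, c, d, e, f, g, h, i, j, k, l, o, p⟩⟩

theorem measurable_hA (hp : Measurable pf) (hG : Measurable Af) :
    Measurable fun a => hA b lam (pf a) (Matrix.of (Af a)) := by
    refine measurable_pi_lambda _ fun j => measurable_pi_lambda _ fun i => ?_
    refine Fin.cases ?_ (fun i => ?_) i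
    · exact mv_p2 hp j
    · exact (mm_hB b lam hp).mul (MM.of hG) j i

theorem measurable_hx (hp : Measurable pf) : Measurable fun a => hx n (pf a) := by
    refine measurable_pi_lambda _ fun i => ?_
    refine Fin.cases ?_ (fun i => ?_) i
    · exact hp.fst
    · exact measurable_const

theorem measurable_hdet (hp : Measurable pf) (hG : Measurable Af) :
    Measurable fun a => hdet b lam (pf a) (Matrix.of (Af a)) := by
    exact (mm_hess b (MM.of (measurable_hA b lam hp hG)) (MV.of (measurable_hx hp))).det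

theorem measurable_hZ (hp : Measurable pf) (hG : Measurable Af) (P : ℝ) :
    Measurable fun a => hZ b lam (pf a) (Matrix.of (Af a)) P := by
    exact m_zz (mm_hG b hp hG).proj (mv_h0 b hp) (mv_hpsi b lam hp) _

theorem measurableSet_einv (hp : Measurable pf) (hG : Measurable Af) (P : ℝ) :
    MeasurableSet {a | EInv b lam (pf a) (Matrix.of (Af a)) P} := by
    exact ms_sign (mm_hG b hp hG).proj (mv_h0 b hp) (mv_h1 b hp) (mv_hpsi b lam hp)
      (m_hsig b lam hp) _ _ _ _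

theorem measurableSet_badK (hp : Measurable pf) (hG : Measurable Af) (P : ℝ) (k : Fin m) :
    MeasurableSet {a | BadK b (pf a) (Matrix.of (Af a)) P k} := by
    have h1 : MM fun a => zr (Pool.Agent.Work.MP_6af739_lc.hG b (pf a) (Matrix.of (Af a))) k :=
      (mm_hG b hp hG).upd k (MV.const 0)
    have h2 : MM fun a => hXk b (pf a) (Matrix.of (Af a)) k := h1.tr.mul h1
    exact ms_and (ms_ne h2.det) (measurableSet_lt (h2.inv.trace.const_mul _)
      (((MM.of hG).row k).dot (h2.inv.mv ((MM.of hG).row k))))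

end Pool.Agent.Work.MP_6af739_lc
end

-- merged part: Pool.Agent.Work.MP_6af739_lc.CoV
section
/-!
Change of variables from the cost to the path point, for a fixed injective A. gv_eq: see the proof of
gv_ac in Work/MP_6a50bc_pr/ConcAux.lean. The map f x = lam⁻¹ • Aᵀ om A b x is injective on the open
set s of interior points (sol_unique), has derivative lam⁻¹ • hess (hasFDerivAt_gradMap) with
determinant lam⁻¹ ^ n * det hess ≥ 0 (LinearMap.det_toLin', det_smul, hess_eq, gram_det_nonneg),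
f '' s is the set of c with Dom A b (lam • c), and X A b (lam • f x) = x (X_eq). Apply
lintegral_image_eq_lintegral_abs_det_fderiv_mul to c ↦ ofReal (dens c) * F (X A b (lam • c)), after
lintegral_withDensity_eq_lintegral_mul (measurable_X, isOpen_dom).
-/

namespace Pool.Agent.Work.MP_6af739_lc

open Matrix Finset MeasureTheory ProbabilityTheory
open Pool.Agent.Work.MP_6a50bc_pr
open Pool.Agent.Work.MP_5c5849_an (sg av)
open scoped ENNReal

variable {m n : ℕ} {A : Matrix (Fin m) (Fin n) ℝ} {b : Fin m → ℝ} {c : Fin n → ℝ}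

theorem gv_eq (κ : Type*) [Fintype κ] :
    gv κ = (volume : Measure (κ → ℝ)).withDensity fun x => ENNReal.ofReal (dens x) := by
  refine Measure.pi_eq fun s hs => ?_
  have hi : Integrable (fun x : κ → ℝ => ∏ i, gaussianPDFReal 0 1 (x i))
      (Measure.pi fun i => (volume : Measure ℝ).restrict (s i)) :=
    Integrable.fintype_prod (f := fun _ : κ => gaussianPDFReal 0 1) fun i =>
      (integrable_gaussianPDFReal 0 1).restrict
  unfold dens
  rw [withDensity_apply _ (MeasurableSet.univ_pi hs), volume_pi, Measure.restrict_pi_pi,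
    ← ofReal_integral_eq_lintegral_ofReal hi (Filter.Eventually.of_forall fun x =>
      Finset.prod_nonneg fun i _ => gaussianPDFReal_nonneg _ _ _),
    integral_fintype_prod_eq_prod (fun _ : κ => gaussianPDFReal 0 1),
    ENNReal.ofReal_prod_of_nonneg fun i _ => integral_nonneg (gaussianPDFReal_nonneg _ _)]
  refine Finset.prod_congr rfl fun i _ => ?_
  rw [gaussianReal_apply_eq_integral _ one_ne_zero]

theorem dens_eq {κ : Type*} [Fintype κ] (x : κ → ℝ) :
    dens x = (√(2 * Real.pi))⁻¹ ^ Fintype.card κ * Real.exp (-(x ⬝ᵥ x) / 2) := by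
  have h : ∀ i, gaussianPDFReal 0 1 (x i) = (√(2 * Real.pi))⁻¹ * Real.exp (-(x i * x i) / 2) := by
    intro i
    simp [gaussianPDFReal, sq]
  rw [dens, prod_congr rfl fun i _ => h i, prod_mul_distrib, prod_const, card_univ,
    ← Real.exp_sum, ← sum_div, sum_neg_distrib]
  rfl

theorem measurable_dens {κ : Type*} [Fintype κ] : Measurable fun x : κ → ℝ => dens x := by
  exact Finset.measurable_prod _ fun i _ =>
    (measurable_gaussianPDFReal 0 1).comp (measurable_pi_apply i)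

theorem change_of_var (hA : Inj A) {lam : ℝ} (hl : 0 < lam) {F : (Fin n → ℝ) → ℝ≥0∞}
    (hF : Measurable F) :
    ∫⁻ c, {c | Dom A b (lam • c)}.indicator (fun c => F (X A b (lam • c))) c ∂(gv (Fin n)) =
      ∫⁻ x, {x | Inter A b x}.indicator (fun x => F x * ENNReal.ofReal
        (dens (lam⁻¹ • Aᵀ *ᵥ om A b x) * lam⁻¹ ^ n * (hess A b x).det)) x := by
  have hs : MeasurableSet {x | Inter A b x} :=
    measurableSet_inter (Af := fun _ => Matrix.of.symm A) b measurable_const measurable_id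
  have hD : MeasurableSet {c : Fin n → ℝ | Dom A b (lam • c)} :=
    ((isOpen_dom b).preimage (f := fun c : Fin n → ℝ => (Matrix.of.symm A, lam • c))
      (by fun_prop)).measurableSet
  have hsm : ∀ x : Fin n → ℝ, lam • lam⁻¹ • Aᵀ *ᵥ om A b x = Aᵀ *ᵥ om A b x := fun x =>
    smul_inv_smul₀ hl.ne' _
  have him : (fun x => lam⁻¹ • Aᵀ *ᵥ om A b x) '' {x | Inter A b x} =
      {c : Fin n → ℝ | Dom A b (lam • c)} := by
    ext c
    constructor
    · rintro ⟨x, hx, rfl⟩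
      exact ⟨hA, x, hx, (hsm x).symm⟩
    · rintro ⟨-, x, hx, hc⟩
      exact ⟨x, hx, by simp only [hc, inv_smul_smul₀ hl.ne']⟩
  have hinj : Set.InjOn (fun x => lam⁻¹ • Aᵀ *ᵥ om A b x) {x | Inter A b x} := by
    intro x hx y hy h
    have h1 := congrArg (fun c => lam • c) h
    simp only [hsm] at h1
    exact sol_unique hA ⟨hx, h1⟩ ⟨hy, rfl⟩
  rw [lintegral_indicator hD, lintegral_indicator hs, gv_eq,
    setLIntegral_withDensity_eq_setLIntegral_mul_non_measurable _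
      measurable_dens.ennreal_ofReal _ hD (Filter.Eventually.of_forall fun _ => ENNReal.ofReal_lt_top),
    ← him, lintegral_image_eq_lintegral_abs_det_fderiv_mul volume hs
      (f := fun x => lam⁻¹ • Aᵀ *ᵥ om A b x)
      (fun x hx => ((hasFDerivAt_gradMap hx).const_smul lam⁻¹).hasFDerivWithinAt) hinj]
  refine setLIntegral_congr_fun hs fun x hx => ?_
  have h1 : (lam⁻¹ • LinearMap.toContinuousLinearMap (Matrix.toLin' (hess A b x))).det =
      lam⁻¹ ^ n * (hess A b x).det := by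
    change LinearMap.det (lam⁻¹ • Matrix.toLin' (hess A b x)) = _
    rw [LinearMap.det_smul, LinearMap.det_toLin', Module.finrank_fin_fun]
  have h2 : 0 ≤ lam⁻¹ ^ n * (hess A b x).det := by
    rw [hess_eq]
    exact mul_nonneg (by positivity) (gram_det_nonneg _)
  simp only [Pi.mul_apply]
  rw [h1, abs_of_nonneg h2, hsm, X_eq hA ⟨hx, rfl⟩, mul_assoc (dens _),
    ENNReal.ofReal_mul' h2]
  ring

end Pool.Agent.Work.MP_6af739_lc
end

-- merged part: Pool.Agent.Work.MP_6af739_lc.GaussAux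
section
/-!
Gaussian tails, anticoncentration, translation, shift. For v ≠ 0, (nrm v)⁻¹ • v · g is standard
Gaussian (mp_dot). Tail: Markov with integral_exp_dot (ConcAux.lean) or mgf of gaussianReal.
Anticoncentration: the density is at most 1. translate_le: gv_eq, translation invariance of volume
(lintegral_add_right_eq_self), dens (c + v) ≥ exp (-(R nrm v + nrm v ^2/2)) dens c (dens_eq).
lintegral_shift: same computation, dens (x - μ) = dens x exp (μ·x - μ·μ/2); for matrices pass through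
mp_uncurry, mp_curry (ip_eq_dot, fro_eq_nrm). shift_le: Cauchy-Schwarz (ENNReal.lintegral_mul_le_Lp_mul_Lq)
with E exp (2 μ·x - μ·μ) = exp (μ·μ); replace S by toMeasurable. shift_bdd: split on
ip μ a - fro^2/2 ≤ fro^2/2 + fro s; on the complement use lintegral_shift backwards: it is the event
ip μ a > fro μ * s for the unshifted a.
-/

namespace Pool.Agent.Work.MP_6af739_lc

open Matrix Finset MeasureTheory ProbabilityTheory
open Pool.Agent.Work.MP_6a50bc_pr
open Pool.Agent.Work.MP_5c5849_an (sg av)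
open scoped ENNReal

variable {ι κ : Type*} [Fintype ι] [Fintype κ]

lemma gaux_meas_dot (v : κ → ℝ) : Measurable fun g : κ → ℝ => v ⬝ᵥ g := by
  unfold dotProduct
  fun_prop

lemma gaux_meas_exp (v : κ → ℝ) (r : ℝ) :
    Measurable fun g : κ → ℝ => ENNReal.ofReal (Real.exp (v ⬝ᵥ g - r)) :=
  (Real.measurable_exp.comp ((gaux_meas_dot v).sub_const r)).ennreal_ofReal

lemma gaux_shift (v : κ → ℝ) {F : (κ → ℝ) → ℝ≥0∞} (hF : Measurable F) :
    ∫⁻ a, F (v + a) ∂(gv κ) =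
      ∫⁻ a, F a * ENNReal.ofReal (Real.exp (v ⬝ᵥ a - nrm v ^ 2 / 2)) ∂(gv κ) := by
  have hd : Measurable fun x : κ → ℝ => ENNReal.ofReal (dens x) := measurable_dens.ennreal_ofReal
  rw [gv_eq, lintegral_withDensity_eq_lintegral_mul _ hd (g := fun a => F (v + a))
      (hF.comp (measurable_const_add v)),
    lintegral_withDensity_eq_lintegral_mul _ hd (hF.fun_mul (gaux_meas_exp v _)),
    ← lintegral_add_left_eq_self (fun a => ((fun x : κ → ℝ => ENNReal.ofReal (dens x)) *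
      fun a => F a * ENNReal.ofReal (Real.exp (v ⬝ᵥ a - nrm v ^ 2 / 2))) a) v]
  refine lintegral_congr fun a => ?_
  simp only [Pi.mul_apply]
  rw [mul_comm (F _), ← mul_assoc, ← ENNReal.ofReal_mul (by
    rw [dens_eq]; positivity), dens_eq, dens_eq, mul_assoc, ← Real.exp_add, nrm_sq]
  congr 4
  simp only [add_dotProduct, dotProduct_add, dotProduct_comm a v]
  ring

lemma gaux_one (v : κ → ℝ) :
    ∫⁻ a, ENNReal.ofReal (Real.exp (v ⬝ᵥ a - nrm v ^ 2 / 2)) ∂(gv κ) = 1 := by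
  simpa using (gaux_shift v (F := fun _ => 1) measurable_const).symm

theorem tail_dot (v : κ → ℝ) {L : ℝ} (hL : 0 ≤ L) :
    gv κ {g | L * nrm v < v ⬝ᵥ g} ≤ ENNReal.ofReal (Real.exp (-L ^ 2 / 2)) := by
  rcases eq_or_ne v 0 with rfl | hv
  · simp
  have h0 := nrm_pos hv
  have h1 : nrm ((L / nrm v) • v) = L := by
    rw [nrm_smul, abs_of_nonneg (div_nonneg hL h0.le), div_mul_cancel₀ _ h0.ne']
  have h2 := gaux_one ((L / nrm v) • v)
  rw [h1] at h2
  have hm := gaux_meas_exp ((L / nrm v) • v) (L ^ 2 / 2)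
  rw [← mul_one (ENNReal.ofReal _), ← h2, ← lintegral_const_mul _ hm]
  refine meas_le_lintegral₀ (hm.const_mul _).aemeasurable fun g hg => ?_
  rw [← ENNReal.ofReal_mul (Real.exp_pos _).le, ← Real.exp_add, ENNReal.one_le_ofReal,
    Real.one_le_exp_iff, smul_dotProduct, smul_eq_mul]
  have h3 := mul_le_mul_of_nonneg_left (le_of_lt hg) (div_nonneg hL h0.le)
  have h4 : L / nrm v * (L * nrm v) = L ^ 2 := by field_simp
  linarith only [h3, h4]

theorem tail_abs_dot (v : κ → ℝ) {L : ℝ} (hL : 0 ≤ L) :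
    gv κ {g | L * nrm v < |v ⬝ᵥ g|} ≤ ENNReal.ofReal (2 * Real.exp (-L ^ 2 / 2)) := by
  have h1 := tail_dot v hL
  have h2 := tail_dot (-v) hL
  rw [two_mul, ENNReal.ofReal_add (Real.exp_pos _).le (Real.exp_pos _).le]
  refine le_trans (measure_mono fun g hg => ?_) ((measure_union_le _ _).trans (add_le_add h1 h2))
  simp only [Set.mem_ofPred_eq, Set.mem_union, nrm_neg, neg_dotProduct] at hg ⊢
  exact lt_abs.1 hg

theorem anticonc {v : κ → ℝ} (hv : v ≠ 0) (s t : ℝ) :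
    gv κ {g | s ≤ v ⬝ᵥ g ∧ v ⬝ᵥ g ≤ s + t} ≤ ENNReal.ofReal (t / nrm v) := by
  have h0 := nrm_pos hv
  have h1 : ((nrm v)⁻¹ • v) ⬝ᵥ ((nrm v)⁻¹ • v) = 1 := by
    rw [smul_dotProduct, dotProduct_smul, ← nrm_sq, smul_eq_mul, smul_eq_mul]
    field_simp
  have h2 := (mp_dot h1).measure_preimage
    (measurableSet_Icc (a := s / nrm v) (b := (s + t) / nrm v)).nullMeasurableSet
  have h3 : gaussianReal 0 1 (Set.Icc (s / nrm v) ((s + t) / nrm v)) ≤ ENNReal.ofReal (t / nrm v) := by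
    rw [gaussianReal_apply _ one_ne_zero]
    refine (lintegral_mono (g := fun _ => 1) fun x => ?_).trans (le_of_eq ?_)
    · rw [gaussianPDF, ENNReal.ofReal_le_one, gaussianPDFReal]
      refine mul_le_one₀ (inv_le_one_of_one_le₀ (Real.one_le_sqrt.2 ?_)) (Real.exp_pos _).le
        (Real.exp_le_one_iff.2 ?_)
      · push_cast
        linarith only [Real.pi_gt_three]
      · exact div_nonpos_of_nonpos_of_nonneg (neg_nonpos.2 (sq_nonneg _)) (by positivity)
    · rw [setLIntegral_one, Real.volume_Icc]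
      congr 1
      ring
  refine le_trans (measure_mono fun g hg => ?_) (h2.le.trans h3)
  simp only [Set.mem_preimage, Set.mem_Icc, smul_dotProduct, smul_eq_mul, ← div_eq_inv_mul]
  exact ⟨div_le_div_of_nonneg_right hg.1 h0.le, div_le_div_of_nonneg_right hg.2 h0.le⟩

theorem translate_le {S : Set (κ → ℝ)} (hS : MeasurableSet S) {R : ℝ} (hR : ∀ c ∈ S, nrm c ≤ R)
    (v : κ → ℝ) :
    ENNReal.ofReal (Real.exp (-(R * nrm v + nrm v ^ 2 / 2))) * gv κ S ≤
      gv κ {c | c - v ∈ S} := by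
  have hm : Measurable (S.indicator (1 : (κ → ℝ) → ℝ≥0∞)) := measurable_one.indicator hS
  have h1 : gv κ {c | c - v ∈ S} = ∫⁻ a, S.indicator 1 (-v + a) ∂(gv κ) := by
    rw [← lintegral_indicator_one (s := {c | c - v ∈ S}) ((measurable_sub_const v) hS)]
    refine lintegral_congr fun a => ?_
    rw [neg_add_eq_sub]
    rfl
  rw [h1, gaux_shift _ hm, ← lintegral_indicator_one hS, ← lintegral_const_mul _ hm]
  refine lintegral_mono fun a => ?_
  by_cases ha : a ∈ S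
  · rw [mul_comm]
    refine mul_le_mul_right (ENNReal.ofReal_le_ofReal (Real.exp_le_exp.2 ?_)) _
    have h2 := (dot_le v a).trans (mul_le_mul_of_nonneg_left (hR a ha) (nrm_nonneg v))
    rw [nrm_neg, neg_dotProduct]
    linarith only [h2]
  · simp [ha]

lemma gaux_meas_ip (μ : Matrix ι κ ℝ) : Measurable fun a : ι → κ → ℝ => ip μ (Matrix.of a) := by
  simp only [ip, Matrix.of_apply]
  fun_prop

lemma gaux_meas_E (μ : Matrix ι κ ℝ) (r : ℝ) :
    Measurable fun a : ι → κ → ℝ => ENNReal.ofReal (Real.exp (ip μ (Matrix.of a) - r)) :=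
  (Real.measurable_exp.comp ((gaux_meas_ip μ).sub_const r)).ennreal_ofReal

omit [Fintype ι] [Fintype κ] in
lemma gaux_meas_add (μ : Matrix ι κ ℝ) :
    Measurable fun (a : ι → κ → ℝ) (j : ι) (i : κ) => μ j i + a j i := by
  fun_prop

lemma gaux_ip_add (μ : Matrix ι κ ℝ) (a : ι → κ → ℝ) :
    ip μ (Matrix.of fun j i => μ j i + a j i) = fro μ ^ 2 + ip μ (Matrix.of a) := by
  rw [fro_sq, ← ip_add_right]
  rfl

theorem lintegral_shift (μ : Matrix ι κ ℝ) {F : (ι → κ → ℝ) → ℝ≥0∞} (hF : Measurable F) :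
    ∫⁻ a, F (fun j i => μ j i + a j i) ∂(gm ι κ) =
      ∫⁻ a, F a * ENNReal.ofReal (Real.exp (ip μ (Matrix.of a) - fro μ ^ 2 / 2)) ∂(gm ι κ) := by
  rw [← mp_curry.lintegral_comp (f := fun a => F fun j i => μ j i + a j i) (hF.comp (gaux_meas_add μ)),
    ← mp_curry.lintegral_comp (hF.fun_mul (gaux_meas_E μ _)), fro_eq_nrm]
  simp only [ip_eq_dot]
  exact gaux_shift (fun q : ι × κ => μ q.1 q.2) (hF.comp mp_curry.measurable)

lemma gaux_ind (μ : Matrix ι κ ℝ) {T : Set (ι → κ → ℝ)} (hT : MeasurableSet T) :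
    gm ι κ {a | (fun j i => μ j i + a j i) ∈ T} = ∫⁻ a, T.indicator 1 a *
      ENNReal.ofReal (Real.exp (ip μ (Matrix.of a) - fro μ ^ 2 / 2)) ∂(gm ι κ) := by
  rw [← lintegral_shift μ (measurable_one.indicator hT)]
  exact (lintegral_indicator_one (μ := gm ι κ) (gaux_meas_add μ hT)).symm

lemma gaux_half {x : ℝ} (hx : 0 ≤ x) : ENNReal.ofReal (x ^ 2) ^ (1 / 2 : ℝ) = ENNReal.ofReal x := by
  rw [ENNReal.ofReal_pow hx, ← ENNReal.rpow_natCast, ← ENNReal.rpow_mul]
  norm_num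

lemma gaux_le (μ : Matrix ι κ ℝ) {S : Set (ι → κ → ℝ)} {q : ℝ} (hq : 0 ≤ q)
    (h : gm ι κ S ≤ ENNReal.ofReal (q ^ 2)) :
    gm ι κ {a | (fun j i => μ j i + a j i) ∈ S} ≤
      ENNReal.ofReal (Real.exp (fro μ ^ 2 / 2) * q) := by
  have hT := measurableSet_toMeasurable (gm ι κ) S
  have hE := gaux_meas_E μ (fro μ ^ 2 / 2)
  have h0 : ∫⁻ a, ENNReal.ofReal (Real.exp (ip μ (Matrix.of a) - fro μ ^ 2 / 2)) ∂(gm ι κ) = 1 := by
    simpa using (lintegral_shift μ (F := fun _ => 1) measurable_const).symm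
  have h1 : ∫⁻ a, ENNReal.ofReal (Real.exp (ip μ (Matrix.of a) - fro μ ^ 2 / 2)) ^ (2 : ℝ) ∂(gm ι κ) =
      ENNReal.ofReal (Real.exp (fro μ ^ 2 / 2) ^ 2) := by
    simp only [ENNReal.rpow_two, pow_two (ENNReal.ofReal _)]
    rw [← lintegral_shift μ hE, ← mul_one (ENNReal.ofReal (_ ^ 2)), ← h0, ← lintegral_const_mul _ hE]
    refine lintegral_congr fun a => ?_
    rw [gaux_ip_add, ← ENNReal.ofReal_mul (sq_nonneg _), pow_two (Real.exp _), ← Real.exp_add,
      ← Real.exp_add]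
    congr 2
    ring
  have h2 : ∫⁻ a, (toMeasurable (gm ι κ) S).indicator (1 : (ι → κ → ℝ) → ℝ≥0∞) a ^ (2 : ℝ) ∂(gm ι κ) ≤
      ENNReal.ofReal (q ^ 2) := by
    refine le_trans (le_of_eq ?_) h
    rw [← measure_toMeasurable S, ← lintegral_indicator_one hT]
    refine lintegral_congr fun a => ?_
    by_cases ha : a ∈ toMeasurable (gm ι κ) S <;> simp [ha]
  have h3 := ENNReal.lintegral_mul_le_Lp_mul_Lq (gm ι κ) Real.HolderConjugate.two_two
    (measurable_one.indicator hT).aemeasurable hE.aemeasurable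
  refine le_trans (measure_mono fun a ha => ?_) (((gaux_ind μ hT).trans_le h3).trans ?_)
  · exact subset_toMeasurable (gm ι κ) S ha
  rw [h1, gaux_half (Real.exp_pos _).le, ENNReal.ofReal_mul (Real.exp_pos _).le, mul_comm,
    ← gaux_half hq]
  exact mul_le_mul_right (ENNReal.rpow_le_rpow h2 (by norm_num)) _

theorem ae_shift (μ : Matrix ι κ ℝ) {p : (ι → κ → ℝ) → Prop} (h : ∀ᵐ a ∂(gm ι κ), p a) :
    ∀ᵐ a ∂(gm ι κ), p fun j i => μ j i + a j i := by
  rw [ae_iff] at h ⊢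
  simpa using gaux_le μ (S := {a | ¬ p a}) le_rfl (h.le.trans zero_le)

theorem shift_le (μ : Matrix ι κ ℝ) {S : Set (ι → κ → ℝ)} {q : ℝ} (hq : 0 ≤ q)
    (h : gm ι κ S ≤ ENNReal.ofReal (q ^ 2)) :
    gm ι κ {a | (fun j i => μ j i + a j i) ∈ S} ≤
      ENNReal.ofReal (Real.exp (fro μ ^ 2 / 2) * q) := by
  exact gaux_le μ hq h

theorem shift_bdd (μ : Matrix ι κ ℝ) {F : (ι → κ → ℝ) → ℝ≥0∞} (hF : Measurable F) {K : ℝ≥0∞}
    (hK : ∀ a, F a ≤ K) {s : ℝ} (hs : 0 ≤ s) :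
    ∫⁻ a, F (fun j i => μ j i + a j i) ∂(gm ι κ) ≤
      ENNReal.ofReal (Real.exp (fro μ ^ 2 / 2 + fro μ * s)) * ∫⁻ a, F a ∂(gm ι κ) +
        K * ENNReal.ofReal (Real.exp (-s ^ 2 / 2)) := by
  have hE := gaux_meas_E μ (fro μ ^ 2 / 2)
  have hT : MeasurableSet {a : ι → κ → ℝ | fro μ ^ 2 + s * fro μ < ip μ (Matrix.of a)} :=
    measurableSet_lt measurable_const (gaux_meas_ip μ)
  have h1 : gm ι κ {a | (fun j i => μ j i + a j i) ∈
      {a : ι → κ → ℝ | fro μ ^ 2 + s * fro μ < ip μ (Matrix.of a)}} ≤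
      ENNReal.ofReal (Real.exp (-s ^ 2 / 2)) := by
    refine le_trans (le_of_eq ?_) (tail_dot (fun q : ι × κ => μ q.1 q.2) hs)
    rw [← mp_uncurry.measure_preimage
      (measurableSet_lt measurable_const (gaux_meas_dot _)).nullMeasurableSet]
    congr 1
    ext a
    simp only [Set.mem_ofPred_eq, gaux_ip_add, add_lt_add_iff_left, Set.mem_preimage]
    rw [fro_eq_nrm, ip_eq_dot]
    rfl
  rw [gaux_ind μ hT] at h1
  refine le_trans ?_ (add_le_add_right (mul_le_mul_right h1 K) _)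
  rw [lintegral_shift μ hF, ← lintegral_const_mul _ hF,
    ← lintegral_const_mul _ ((measurable_one.indicator hT).fun_mul hE),
    ← lintegral_add_left (hF.const_mul _)]
  refine lintegral_mono fun a => ?_
  by_cases ha : a ∈ {a : ι → κ → ℝ | fro μ ^ 2 + s * fro μ < ip μ (Matrix.of a)}
  · refine le_add_left ?_
    rw [Set.indicator_of_mem ha, Pi.one_apply, one_mul]
    exact mul_le_mul_left (hK a) _
  · refine le_add_right ?_
    rw [mul_comm]
    refine mul_le_mul_left (ENNReal.ofReal_le_ofReal (Real.exp_le_exp.2 ?_)) _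
    have : ip μ (Matrix.of a) ≤ fro μ ^ 2 + s * fro μ := not_lt.1 ha
    linarith only [this]

end Pool.Agent.Work.MP_6af739_lc
end

-- merged part: Pool.Agent.Work.MP_6af739_lc.Good1
section
/-!
Deterministic consequences of Good. For z ≠ 0 the sets nrm z / 50 ≤ (A z)_j and nrm z / 50 ≤ (A (-z))_j
are disjoint, so at least 0.88 m rows have |(A z)_j| ≥ nrm z / 50 (lemma card_abs). rad: some row has
nrm x / 50 ≤ (A x)_j ≤ 3. With u = A x, nrm x ≤ 150, at most 50 m 22500 / 9997^2 ≤ 0.04 m rows have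
|u_j| > 9997, so at least 0.96 m rows have slack ≤ 10^4. Intersections: e1 uses 0.84 m rows with
term ≥ (r/50)^2/(3 10^4); hess_low uses 0.84 m rows with term ≥ (nrm z/50)^2/10^8.
vz_low: the right side is ≥ m r^2 |z|^2 / 10^16 (0.72 m rows with |u_j| ≥ r/50, |(A z)_j| ≥ |z|/50,
slack ≤ 10^4); rows with |u_j| ≥ 1/2 have r^2 (M z)_j^2 ≤ 36 * 22500 (vz_j (M z)_j)^2; rows with
|u_j| < 1/2 have slack > 1/2 and contribute at most 4 * 50 m |z|^2 r^2.
nrm_le: e1, sol_dot and c·x ≤ nrm c nrm x. dir_low: sol_convex with x0 = (t / nrm c) • c,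
t = min (1/(2L)) (nrm c/(100 m)). inv_hess_le: y = hess⁻¹ z, m/10^12 |y|^2 ≤ y·z ≤ |y||z|.
The of_zr versions: feasible for A implies feasible for zr A k, and the sum in sol_dot for A
dominates termwise the sum for zr A k.
-/

namespace Pool.Agent.Work.MP_6af739_lc

open Matrix Finset MeasureTheory ProbabilityTheory
open Pool.Agent.Work.MP_6a50bc_pr
open Pool.Agent.Work.MP_5c5849_an (sg av)
open scoped ENNReal

variable {m n : ℕ} {A : Matrix (Fin m) (Fin n) ℝ} {b : Fin m → ℝ} {c : Fin n → ℝ}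

lemma g1_zr (A : Matrix (Fin m) (Fin n) ℝ) (k : Fin m) (x : Fin n → ℝ) (j : Fin m) :
    (zr A k *ᵥ x) j = if j = k then 0 else (A *ᵥ x) j := by
  have e : zr A k j = if j = k then 0 else A j := funext fun i => by
    rw [zr, updateRow_apply]
    split_ifs <;> rfl
  change zr A k j ⬝ᵥ x = _
  rw [e]
  split_ifs
  · exact zero_dotProduct _
  · rfl

lemma g1_dot (v : Fin m → ℝ) : v ⬝ᵥ v = ∑ j, v j * v j := rfl

lemma g1_inter (S T : Finset (Fin m)) : (S.card : ℝ) + T.card - m ≤ (S ∩ T).card := by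
  have h1 := card_union_add_card_inter S T
  have h2 : (S ∪ T).card ≤ m := by simpa using card_le_univ (S ∪ T)
  have h3 : S.card + T.card ≤ m + (S ∩ T).card := by omega
  have h4 : (S.card : ℝ) + T.card ≤ m + (S ∩ T).card := by exact_mod_cast h3
  linarith only [h4]

lemma g1_sum {f : Fin m → ℝ} (hf : ∀ j, 0 ≤ f j) {S : Finset (Fin m)} {a t : ℝ} (ha : 0 ≤ a)
    (ht : t ≤ S.card) (h : ∀ j ∈ S, a ≤ f j) : t * a ≤ ∑ j, f j := by
  have h1 := card_nsmul_le_sum S f a h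
  rw [nsmul_eq_mul] at h1
  exact ((mul_le_mul_of_nonneg_right ht ha).trans h1).trans
    (sum_le_sum_of_subset_of_nonneg (subset_univ S) fun j _ _ => hf j)

lemma g1_abs (h : Good A (44 / 100)) (z : Fin n → ℝ) :
    ∃ S : Finset (Fin m), (88 / 100 : ℝ) * m ≤ S.card ∧ ∀ j ∈ S, z ⬝ᵥ z / 2500 ≤ (A *ᵥ z) j ^ 2 := by
  classical
  by_cases hz : z = 0
  · refine ⟨univ, ?_, fun j _ => ?_⟩
    · rw [card_univ, Fintype.card_fin]
      have : (0 : ℝ) ≤ m := Nat.cast_nonneg m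
      linarith only []
    · rw [hz, zero_dotProduct, zero_div]; positivity
  have h0 := nrm_pos hz
  have h1 := h.2 z
  have h2 := h.2 (-z)
  have hd : Disjoint (univ.filter fun j => nrm z / 50 ≤ (A *ᵥ z) j)
      (univ.filter fun j => nrm (-z) / 50 ≤ (A *ᵥ (-z)) j) := by
    rw [disjoint_filter]
    intro j _ a1 a2
    rw [nrm_neg, mulVec_neg, Pi.neg_apply] at a2
    linarith only [h0, a1, a2]
  refine ⟨(univ.filter fun j => nrm z / 50 ≤ (A *ᵥ z) j) ∪
    (univ.filter fun j => nrm (-z) / 50 ≤ (A *ᵥ (-z)) j), ?_, fun j hj => ?_⟩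
  · rw [card_union_of_disjoint hd, Nat.cast_add]
    linarith only [h1, h2]
  · have e : z ⬝ᵥ z / 2500 = (nrm z / 50) ^ 2 := by rw [div_pow, nrm_sq]; norm_num
    rw [e]
    rcases mem_union.1 hj with a | a
    · exact pow_le_pow_left₀ (by positivity) (mem_filter.1 a).2 2
    · have a2 := (mem_filter.1 a).2
      rw [nrm_neg, mulVec_neg, Pi.neg_apply] at a2
      rw [← neg_sq ((A *ᵥ z) j)]
      exact pow_le_pow_left₀ (by positivity) a2 2

lemma g1_sq {x : Fin n → ℝ} (hx : nrm x ≤ 150) : x ⬝ᵥ x ≤ 22500 := by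
  have := (nrm_le_iff (by norm_num)).1 hx
  linarith

lemma g1_slack {θ : ℝ} (h : Good A θ) (hb : Box b) {x : Fin n → ℝ} (hx : nrm x ≤ 150) :
    ∃ T : Finset (Fin m), (96 / 100 : ℝ) * m ≤ T.card ∧ ∀ j ∈ T, slack A b x j ≤ 10 ^ 4 := by
  classical
  refine ⟨univ.filter fun j => slack A b x j ≤ 10 ^ 4, ?_, fun j hj => (mem_filter.1 hj).2⟩
  have h1 := card_add_card_compl (univ.filter fun j => slack A b x j ≤ 10 ^ 4)
  rw [Fintype.card_fin] at h1
  have h2 := congrArg (Nat.cast : ℕ → ℝ) h1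
  rw [Nat.cast_add] at h2
  have h3 := g1_sum (f := fun j => (A *ᵥ x) j * (A *ᵥ x) j) (fun j => mul_self_nonneg _)
    (S := (univ.filter fun j => slack A b x j ≤ 10 ^ 4)ᶜ) (a := 9997 ^ 2) (by norm_num) le_rfl
    fun j hj => by
      have a1 : ¬slack A b x j ≤ 10 ^ 4 := fun a => mem_compl.1 hj (mem_filter.2 ⟨mem_univ _, a⟩)
      rw [slack_apply, not_le] at a1
      have a2 := (hb j).2
      linarith only [a1, a2, mul_pos_of_neg_of_neg (Mathlib.Tactic.Linarith.sub_neg_of_lt a1) (Mathlib.Tactic.Linarith.sub_neg_of_lt a1), mul_nonneg_of_nonpos_of_nonpos (le_of_lt (Mathlib.Tactic.Linarith.sub_neg_of_lt a1)) (Mathlib.Tactic.Linarith.sub_nonpos_of_le a2), mul_nonneg_of_nonpos_of_nonpos (Mathlib.Tactic.Linarith.sub_nonpos_of_le a2) (Mathlib.Tactic.Linarith.sub_nonpos_of_le a2)]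
  have h4 := h.1 x
  have h5 := g1_sq hx
  have h6 : (0 : ℝ) ≤ m := Nat.cast_nonneg m
  have h7 : 50 * (m : ℝ) * (x ⬝ᵥ x) ≤ 50 * m * 22500 := by gcongr
  rw [← g1_dot] at h3
  have h8 := (h3.trans h4).trans h7
  clear h1 h3 h4 h7
  generalize (((univ.filter fun j => slack A b x j ≤ 10 ^ 4)ᶜ.card : ℕ) : ℝ) = N at h2 h8
  generalize (((univ.filter fun j => slack A b x j ≤ 10 ^ 4).card : ℕ) : ℝ) = N' at h2 ⊢
  linarith only [h8, h2]

lemma g1_feas {x : Fin n → ℝ} (hx : Inter A b x) (j : Fin m) : (A *ᵥ x) j ≤ b j := by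
  have := hx j
  rw [slack_apply] at this
  linarith

theorem Good.mono {θ θ' : ℝ} (h : Good A θ) (h' : θ' ≤ θ) : Good A θ' := by
  exact ⟨h.1, fun z => (mul_le_mul_of_nonneg_right h' (Nat.cast_nonneg m)).trans (h.2 z)⟩

theorem Good.zr (hm : 100 ≤ m) (h : Good A (45 / 100)) (k : Fin m) : Good (zr A k) (44 / 100) := by
  classical
  refine ⟨fun z => le_trans (sum_le_sum fun j _ => ?_) (h.1 z), fun z => ?_⟩
  · rw [g1_zr]
    split_ifs
    · rw [mul_zero]; exact mul_self_nonneg _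
    · exact le_rfl
  · have h1 := h.2 z
    have h2 : (univ.filter fun j => nrm z / 50 ≤ (A *ᵥ z) j) ⊆
        insert k (univ.filter fun j => nrm z / 50 ≤ (MP_6af739_lc.zr A k *ᵥ z) j) := by
      intro j hj
      by_cases e : j = k
      · rw [e]; exact mem_insert_self _ _
      · refine mem_insert_of_mem (mem_filter.2 ⟨mem_univ _, ?_⟩)
        rw [g1_zr, if_neg e]
        exact (mem_filter.1 hj).2
    have h3 := (card_le_card h2).trans (card_insert_le _ _)
    have h4 : (((univ.filter fun j => nrm z / 50 ≤ (A *ᵥ z) j).card : ℕ) : ℝ) ≤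
        ((univ.filter fun j => nrm z / 50 ≤ (MP_6af739_lc.zr A k *ᵥ z) j).card : ℝ) + 1 := by
      exact_mod_cast h3
    have h5 : (100 : ℝ) ≤ m := by exact_mod_cast hm
    linarith only [h1, h4, h5]

theorem Good.op {θ : ℝ} (h : Good A θ) (z : Fin n → ℝ) : nrm (A *ᵥ z) ≤ 8 * √m * nrm z := by
  have h0 := nrm_nonneg z
  rw [nrm_le_iff (by positivity), mul_pow, mul_pow, Real.sq_sqrt (Nat.cast_nonneg m), nrm_sq]
  have h1 := h.1 z
  have h2 : 0 ≤ (m : ℝ) * (z ⬝ᵥ z) := mul_nonneg (Nat.cast_nonneg m) (dot_self_nonneg z)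
  linarith only [h1, h2]

theorem Good.opT {θ : ℝ} (h : Good A θ) (w : Fin m → ℝ) : nrm (Aᵀ *ᵥ w) ≤ 8 * √m * nrm w := by
  have h0 := nrm_nonneg w
  rcases (nrm_nonneg (Aᵀ *ᵥ w)).eq_or_lt with e | e
  · rw [← e]; positivity
  have h1 : nrm (Aᵀ *ᵥ w) ^ 2 = w ⬝ᵥ A *ᵥ (Aᵀ *ᵥ w) := by
    rw [nrm_sq, dotProduct_mulVec w A, ← mulVec_transpose]
  have h2 := dot_le w (A *ᵥ (Aᵀ *ᵥ w))
  have h3 := mul_le_mul_of_nonneg_left (h.op (Aᵀ *ᵥ w)) h0
  refine le_of_mul_le_mul_right ?_ e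
  linarith only [h1, h2, h3]

theorem Good.row {θ : ℝ} (h : Good A θ) (k : Fin m) : nrm (A k) ≤ 8 * √m := by
  have h1 := h.opT (Pi.single k 1)
  have h2 : nrm (Pi.single k 1 : Fin m → ℝ) = 1 := nrm_eq_one_iff.2 (by simp)
  have h3 : Aᵀ *ᵥ Pi.single k 1 = A k := by
    funext i
    simp
  rwa [h2, h3, mul_one] at h1

theorem Good.low (h : Good A (44 / 100)) (z : Fin n → ℝ) :
    m / 3000 * (z ⬝ᵥ z) ≤ (A *ᵥ z) ⬝ᵥ (A *ᵥ z) := by
  obtain ⟨S, h1, h2⟩ := g1_abs h z
  have h0 := dot_self_nonneg z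
  have h3 := g1_sum (f := fun j => (A *ᵥ z) j * (A *ᵥ z) j) (fun j => mul_self_nonneg _)
    (by positivity) h1 fun j hj => (h2 j hj).trans_eq (sq _)
  have h4 : 0 ≤ (m : ℝ) * (z ⬝ᵥ z) := mul_nonneg (Nat.cast_nonneg m) h0
  rw [g1_dot (A *ᵥ z)]
  linarith only [h3, h4]

theorem Good.inj (hm : 0 < m) (h : Good A (44 / 100)) : Inj A := by
  intro z hz
  by_contra h0
  have h1 := h.low z
  rw [hz, zero_dotProduct] at h1
  have h2 := dot_self_pos h0
  have h3 : (0 : ℝ) < m := by exact_mod_cast hm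
  have : 0 < (m : ℝ) / 3000 * (z ⬝ᵥ z) := by positivity
  linarith only [h1, this]

theorem Good.rad (hm : 0 < m) (h : Good A (44 / 100)) (hb : Box b) {x : Fin n → ℝ}
    (hx : ∀ j, (A *ᵥ x) j ≤ b j) : nrm x ≤ 150 := by
  classical
  have h1 := h.2 x
  have h3 : (0 : ℝ) < m := by exact_mod_cast hm
  have h2 : 0 < (univ.filter fun j => nrm x / 50 ≤ (A *ᵥ x) j).card := by
    have : (0 : ℝ) < ((univ.filter fun j => nrm x / 50 ≤ (A *ᵥ x) j).card : ℝ) := by linarith only [h1, h3]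
    exact_mod_cast this
  obtain ⟨j, hj⟩ := card_pos.1 h2
  have h4 := (mem_filter.1 hj).2
  linarith only [h4, hx, hb, hx j, (hb j).2]

theorem Good.dom (hm : 0 < m) (h : Good A (44 / 100)) (hb : Box b) (c : Fin n → ℝ) :
    Dom A b c := by
  exact ⟨h.inj hm, exists_sol (fun j => zero_lt_one.trans_le (hb j).1)
    (fun x hx => h.rad hm hb hx) c⟩

theorem Good.e1 (hm : 0 < m) (h : Good A (44 / 100)) (hb : Box b) {x : Fin n → ℝ}
    (hx : Inter A b x) :
    m / 10 ^ 8 * (x ⬝ᵥ x) ≤ ∑ j, (A *ᵥ x) j ^ 2 / (slack A b x j * b j) := by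
  obtain ⟨S, h1, h2⟩ := g1_abs h x
  obtain ⟨T, h3, h4⟩ := g1_slack h hb (h.rad hm hb (g1_feas hx))
  have h0 := dot_self_nonneg x
  have hp : ∀ j, 0 < slack A b x j * b j := fun j =>
    mul_pos (hx j) (zero_lt_one.trans_le (hb j).1)
  have h5 := g1_sum (f := fun j => (A *ᵥ x) j ^ 2 / (slack A b x j * b j))
    (fun j => div_nonneg (sq_nonneg _) (hp j).le) (S := S ∩ T) (a := x ⬝ᵥ x / 2500 / (10 ^ 4 * 3))
    (t := 84 / 100 * m) (by positivity) (by linarith only [h1, h3, g1_inter S T]) fun j hj =>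
      div_le_div₀ (sq_nonneg _) (h2 j (mem_inter.1 hj).1) (hp j)
        (mul_le_mul (h4 j (mem_inter.1 hj).2) (hb j).2 (zero_le_one.trans (hb j).1) (by norm_num))
  have h6 : 0 ≤ (m : ℝ) * (x ⬝ᵥ x) := mul_nonneg (Nat.cast_nonneg m) h0
  linarith only [h5, h6]

theorem Good.hess_low (hm : 0 < m) (h : Good A (44 / 100)) (hb : Box b) {x : Fin n → ℝ}
    (hx : Inter A b x) (z : Fin n → ℝ) : m / 10 ^ 12 * (z ⬝ᵥ z) ≤ z ⬝ᵥ hess A b x *ᵥ z := by
  obtain ⟨S, h1, h2⟩ := g1_abs h z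
  obtain ⟨T, h3, h4⟩ := g1_slack h hb (h.rad hm hb (g1_feas hx))
  have h0 := dot_self_nonneg z
  have h5 := g1_sum (f := fun j => (sc A b x *ᵥ z) j * (sc A b x *ᵥ z) j)
    (fun j => mul_self_nonneg _) (S := S ∩ T) (a := z ⬝ᵥ z / 2500 / (10 ^ 4) ^ 2)
    (t := 84 / 100 * m) (by positivity) (by linarith only [h1, h3, g1_inter S T]) fun j hj => by
      rw [← sq, sc_mulVec, div_pow]
      exact div_le_div₀ (sq_nonneg _) (h2 j (mem_inter.1 hj).1) (pow_pos (hx j) 2)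
        (pow_le_pow_left₀ (hx j).le (h4 j (mem_inter.1 hj).2) 2)
  have h6 : 0 ≤ (m : ℝ) * (z ⬝ᵥ z) := mul_nonneg (Nat.cast_nonneg m) h0
  rw [hess_eq, dot_gram, g1_dot (sc A b x *ᵥ z)]
  linarith only [h5, h6]

theorem Good.inv_hess_le (hm : 0 < m) (h : Good A (44 / 100)) (hb : Box b) {x : Fin n → ℝ}
    (hx : Inter A b x) (z : Fin n → ℝ) :
    0 ≤ z ⬝ᵥ (hess A b x)⁻¹ *ᵥ z ∧ z ⬝ᵥ (hess A b x)⁻¹ *ᵥ z ≤ 10 ^ 12 / m * (z ⬝ᵥ z) := by
  obtain ⟨y, hy⟩ : ∃ y, y = (hess A b x)⁻¹ *ᵥ z := ⟨_, rfl⟩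
  have h1 : hess A b x *ᵥ y = z := by
    rw [hy, mulVec_mulVec, mul_nonsing_inv _ ((h.inj hm).hess_det hx).isUnit, one_mulVec]
  have h2 := h.hess_low hm hb hx y
  rw [h1, dotProduct_comm y z] at h2
  rw [← hy]
  have h3 : (0 : ℝ) < m := by exact_mod_cast hm
  have h4 := dot_self_nonneg y
  have h5 := dot_self_nonneg z
  have h6 : 0 ≤ z ⬝ᵥ y := le_trans (by positivity) h2
  refine ⟨h6, ?_⟩
  rcases h6.eq_or_lt with e | e
  · rw [← e]; positivity
  have h7 : (z ⬝ᵥ y) ^ 2 ≤ (z ⬝ᵥ z) * (y ⬝ᵥ y) := by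
    rw [← nrm_sq z, ← nrm_sq y, ← mul_pow]
    exact pow_le_pow_left₀ h6 (dot_le z y) 2
  have h8 : y ⬝ᵥ y ≤ 10 ^ 12 / m * (z ⬝ᵥ y) := by
    rw [div_mul_eq_mul_div, le_div_iff₀ h3]
    linarith only [h2]
  have h9 := mul_le_mul_of_nonneg_left h8 h5
  refine le_of_mul_le_mul_right ?_ e
  linarith only [h7, h9]

theorem Good.vz_low (hm : 0 < m) (h : Good A (44 / 100)) (hb : Box b) {x : Fin n → ℝ}
    (hx : Inter A b x) (z : Fin n → ℝ) :
    x ⬝ᵥ x / 10 ^ 19 * ((sc A b x *ᵥ z) ⬝ᵥ (sc A b x *ᵥ z)) ≤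
      ∑ j, (vz A b x j * (sc A b x *ᵥ z) j) ^ 2 := by
  obtain ⟨S, h1, h2⟩ := g1_abs h z
  obtain ⟨S', h1', h2'⟩ := g1_abs h x
  have hr := h.rad hm hb (g1_feas hx)
  obtain ⟨T, h3, h4⟩ := g1_slack h hb hr
  have h0 := dot_self_nonneg z
  have h0' := dot_self_nonneg x
  have hr2 := g1_sq hr
  have hb0 : ∀ j, 0 < b j := fun j => zero_lt_one.trans_le (hb j).1
  have h5 := g1_sum (f := fun j => (vz A b x j * (sc A b x *ᵥ z) j) ^ 2)
    (fun j => sq_nonneg _) (S := (S ∩ T) ∩ S')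
    (a := x ⬝ᵥ x / 2500 / 3 ^ 2 * (z ⬝ᵥ z / 2500 / (10 ^ 4) ^ 2))
    (t := 72 / 100 * m) (by positivity) (by linarith only [h1, h1', h3, g1_inter S T, g1_inter (S ∩ T) S'])
    fun j hj => by
      obtain ⟨a1, a2⟩ := mem_inter.1 hj
      rw [mul_pow, sc_mulVec, vz, div_pow, div_pow]
      refine mul_le_mul ?_ ?_ (by positivity) (by positivity)
      · exact div_le_div₀ (sq_nonneg _) (h2' j a2) (pow_pos (hb0 j) 2)
          (pow_le_pow_left₀ (hb0 j).le (hb j).2 2)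
      · exact div_le_div₀ (sq_nonneg _) (h2 j (mem_inter.1 a1).1) (pow_pos (hx j) 2)
          (pow_le_pow_left₀ (hx j).le (h4 j (mem_inter.1 a1).2) 2)
  have h6 : ∀ j, x ⬝ᵥ x * ((sc A b x *ᵥ z) j * (sc A b x *ᵥ z) j) ≤
      810000 * (vz A b x j * (sc A b x *ᵥ z) j) ^ 2 +
        4 * (x ⬝ᵥ x) * ((A *ᵥ z) j * (A *ᵥ z) j) := by
    intro j
    have b1 := mul_self_nonneg ((sc A b x *ᵥ z) j)
    have b2 := mul_self_nonneg ((A *ᵥ z) j)
    by_cases hu : 1 / 2 ≤ (A *ᵥ x) j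
    · have a1 : 1 / 6 ≤ vz A b x j := by
        rw [vz, le_div_iff₀ (hb0 j)]
        linarith only [hu, hb, (hb j).2]
      have a2 : x ⬝ᵥ x ≤ 810000 * vz A b x j ^ 2 := by linarith only [hr2, a1, mul_nonneg_of_nonpos_of_nonpos (Mathlib.Tactic.Linarith.sub_nonpos_of_le a1) (Mathlib.Tactic.Linarith.sub_nonpos_of_le a1)]
      have a3 := mul_le_mul_of_nonneg_right a2 b1
      have a4 : 0 ≤ 4 * (x ⬝ᵥ x) * ((A *ᵥ z) j * (A *ᵥ z) j) := by positivity
      linarith only [a3, a4]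
    · have a1 : 1 / 2 ≤ slack A b x j := by
        rw [slack_apply]
        linarith only [hu, hb, (hb j).1, not_le.1 hu]
      have a2 : (sc A b x *ᵥ z) j * (sc A b x *ᵥ z) j ≤ 4 * ((A *ᵥ z) j * (A *ᵥ z) j) := by
        rw [sc_mulVec, div_mul_div_comm, div_le_iff₀ (mul_pos (hx j) (hx j))]
        have : 1 / 4 ≤ slack A b x j * slack A b x j := by linarith only [a1, mul_nonneg_of_nonpos_of_nonpos (Mathlib.Tactic.Linarith.sub_nonpos_of_le a1) (Mathlib.Tactic.Linarith.sub_nonpos_of_le a1)]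
        linarith only [this, mul_nonneg_of_nonpos_of_nonpos (Mathlib.Tactic.Linarith.sub_nonpos_of_le (mul_self_nonneg ((A *ᵥ z) j))) (Mathlib.Tactic.Linarith.sub_nonpos_of_le this)]
      have a3 := mul_le_mul_of_nonneg_left a2 h0'
      have a4 := sq_nonneg (vz A b x j * (sc A b x *ᵥ z) j)
      linarith only [a3, a4]
  have h7 := sum_le_sum fun j (_ : j ∈ univ) => h6 j
  rw [sum_add_distrib, ← mul_sum, ← mul_sum, ← mul_sum] at h7
  have h8 := mul_le_mul_of_nonneg_left (h.1 z) h0'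
  have h9 : 0 ≤ ∑ j, (vz A b x j * (sc A b x *ᵥ z) j) ^ 2 := sum_nonneg fun j _ => sq_nonneg _
  rw [g1_dot (A *ᵥ z)] at h8
  rw [g1_dot (sc A b x *ᵥ z)]
  linarith only [h5, h7, h8, h9]

lemma g1_nrm (hm : 0 < m) {x : Fin n → ℝ} (h : m / 10 ^ 8 * (x ⬝ᵥ x) ≤ c ⬝ᵥ x) :
    nrm x ≤ 10 ^ 8 * nrm c / m := by
  have h3 : (0 : ℝ) < m := by exact_mod_cast hm
  have h0 := nrm_nonneg c
  rcases (nrm_nonneg x).eq_or_lt with e | e
  · rw [← e]; positivity
  rw [le_div_iff₀ h3]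
  have h1 := dot_le c x
  rw [← nrm_sq] at h
  refine le_of_mul_le_mul_right ?_ e
  linarith only [h, h1]

theorem Good.nrm_le (hm : 0 < m) (h : Good A (44 / 100)) (hb : Box b) {x : Fin n → ℝ}
    (hx : Sol A b c x) : nrm x ≤ 10 ^ 8 * nrm c / m := by
  exact g1_nrm hm ((h.e1 hm hb hx.1).trans_eq
    (sol_dot (fun j => zero_lt_one.trans_le (hb j).1) hx).symm)

theorem Good.dir_low (hm : 0 < m) {θ L : ℝ} (h : Good A θ) (hb : Box b) {x : Fin n → ℝ}
    (hx : Sol A b c x) (hL : 0 < L) (hc : ∀ j, A j ⬝ᵥ c ≤ L * nrm c) :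
    nrm c * min (1 / (2 * L)) (nrm c / (100 * m)) / 2 ≤ c ⬝ᵥ x := by
  have h3 : (0 : ℝ) < m := by exact_mod_cast hm
  rcases (nrm_nonneg c).eq_or_lt with e | e
  · rw [← e, zero_mul, zero_div, nrm_eq_zero.1 e.symm, zero_dotProduct]
  obtain ⟨t, ht⟩ : ∃ t, t = min (1 / (2 * L)) (nrm c / (100 * m)) := ⟨_, rfl⟩
  have t0 : 0 < t := by rw [ht]; exact lt_min (by positivity) (by positivity)
  have t1 : t * (2 * L) ≤ 1 := (le_div_iff₀ (by positivity)).1 (ht ▸ min_le_left _ _)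
  have t2 : t * (100 * m) ≤ nrm c := (le_div_iff₀ (by positivity)).1 (ht ▸ min_le_right _ _)
  rw [← ht]
  have h1 := sol_convex (fun j => (hb j).1) hx (x₀ := (t / nrm c) • c) fun j => by
    have a1 : (A *ᵥ ((t / nrm c) • c)) j = t / nrm c * (A j ⬝ᵥ c) := by
      rw [mulVec_smul]; rfl
    have a2 := mul_le_mul_of_nonneg_left (hc j) (div_pos t0 e).le
    have a3 : t / nrm c * (L * nrm c) = t * L := by field_simp
    rw [a1]
    linarith only [t1, a2, a3]
  have h2 := h.1 ((t / nrm c) • c)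
  have h4 : ((t / nrm c) • c) ⬝ᵥ ((t / nrm c) • c) = t ^ 2 := by
    rw [smul_dotProduct, dotProduct_smul, ← nrm_sq, smul_eq_mul, smul_eq_mul]
    field_simp
  have h5 : c ⬝ᵥ ((t / nrm c) • c) = t * nrm c := by
    rw [dotProduct_smul, ← nrm_sq, smul_eq_mul]
    field_simp
  rw [h4] at h2
  rw [h5] at h1
  have h6 := mul_le_mul_of_nonneg_left t2 t0.le
  linarith only [h1, h2, h6]

theorem Good.n4_qv_le (hm : 0 < m) (h : Good A (44 / 100)) (hb : Box b) {x : Fin n → ℝ}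
    (hx : Inter A b x) : n4 (qv A b x) ≤ 1200 * √m := by
  have h1 : nrm (vz A b x) ≤ nrm (A *ᵥ x) := nrm_mono fun j => by
    rw [vz, abs_div, abs_of_nonneg (zero_le_one.trans (hb j).1)]
    exact div_le_self (abs_nonneg _) (hb j).1
  have h2 := mul_le_mul_of_nonneg_left (h.rad hm hb (g1_feas hx))
    (by positivity : 0 ≤ 8 * √(m : ℝ))
  have h3 := (isProj_proj (sc A b x)).nrm_le (vz A b x)
  have h4 := n4_le_nrm (qv A b x)
  have h5 := h.op x
  rw [← qv] at h3
  linarith only [h1, h2, h3, h4, h5]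

theorem rad_of_zr (hm : 0 < m) {k : Fin m} (h : Good (zr A k) (44 / 100)) (hb : Box b)
    {x : Fin n → ℝ} (hx : ∀ j, (A *ᵥ x) j ≤ b j) : nrm x ≤ 150 := by
  refine h.rad hm hb fun j => ?_
  rw [g1_zr]
  split_ifs
  · exact zero_le_one.trans (hb j).1
  · exact hx j

theorem dom_of_zr (hm : 0 < m) {k : Fin m} (h : Good (zr A k) (44 / 100)) (hb : Box b)
    (c : Fin n → ℝ) : Dom A b c := by
  exact ⟨(h.inj hm).of_zr, exists_sol (fun j => zero_lt_one.trans_le (hb j).1)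
    (fun x hx => rad_of_zr hm h hb hx) c⟩

theorem nrm_le_of_zr (hm : 0 < m) {k : Fin m} (h : Good (zr A k) (44 / 100)) (hb : Box b)
    {x : Fin n → ℝ} (hx : Sol A b c x) : nrm x ≤ 10 ^ 8 * nrm c / m := by
  have hb0 : ∀ j, 0 < b j := fun j => zero_lt_one.trans_le (hb j).1
  refine g1_nrm hm (((h.e1 hm hb (inter_zr hb0 hx.1 k)).trans (sum_le_sum fun j _ => ?_)).trans_eq
    (sol_dot hb0 hx).symm)
  rw [slack_apply, g1_zr]
  split_ifs
  · rw [zero_pow two_ne_zero, zero_div]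
    exact div_nonneg (sq_nonneg _) (mul_pos (hx.1 j) (hb0 j)).le
  · exact le_rfl

end Pool.Agent.Work.MP_6af739_lc
end

-- merged part: Pool.Agent.Work.MP_6af739_lc.VNet
section
/-!
Volumetric net of the sphere. A finset of unit vectors at mutual distances > η has at most
(1 + 2/η)^n ≤ (3/η)^n points: the open balls of radius η/2 in EuclideanSpace are disjoint and lie in the
ball of radius 1 + η/2 (copy the proof of Besicovitch.card_le_of_separated, with addHaar_ball and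
nrm_eq_norm). Take such a finset of largest cardinality; it is a net.
-/

namespace Pool.Agent.Work.MP_6af739_lc

open Matrix Finset MeasureTheory ProbabilityTheory
open Pool.Agent.Work.MP_6a50bc_pr
open Pool.Agent.Work.MP_5c5849_an (sg av)
open scoped ENNReal

theorem VNet_card {n : ℕ} {η : ℝ} (h0 : 0 < η) (h1 : η ≤ 1) (s : Finset (Fin n → ℝ))
    (hs : ∀ c ∈ s, nrm c = 1) (h : ∀ c ∈ s, ∀ d ∈ s, c ≠ d → η ≤ nrm (c - d)) :
    (s.card : ℝ) ≤ (3 / η) ^ n := by
  let μ : Measure (EuclideanSpace ℝ (Fin n)) := volume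
  let f : (Fin n → ℝ) → Set (EuclideanSpace ℝ (Fin n)) := fun c =>
    Metric.ball (WithLp.toLp 2 c) (η / 2)
  have hδ : 0 < η / 2 := by positivity
  have hρ : (0 : ℝ) < 3 / 2 := by norm_num
  have D : Set.Pairwise (s : Set (Fin n → ℝ)) (Function.onFun Disjoint f) := by
    intro c hc d hd hcd
    refine Metric.ball_disjoint_ball ?_
    rw [dist_eq_norm, ← WithLp.toLp_sub, ← nrm_eq_norm, add_halves]
    exact h c hc d hd hcd
  have hA : (⋃ c ∈ s, f c) ⊆ Metric.ball (0 : EuclideanSpace ℝ (Fin n)) (3 / 2) := by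
    refine Set.iUnion₂_subset fun x hx => Metric.ball_subset_ball' ?_
    rw [dist_zero_right, ← nrm_eq_norm, hs x hx]
    linarith only [h1]
  have I : (s.card : ℝ≥0∞) * ENNReal.ofReal ((η / 2) ^ n) * μ (Metric.ball 0 1) ≤
      ENNReal.ofReal ((3 / 2) ^ n) * μ (Metric.ball 0 1) := by
    have h2 := measure_mono (μ := μ) hA
    rw [measure_biUnion_finset D fun c _ => measurableSet_ball] at h2
    simp only [f, μ.addHaar_ball_of_pos _ hδ, μ.addHaar_ball_of_pos _ hρ, sum_const, nsmul_eq_mul,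
      finrank_euclideanSpace, Fintype.card_fin] at h2
    rwa [mul_assoc]
  have J := (ENNReal.mul_le_mul_iff_left (Metric.measure_ball_pos _ _ zero_lt_one).ne'
    measure_ball_lt_top.ne).1 I
  have K := ENNReal.toReal_le_of_le_ofReal (pow_nonneg hρ.le _) J
  rw [ENNReal.toReal_mul, ENNReal.toReal_natCast, ENNReal.toReal_ofReal (by positivity),
    ← le_div_iff₀ (by positivity), ← div_pow] at K
  refine K.trans_eq ?_
  congr 1
  field_simp

theorem exists_vol_net (n : ℕ) {η : ℝ} (h0 : 0 < η) (h1 : η ≤ 1) :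
    ∃ N : Finset (Fin n → ℝ), (∀ w ∈ N, nrm w = 1) ∧ (N.card : ℝ) ≤ (3 / η) ^ n ∧
      ∀ v, nrm v = 1 → ∃ w ∈ N, nrm (v - w) ≤ η := by
  classical
  let S : Set ℕ := {k | ∃ N : Finset (Fin n → ℝ), (∀ w ∈ N, nrm w = 1) ∧
    (∀ c ∈ N, ∀ d ∈ N, c ≠ d → η ≤ nrm (c - d)) ∧ N.card = k}
  have hb : BddAbove S := by
    refine ⟨⌈(3 / η) ^ n⌉₊, ?_⟩
    rintro _ ⟨N, a1, a2, rfl⟩
    exact_mod_cast (VNet_card h0 h1 N a1 a2).trans (Nat.le_ceil _)
  obtain ⟨N, a1, a2, a3⟩ := Nat.sSup_mem (s := S) ⟨0, ∅, by simp, by simp, rfl⟩ hb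
  refine ⟨N, a1, VNet_card h0 h1 N a1 a2, fun v hv => ?_⟩
  by_contra hn
  push Not at hn
  have hvN : v ∉ N := fun h => by
    have := hn v h
    rw [sub_self, nrm_zero] at this
    exact absurd this h0.not_gt
  have h2 : N.card + 1 ≤ sSup S := by
    refine le_csSup hb ⟨insert v N, fun w hw => ?_, fun c hc d hd hcd => ?_,
      card_insert_of_notMem hvN⟩
    · rcases mem_insert.1 hw with rfl | hw
      · exact hv
      · exact a1 w hw
    · rcases mem_insert.1 hc with e | hc' <;> rcases mem_insert.1 hd with e' | hd'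
      · exact absurd (e.trans e'.symm) hcd
      · exact e ▸ (hn d hd').le
      · rw [nrm_sub_comm, e']
        exact (hn c hc').le
      · exact a2 c hc' d hd' hcd
  omega

end Pool.Agent.Work.MP_6af739_lc
end

-- merged part: Pool.Agent.Work.MP_6af739_lc.GoodProb
section
/-!
Good matrices have overwhelming probability. opn_tail (Sing.lean) with t = 4 √m gives
opn ≤ √m + √n + 4 + 4 √m ≤ 7 √m outside probability 2 exp (-2 m). For a unit vector w the numbers
a_j · w are iid standard Gaussian (mp_dot, measurePreserving_pi), each is ≥ 1/25 with probability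
≥ 0.48 (symmetry and density ≤ 0.4), so by a Chernoff bound with t = 1/50
(E exp (-t 1) ≤ exp (-0.48 (1 - exp (-t))), 1 - exp (-t) ≥ t - t^2/2) fewer than 0.47 m of them are
≥ 1/25 with probability ≤ exp (-m / 10^4). Net with η = 4/10^4 has at most 7500^n ≤ exp (9 n) points.
For a unit z and w in the net with nrm (z - w) ≤ η, at most 50 m η^2 2500 = 0.02 m rows have
|a_j · (z - w)| > 1/50. General z by scaling (z = 0 is trivial).
-/

namespace Pool.Agent.Work.MP_6af739_lc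

open Matrix Finset MeasureTheory ProbabilityTheory
open Pool.Agent.Work.MP_6a50bc_pr
open Pool.Agent.Work.MP_5c5849_an (sg av)
open scoped ENNReal

lemma GoodProb_neg : (gaussianReal 0 1).real (Set.Iio 0) ≤ 1 / 2 := by
  have h1 : (gaussianReal 0 1).real (Set.Iio 0) = (gaussianReal 0 1).real (Set.Ioi 0) := by
    have h : (gaussianReal 0 1).map (fun x : ℝ => -x) = gaussianReal 0 1 := by
      simpa using gaussianReal_map_neg (μ := 0) (v := 1)
    conv_lhs => rw [← h]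
    rw [map_measureReal_apply (by fun_prop) measurableSet_Iio]
    congr 1
    ext x
    simp
  have h2 := measureReal_union (μ := gaussianReal 0 1)
    (s₁ := Set.Iio (0 : ℝ)) (s₂ := Set.Ioi 0)
    (Set.disjoint_left.2 fun x (a : x < 0) (b : 0 < x) => lt_asymm a b) measurableSet_Ioi
  have h3 : (gaussianReal 0 1).real (Set.Iio (0 : ℝ) ∪ Set.Ioi 0) ≤ 1 := measureReal_le_one
  linarith only [h1, h2, h3]

lemma GoodProb_pdf (x : ℝ) : gaussianPDFReal 0 1 x ≤ 1 / 2 := by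
  have h1 : (2 : ℝ) ≤ √(2 * Real.pi * (1 : NNReal)) := by
    refine Real.le_sqrt_of_sq_le ?_
    have := Real.pi_gt_three
    push_cast
    linarith only [this]
  have h2 : Real.exp (-(x - 0) ^ 2 / (2 * (1 : NNReal))) ≤ 1 := by
    refine Real.exp_le_one_iff.2 (div_nonpos_of_nonpos_of_nonneg ?_ (by positivity))
    exact neg_nonpos.2 (sq_nonneg _)
  rw [gaussianPDFReal]
  calc _ ≤ (2 : ℝ)⁻¹ * 1 := mul_le_mul (inv_anti₀ two_pos h1) h2 (Real.exp_pos _).le (by norm_num)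
    _ = _ := by norm_num

lemma GoodProb_mid : (gaussianReal 0 1).real (Set.Ico 0 (1 / 25)) ≤ 1 / 50 := by
  have h1 : gaussianReal 0 1 (Set.Ico 0 (1 / 25)) ≤ ENNReal.ofReal (1 / 50) := by
    rw [gaussianReal_apply _ one_ne_zero]
    calc _ ≤ ∫⁻ _ in Set.Ico (0 : ℝ) (1 / 25), ENNReal.ofReal (1 / 2) :=
          lintegral_mono fun x => ENNReal.ofReal_le_ofReal (GoodProb_pdf x)
      _ = _ := by
          rw [setLIntegral_const, Real.volume_Ico, ← ENNReal.ofReal_mul (by norm_num)]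
          norm_num
  exact ENNReal.toReal_le_of_le_ofReal (by norm_num) h1

lemma GoodProb_ge : 48 / 100 ≤ (gaussianReal 0 1).real (Set.Ici (1 / 25)) := by
  have h1 : (gaussianReal 0 1).real (Set.Iio (1 / 25)) ≤
      (gaussianReal 0 1).real (Set.Iio 0) + (gaussianReal 0 1).real (Set.Ico 0 (1 / 25)) := by
    refine (measureReal_mono fun x hx => ?_).trans (measureReal_union_le _ _)
    rcases lt_or_ge x 0 with h | h
    · exact Or.inl h
    · exact Or.inr ⟨h, hx⟩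
  have h2 := probReal_compl_eq_one_sub (μ := gaussianReal 0 1)
    (measurableSet_Ici (a := (1 / 25 : ℝ)))
  rw [Set.compl_Ici] at h2
  linarith only [h1, h2, GoodProb_neg, GoodProb_mid]

/-- The weight of the Chernoff bound. -/
noncomputable def GoodProbW (x : ℝ) : ℝ :=
  1 - (Set.Ici (1 / 25 : ℝ)).indicator (fun _ => 1 - Real.exp (-(1 / 50))) x

lemma GoodProb_W_eq (x : ℝ) :
    GoodProbW x = Real.exp (-(if 1 / 25 ≤ x then 1 else 0) / 50) := by
  by_cases h : 1 / 25 ≤ x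
  · rw [GoodProbW, Set.indicator_of_mem (Set.mem_Ici.2 h), if_pos h]
    norm_num
  · rw [GoodProbW, Set.indicator_of_notMem (fun h' => h (Set.mem_Ici.1 h')), if_neg h]
    norm_num

lemma GoodProb_W_meas : Measurable GoodProbW :=
  measurable_const.sub (measurable_const.indicator measurableSet_Ici)

lemma GoodProb_W_int : Integrable GoodProbW (gaussianReal 0 1) :=
  (integrable_const _).sub ((integrable_const _).indicator measurableSet_Ici)

lemma GoodProb_W_le : ∫ x, GoodProbW x ∂(gaussianReal 0 1) ≤ Real.exp (-(95 / 10 ^ 4)) := by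
  have h1 : ∫ x, GoodProbW x ∂(gaussianReal 0 1) =
      1 - (gaussianReal 0 1).real (Set.Ici (1 / 25)) * (1 - Real.exp (-(1 / 50))) := by
    simp only [GoodProbW]
    rw [integral_sub (integrable_const _) ((integrable_const _).indicator measurableSet_Ici),
      integral_indicator_const _ measurableSet_Ici]
    simp
  have h2 : Real.exp (-(1 / 50)) ≤ 1 - 198 / 10 ^ 4 := by
    have h3 := Real.quadratic_le_exp_of_nonneg (x := 1 / 50) (by norm_num)
    rw [Real.exp_neg, inv_le_comm₀ (Real.exp_pos _) (by norm_num)]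
    refine le_trans ?_ h3
    norm_num
  have h4 := Real.add_one_le_exp (-(95 / 10 ^ 4) : ℝ)
  have h5 := GoodProb_ge
  rw [h1]
  linarith only [h2, h4, h5, mul_nonneg_of_nonpos_of_nonpos (Mathlib.Tactic.Linarith.sub_nonpos_of_le h2) (Mathlib.Tactic.Linarith.sub_nonpos_of_le h5)]

open Classical in
lemma GoodProb_chernoff (m : ℕ) :
    gv (Fin m) {x | Real.exp (-(47 / 100 * m) / 50) ≤ ∏ j, GoodProbW (x j)} ≤
      ENNReal.ofReal (Real.exp (-(m : ℝ) / 10 ^ 4)) := by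
  have hi : Integrable (fun x : Fin m → ℝ => ∏ j, GoodProbW (x j)) (gv (Fin m)) :=
    Integrable.fintype_prod (f := fun _ : Fin m => GoodProbW) fun _ => GoodProb_W_int
  have h0 : ∀ x, 0 ≤ GoodProbW x := fun x => by
    rw [GoodProb_W_eq]
    exact (Real.exp_pos _).le
  refine (measure_ge_le hi (fun x => prod_nonneg fun j _ => h0 _) (Real.exp_pos _)).trans
    (ENNReal.ofReal_le_ofReal ?_)
  have h1 : ∫ x, ∏ j, GoodProbW (x j) ∂(gv (Fin m)) ≤ Real.exp (-(95 / 10 ^ 4)) ^ m := by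
    rw [gv, integral_fintype_prod_eq_prod (fun _ : Fin m => GoodProbW), prod_const, card_univ,
      Fintype.card_fin]
    exact pow_le_pow_left₀ (integral_nonneg h0) GoodProb_W_le m
  rw [div_le_iff₀ (Real.exp_pos _), ← Real.exp_add]
  refine h1.trans ?_
  rw [← Real.exp_nat_mul]
  refine Real.exp_le_exp.2 (le_of_eq ?_)
  ring

open Classical in
lemma GoodProb_unit {m n : ℕ} {w : Fin n → ℝ} (hw : nrm w = 1) :
    gm (Fin m) (Fin n) {a | ((univ.filter fun j => 1 / 25 ≤ (Matrix.of a *ᵥ w) j).card : ℝ) <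
      47 / 100 * m} ≤ ENNReal.ofReal (Real.exp (-(m : ℝ) / 10 ^ 4)) := by
  have hp : MeasurePreserving (fun (a : Fin m → Fin n → ℝ) j => w ⬝ᵥ a j) (gm (Fin m) (Fin n))
      (gv (Fin m)) := measurePreserving_pi _ _ fun _ => mp_dot (nrm_eq_one_iff.1 hw)
  have hm : MeasurableSet
      {x : Fin m → ℝ | Real.exp (-(47 / 100 * m) / 50) ≤ ∏ j, GoodProbW (x j)} :=
    measurableSet_le measurable_const
      (Finset.measurable_prod _ fun j _ => GoodProb_W_meas.comp (measurable_pi_apply j))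
  refine le_trans ?_ (GoodProb_chernoff m)
  rw [← hp.measure_preimage hm.nullMeasurableSet]
  refine measure_mono fun a ha => ?_
  have e : ∀ j, (Matrix.of a *ᵥ w) j = w ⬝ᵥ a j := fun j => dotProduct_comm _ _
  simp only [Set.mem_ofPred_eq, e] at ha
  simp only [Set.mem_preimage, Set.mem_ofPred_eq, GoodProb_W_eq]
  rw [← Real.exp_sum, ← sum_div, sum_neg_distrib, sum_boole]
  exact Real.exp_le_exp.2 (by linarith only [ha])

open Classical in
lemma GoodProb_det {m n : ℕ} {A : Matrix (Fin m) (Fin n) ℝ}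
    (h1 : ∀ z, (A *ᵥ z) ⬝ᵥ (A *ᵥ z) ≤ 50 * m * (z ⬝ᵥ z)) {N : Finset (Fin n → ℝ)}
    (hN : ∀ v, nrm v = 1 → ∃ w ∈ N, nrm (v - w) ≤ 4 / 10 ^ 4)
    (h2 : ∀ w ∈ N, 47 / 100 * (m : ℝ) ≤ (univ.filter fun j => 1 / 25 ≤ (A *ᵥ w) j).card) :
    Good A (45 / 100) := by
  have key : ∀ z, nrm z = 1 →
      45 / 100 * (m : ℝ) ≤ (univ.filter fun j => 1 / 50 ≤ (A *ᵥ z) j).card := by
    intro z hz
    obtain ⟨w, hw, hzw⟩ := hN z hz
    have h3 : (z - w) ⬝ᵥ (z - w) ≤ (4 / 10 ^ 4) ^ 2 := (nrm_le_iff (by norm_num)).1 hzw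
    set B := univ.filter fun j => 1 / 50 ≤ -(A *ᵥ (z - w)) j with hB
    have h4 : (B.card : ℝ) * (1 / 50) ^ 2 ≤ (A *ᵥ (z - w)) ⬝ᵥ (A *ᵥ (z - w)) := by
      rw [← nsmul_eq_mul, ← sum_const]
      refine (sum_le_sum fun j hj => ?_).trans (sum_le_sum_of_subset_of_nonneg (subset_univ B)
        fun j _ _ => mul_self_nonneg ((A *ᵥ (z - w)) j))
      have := (mem_filter.1 hj).2
      linarith only [this, mul_nonneg_of_nonpos_of_nonpos (Mathlib.Tactic.Linarith.sub_nonpos_of_le this) (Mathlib.Tactic.Linarith.sub_nonpos_of_le this)]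
    have h5 : (univ.filter fun j => 1 / 25 ≤ (A *ᵥ w) j) ⊆
        (univ.filter fun j => 1 / 50 ≤ (A *ᵥ z) j) ∪ B := fun j hj => by
      have h6 := (mem_filter.1 hj).2
      rw [mem_union, hB, mem_filter, mem_filter, mulVec_sub, Pi.sub_apply]
      by_cases h : 1 / 50 ≤ (A *ᵥ z) j
      · exact Or.inl ⟨mem_univ _, h⟩
      · exact Or.inr ⟨mem_univ _, by linarith only [h6, h]⟩
    have h6 : ((univ.filter fun j => 1 / 25 ≤ (A *ᵥ w) j).card : ℝ) ≤
        (univ.filter fun j => 1 / 50 ≤ (A *ᵥ z) j).card + B.card := by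
      exact_mod_cast (card_le_card h5).trans (card_union_le _ _)
    have h7 := h1 (z - w)
    have h8 := h2 w hw
    have h9 : (0 : ℝ) ≤ m := Nat.cast_nonneg m
    linarith only [h4, h6, h7, h8, h3, mul_nonneg_of_nonpos_of_nonpos (Mathlib.Tactic.Linarith.sub_nonpos_of_le (Mathlib.Tactic.Linarith.natCast_nonneg ℝ m)) (Mathlib.Tactic.Linarith.sub_nonpos_of_le h3)]
  refine ⟨h1, fun z => ?_⟩
  by_cases hz : z = 0
  · subst hz
    have h9 : (0 : ℝ) ≤ m := Nat.cast_nonneg m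
    simp only [nrm_zero, zero_div, mulVec_zero, Pi.zero_apply, le_refl, filter_true, card_univ,
      Fintype.card_fin]
    linarith only []
  · have h3 := nrm_pos hz
    refine (key ((nrm z)⁻¹ • z) (by
      rw [nrm_smul, abs_of_pos (inv_pos.2 h3), inv_mul_cancel₀ h3.ne'])).trans
      (Nat.cast_le.2 (card_le_card fun j hj => mem_filter.2 ⟨mem_univ _, ?_⟩))
    have h4 := (mem_filter.1 hj).2
    rw [mulVec_smul, Pi.smul_apply, smul_eq_mul, le_inv_mul_iff₀ h3] at h4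
    linarith only [h4]

theorem not_good_le {m n : ℕ} (hn : 1 ≤ n) (hm : 10 ^ 6 * n ≤ m) :
    gm (Fin m) (Fin n) {a | ¬Good (Matrix.of a) (45 / 100)} ≤
      ENNReal.ofReal (Real.exp (-(m : ℝ) / 10 ^ 5)) := by
  classical
  obtain ⟨N, h1, h2, h3⟩ := exists_vol_net n (η := 4 / 10 ^ 4) (by norm_num) (by norm_num)
  have hn' : (1 : ℝ) ≤ n := by exact_mod_cast hn
  have hm' : (10 : ℝ) ^ 6 * n ≤ m := by exact_mod_cast hm
  have hsub : {a : Fin m → Fin n → ℝ | ¬Good (Matrix.of a) (45 / 100)} ⊆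
      {a | √(Fintype.card (Fin m)) + √(Fintype.card (Fin n)) + 4 + 4 * √m ≤ opn (Matrix.of a)} ∪
        ⋃ w ∈ N, {a | ((univ.filter fun j => 1 / 25 ≤ (Matrix.of a *ᵥ w) j).card : ℝ) <
          47 / 100 * m} := by
    intro a ha
    by_contra hc
    simp only [Set.mem_union, Set.mem_ofPred_eq, Set.mem_iUnion, not_or, not_le, not_exists,
      not_lt, Fintype.card_fin] at hc
    refine ha (GoodProb_det (fun z => ?_) h3 hc.2)
    have k1 : √(n : ℝ) ≤ √m := Real.sqrt_le_sqrt (by linarith only [hn', hm'])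
    have k2 : (4 : ℝ) ≤ √m := Real.le_sqrt_of_sq_le (by linarith only [hn', hm'])
    have k3 : nrm (Matrix.of a *ᵥ z) ≤ 7 * √m * nrm z :=
      (nrm_mulVec_le _ z).trans (mul_le_mul_of_nonneg_right (by linarith only [hc, k1, k2, hc.1]) (nrm_nonneg z))
    rw [nrm_le_iff (mul_nonneg (by positivity) (nrm_nonneg z)), mul_pow, mul_pow, nrm_sq,
      Real.sq_sqrt (Nat.cast_nonneg m)] at k3
    have k4 := mul_nonneg (Nat.cast_nonneg (α := ℝ) m) (dot_self_nonneg z)
    linarith only [k3, k4]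
  have k1 := opn_tail (ι := Fin m) (κ := Fin n) (t := 4 * √m) (by positivity)
  have k2 : gm (Fin m) (Fin n) (⋃ w ∈ N,
      {a | ((univ.filter fun j => 1 / 25 ≤ (Matrix.of a *ᵥ w) j).card : ℝ) < 47 / 100 * m}) ≤
      ENNReal.ofReal (N.card * Real.exp (-(m : ℝ) / 10 ^ 4)) := by
    refine (measure_biUnion_finset_le _ _).trans ((sum_le_card_nsmul _ _ _
      fun w hw => GoodProb_unit (h1 w hw)).trans_eq ?_)
    rw [ENNReal.ofReal_mul (Nat.cast_nonneg _), ENNReal.ofReal_natCast, nsmul_eq_mul]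
  refine (measure_mono hsub).trans ((measure_union_le _ _).trans ((add_le_add k1 k2).trans ?_))
  rw [← ENNReal.ofReal_add (by positivity) (by positivity)]
  refine ENNReal.ofReal_le_ofReal ?_
  have k3 : (N.card : ℝ) ≤ Real.exp (9 * n) := by
    refine h2.trans ?_
    rw [mul_comm, Real.exp_nat_mul]
    refine pow_le_pow_left₀ (by norm_num) ?_ n
    have e : Real.exp 9 = Real.exp 1 ^ 9 := by
      rw [← Real.exp_nat_mul]
      norm_num
    rw [e]
    refine le_trans ?_ (pow_le_pow_left₀ (by norm_num) Real.exp_one_gt_d9.le 9)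
    norm_num
  have k4 : Real.exp (-(4 * √(m : ℝ)) ^ 2 / 8) ≤ Real.exp (-(m : ℝ) / 10 ^ 5 - 2) := by
    rw [mul_pow, Real.sq_sqrt (Nat.cast_nonneg m)]
    exact Real.exp_le_exp.2 (by linarith only [hn', hm'])
  have k5 : N.card * Real.exp (-(m : ℝ) / 10 ^ 4) ≤ Real.exp (-(m : ℝ) / 10 ^ 5 - 2) := by
    refine (mul_le_mul_of_nonneg_right k3 (Real.exp_pos _).le).trans ?_
    rw [← Real.exp_add]
    exact Real.exp_le_exp.2 (by linarith only [hn', hm'])
  have k6 : 3 * Real.exp (-(m : ℝ) / 10 ^ 5 - 2) ≤ Real.exp (-(m : ℝ) / 10 ^ 5) := by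
    rw [Real.exp_sub, mul_div_assoc', div_le_iff₀ (Real.exp_pos _), mul_comm]
    exact mul_le_mul_of_nonneg_left (by linarith only [Real.add_one_le_exp (2 : ℝ)]) (Real.exp_pos _).le
  linarith only [k4, k5, k6]

end Pool.Agent.Work.MP_6af739_lc
end

-- merged part: Pool.Agent.Work.MP_6af739_lc.Tilt
section
/-!
Tilting by a Gram determinant that depends on a rank one Gaussian perturbation.
det_add_vec: for positive semidefinite Y, det (Y + v vᵀ) = det Y + v · adj Y v and adj Y is positive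
semidefinite: true for Y + δ 1, δ > 0 (det_add_replicateCol_mul_replicateRow or det_add_mul,
adjugate = det • inverse), let δ → 0 (Continuous.matrix_det, Continuous.matrix_adjugate); or use
exists_spec_nonneg (Spec.lean). With Y = M0ᵀ (1 - z zᵀ/|z|^2) M0 and v = M0ᵀ z/|z| + |z| L γ one has
(M0 + z (Lγ)ᵀ)ᵀ (M0 + z (Lγ)ᵀ) = Y + v vᵀ (z = 0 is the constant case). So Q γ = c0 + sum_i l_i (p_i + w_i · γ)^2
with c0, l_i ≥ 0 (exists_spec_nonneg, qf_spec). For ℓ = p + w·γ: E ℓ^4 ≤ 3 (E ℓ^2)^2 (mp_dot, g1_sq,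
g1_four, odd moments vanish), and Cauchy-Schwarz gives E (1_S ℓ^2) ≤ q √3 E ℓ^2; for the constant,
gv S ≤ min 1 (q^2) ≤ q.
-/

namespace Pool.Agent.Work.MP_6af739_lc

open Matrix Finset MeasureTheory ProbabilityTheory
open Pool.Agent.Work.MP_6a50bc_pr
open Pool.Agent.Work.MP_5c5849_an (sg av)
open scoped ENNReal

section Aux

variable {ι κ : Type*} [Fintype ι] [Fintype κ]

theorem Tilt_diag [DecidableEq κ] {l : κ → ℝ} (hl : ∀ i, 0 ≤ l i) (u : κ → ℝ) :
    (diagonal l + vecMulVec u u).det = ∏ i, l i + ∑ i, (∏ j ∈ univ.erase i, l j) * u i ^ 2 := by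
  have h : Set.EqOn (fun δ : ℝ => (diagonal (fun i => l i + δ) + vecMulVec u u).det)
      (fun δ => ∏ i, (l i + δ) + ∑ i, (∏ j ∈ univ.erase i, (l j + δ)) * u i ^ 2) (Set.Ioi 0) := by
    intro δ hδ
    have h0 : ∀ i, l i + δ ≠ 0 := fun i => (add_pos_of_nonneg_of_pos (hl i) hδ).ne'
    have h1 : diagonal (fun i => l i + δ) + vecMulVec u u =
        diagonal (fun i => l i + δ) * (1 + vecMulVec (fun i => u i / (l i + δ)) u) := by
      rw [Matrix.mul_add, Matrix.mul_one, mul_vecMulVec]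
      congr 2
      funext i
      rw [mulVec_diagonal, mul_div_cancel₀ _ (h0 i)]
    simp only
    rw [h1, det_mul, det_diagonal, vecMulVec_eq Unit, det_one_add_replicateCol_mul_replicateRow,
      mul_add, mul_one, dotProduct, mul_sum]
    refine congrArg _ (sum_congr rfl fun i _ => ?_)
    rw [← mul_prod_erase univ (fun i => l i + δ) (mem_univ i)]
    have := h0 i
    field_simp
  simpa using h.closure (Continuous.matrix_det ((Continuous.matrix_diagonal
    (A := fun δ i => l i + δ) (by fun_prop)).add continuous_const)) (by fun_prop)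
    (show (0 : ℝ) ∈ closure (Set.Ioi 0) by simp)

theorem Tilt_det [DecidableEq κ] {Y : Matrix κ κ ℝ} (hY : Y.PosSemidef) :
    ∃ (U : Matrix κ κ ℝ) (c : ℝ) (l : κ → ℝ), 0 ≤ c ∧ (∀ i, 0 ≤ l i) ∧
      ∀ v, (Y + vecMulVec v v).det = c + ∑ i, l i * (U *ᵥ v) i ^ 2 := by
  obtain ⟨U, l, hU, hl, rfl⟩ := exists_spec_nonneg hY
  refine ⟨Uᵀ, ∏ i, l i, fun i => ∏ j ∈ univ.erase i, l j, prod_nonneg fun i _ => hl i,
    fun i => prod_nonneg fun i _ => hl i, fun v => ?_⟩
  have h1 : spec U l + vecMulVec v v = U * (diagonal l + vecMulVec (Uᵀ *ᵥ v) (Uᵀ *ᵥ v)) * Uᵀ := by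
    rw [Matrix.mul_add, Matrix.add_mul, mul_vecMulVec, vecMulVec_mul, vecMul_transpose,
      mulVec_mulVec, hU.mul_transpose, one_mulVec, spec]
  rw [h1, det_mul, det_mul, mul_right_comm, ← det_mul, hU.mul_transpose, det_one, one_mul,
    Tilt_diag hl]

omit [Fintype κ] in
theorem Tilt_gram (M : Matrix ι κ ℝ) (z : ι → ℝ) : ∃ (N : Matrix ι κ ℝ) (b : κ → ℝ) (t : ℝ),
    ∀ a, (M + vecMulVec z a)ᵀ * (M + vecMulVec z a) =
      Nᵀ * N + vecMulVec (b + t • a) (b + t • a) := by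
  by_cases hz : z = 0
  · exact ⟨M, 0, 0, fun a => by simp [hz]⟩
  obtain ⟨t, e, he, rfl⟩ : ∃ (t : ℝ) (e : ι → ℝ), e ⬝ᵥ e = 1 ∧ z = t • e := by
    have h0 := (nrm_pos hz).ne'
    refine ⟨nrm z, (nrm z)⁻¹ • z, ?_, by rw [smul_smul, mul_inv_cancel₀ h0, one_smul]⟩
    rw [smul_dotProduct, dotProduct_smul, ← nrm_sq, smul_eq_mul, smul_eq_mul]
    field_simp
  refine ⟨M - vecMulVec e (Mᵀ *ᵥ e), Mᵀ *ᵥ e, t, fun a => ?_⟩
  have h1 : M + vecMulVec (t • e) a = M - vecMulVec e (Mᵀ *ᵥ e) + vecMulVec e (Mᵀ *ᵥ e + t • a) := by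
    rw [vecMulVec_add, smul_vecMulVec, vecMulVec_smul]
    abel
  have h2 : (M - vecMulVec e (Mᵀ *ᵥ e))ᵀ *ᵥ e = 0 := by
    rw [transpose_sub, transpose_vecMulVec, sub_mulVec, vecMulVec_mulVec, he]
    simp
  rw [h1, transpose_add, Matrix.add_mul, Matrix.mul_add, Matrix.mul_add, transpose_vecMulVec,
    mul_vecMulVec, h2, vecMulVec_mul_vecMulVec, vecMulVec_mul, ← mulVec_transpose, h2, he]
  simp

theorem Tilt_pg (p : ℝ) (w : κ → ℝ) (k : ℕ) : PG fun x => (p + w ⬝ᵥ x) ^ k := by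
  induction k with
  | zero => simpa using PG.const (N := κ) 1
  | succ k ih =>
    simpa only [pow_succ] using ih.mul ((PG.const p).add (PG.dot (fun i => PG.const (w i)) PG.coord))

theorem Tilt_rec (p : ℝ) (w : κ → ℝ) (k : ℕ) : ∫ x, (p + w ⬝ᵥ x) ^ (k + 2) ∂(gv κ) =
    p * ∫ x, (p + w ⬝ᵥ x) ^ (k + 1) ∂(gv κ) +
      (k + 1) * (w ⬝ᵥ w) * ∫ x, (p + w ⬝ᵥ x) ^ k ∂(gv κ) := by
  have hd : Grad (fun x => (p + w ⬝ᵥ x) ^ (k + 1)) fun x => ((k + 1) * (p + w ⬝ᵥ x) ^ k) • w :=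
    fun x h t hx => (((Grad.dot w x h t hx).const_add p).fun_pow (k + 1)).congr_deriv (by simp)
  have h := ibp_lin hd (Tilt_pg p w _)
    (fun a => (((PG.const ((k : ℝ) + 1)).mul (Tilt_pg p w k)).mul (PG.const (w a)))) w
  rw [← integral_const_mul, ← integral_const_mul]
  simp only [smul_dotProduct, smul_eq_mul, mul_right_comm _ _ (w ⬝ᵥ w)] at h
  rw [← h, ← integral_add ((Tilt_pg p w _).integrable.const_mul p)
    ((Tilt_pg p w _).mul (PG.dot (fun i => PG.const (w i)) PG.coord)).integrable]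
  exact integral_congr_ae (.of_forall fun x => by ring)

theorem Tilt_four (p : ℝ) (w : κ → ℝ) :
    ∫ x, (p + w ⬝ᵥ x) ^ 4 ∂(gv κ) ≤ 3 * (∫ x, (p + w ⬝ᵥ x) ^ 2 ∂(gv κ)) ^ 2 := by
  classical
  have h0 : ∫ x, (p + w ⬝ᵥ x) ^ 0 ∂(gv κ) = 1 := by simp
  have h1 : ∫ x, (p + w ⬝ᵥ x) ^ 1 ∂(gv κ) = p := by
    simp only [pow_one]
    rw [integral_add (integrable_const p) (PG.dot (fun i => PG.const (w i)) PG.coord).integrable,
      integral_dot]
    simp
  have h2 := Tilt_rec p w 0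
  have h3 := Tilt_rec p w 1
  have h4 := Tilt_rec p w 2
  norm_num only [h0, h1] at h2 h3 h4
  rw [h4, h3, h2]
  linarith only [sq_nonneg (p ^ 2), sq_nonneg (p ^ (2 : ℕ))]

theorem Tilt_one (p : ℝ) (w : κ → ℝ) {S : Set (κ → ℝ)} {q : ℝ} (hq : 0 ≤ q)
    (h : gv κ S ≤ ENNReal.ofReal (q ^ 2)) :
    ∫ x in S, (p + w ⬝ᵥ x) ^ 2 ∂(gv κ) ≤ 2 * q * ∫ x, (p + w ⬝ᵥ x) ^ 2 ∂(gv κ) := by
  have h1 : (gv κ).real S ≤ q ^ 2 := ENNReal.toReal_le_of_le_ofReal (sq_nonneg q) h
  have h2 : 0 ≤ ∫ x, (p + w ⬝ᵥ x) ^ 2 ∂(gv κ) := integral_nonneg fun x => sq_nonneg _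
  have h3 := Tilt_four p w
  have i2 := (Tilt_pg p w 2).integrable
  have i4 := (Tilt_pg p w 4).integrable
  have h4 : ∫ x in S, (p + w ⬝ᵥ x) ^ 4 ∂(gv κ) ≤ ∫ x, (p + w ⬝ᵥ x) ^ 4 ∂(gv κ) :=
    setIntegral_le_integral i4 (.of_forall fun x => by positivity)
  have h5 := discrim_le_zero (a := q ^ 2) (b := -2 * ∫ x in S, (p + w ⬝ᵥ x) ^ 2 ∂(gv κ))
    (c := 3 * (∫ x, (p + w ⬝ᵥ x) ^ 2 ∂(gv κ)) ^ 2) fun s => by
    have h6 : ∫ x in S, 2 * s * (p + w ⬝ᵥ x) ^ 2 ∂(gv κ) ≤
        ∫ x in S, (s * s + (p + w ⬝ᵥ x) ^ 4) ∂(gv κ) :=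
      integral_mono (i2.const_mul _).integrableOn ((integrable_const _).add i4).integrableOn
        fun x => by linarith only [sq_nonneg (s - (p + w ⬝ᵥ x) ^ 2), sq_nonneg (s - (p + w ⬝ᵥ x) ^ (2 : ℕ))]
    rw [integral_const_mul, integral_add (integrable_const _) i4.integrableOn, setIntegral_const,
      smul_eq_mul] at h6
    linarith only [h3, h4, h6, h1, mul_le_mul_of_nonneg_right h1 (mul_self_nonneg s), mul_self_nonneg s]
  refine abs_le_of_sq_le_sq' ?_ (by positivity) |>.2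
  rw [discrim] at h5
  linarith only [h5, sq_nonneg (q * ∫ x, (p + w ⬝ᵥ x) ^ 2 ∂(gv κ)), sq_nonneg (q * ∫ (x : κ → ℝ), (p + w ⬝ᵥ x) ^ (2 : ℕ) ∂gv κ)]

end Aux

theorem tilt {ι κ κ' : Type*} [Fintype ι] [Fintype κ] [Fintype κ'] [DecidableEq κ]
    (M0 : Matrix ι κ ℝ) (z : ι → ℝ) (L : Matrix κ κ' ℝ) {S : Set (κ' → ℝ)} (hS : MeasurableSet S)
    {q : ℝ} (hq : 0 ≤ q) (h : gv κ' S ≤ ENNReal.ofReal (q ^ 2)) :
    ∫⁻ γ, S.indicator 1 γ * ENNReal.ofReal
        ((M0 + vecMulVec z (L *ᵥ γ))ᵀ * (M0 + vecMulVec z (L *ᵥ γ))).det ∂(gv κ') ≤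
      ENNReal.ofReal (2 * q) * ∫⁻ γ, ENNReal.ofReal
        ((M0 + vecMulVec z (L *ᵥ γ))ᵀ * (M0 + vecMulVec z (L *ᵥ γ))).det ∂(gv κ') := by
  obtain ⟨N, b, t, hN⟩ := Tilt_gram M0 z
  obtain ⟨U, c, l, hc, hl, hU⟩ := Tilt_det (gram_posSemidef' N)
  obtain ⟨l', p, w, hl', hf⟩ : ∃ (l' p : Option κ → ℝ) (w : Option κ → κ' → ℝ), (∀ i, 0 ≤ l' i) ∧
      ∀ γ, ((M0 + vecMulVec z (L *ᵥ γ))ᵀ * (M0 + vecMulVec z (L *ᵥ γ))).det =
        ∑ i, l' i * (p i + w i ⬝ᵥ γ) ^ 2 := by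
    refine ⟨fun o => o.elim c l, fun o => o.elim 1 (U *ᵥ b), fun o => o.elim 0 (t • (U * L)),
      fun o => by cases o; exacts [hc, hl _], fun γ => ?_⟩
    rw [hN, hU, Fintype.sum_option, mulVec_add, mulVec_smul, mulVec_mulVec, ← smul_mulVec]
    simp only [Option.elim_none, Option.elim_some, zero_dotProduct, add_zero, one_pow, mul_one]
    rfl
  simp only [hf]
  have i1 := fun i => (Tilt_pg (p i) (w i) 2).integrable.const_mul (l' i)
  have i2 := integrable_finsetSum univ fun i _ => i1 i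
  have n2 : ∀ γ, 0 ≤ ∑ i, l' i * (p i + w i ⬝ᵥ γ) ^ 2 := fun γ =>
    sum_nonneg fun i _ => mul_nonneg (hl' i) (sq_nonneg _)
  have e : ∀ (f : (κ' → ℝ) → ℝ≥0∞) γ, S.indicator 1 γ * f γ = S.indicator f γ := fun f γ => by
    by_cases hγ : γ ∈ S <;> simp [hγ]
  simp only [e fun γ => ENNReal.ofReal (∑ i, l' i * (p i + w i ⬝ᵥ γ) ^ 2)]
  rw [lintegral_indicator hS, ← ofReal_integral_eq_lintegral_ofReal i2 (.of_forall n2),
    ← ofReal_integral_eq_lintegral_ofReal i2.integrableOn (.of_forall n2),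
    ← ENNReal.ofReal_mul (by positivity), integral_finsetSum _ fun i _ => i1 i,
    integral_finsetSum _ fun i _ => (i1 i).integrableOn, mul_sum]
  refine ENNReal.ofReal_le_ofReal (sum_le_sum fun i _ => ?_)
  rw [integral_const_mul, integral_const_mul, mul_left_comm]
  exact mul_le_mul_of_nonneg_left (Tilt_one _ _ hq h) (hl' i)

end Pool.Agent.Work.MP_6af739_lc
end

-- merged part: Pool.Agent.Work.MP_6af739_lc.Hat
section
/-!
The coordinates (p, G): A = of (hA b lam p G), x = hx n p = (r, 0, ..., 0), A x = r a0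
(Fin.sum_univ_succ). hat_sc: entrywise; column 0 is a0/s = h1/r; the other columns are
S⁻¹ (G - θ ω ωᵀ G) = hG - θ h2 (h0ᵀ hG) because h0 j / s j = ω j (ω = u/(s b)).
hat_theta: h0·h2 = ω·ω =: N, σ^2 = 1 + N/λ^2, so θ N = (σ^2 - 1)/(σ (σ+1)) = 1 - 1/σ.
hat_unB: (1 + σ θ ω ωᵀ)(1 - θ ω ωᵀ) = 1, and |B g|^2 + (ω · B g)^2/λ^2 = |g|^2 (ω · B g = ω · g / σ).
Sign flips: diagonal matrices commute, (D Gt)ᵀ (D Gt) = Gtᵀ Gt (sg_sq), proj (D Gt) = flip D (proj Gt),
a0, mpsi, nu0 only use the diagonal (flip_diag). mp_flip: measurePreserving_pi, each row is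
multiplied by 1 or -1 (mp_neg_gv), or mp_left with the matrix diagonal (sg D).
-/

namespace Pool.Agent.Work.MP_6af739_lc

open Matrix Finset MeasureTheory ProbabilityTheory
open Pool.Agent.Work.MP_6a50bc_pr
open Pool.Agent.Work.MP_5c5849_an (sg av)
open scoped ENNReal

variable {m n : ℕ} {b : Fin m → ℝ} {lam : ℝ} {p : ℝ × (Fin m → ℝ)} {G : Matrix (Fin m) (Fin n) ℝ}

theorem hat_mulVec (b : Fin m → ℝ) (lam : ℝ) (p : ℝ × (Fin m → ℝ)) (G : Matrix (Fin m) (Fin n) ℝ) :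
    Matrix.of (hA b lam p G) *ᵥ hx n p = fun j => p.1 * p.2 j := by
  funext j
  simp [mulVec, dotProduct, Fin.sum_univ_succ, hA, hx, mul_comm]

theorem hat_mulVec_cons (z : Fin n → ℝ) :
    Matrix.of (hA b lam p G) *ᵥ Fin.cons 0 z = hB b lam p *ᵥ (G *ᵥ z) := by
  rw [mulVec_mulVec]
  funext j
  simp [mulVec, dotProduct, Fin.sum_univ_succ, hA]

theorem hat_slack : slack (Matrix.of (hA b lam p G)) b (hx n p) = hs b p := by
  funext j
  rw [slack_apply, hat_mulVec]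
  rfl

theorem hat_om : om (Matrix.of (hA b lam p G)) b (hx n p) = hw b p := by
  funext j
  rw [om, hat_slack]
  rfl

theorem hat_vz : vz (Matrix.of (hA b lam p G)) b (hx n p) = h0 b p := by
  funext j
  rw [vz, hat_mulVec]
  rfl

theorem nrm_hx (hp : 0 ≤ p.1) : nrm (hx n p) = p.1 := by
  simp [nrm, dotProduct, Fin.sum_univ_succ, hx, Real.sqrt_mul_self hp]

theorem hat_inter (hp : Adm b p) : Inter (Matrix.of (hA b lam p G)) b (hx n p) := by
  intro j
  rw [hat_slack]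
  exact hp.2 j

theorem one_le_hsig : 1 ≤ hsig b lam p := by
  refine Real.one_le_sqrt.2 (le_add_of_nonneg_right ?_)
  exact div_nonneg (dot_self_nonneg _) (sq_nonneg _)

theorem hsig_sq : hsig b lam p ^ 2 = 1 + hw b p ⬝ᵥ hw b p / lam ^ 2 :=
  Real.sq_sqrt (add_nonneg zero_le_one (div_nonneg (dot_self_nonneg _) (sq_nonneg _)))

theorem hth_pos (hl : 0 < lam) : 0 < hth b lam p := by
  have h : 0 < hsig b lam p := one_pos.trans_le one_le_hsig
  unfold hth
  positivity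

theorem hat_h0_div (hb : ∀ j, 0 < b j) (hp : Adm b p) (j : Fin m) :
    h0 b p j / hs b p j = hw b p j := by
  have h1 := (hb j).ne'
  have h2 := (hp.2 j).ne'
  have h3 : p.1 * p.2 j = b j - hs b p j := by rw [hs]; ring
  rw [h0, hw, h3]
  field_simp

theorem hat_theta_w (hl : 0 < lam) :
    hth b lam p * (hw b p ⬝ᵥ hw b p) + (hsig b lam p)⁻¹ = 1 := by
  have h : 0 < hsig b lam p := one_pos.trans_le one_le_hsig
  have h1 : hw b p ⬝ᵥ hw b p = lam ^ 2 * (hsig b lam p ^ 2 - 1) := by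
    rw [hsig_sq]
    field_simp
    ring
  rw [h1, hth]
  field_simp
  ring

theorem hat_hB (g : Fin m → ℝ) :
    hB b lam p *ᵥ g = g - (hth b lam p * (hw b p ⬝ᵥ g)) • hw b p := by
  rw [hB, sub_mulVec, one_mulVec, smul_mulVec, vecMulVec_mulVec]
  funext j
  simp [mul_assoc]

theorem hat_dotB (hl : 0 < lam) (g : Fin m → ℝ) :
    hw b p ⬝ᵥ hB b lam p *ᵥ g = (hsig b lam p)⁻¹ * (hw b p ⬝ᵥ g) := by
  rw [hat_hB, dotProduct_sub, dotProduct_smul, smul_eq_mul]
  linear_combination (-(hw b p ⬝ᵥ g)) * hat_theta_w (b := b) (p := p) hl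

theorem hat_sg_sq (D : Fin m → Fin 2) : diagonal (sg D) * diagonal (sg D) = 1 := by
  rw [diagonal_mul_diagonal]
  simp only [Pool.Agent.Work.MP_5c5849_an.sg_sq, diagonal_one]

theorem h0_dot_h2 (hb : ∀ j, 0 < b j) (hp : Adm b p) : h0 b p ⬝ᵥ h2 b p = hw b p ⬝ᵥ hw b p := by
  refine sum_congr rfl fun j _ => ?_
  rw [h2, ← hat_h0_div hb hp j]
  ring

theorem h0_dot_h1 (hb : ∀ j, 0 < b j) (hp : Adm b p) :
    h0 b p ⬝ᵥ h1 b p =
      ((Matrix.of (hA b lam p G))ᵀ *ᵥ om (Matrix.of (hA b lam p G)) b (hx n p)) ⬝ᵥ hx n p := by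
  rw [dotProduct_comm (_ *ᵥ _), dotProduct_mulVec, vecMul_transpose, hat_mulVec, hat_om]
  refine sum_congr rfl fun j _ => ?_
  rw [← hat_h0_div hb hp j, h1]
  ring

theorem hat_theta (hb : ∀ j, 0 < b j) (hp : Adm b p) (hl : 0 < lam) :
    hth b lam p * (h0 b p ⬝ᵥ h2 b p) + (hsig b lam p)⁻¹ = 1 := by
  rw [h0_dot_h2 hb hp]
  exact hat_theta_w hl

theorem hat_sc (hb : ∀ j, 0 < b j) (hp : Adm b p) :
    sc (Matrix.of (hA b lam p G)) b (hx n p) =
      mM p.1 (hth b lam p) (hG b p G) (h0 b p) (h1 b p) (h2 b p) := by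
  ext j i
  rw [sc, hat_slack, diagonal_mul]
  refine Fin.cases ?_ (fun i => ?_) i
  · have h := hp.1.ne'
    simp only [mM, hA, of_apply, Fin.cons_zero, h1]
    field_simp
  · have e : (h0 b p ᵥ* hG b p G) i = (hw b p ᵥ* G) i := by
      simp only [vecMul, dotProduct, hG, diagonal_mul]
      refine sum_congr rfl fun k _ => ?_
      rw [← hat_h0_div hb hp k]
      ring
    simp only [mM, hA, of_apply, Fin.cons_succ, hB, Matrix.sub_mul, Matrix.one_mul,
      Matrix.smul_mul, vecMulVec_mul, Matrix.sub_apply, Matrix.smul_apply, vecMulVec_apply, e,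
      smul_eq_mul, h2]
    simp only [hG, diagonal_mul]
    ring

theorem hpsi_apply (hb : ∀ j, 0 < b j) (hp : Adm b p) (k : Fin m) :
    hpsi b lam p k =
      ((hsig b lam p)⁻¹ + hth b lam p * (h0 b p ⬝ᵥ h1 b p) / (hs b p k * b k)) * h1 b p k := by
  simp only [hpsi, Pi.add_apply, Pi.smul_apply, smul_eq_mul]
  rw [h2, ← hat_h0_div hb hp k]
  generalize h0 b p ⬝ᵥ h1 b p = E
  simp only [h0, h1]
  ring

theorem hat_unB (hl : 0 < lam) (g : Fin m → ℝ) :
    g = hB b lam p *ᵥ g +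
      (hsig b lam p * hth b lam p * (hw b p ⬝ᵥ hB b lam p *ᵥ g)) • hw b p := by
  have h : hsig b lam p ≠ 0 := (one_pos.trans_le one_le_hsig).ne'
  rw [hat_dotB hl, hat_hB]
  have e : hsig b lam p * hth b lam p * ((hsig b lam p)⁻¹ * (hw b p ⬝ᵥ g)) =
      hth b lam p * (hw b p ⬝ᵥ g) := by field_simp
  rw [e, sub_add_cancel]

theorem hat_normB (hl : 0 < lam) (g : Fin m → ℝ) :
    g ⬝ᵥ g = hB b lam p *ᵥ g ⬝ᵥ hB b lam p *ᵥ g + (hw b p ⬝ᵥ hB b lam p *ᵥ g) ^ 2 / lam ^ 2 := by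
  have h : 0 < hsig b lam p := one_pos.trans_le one_le_hsig
  have h1 := hat_theta_w (b := b) (p := p) hl
  have h2 : hth b lam p * (1 + (hsig b lam p)⁻¹) = (hsig b lam p)⁻¹ ^ 2 / lam ^ 2 := by
    unfold hth
    field_simp
  rw [hat_dotB hl, hat_hB]
  simp only [sub_dotProduct, dotProduct_sub, smul_dotProduct, dotProduct_smul, smul_eq_mul,
    dotProduct_comm g (hw b p)]
  linear_combination (hw b p ⬝ᵥ g) ^ 2 * h2 - hth b lam p * (hw b p ⬝ᵥ g) ^ 2 * h1

theorem hG_flip (D : Fin m → Fin 2) :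
    hG b p (diagonal (sg D) * G) = diagonal (sg D) * hG b p G := by
  rw [hG, hG, ← Matrix.mul_assoc, ← Matrix.mul_assoc, diagonal_mul_diagonal, diagonal_mul_diagonal]
  simp only [mul_comm]

theorem gram_flip (D : Fin m → Fin 2) (M : Matrix (Fin m) (Fin n) ℝ) :
    (diagonal (sg D) * M)ᵀ * (diagonal (sg D) * M) = Mᵀ * M := by
  rw [transpose_mul, diagonal_transpose, Matrix.mul_assoc, ← Matrix.mul_assoc (diagonal _),
    hat_sg_sq, Matrix.one_mul]

theorem proj_flip (D : Fin m → Fin 2) (M : Matrix (Fin m) (Fin n) ℝ) :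
    proj (diagonal (sg D) * M) = flip D (proj M) := by
  rw [proj, gram_flip, transpose_mul, diagonal_transpose, flip, proj]
  simp only [Matrix.mul_assoc]

theorem einv_flip (D : Fin m → Fin 2) (P : ℝ) :
    EInv b lam p (diagonal (sg D) * G) P ↔ EInv b lam p G P := by
  unfold EInv
  rw [hG_flip, proj_flip]
  have e : a0 (flip D (proj (hG b p G))) (h0 b p) = a0 (proj (hG b p G)) (h0 b p) := by
    simp only [a0, flip_diag]
  exact ⟨fun h => ⟨h.hU, h.hV, h.hY, h.h01, h.h11, h.hσ, h.hE, e ▸ h.ha, h.hUB, e ▸ h.haB, h.hn,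
      h.hβ, h.hVB, h.hYB⟩,
    fun h => ⟨h.hU, h.hV, h.hY, h.h01, h.h11, h.hσ, h.hE, e.symm ▸ h.ha, h.hUB, e.symm ▸ h.haB,
      h.hn, h.hβ, h.hVB, h.hYB⟩⟩

theorem hZ_flip (D : Fin m → Fin 2) (P : ℝ) :
    hZ b lam p (diagonal (sg D) * G) P = hZ b lam p G P := by
  unfold hZ
  rw [hG_flip, proj_flip]
  simp only [zz, nu0, mpsi, flip_diag]

theorem mp_flip (D : Fin m → Fin 2) :
    MeasurePreserving
      (fun (a : Fin m → Fin n → ℝ) (j : Fin m) (i : Fin n) =>
        (diagonal (sg D) * Matrix.of a : Matrix (Fin m) (Fin n) ℝ) j i)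
      (gm (Fin m) (Fin n)) (gm (Fin m) (Fin n)) :=
  mp_left (by rw [diagonal_transpose, hat_sg_sq])

end Pool.Agent.Work.MP_6af739_lc
end

-- merged part: Pool.Agent.Work.MP_6af739_lc.BadProb
section
/-!
The base cavity event is unlikely under the weight hdet. Resample row k (mp_update, lintegral_prod,
measurability from Meas.lean). For a fixed a and G = of (update a k γ): hXk does not depend on γ, and
sc (of hA) b hx = M0 + vecMulVec z (L γ) where M0 is the value at γ = 0, z = S⁻¹ hB e_k, and L is the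
(n+1) × n matrix of γ ↦ Fin.cons 0 γ; hdet = det (scᵀ sc) (hess_eq). If det hXk ≠ 0 then Y = hXk⁻¹ is
positive semidefinite (gram_posSemidef', PosSemidef.inv), and P^2 tr Y < γ · Y γ implies
(P^2 - 1) fro Y < |cq Y γ| (fro_le_trace); tail_cq bounds the probability by
3 exp (-(P^2-1)/4) ≤ q^2 with q = exp (-P)/2. Apply tilt.
-/

namespace Pool.Agent.Work.MP_6af739_lc

open Matrix Finset MeasureTheory ProbabilityTheory
open Pool.Agent.Work.MP_6a50bc_pr
open Pool.Agent.Work.MP_5c5849_an (sg av)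
open scoped ENNReal

variable {m n : ℕ} {b : Fin m → ℝ} {lam : ℝ} {p : ℝ × (Fin m → ℝ)} {G : Matrix (Fin m) (Fin n) ℝ}

/-- The matrix of `γ ↦ (0, γ)`. -/
def bpL (n : ℕ) : Matrix (Fin (n + 1)) (Fin n) ℝ :=
  Matrix.of (Fin.cons 0 fun i => Pi.single i 1)

lemma bp_sc (a : Fin m → Fin n → ℝ) (k : Fin m) (γ : Fin n → ℝ) :
    sc (Matrix.of (hA b lam p (Matrix.of (Function.update a k γ)))) b (hx n p) =
      sc (Matrix.of (hA b lam p (Matrix.of (Function.update a k 0)))) b (hx n p) +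
        vecMulVec (fun j => (hs b p j)⁻¹ * hB b lam p j k) (bpL n *ᵥ γ) := by
  ext j i
  rw [sc, sc, hat_slack, hat_slack, Matrix.add_apply, diagonal_mul, diagonal_mul, vecMulVec_apply,
    mul_assoc, ← mul_add]
  congr 1
  refine Fin.cases ?_ (fun i => ?_) i
  · have : (bpL n *ᵥ γ) 0 = 0 := zero_dotProduct γ
    rw [this, mul_zero, add_zero]
    rfl
  · have : (bpL n *ᵥ γ) i.succ = γ i := (single_dotProduct γ 1 i).trans (one_mul _)
    rw [this]
    change ∑ l, hB b lam p j l * Function.update a k γ l i =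
      ∑ l, hB b lam p j l * Function.update a k 0 l i + _
    rw [← add_sum_erase _ _ (mem_univ k), ← add_sum_erase univ _ (mem_univ k),
      Function.update_self, Function.update_self, Pi.zero_apply, mul_zero, zero_add, add_comm]
    congr 1
    refine sum_congr rfl fun l hl => ?_
    rw [Function.update_of_ne (ne_of_mem_erase hl), Function.update_of_ne (ne_of_mem_erase hl)]

lemma bp_hXk (a : Fin m → Fin n → ℝ) (k : Fin m) (γ : Fin n → ℝ) :
    hXk b p (Matrix.of (Function.update a k γ)) k = hXk b p (Matrix.of a) k := by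
  have : zr (hG b p (Matrix.of (Function.update a k γ))) k = zr (hG b p (Matrix.of a)) k := by
    ext j i
    rw [zr, zr, updateRow_apply, updateRow_apply]
    split_ifs with h
    · rfl
    · rw [hG, hG, diagonal_mul, diagonal_mul, of_apply, of_apply, Function.update_of_ne h]
  rw [hXk, hXk, this]

lemma bp_num {P : ℝ} (hP : 10 ≤ P) :
    3 * Real.exp (-(P ^ 2 - 1) / 4) ≤ (Real.exp (-P) / 2) ^ 2 := by
  have h1 : Real.exp (-(P ^ 2 - 1) / 4) * Real.exp (19 / 4) ≤ Real.exp (-P) ^ 2 := by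
    rw [← Real.exp_add, ← Real.exp_nat_mul]
    refine Real.exp_le_exp.2 ?_
    push_cast
    linarith only [hP, mul_nonneg_of_nonpos_of_nonpos (Mathlib.Tactic.Linarith.sub_nonpos_of_le hP) (Mathlib.Tactic.Linarith.sub_nonpos_of_le hP)]
  have h2 := Real.quadratic_le_exp_of_nonneg (x := 19 / 4) (by norm_num)
  have h3 := Real.exp_pos (-(P ^ 2 - 1) / 4)
  rw [div_pow]
  linarith only [h1, h3, h2, mul_nonneg_of_nonpos_of_nonpos (Mathlib.Tactic.Linarith.sub_nonpos_of_le h2) (le_of_lt (Mathlib.Tactic.Linarith.sub_neg_of_lt h3))]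

lemma bp_prob {P : ℝ} (hP : 10 ≤ P) (a : Fin m → Fin n → ℝ) (k : Fin m) :
    gv (Fin n) {γ : Fin n → ℝ | BadK b p (Matrix.of (Function.update a k γ)) P k} ≤
      ENNReal.ofReal ((Real.exp (-P) / 2) ^ 2) := by
  have hY : (hXk b p (Matrix.of a) k)⁻¹.PosSemidef := (gram_posSemidef' _).inv
  refine le_trans (measure_mono fun γ hγ => ?_)
    ((tail_cq hY.1 (P ^ 2 - 1)).trans (ENNReal.ofReal_le_ofReal (bp_num hP)))
  have h1 := hγ.2
  rw [bp_hXk] at h1
  have h2 : Matrix.of (Function.update a k γ) k = γ := funext fun i => by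
    rw [of_apply, Function.update_self]
  rw [h2] at h1
  have h3 := mul_le_mul_of_nonneg_left (fro_le_trace hY) (by linarith only [hP, mul_nonneg_of_nonpos_of_nonpos (Mathlib.Tactic.Linarith.sub_nonpos_of_le hP) (Mathlib.Tactic.Linarith.sub_nonpos_of_le hP)] : 0 ≤ P ^ 2 - 1)
  rw [Set.mem_ofPred_eq]
  refine lt_of_lt_of_le ?_ (le_abs_self _)
  rw [cq, qf]
  linarith only [h1, h3]

theorem badK_le {P : ℝ} (hP : 10 ≤ P) (k : Fin m) :
    ∫⁻ a, {a | BadK b p (Matrix.of a) P k}.indicator 1 a *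
        ENNReal.ofReal (hdet b lam p (Matrix.of a)) ∂(gm (Fin m) (Fin n)) ≤
      ENNReal.ofReal (Real.exp (-P)) *
        ∫⁻ a, ENNReal.ofReal (hdet b lam p (Matrix.of a)) ∂(gm (Fin m) (Fin n)) := by
  have hf : Measurable fun a : Fin m → Fin n → ℝ => ENNReal.ofReal (hdet b lam p (Matrix.of a)) :=
    (measurable_hdet b lam (pf := fun _ => p) measurable_const measurable_id).ennreal_ofReal
  have hS : MeasurableSet {a : Fin m → Fin n → ℝ | BadK b p (Matrix.of a) P k} :=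
    measurableSet_badK b (pf := fun _ => p) measurable_const measurable_id P k
  have hg : Measurable fun a : Fin m → Fin n → ℝ =>
      {a | BadK b p (Matrix.of a) P k}.indicator (1 : (Fin m → Fin n → ℝ) → ℝ≥0∞) a *
        ENNReal.ofReal (hdet b lam p (Matrix.of a)) := (measurable_one.indicator hS).mul hf
  have mp := mp_update (ι := Fin m) (κ := Fin n) k
  have key : ∀ F : (Fin m → Fin n → ℝ) → ℝ≥0∞, Measurable F → ∫⁻ a, F a ∂(gm (Fin m) (Fin n)) =
      ∫⁻ a, ∫⁻ γ, F (Function.update a k γ) ∂(gv (Fin n)) ∂(gm (Fin m) (Fin n)) := fun F hF =>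
    (mp.lintegral_comp hF).symm.trans (lintegral_prod _ (hF.comp mp.measurable).aemeasurable)
  rw [key _ hg, key _ hf, ← lintegral_const_mul' _ _ ENNReal.ofReal_ne_top]
  refine lintegral_mono fun a => ?_
  have hS' : MeasurableSet {γ : Fin n → ℝ | BadK b p (Matrix.of (Function.update a k γ)) P k} :=
    measurableSet_badK b (pf := fun _ => p) measurable_const (measurable_update a) P k
  have h := tilt (sc (Matrix.of (hA b lam p (Matrix.of (Function.update a k 0)))) b (hx n p))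
    (fun j => (hs b p j)⁻¹ * hB b lam p j k) (bpL n) hS' (q := Real.exp (-P) / 2) (by positivity)
    (bp_prob hP a k)
  rw [mul_div_cancel₀ _ two_ne_zero] at h
  simp only [← bp_sc, ← hess_eq] at h
  exact h

end Pool.Agent.Work.MP_6af739_lc
end

-- merged part: Pool.Agent.Work.MP_6af739_lc.TailS
section
/-!
Small primal slacks at the optimal basis are unlikely. Fix j. For B not containing j let E_B be the event
Good (zr (of a) j) (44/100) and Strict (zr (of a) j) b c B; it does not depend on row j, the E_B are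
pairwise disjoint (strict_unique), and the event for (B, j) lies in E_B and
b j - t ≤ x_B · a j ≤ b j with x_B = candX (zr (of a) j) b B (Strict.zr, Good.zr, candX_zr). On E_B,
B is nonempty, 1 ≤ b i = a_i · x_B ≤ 8 √m nrm x_B (tight, Good.row), so anticonc gives probability
≤ 8 √m t. Resample row j (mp_update, Measure.prod_apply): for fixed a at most one B has E_B.
-/

namespace Pool.Agent.Work.MP_6af739_lc

open Matrix Finset MeasureTheory ProbabilityTheory
open Pool.Agent.Work.MP_6a50bc_pr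
open Pool.Agent.Work.MP_5c5849_an (sg av)
open scoped ENNReal

lemma tails_zr {m n : ℕ} (a : Fin m → Fin n → ℝ) (j : Fin m) (g : Fin n → ℝ) :
    zr (Matrix.of (Function.update a j g)) j = zr (Matrix.of a) j := by
  ext k i
  by_cases h : k = j
  · simp [zr, h]
  · simp [zr, updateRow_ne h, Function.update_of_ne h]

lemma tails_row {m n : ℕ} (hn : 1 ≤ n) {b : Fin m → ℝ} (hb : Box b) (c : Fin n → ℝ) {t : ℝ}
    (ht : 0 ≤ t) (j : Fin m) :
    gm (Fin m) (Fin n) {a | ∃ B : Finset (Fin m), Good (zr (Matrix.of a) j) (44 / 100) ∧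
        Strict (zr (Matrix.of a) j) b c B ∧ b j - t ≤ candX (zr (Matrix.of a) j) b B ⬝ᵥ a j ∧
        candX (zr (Matrix.of a) j) b B ⬝ᵥ a j ≤ b j - t + t} ≤ ENNReal.ofReal (8 * √m * t) := by
  refine section_le j ?_ ?_
  · rw [Set.ofPred_exists]
    refine MeasurableSet.iUnion fun B => ?_
    have h1 : Measurable fun a : Fin m → Fin n → ℝ => candX (zr (Matrix.of a) j) b B ⬝ᵥ a j :=
      MV.dot (MV.of (measurable_candX b (measurable_zr j) B)) (MV.of (measurable_pi_apply j))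
    exact ms_and (measurableSet_good (measurable_zr j) _)
      (ms_and (measurableSet_strict b (measurable_zr j) measurable_const B)
        (ms_and (measurableSet_le measurable_const h1) (measurableSet_le h1 measurable_const)))
  · rintro a ⟨B, hG, hS, -⟩
    obtain ⟨i, hi⟩ : B.Nonempty := by
      rw [← Finset.card_pos, hS.1.2.1]; omega
    have h1 := tight (b := b) hS.1.1 hS.1.2.1 hi
    have h2 : (zr (Matrix.of a) j *ᵥ candX (zr (Matrix.of a) j) b B) i ≤
        8 * √m * nrm (candX (zr (Matrix.of a) j) b B) :=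
      (dot_le _ _).trans (mul_le_mul_of_nonneg_right (hG.row i) (nrm_nonneg _))
    have h3 : 1 ≤ 8 * √m * nrm (candX (zr (Matrix.of a) j) b B) := by linarith only [h1, h2, hb, (hb i).1]
    have h4 : 0 < nrm (candX (zr (Matrix.of a) j) b B) := by
      refine lt_of_le_of_ne (nrm_nonneg _) fun h => ?_
      rw [← h, mul_zero] at h3
      linarith
    have h5 : candX (zr (Matrix.of a) j) b B ≠ 0 := fun h => by
      rw [h] at h4
      simp [nrm] at h4
    refine le_trans (measure_mono ?_) ((anticonc h5 (b j - t) t).trans ?_)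
    · rintro g ⟨B', -, hS', h6⟩
      rw [tails_zr] at hS' h6
      rw [Function.update_self, ← strict_unique hS hS'] at h6
      exact h6
    · refine ENNReal.ofReal_le_ofReal ?_
      rw [div_le_iff₀ h4]
      linarith only [ht, h3, mul_nonneg_of_nonpos_of_nonpos (Mathlib.Tactic.Linarith.sub_nonpos_of_le ht) (Mathlib.Tactic.Linarith.sub_nonpos_of_le h3)]

theorem tail_slack {m n : ℕ} (hm : 100 ≤ m) (hn : 1 ≤ n) {b : Fin m → ℝ} (hb : Box b)
    (c : Fin n → ℝ) {t : ℝ} (ht : 0 ≤ t) :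
    gm (Fin m) (Fin n) {a | Good (Matrix.of a) (45 / 100) ∧ ∃ B, Strict (Matrix.of a) b c B ∧
        ∃ j ∉ B, slack (Matrix.of a) b (candX (Matrix.of a) b B) j ≤ t} ≤
      ENNReal.ofReal (8 * m ^ 2 * t) := by
  have hb' : ∀ j, 0 < b j := fun j => lt_of_lt_of_le one_pos (hb j).1
  have hsub : {a : Fin m → Fin n → ℝ | Good (Matrix.of a) (45 / 100) ∧
      ∃ B, Strict (Matrix.of a) b c B ∧
        ∃ j ∉ B, slack (Matrix.of a) b (candX (Matrix.of a) b B) j ≤ t} ⊆
      ⋃ j : Fin m, {a | ∃ B : Finset (Fin m), Good (zr (Matrix.of a) j) (44 / 100) ∧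
        Strict (zr (Matrix.of a) j) b c B ∧ b j - t ≤ candX (zr (Matrix.of a) j) b B ⬝ᵥ a j ∧
        candX (zr (Matrix.of a) j) b B ⬝ᵥ a j ≤ b j - t + t} := by
    rintro a ⟨hG, B, hS, j, hj, h⟩
    refine Set.mem_iUnion.2 ⟨j, B, hG.zr hm j, hS.zr hb' hj, ?_⟩
    have e : candX (zr (Matrix.of a) j) b B ⬝ᵥ a j =
        (Matrix.of a *ᵥ candX (Matrix.of a) b B) j := by
      rw [candX_zr hj, dotProduct_comm]; rfl
    have h1 := hS.1.2.2 j hj
    rw [slack_apply] at h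
    rw [e]
    constructor <;> linarith only [h, h1]
  refine (measure_mono hsub).trans ((measure_iUnion_fintype_le _ _).trans ?_)
  refine (sum_le_sum fun j _ => tails_row hn hb c ht j).trans ?_
  rw [sum_const, card_univ, Fintype.card_fin, nsmul_eq_mul, ← ENNReal.ofReal_natCast,
    ← ENNReal.ofReal_mul (Nat.cast_nonneg m)]
  refine ENNReal.ofReal_le_ofReal ?_
  have h1 : (1 : ℝ) ≤ m := by exact_mod_cast (by omega : 1 ≤ m)
  have h2 : √(m : ℝ) ≤ m := Real.sqrt_le_self_iff.2 (Or.inr h1)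
  have h3 := mul_le_mul_of_nonneg_left h2 (mul_nonneg (le_trans zero_le_one h1) ht)
  linarith only [h3]

end Pool.Agent.Work.MP_6af739_lc
end

-- merged part: Pool.Agent.Work.MP_6af739_lc.TailY
section
/-!
Small dual values at the optimal basis are unlikely. The probability π does not depend on c ≠ 0: scaling
(candY_smul) and rotation (lintegral_rot applied to the indicator, strict_rot, candY_rot, good_rot).
The shell T of c ≠ 0 with nrm c ≤ 2 √n has gv T ≥ 3/4 (Markov with integral_dot_self; gv of the origin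
is 0). So (3/4) π ≤ ∫ a, gv (c in T with the event) by Tonelli. Fix a Good matrix A. The cones
C_B = c with Strict A b c B are disjoint (strict_unique). For i in B let S be the set of c in C_B with
nrm c ≤ 2 √n and candY i ≤ t' := 2 √n t. The translates of S by j t' • A i, j < J, are disjoint subsets of
C_B (candY_add: candY i lies in (j t', (j+1) t']), and translate_le gives each of them measure
≥ exp (-1) gv S when J t' 8 √m ≤ 1/(4 √n) (Good.row). Take J = floor (1/(64 t n √m)); if J = 0 the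
bound exceeds 1; otherwise J ≥ 1/(128 t n √m), gv S ≤ 3 * 128 t n √m gv C_B. Sum over i in B and B; n ≤ m
whenever a basis exists.
-/

namespace Pool.Agent.Work.MP_6af739_lc

open Matrix Finset MeasureTheory ProbabilityTheory
open Pool.Agent.Work.MP_6a50bc_pr
open Pool.Agent.Work.MP_5c5849_an (sg av)
open scoped ENNReal

lemma ty_pack {κ : Type*} [Fintype κ] {C : Set (κ → ℝ)} (hC : MeasurableSet C)
    {y : (κ → ℝ) → ℝ} (hy : Measurable y) {v : κ → ℝ}
    (hadd : ∀ c s, y (c + s • v) = y c + s) (hCv : ∀ c ∈ C, ∀ s : ℝ, 0 ≤ s → c + s • v ∈ C)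
    (hpos : ∀ c ∈ C, 0 < y c) {R L δ : ℝ} (hR : 1 ≤ R) (hL0 : 0 < L) (hL : nrm v ≤ L)
    (hδ : 0 < δ) :
    gv κ {c | c ∈ C ∧ nrm c ≤ R ∧ y c ≤ δ} ≤ ENNReal.ofReal (6 * R * L * δ) * gv κ C := by
  set S : Set (κ → ℝ) := {c | c ∈ C ∧ nrm c ≤ R ∧ y c ≤ δ} with hS
  have hSm : MeasurableSet S :=
    ms_and hC (ms_and (measurableSet_le (MV.of measurable_id).nrm measurable_const)
      (measurableSet_le hy measurable_const))
  have hu : 0 < 2 * R * L * δ := by positivity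
  set J := ⌊1 / (2 * R * L * δ)⌋₊
  have hy' : ∀ (j : ℕ) c, c - ((j : ℝ) * δ) • v ∈ S →
      c ∈ C ∧ j * δ < y c ∧ y c ≤ (j + 1) * δ := by
    intro j c h
    have h1 := hCv _ h.1 (j * δ) (by positivity)
    have h2 := hadd (c - ((j : ℝ) * δ) • v) (j * δ)
    have h3 := hpos _ h.1
    have h4 := h.2.2
    rw [sub_add_cancel] at h1 h2
    exact ⟨h1, by linarith only [h2, h3], by linarith⟩
  have h1 : ∑ j ∈ range (J + 1), gv κ {c | c - ((j : ℝ) * δ) • v ∈ S} ≤ gv κ C := by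
    rw [← measure_biUnion_finset]
    · refine measure_mono fun c hc => ?_
      obtain ⟨j, -, hj⟩ := Set.mem_iUnion₂.1 hc
      exact (hy' j c hj).1
    · intro j _ k _ hjk
      refine Set.disjoint_left.2 fun c hj hk => hjk ?_
      have h2 := hy' j c hj
      have h3 := hy' k c hk
      have h4 : (j : ℝ) < k + 1 := lt_of_mul_lt_mul_right (h2.2.1.trans_le h3.2.2) hδ.le
      have h5 : (k : ℝ) < j + 1 := lt_of_mul_lt_mul_right (h3.2.1.trans_le h2.2.2) hδ.le
      have h6 : j < k + 1 := by exact_mod_cast h4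
      have h7 : k < j + 1 := by exact_mod_cast h5
      omega
    · exact fun j _ => (measurable_sub_const _) hSm
  have h2 : ∀ j ∈ range (J + 1),
      ENNReal.ofReal (1 / 3) * gv κ S ≤ gv κ {c | c - ((j : ℝ) * δ) • v ∈ S} := by
    intro j hj
    refine le_trans (mul_le_mul_left (ENNReal.ofReal_le_ofReal ?_) _)
      (translate_le hSm (fun c hc => hc.2.1) _)
    have h3 : (j : ℝ) ≤ 1 / (2 * R * L * δ) :=
      (Nat.cast_le.2 (Nat.lt_succ_iff.1 (mem_range.1 hj))).trans (Nat.floor_le (by positivity))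
    rw [le_div_iff₀ hu] at h3
    have h4 : R * nrm (((j : ℝ) * δ) • v) ≤ 1 / 2 := by
      rw [nrm_smul, abs_of_nonneg (by positivity)]
      have := mul_le_mul_of_nonneg_left hL (show 0 ≤ R * (j * δ) by positivity)
      linarith only [h3, this]
    have h5 := nrm_nonneg (((j : ℝ) * δ) • v)
    have h6 := mul_le_mul_of_nonneg_right hR h5
    have h7 := Real.add_one_le_exp (-(R * nrm (((j : ℝ) * δ) • v) + nrm (((j : ℝ) * δ) • v) ^ 2 / 2))
    linarith only [h4, h6, h7, hR, h5, mul_nonneg_of_nonpos_of_nonpos (Mathlib.Tactic.Linarith.sub_nonpos_of_le (sq_nonneg (nrm ((↑j * δ) • v)))) (Mathlib.Tactic.Linarith.sub_nonpos_of_le hR), mul_nonneg_of_nonpos_of_nonpos (Mathlib.Tactic.Linarith.sub_nonpos_of_le h4) (Mathlib.Tactic.Linarith.sub_nonpos_of_le h5)]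
  have h3 := (Finset.card_nsmul_le_sum _ _ _ h2).trans h1
  rw [card_range, nsmul_eq_mul, ← mul_assoc, ← ENNReal.ofReal_natCast,
    ← ENNReal.ofReal_mul (by positivity)] at h3
  refine le_trans ?_ (mul_le_mul_right h3 _)
  rw [← mul_assoc, ← ENNReal.ofReal_mul (by positivity)]
  refine le_mul_of_one_le_left' (ENNReal.one_le_ofReal.2 ?_)
  have h4 : 1 / (2 * R * L * δ) < J + 1 := Nat.lt_floor_add_one _
  rw [div_lt_iff₀ hu] at h4
  push_cast
  linarith only [h4]

/-- The event. -/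
def ty_ev {m n : ℕ} (b : Fin m → ℝ) (t : ℝ) (a : Fin m → Fin n → ℝ) (c : Fin n → ℝ) : Prop :=
  Good (Matrix.of a) (45 / 100) ∧ ∃ B, Strict (Matrix.of a) b c B ∧
    ∃ j ∈ B, candY (Matrix.of a) c B j ≤ t * nrm c

lemma ty_meas {α : Type*} [MeasurableSpace α] {m n : ℕ} (b : Fin m → ℝ) (t : ℝ)
    {Af : α → Fin m → Fin n → ℝ} {xf : α → Fin n → ℝ} (hA : Measurable Af) (hx : Measurable xf) :
    MeasurableSet {q | ty_ev b t (Af q) (xf q)} := by
  refine ms_and (measurableSet_good hA _) ?_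
  rw [Set.ofPred_exists]
  refine MeasurableSet.iUnion fun B => ms_and (measurableSet_strict b hA hx B) ?_
  rw [Set.ofPred_exists]
  refine MeasurableSet.iUnion fun j => ms_and (MeasurableSet.const _) ?_
  exact measurableSet_le (mv_candY (MM.of hA) (MV.of hx) B j) ((MV.of hx).nrm.const_mul t)

lemma ty_inv {m n : ℕ} (b : Fin m → ℝ) (t : ℝ) {c x : Fin n → ℝ} (hc : c ≠ 0) (hx : x ≠ 0) :
    gm (Fin m) (Fin n) {a | ty_ev b t a c} = gm (Fin m) (Fin n) {a | ty_ev b t a x} := by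
  have h0 : 0 < nrm x / nrm c := div_pos (nrm_pos hx) (nrm_pos hc)
  have h1 : nrm x = nrm ((nrm x / nrm c) • c) := by
    rw [nrm_smul, abs_of_pos h0, div_mul_cancel₀ _ (nrm_pos hc).ne']
  obtain ⟨O, hO, h2⟩ := exists_orth h1
  rw [← (mp_rotm hO).measure_preimage
    (ty_meas b t measurable_id' (measurable_const (a := c))).nullMeasurableSet]
  congr 1
  ext a
  have h3 : ∀ B, candY (Matrix.of a) x B = (nrm x / nrm c) • candY (Matrix.of a * O) c B := by
    intro B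
    rw [← candY_smul, ← h2, candY_rot hO]
  have h4 : ∀ B, Strict (Matrix.of a * O) b c B ↔ Strict (Matrix.of a) b x B := by
    intro B
    rw [← strict_rot hO (A := Matrix.of a), h2]
    simp only [Strict, candY_smul, Pi.smul_apply, smul_eq_mul, mul_pos_iff_of_pos_left h0]
  have h5 : t * nrm x = nrm x / nrm c * (t * nrm c) := by
    have := (nrm_pos hc).ne'
    field_simp
  simp only [Set.mem_preimage, Set.mem_ofPred_eq, ty_ev, of_rot, good_rot hO, h3, h4,
    Pi.smul_apply, smul_eq_mul]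
  rw [h5]
  simp only [mul_le_mul_iff_right₀ h0]

lemma ty_shell {n : ℕ} (hn : 1 ≤ n) {c : Fin n → ℝ} (hc : c ≠ 0) :
    ENNReal.ofReal (3 / 4) ≤ gv (Fin n) {x : Fin n → ℝ | x ≠ 0 ∧ nrm x ≤ 2 * √n} := by
  have hn' : (0 : ℝ) < n := by exact_mod_cast hn
  have h1 := anticonc hc 0 0
  have h2 := measure_ge_le (integrable_dot_self (κ := Fin n)) dot_self_nonneg (c := 4 * n)
    (by positivity)
  rw [integral_dot_self, Fintype.card_fin,
    show (n : ℝ) / (4 * n) = 1 / 4 by field_simp] at h2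
  rw [zero_div, ENNReal.ofReal_zero] at h1
  have h3 : gv (Fin n) Set.univ ≤ gv (Fin n) {x : Fin n → ℝ | x ≠ 0 ∧ nrm x ≤ 2 * √n} +
      (gv (Fin n) {g | 0 ≤ c ⬝ᵥ g ∧ c ⬝ᵥ g ≤ 0 + 0} + gv (Fin n) {g | 4 * n ≤ g ⬝ᵥ g}) := by
    refine le_trans (measure_mono fun x _ => ?_)
      ((measure_union_le _ _).trans (add_le_add_right (measure_union_le _ _) _))
    by_cases hx : x = 0
    · exact Or.inr (Or.inl (by simp [hx]))
    rcases le_total (x ⬝ᵥ x) (4 * n) with h | h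
    · refine Or.inl ⟨hx, (nrm_le_iff (by positivity)).2 ?_⟩
      rw [mul_pow, Real.sq_sqrt hn'.le]
      linarith only [h]
    · exact Or.inr (Or.inr h)
  have h4 := h3.trans (add_le_add_right (add_le_add h1 h2) _)
  rw [measure_univ, zero_add] at h4
  refine (ENNReal.add_le_add_iff_right (a := ENNReal.ofReal (1 / 4)) ENNReal.ofReal_ne_top).1 ?_
  rw [← ENNReal.ofReal_add (by norm_num) (by norm_num)]
  norm_num
  simpa using h4

lemma ty_one {m n : ℕ} (hn : 1 ≤ n) (b : Fin m → ℝ) {t : ℝ} (ht : 0 < t)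
    {A : Matrix (Fin m) (Fin n) ℝ} (hA : Good A (45 / 100)) (B : Finset (Fin m)) :
    gv (Fin n) {c | Strict A b c B ∧ nrm c ≤ 2 * √n ∧ ∃ j ∈ B, candY A c B j ≤ t * nrm c} ≤
      ENNReal.ofReal (192 * m ^ 3 * t) * gv (Fin n) {c | Strict A b c B} := by
  by_cases hV : Vtx A b B
  swap
  · rw [Set.eq_empty_of_forall_notMem (s := {c | _ ∧ _}) fun c hc => hV hc.1.1, measure_empty]
    exact zero_le
  have hn' : (1 : ℝ) ≤ n := by exact_mod_cast hn
  have hnm : n ≤ m := by simpa [hV.2.1] using B.card_le_univ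
  have hnm' : (n : ℝ) ≤ m := by exact_mod_cast hnm
  have hR : (1 : ℝ) ≤ 2 * √n := by
    have := Real.one_le_sqrt.2 hn'
    linarith only [this]
  have hm : (0 : ℝ) < m := by linarith
  have h1 : ∀ j ∈ B, gv (Fin n) {c | c ∈ {c | Strict A b c B} ∧ nrm c ≤ 2 * √n ∧
      candY A c B j ≤ t * (2 * √n)} ≤
      ENNReal.ofReal (192 * m ^ 2 * t) * gv (Fin n) {c | Strict A b c B} := by
    intro j hj
    refine (ty_pack (C := {c | Strict A b c B}) (y := fun c => candY A c B j)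
      (measurableSet_strict b (Af := fun _ => A) measurable_const measurable_id B)
      (mv_candY (MM.const A) (MV.of measurable_id) B j) (v := A j) (fun c s => ?_)
      (fun c hc s hs => ⟨hV, fun i hi => ?_⟩) (fun c hc => hc.2 j hj) hR (by positivity) (hA.row j)
      (by positivity)).trans (mul_le_mul_left (ENNReal.ofReal_le_ofReal ?_) _)
    · simp [candY_add hV.1 hV.2.1 hj]
    · rw [candY_add hV.1 hV.2.1 hj]
      refine add_pos_of_pos_of_nonneg (hc.2 i hi) (mul_nonneg hs ?_)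
      rw [Pi.single_apply]
      split_ifs <;> norm_num
    · have h2 : √(m : ℝ) ≤ m := Real.sqrt_le_self_iff.2 (Or.inr (by linarith only [hn', hnm']))
      have h3 : √(n : ℝ) * √n * √m ≤ m * m := by
        rw [Real.mul_self_sqrt (by linarith)]
        exact mul_le_mul hnm' h2 (by positivity) hm.le
      have h4 := mul_le_mul_of_nonneg_left h3 ht.le
      linarith only [h4]
  refine le_trans (measure_mono fun c hc => ?_)
    ((measure_biUnion_finset_le _ _).trans ((Finset.sum_le_card_nsmul _ _ _ h1).trans ?_))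
  · obtain ⟨h2, h3, j, hj, h4⟩ := hc
    exact Set.mem_iUnion₂.2 ⟨j, hj, h2, h3, h4.trans (mul_le_mul_of_nonneg_left h3 ht.le)⟩
  · rw [hV.2.1, nsmul_eq_mul, ← mul_assoc, ← ENNReal.ofReal_natCast,
      ← ENNReal.ofReal_mul (by positivity)]
    refine mul_le_mul_left (ENNReal.ofReal_le_ofReal ?_) _
    have h4 := mul_le_mul_of_nonneg_right hnm' (show 0 ≤ 192 * (m : ℝ) ^ 2 * t by positivity)
    linarith only [h4]

lemma ty_fix {m n : ℕ} (hn : 1 ≤ n) (b : Fin m → ℝ) {t : ℝ} (ht : 0 < t)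
    (a : Fin m → Fin n → ℝ) :
    gv (Fin n) {c | ty_ev b t a c ∧ nrm c ≤ 2 * √n} ≤ ENNReal.ofReal (192 * m ^ 3 * t) := by
  by_cases hA : Good (Matrix.of a) (45 / 100)
  swap
  · rw [Set.eq_empty_of_forall_notMem (s := {c | _ ∧ _}) fun c hc => hA hc.1.1, measure_empty]
    exact zero_le
  have h1 : ∑ B : Finset (Fin m), gv (Fin n) {c | Strict (Matrix.of a) b c B} ≤ 1 := by
    rw [← measure_biUnion_finset]
    · exact prob_le_one
    · exact fun B _ B' _ h => Set.disjoint_left.2 fun c hc hc' => h (strict_unique hc hc')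
    · exact fun B _ => measurableSet_strict b (Af := fun _ => a) measurable_const measurable_id B
  refine le_trans (measure_mono fun c hc => ?_) ((measure_iUnion_fintype_le _ _).trans
    ((Finset.sum_le_sum fun B _ => ty_one hn b ht hA B).trans ?_))
  · obtain ⟨⟨-, B, h2, h3⟩, h4⟩ := hc
    exact Set.mem_iUnion.2 ⟨B, h2, h4, h3⟩
  · rw [← Finset.mul_sum]
    exact mul_le_of_le_one_right' h1

theorem tail_dual {m n : ℕ} (hn : 1 ≤ n) {b : Fin m → ℝ} {c : Fin n → ℝ} (hc : c ≠ 0) {t : ℝ}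
    (ht : 0 < t) :
    gm (Fin m) (Fin n) {a | Good (Matrix.of a) (45 / 100) ∧ ∃ B, Strict (Matrix.of a) b c B ∧
        ∃ j ∈ B, candY (Matrix.of a) c B j ≤ t * nrm c} ≤
      ENNReal.ofReal (1000 * m ^ 3 * t) := by
  have hR : (1 : ℝ) ≤ 2 * √n := by
    have := Real.one_le_sqrt.2 (show (1 : ℝ) ≤ n by exact_mod_cast hn)
    linarith only [this]
  have hE : MeasurableSet {q : (Fin m → Fin n → ℝ) × (Fin n → ℝ) |
      ty_ev b t q.1 q.2 ∧ nrm q.2 ≤ 2 * √n} :=
    ms_and (ty_meas b t measurable_fst measurable_snd)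
      (measurableSet_le (MV.of measurable_snd).nrm measurable_const)
  have hT : MeasurableSet {x : Fin n → ℝ | x ≠ 0 ∧ nrm x ≤ 2 * √n} :=
    ms_and (measurableSet_singleton (0 : Fin n → ℝ)).compl
      (measurableSet_le (MV.of measurable_id).nrm measurable_const)
  have h1 : gm (Fin m) (Fin n) {a | ty_ev b t a c} *
      gv (Fin n) {x : Fin n → ℝ | x ≠ 0 ∧ nrm x ≤ 2 * √n} ≤ ENNReal.ofReal (192 * m ^ 3 * t) := by
    rw [← lintegral_indicator_const hT]
    refine le_trans (lintegral_mono fun x => ?_)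
      ((Measure.prod_apply_symm (μ := gm (Fin m) (Fin n)) (ν := gv (Fin n)) hE).ge.trans ?_)
    · refine Set.indicator_apply_le' (fun hx => ?_) fun _ => zero_le
      rw [ty_inv b t hc hx.1]
      exact measure_mono fun a ha => ⟨ha, hx.2⟩
    · rw [Measure.prod_apply hE]
      refine (lintegral_mono fun a => ty_fix hn b ht a).trans ?_
      simp
  have h2 := (mul_le_mul_right (ty_shell hn hc) _).trans h1
  rw [← ENNReal.le_div_iff_mul_le (Or.inl (by simp)) (Or.inl ENNReal.ofReal_ne_top),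
    ← ENNReal.ofReal_div_of_pos (by norm_num)] at h2
  refine h2.trans (ENNReal.ofReal_le_ofReal ?_)
  have h3 : 0 ≤ (m : ℝ) ^ 3 * t := by positivity
  linarith only [h3]

end Pool.Agent.Work.MP_6af739_lc
end

-- merged part: Pool.Agent.Work.MP_6af739_lc.Rare
section
/-!
Contribution of rare events under the shifted measure. NB_shift: lintegral_tsum, and for each i the set
BadT (tt m i) has gm-measure ≤ 8 m^2 t + 1000 m^3 t ≤ q_i^2 with q_i = 1500 exp (-i/4)/m^3 (tail_slack,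
tail_dual, nrm c = 1); shift_le; the sum of exp (-i/4) is ≤ 5 (ENNReal.ofReal_tsum_of_nonneg,
tsum_geometric_of_lt_one); 10^5 √m 7500/m^3 ≤ 1. choose_shift: not_good_le and shift_le with
q = exp (-m/(2 10^5)); choose ≤ m^n/n! (Nat.choose_le_pow_div) and (x m)^n/n! ≤ exp (x m)
(Real.pow_div_factorial_le_exp) with x = 1/(4 10^5), (4 10^5)^n ≤ exp (13 n) ≤ exp (x m).
-/

namespace Pool.Agent.Work.MP_6af739_lc

open Matrix Finset MeasureTheory ProbabilityTheory
open Pool.Agent.Work.MP_6a50bc_pr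
open Pool.Agent.Work.MP_5c5849_an (sg av)
open scoped ENNReal

variable {m n : ℕ} {b : Fin m → ℝ} {c : Fin n → ℝ}

lemma rare_ms (b : Fin m → ℝ) (c : Fin n → ℝ) (t : ℝ) :
    MeasurableSet {a : Fin m → Fin n → ℝ | BadT (Matrix.of a) b c t} := by
  refine ms_and (measurableSet_good measurable_id _) ?_
  rw [Set.ofPred_exists]
  refine MeasurableSet.iUnion fun B =>
    ms_and (measurableSet_strict b measurable_id measurable_const B) (MeasurableSet.union ?_ ?_)
  · refine ms_iff (MeasurableSet.iUnion fun j => ms_and (MeasurableSet.const (j ∉ B))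
      (measurableSet_le (mv_slack b (MM.of measurable_id) (mv_candX b (MM.of measurable_id) B) j)
        (measurable_const (a := t)))) fun a => Set.mem_iUnion
  · refine ms_iff (MeasurableSet.iUnion fun j => ms_and (MeasurableSet.const (j ∈ B))
      (measurableSet_le (mv_candY (MM.of measurable_id) (MV.const c) B j)
        (measurable_const (a := t)))) fun a => Set.mem_iUnion

lemma rare_m (hn : 1 ≤ n) (hm : 10 ^ 20 * n ≤ m) : (10 : ℝ) ^ 20 ≤ m := by
  exact_mod_cast le_trans (Nat.le_mul_of_pos_right _ hn) hm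

lemma rare_bad (hn : 1 ≤ n) (hm : 10 ^ 20 * n ≤ m) (hb : Box b) (hc : nrm c = 1) (i : ℕ) :
    gm (Fin m) (Fin n) {a | BadT (Matrix.of a) b c (tt m i)} ≤
      ENNReal.ofReal ((1500 / m ^ 3 * Real.exp (-1 / 4) ^ i) ^ 2) := by
  have h1 := rare_m hn hm
  have h0 : (0 : ℝ) < m := by linarith only [h1]
  have ht : 0 < tt m i := by unfold tt; positivity
  have hc0 : c ≠ 0 := by rintro rfl; simp [nrm] at hc
  have hs := tail_slack (by omega) hn hb c ht.le
  have hd := tail_dual (m := m) (b := b) hn hc0 ht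
  rw [hc, mul_one] at hd
  refine le_trans (measure_mono ?_) ((measure_union_le _ _).trans ((add_le_add hs hd).trans ?_))
  · rintro a ⟨hg, B, hB, h | h⟩
    exacts [Or.inl ⟨hg, B, hB, h⟩, Or.inr ⟨hg, B, hB, h⟩]
  rw [← ENNReal.ofReal_add (by positivity) (by positivity)]
  refine ENNReal.ofReal_le_ofReal ?_
  have e : (1500 / m ^ 3 * Real.exp (-1 / 4) ^ i) ^ 2 = 1125 * m ^ 3 * tt m i := by
    rw [tt, mul_pow, ← pow_mul, ← Real.exp_nat_mul,
      show ((i * 2 : ℕ) : ℝ) * (-1 / 4) = -(i : ℝ) / 2 by push_cast; ring]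
    field_simp
    norm_num
  rw [e, ← add_mul]
  refine mul_le_mul_of_nonneg_right ?_ ht.le
  have : (m : ℝ) ^ 2 ≤ m ^ 3 := pow_le_pow_right₀ (by linarith only [h1]) (by norm_num)
  have : (0 : ℝ) ≤ m ^ 3 := by positivity
  linarith

theorem measurable_NB (b : Fin m → ℝ) (c : Fin n → ℝ) : Measurable (NB b c) := Measurable.tsum fun _ => measurable_one.indicator (rare_ms b c _)

theorem NB_shift (hn : 1 ≤ n) (hm : 10 ^ 20 * n ≤ m) (hb : Box b) (hc : nrm c = 1)
    (μ : Matrix (Fin m) (Fin n) ℝ) :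
    ENNReal.ofReal (10 ^ 5 * √m) *
        ∫⁻ a, NB b c (fun j i => μ j i + a j i) ∂(gm (Fin m) (Fin n)) ≤
      ENNReal.ofReal (Real.exp (fro μ ^ 2 / 2)) := by
  have h1 := rare_m hn hm
  have h0 : (0 : ℝ) < m := by linarith only [h1]
  have hr0 : 0 < Real.exp (-1 / 4) := Real.exp_pos _
  have hr : Real.exp (-1 / 4) ≤ 4 / 5 := by
    have := Real.add_one_le_exp (1 / 4 : ℝ)
    rw [neg_div, Real.exp_neg]
    exact inv_le_of_inv_le₀ (by norm_num) (by linarith only [this])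
  have hsum := (hasSum_geometric_of_lt_one hr0.le (by linarith only [hr0, hr])).mul_left
    (Real.exp (fro μ ^ 2 / 2) * (1500 / m ^ 3))
  have key : ∫⁻ a, NB b c (fun j i => μ j i + a j i) ∂(gm (Fin m) (Fin n)) ≤ ENNReal.ofReal
      (Real.exp (fro μ ^ 2 / 2) * (1500 / m ^ 3) * (1 - Real.exp (-1 / 4))⁻¹) := by
    rw [← hsum.tsum_eq, ENNReal.ofReal_tsum_of_nonneg (fun i => by positivity) hsum.summable]
    refine (lintegral_tsum fun i => ((measurable_one.indicator (rare_ms b c (tt m i))).comp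
      (gaux_meas_add μ)).aemeasurable).trans_le (ENNReal.tsum_le_tsum fun i => ?_)
    rw [mul_assoc]
    refine le_trans (le_of_eq ?_) (shift_le μ (by positivity) (rare_bad hn hm hb hc i))
    exact lintegral_indicator_one (gaux_meas_add μ (rare_ms b c _))
  refine (mul_le_mul_right key _).trans ?_
  rw [← ENNReal.ofReal_mul (by positivity), mul_assoc (Real.exp _), mul_left_comm]
  refine ENNReal.ofReal_le_ofReal (mul_le_of_le_one_right (Real.exp_pos _).le ?_)
  have h2 : (1 - Real.exp (-1 / 4))⁻¹ ≤ 5 := inv_le_of_inv_le₀ (by norm_num) (by linarith only [hr])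
  have h3 : √(m : ℝ) ≤ m := Real.sqrt_le_iff.2 ⟨h0.le, by linarith only [h1, hr0, hr, mul_nonneg_of_nonpos_of_nonpos (Mathlib.Tactic.Linarith.sub_nonpos_of_le (Mathlib.Tactic.Linarith.natCast_nonneg ℝ m)) (Mathlib.Tactic.Linarith.sub_nonpos_of_le h1)]⟩
  have h4 : 0 < 1 - Real.exp (-1 / 4) := by linarith only [hr0, hr]
  calc _ ≤ 10 ^ 5 * m * (1500 / m ^ 3 * 5 : ℝ) := by gcongr
    _ = 10 ^ 5 * 7500 / m ^ 2 := by field_simp; norm_num
    _ ≤ 1 := (div_le_one (by positivity)).2 (by linarith only [h1, mul_nonneg_of_nonpos_of_nonpos (Mathlib.Tactic.Linarith.sub_nonpos_of_le (Mathlib.Tactic.Linarith.natCast_nonneg ℝ m)) (Mathlib.Tactic.Linarith.sub_nonpos_of_le h1)])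

theorem choose_shift (hn : 1 ≤ n) (hm : 10 ^ 20 * n ≤ m) (μ : Matrix (Fin m) (Fin n) ℝ) :
    ((m.choose n : ℝ≥0∞) + 1) *
        gm (Fin m) (Fin n) {a | ¬Good (Matrix.of fun j i => μ j i + a j i) (45 / 100)} ≤
      ENNReal.ofReal (2 * Real.exp (fro μ ^ 2 / 2)) := by
  have h1 : (10 : ℝ) ^ 20 * n ≤ m := by exact_mod_cast hm
  have h0 : (0 : ℝ) ≤ n := n.cast_nonneg
  have hq : Real.exp (-(m : ℝ) / 10 ^ 5) = Real.exp (-(m / 200000)) ^ 2 := by
    rw [← Real.exp_nat_mul]; congr 1; push_cast; ring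
  have h2 := shift_le μ (Real.exp_pos _).le (hq ▸ not_good_le hn (by omega : 10 ^ 6 * n ≤ m))
  have h3 : (m.choose n : ℝ) ≤ Real.exp (m / 200000) := by
    calc (m.choose n : ℝ) ≤ (m : ℝ) ^ n / n.factorial := Nat.choose_le_pow_div n m
      _ = (m / 400000) ^ n / n.factorial * 400000 ^ n := by rw [div_pow]; field_simp
      _ ≤ Real.exp (m / 400000) * Real.exp 400000 ^ n := by
        gcongr
        · exact Real.pow_div_factorial_le_exp _ (by positivity) n
        · linarith only [Real.add_one_le_exp 400000]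
      _ ≤ _ := by
        rw [← Real.exp_nat_mul, ← Real.exp_add]
        exact Real.exp_le_exp.2 (by linarith only [h1])
  have h4 : 1 ≤ Real.exp (m / 200000) := Real.one_le_exp (by positivity)
  refine (mul_le_mul_right h2 _).trans ?_
  rw [← ENNReal.ofReal_natCast, ← ENNReal.ofReal_one, ← ENNReal.ofReal_add (by positivity) one_pos.le,
    ← ENNReal.ofReal_mul (by positivity), mul_left_comm, mul_comm 2]
  refine ENNReal.ofReal_le_ofReal (mul_le_mul_of_nonneg_left ?_ (Real.exp_pos _).le)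
  rw [Real.exp_neg, ← div_eq_mul_inv, div_le_iff₀ (Real.exp_pos _)]
  linarith only [h3, h4]

end Pool.Agent.Work.MP_6af739_lc
end

-- merged part: Pool.Agent.Work.MP_6af739_lc.GenPosAE
section
/-!
General position holds almost surely. Inj: the rows span (ae_span in Work/MP_5c5849_an/Span.lean, whose
gm is the same measure by rfl; do not open that namespace). For B and j off B: resample row j
(section_le with p = 0); candX does not depend on row j (candX_zr), and x · g = b j is null by anticonc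
with t = 0 if x ≠ 0, empty if x = 0. For j in B: the event det ≠ 0 and candY j = 0 has a probability that
does not depend on c ≠ 0 (candY_smul, lintegral_rot, candY_rot, det_gram_rot); for a fixed matrix with
det ≠ 0, c ↦ candY A c B j is v · c with v ≠ 0 (candY_add at c = 0), so it is gv-null; Tonelli.
-/

namespace Pool.Agent.Work.MP_6af739_lc

open Matrix Finset MeasureTheory ProbabilityTheory
open Pool.Agent.Work.MP_6a50bc_pr
open Pool.Agent.Work.MP_5c5849_an (sg av)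
open scoped ENNReal

theorem genPos_null {n : ℕ} {v : Fin n → ℝ} (hv : v ≠ 0) (s : ℝ) :
    gv (Fin n) {g | v ⬝ᵥ g = s} = 0 := by
  refine le_antisymm ((measure_mono fun g hg => ?_).trans ((anticonc hv s 0).trans (by simp)))
    zero_le
  exact ⟨le_of_eq (Eq.symm hg), (le_of_eq hg).trans (by simp)⟩

theorem genPos_inj {m n : ℕ} (hn : n ≤ m) : ∀ᵐ a ∂(gm (Fin m) (Fin n)), Inj (Matrix.of a) := by
  have h : ∀ᵐ a ∂(gm (Fin m) (Fin n)), ∀ y, ∃ α : Fin m → ℝ, ∑ i, α i • a i = y :=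
    Pool.Agent.Work.MP_5c5849_an.ae_surj (κ := Fin n) m (by simpa using hn)
  filter_upwards [h] with a ha z hz
  obtain ⟨α, hα⟩ := ha z
  refine dotProduct_self_eq_zero.1 ?_
  nth_rewrite 1 [← hα]
  rw [sum_dotProduct]
  refine sum_eq_zero fun i _ => ?_
  have : a i ⬝ᵥ z = 0 := congrFun hz i
  rw [smul_dotProduct, this, smul_zero]

theorem genPos_off {m n : ℕ} {b : Fin m → ℝ} (hb : ∀ j, b j ≠ 0) {B : Finset (Fin m)} {j : Fin m}
    (hj : j ∉ B) :
    ∀ᵐ a ∂(gm (Fin m) (Fin n)), (Matrix.of a *ᵥ candX (Matrix.of a) b B) j ≠ b j := by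
  have hm : MeasurableSet
      {a : Fin m → Fin n → ℝ | (Matrix.of a *ᵥ candX (Matrix.of a) b B) j = b j} :=
    measurableSet_eq_fun
      (((MM.of measurable_id).mv (mv_candX b (MM.of measurable_id) B)) j) measurable_const
  have h := section_le j hm (p := 0) fun x _ => ?_
  · exact measure_eq_zero_iff_ae_notMem.1 (le_antisymm h zero_le)
  have e : ∀ g, candX (Matrix.of (Function.update x j g)) b B = candX (Matrix.of x) b B := by
    intro g
    rw [← candX_zr hj, ← candX_zr (A := Matrix.of x) hj]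
    congr 1
    exact Function.update_idem _ _ _
  have e2 : {g | Function.update x j g ∈ {a : Fin m → Fin n → ℝ |
      (Matrix.of a *ᵥ candX (Matrix.of a) b B) j = b j}}
      = {g | candX (Matrix.of x) b B ⬝ᵥ g = b j} := by
    ext g
    simp only [Set.mem_ofPred_eq, e]
    rw [dotProduct_comm]
    simp [mulVec]
  rw [e2]
  by_cases hv : candX (Matrix.of x) b B = 0
  · simp [hv, (hb j).symm]
  · exact (genPos_null hv _).le

/-- The dual candidate vanishes at row `j`. -/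
def genPosT {m n : ℕ} (B : Finset (Fin m)) (j : Fin m) (c : Fin n → ℝ) : Set (Fin m → Fin n → ℝ) :=
  {a | ((Matrix.of a)ᵀ * ind B * Matrix.of a).det ≠ 0 ∧ candY (Matrix.of a) c B j = 0}

theorem genPos_meas {m n : ℕ} (B : Finset (Fin m)) (j : Fin m) :
    MeasurableSet {q : (Fin m → Fin n → ℝ) × (Fin n → ℝ) | q.1 ∈ genPosT B j q.2} :=
  ms_and (ms_ne (mm_gram (MM.of measurable_fst) B).det)
    (measurableSet_eq_fun (mv_candY (MM.of measurable_fst) (MV.of measurable_snd) B j)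
      measurable_const)

theorem genPos_eq {m n : ℕ} (B : Finset (Fin m)) (j : Fin m) {c c' : Fin n → ℝ} (hc : c ≠ 0)
    (hc' : c' ≠ 0) :
    gm (Fin m) (Fin n) (genPosT B j c) = gm (Fin m) (Fin n) (genPosT B j c') := by
  have h1 := nrm_pos hc
  have h2 := nrm_pos hc'
  have ht : 0 < nrm c' / nrm c := by positivity
  obtain ⟨O, hO, e⟩ := exists_orth (x := (nrm c' / nrm c) • c) (y := c') (by
    rw [nrm_smul, abs_of_pos ht, div_mul_cancel₀ _ h1.ne'])
  have hm : MeasurableSet (genPosT (m := m) B j c') :=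
    ms_and (ms_ne (mm_gram (MM.of measurable_id) B).det)
      (measurableSet_eq_fun (mv_candY (MM.of measurable_id) (MV.const c') B j) measurable_const)
  rw [← (mp_rotm hO).measure_preimage hm.nullMeasurableSet]
  refine congrArg _ (Set.ext fun a => ?_)
  simp only [genPosT, Set.mem_preimage, Set.mem_ofPred_eq, of_rot]
  rw [det_gram_rot hO, ← e, candY_rot hO, candY_smul, Pi.smul_apply, smul_eq_mul,
    mul_eq_zero_iff_left ht.ne']

theorem genPos_on {m n : ℕ} {B : Finset (Fin m)} (hB : B.card = n) {j : Fin m} (hj : j ∈ B)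
    {c : Fin n → ℝ} (hc : c ≠ 0) : gm (Fin m) (Fin n) (genPosT B j c) = 0 := by
  have h1 : ∀ᵐ a ∂(gm (Fin m) (Fin n)), ∀ᵐ x ∂(gv (Fin n)), a ∉ genPosT B j x := by
    refine ae_of_all _ fun a => ?_
    by_cases hd : ((Matrix.of a)ᵀ * ind B * Matrix.of a).det = 0
    · exact ae_of_all _ fun x h => h.1 hd
    have e : ∀ x, candY (Matrix.of a) x B j =
        (ind B * (Matrix.of a * ((Matrix.of a)ᵀ * ind B * Matrix.of a)⁻¹)) j ⬝ᵥ x := by
      intro x
      rw [candY, mulVec_mulVec, mulVec_mulVec, Matrix.mul_assoc]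
      rfl
    have hv : (ind B * (Matrix.of a * ((Matrix.of a)ᵀ * ind B * Matrix.of a)⁻¹)) j ≠ 0 := by
      intro h0
      have h := congrFun (candY_add (c := 0) hd hB hj 1) j
      rw [Pi.add_apply, e, e, h0] at h
      simp at h
    filter_upwards [measure_eq_zero_iff_ae_notMem.1 (genPos_null hv 0)] with x hx h
    exact hx ((e x).symm.trans h.2)
  have h2 := (Measure.ae_ae_comm (p := fun a x => a ∉ genPosT B j x) (genPos_meas B j).compl).1 h1
  have h3 := measure_eq_zero_iff_ae_notMem.1 (genPos_null hc 0)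
  obtain ⟨x, hx, hx0⟩ := (h2.and h3).exists
  rw [genPos_eq B j hc (c' := x) fun h => hx0 (by simp [h])]
  exact measure_eq_zero_iff_ae_notMem.2 hx

theorem ae_genPos {m n : ℕ} (hn : n ≤ m) {b : Fin m → ℝ} (hb : ∀ j, b j ≠ 0) {c : Fin n → ℝ}
    (hc : c ≠ 0) : ∀ᵐ a ∂(gm (Fin m) (Fin n)), GenPos (Matrix.of a) b c := by
  have h1 : ∀ᵐ a ∂(gm (Fin m) (Fin n)), ∀ (B : Finset (Fin m)) (j : Fin m),
      j ∉ B → (Matrix.of a *ᵥ candX (Matrix.of a) b B) j ≠ b j := by
    refine ae_all_iff.2 fun B => ae_all_iff.2 fun j => ?_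
    by_cases hj : j ∈ B
    · exact ae_of_all _ fun _ h => absurd hj h
    · filter_upwards [genPos_off (n := n) hb hj] with a ha _ using ha
  have h2 : ∀ᵐ a ∂(gm (Fin m) (Fin n)), ∀ (B : Finset (Fin m)) (j : Fin m), B.card = n → j ∈ B →
      a ∉ genPosT B j c := by
    refine ae_all_iff.2 fun B => ae_all_iff.2 fun j => ?_
    by_cases hB : B.card = n
    swap
    · exact ae_of_all _ fun _ h => absurd h hB
    by_cases hj : j ∈ B
    · filter_upwards [measure_eq_zero_iff_ae_notMem.1 (genPos_on hB hj hc)] with a ha _ _ using ha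
    · exact ae_of_all _ fun _ _ h => absurd h hj
  filter_upwards [genPos_inj hn, h1, h2] with a a0 a1 a2
  exact ⟨a0, fun B hB hd => ⟨fun j hj => a1 B j hj, fun j hj h => a2 B j hB hj ⟨hd, h⟩⟩⟩

end Pool.Agent.Work.MP_6af739_lc
end
end

-- merged part: Pool.Agent.Work.MP_6af739_lc.ZB1
section
-- merged part: Pool.Agent.Work.MP_6af739_lc.EvAll
section
-- merged part: Pool.Agent.Work.MP_6af739_lc.Ev1
section
/-!
Leave-one-out events. Work on the product of gm (the matrix a) and gv (the cost c).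
ev_coh: for fixed c, each row: mp_eval and tail_dot; union bound; Measure.prod_apply or
measure_le_of_prod after swapping. ev_u: resample row k by mp_update; zr (of (update a k g)) k does not
depend on g; tail_abs_dot. ev_om: resample row k, so the variables are (a, g0, c). With s^2 = 1 + w^2,
the map (c, g0) ↦ (c2, g) = ((c - w g0)/s, (g0 + w c)/s) preserves gv.prod gv (mp_rot), c - w g0 = s c2,
s g0 = g - w c2. Put A' = zr (of a) k, c' = lam • s • c2, x' = X A' b c'. The event forces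
w c2·x' < g·x'. If all rows satisfy A' j · c2 ≤ P nrm c2 (fails with probability ≤ m exp (-P^2/2), as in
ev_coh; row k is zero) then Good.dir_low, Good.rad, Good.nrm_le give nrm x' ≤ 600 P (c2·x')/nrm c2
(with t = min (1/(2P)) (nrm c'/(100 m)): nrm x' ≤ 300 P t and c2·x'/nrm c2 ≥ t/2), and
w nrm c2 ≥ P^3/8 ≥ 600 P^2 because s ≤ 2 and s nrm c2 ≥ √n/4. So P nrm x' < x'·g, which has
probability ≤ exp (-P^2/2) by tail_dot (g is independent of (a, c2)).
-/

namespace Pool.Agent.Work.MP_6af739_lc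

open Matrix Finset MeasureTheory ProbabilityTheory
open Pool.Agent.Work.MP_6a50bc_pr
open Pool.Agent.Work.MP_5c5849_an (sg av)
open scoped ENNReal

variable {m n : ℕ} {b : Fin m → ℝ} {lam P : ℝ}

lemma ev1_mp (k : Fin m) {R : (Fin n → ℝ) × (Fin n → ℝ) → (Fin n → ℝ) × (Fin n → ℝ)}
    (hR : MeasurePreserving R ((gv (Fin n)).prod (gv (Fin n))) ((gv (Fin n)).prod (gv (Fin n)))) :
    MeasurePreserving (fun q : ((Fin m → Fin n → ℝ) × (Fin n → ℝ)) × (Fin n → ℝ) =>
      (Function.update q.1.1 k (R (q.1.2, q.2)).2, (R (q.1.2, q.2)).1))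
      (((gm (Fin m) (Fin n)).prod (gv (Fin n))).prod (gv (Fin n)))
      ((gm (Fin m) (Fin n)).prod (gv (Fin n))) :=
  ((mp_update k).prod (MeasurePreserving.id _)).comp
    (((measurePreserving_prodAssoc _ _ _).symm _).comp
      (((MeasurePreserving.id _).prod (Measure.measurePreserving_swap.comp hR)).comp
        (measurePreserving_prodAssoc _ _ _)))

lemma ev1_zr (a : Fin m → Fin n → ℝ) (k : Fin m) (g : Fin n → ℝ) :
    zr (Matrix.of (Function.update a k g)) k = zr (Matrix.of a) k := by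
  ext j i
  by_cases h : j = k <;> simp [zr, updateRow_apply, h]

lemma ev1_X (b : Fin m → ℝ) (k : Fin m) {c : (Fin m → Fin n → ℝ) × (Fin n → ℝ) → Fin n → ℝ}
    (hc : MV c) : MV fun q => X (zr (Matrix.of q.1) k) b (c q) :=
  MV.of ((measurable_X b).comp (((measurable_zr k).comp measurable_fst).prodMk hc.meas))

lemma ev1_row (k : Fin m) : MV fun q : (Fin m → Fin n → ℝ) × (Fin n → ℝ) => q.1 k :=
  (MM.of measurable_fst).row k

lemma ev1_det {A : Matrix (Fin m) (Fin n) ℝ} {c g : Fin n → ℝ} {w s : ℝ} (hm : 0 < m)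
    (hP : 10 ^ 8 ≤ P) (hb : Box b) (hl : 0 < lam) (hs : 0 < s) (hs2 : s ≤ 2) (hA : Good A (44 / 100))
    (hc : ∀ j, A j ⬝ᵥ c ≤ P * nrm c) (hw0 : 0 ≤ w) (hw : P ^ 3 / 4 ≤ w * (s * nrm c))
    (h : w * (c ⬝ᵥ X A b (lam • s • c)) < X A b (lam • s • c) ⬝ᵥ g) :
    P * nrm (X A b (lam • s • c)) < X A b (lam • s • c) ⬝ᵥ g := by
  have hx := X_sol (hA.dom hm hb (lam • s • c))
  generalize X A b (lam • s • c) = x at *
  have hP0 : 0 < P := by linarith only [hP]
  have hm0 : (0 : ℝ) < m := by exact_mod_cast hm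
  have h1 : nrm (lam • s • c) = lam * s * nrm c := by
    rw [nrm_smul, nrm_smul, abs_of_pos hl, abs_of_pos hs, mul_assoc]
  have h2 := hA.dir_low hm hb hx hP0 fun j => by
    rw [h1, dotProduct_smul, dotProduct_smul, smul_eq_mul, smul_eq_mul]
    have := mul_le_mul_of_nonneg_left (hc j) (mul_pos hl hs).le
    linarith only [this]
  have h3 := hA.rad hm hb (g1_feas hx.1)
  have h4 := hA.nrm_le hm hb hx
  have h5 : nrm x ≤ 300 * P * min (1 / (2 * P)) (nrm (lam • s • c) / (100 * m)) := by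
    rw [mul_min_of_nonneg _ _ (by positivity)]
    refine le_min (h3.trans_eq (by field_simp; norm_num)) (h4.trans ?_)
    have h6 : 0 ≤ nrm (lam • s • c) / m := div_nonneg (nrm_nonneg _) hm0.le
    have h7 : 300 * P * (nrm (lam • s • c) / (100 * m)) = 3 * P * (nrm (lam • s • c) / m) := by
      field_simp
      ring
    rw [h7, mul_div_assoc]
    exact mul_le_mul_of_nonneg_right (by linarith only [hP]) h6
  generalize min (1 / (2 * P)) (nrm (lam • s • c) / (100 * m)) = t at *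
  rw [h1, smul_dotProduct, smul_dotProduct, smul_eq_mul, smul_eq_mul] at h2
  have h6 : nrm c * t / 2 ≤ c ⬝ᵥ x :=
    le_of_mul_le_mul_left (a := lam * s) (by linarith only [h2]) (mul_pos hl hs)
  have hc0 := nrm_nonneg c
  have h7 : 600 * P ^ 2 ≤ w * nrm c := by
    have h8 := mul_le_mul_of_nonneg_left hs2 (mul_nonneg hw0 hc0)
    have h9 : 4800 * P ^ 2 ≤ P * P ^ 2 := mul_le_mul_of_nonneg_right (by linarith only [hP]) (sq_nonneg P)
    linarith only [hw, h8, h9]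
  have ht : 0 ≤ t := nonneg_of_mul_nonneg_right ((nrm_nonneg x).trans h5) (by positivity)
  have h8 := mul_le_mul_of_nonneg_left h5 hP0.le
  have h9 := mul_le_mul_of_nonneg_right h7 ht
  have h10 := mul_le_mul_of_nonneg_left h6 hw0
  linarith only [h, h8, h9, h10]

theorem ev_coh (hP : 0 ≤ P) :
    ((gm (Fin m) (Fin n)).prod (gv (Fin n))) {q | ∃ j, P * nrm q.2 < q.1 j ⬝ᵥ q.2} ≤
      ENNReal.ofReal (m * Real.exp (-P ^ 2 / 2)) := by
    have hB : ∀ j : Fin m, MeasurableSet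
        {q : (Fin m → Fin n → ℝ) × (Fin n → ℝ) | P * nrm q.2 < q.1 j ⬝ᵥ q.2} := fun j =>
      measurableSet_lt ((MV.of measurable_snd).nrm.const_mul P) ((ev1_row j).dot (MV.of measurable_snd))
    rw [Set.ofPred_exists]
    refine (measure_iUnion_fintype_le _ _).trans ((Finset.sum_le_card_nsmul _ _
      (ENNReal.ofReal (Real.exp (-P ^ 2 / 2))) fun j _ => ?_).trans_eq ?_)
    · refine (measure_le_of_prod (ev1_mp j (MeasurePreserving.id _)) (hB j) Set.univ
        (p := ENNReal.ofReal (Real.exp (-P ^ 2 / 2))) (fun x _ => ?_) (by simp)).trans_eq (by simp)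
      refine (measure_mono fun g hg => ?_).trans (tail_dot x.2 hP)
      simpa [dotProduct_comm] using hg
    · rw [ENNReal.ofReal_mul (by positivity)]
      simp

theorem ev_u (hP : 0 ≤ P) (k : Fin m) :
    ((gm (Fin m) (Fin n)).prod (gv (Fin n)))
        {q | P * nrm (X (zr (Matrix.of q.1) k) b (lam • q.2)) <
          |q.1 k ⬝ᵥ X (zr (Matrix.of q.1) k) b (lam • q.2)|} ≤
      ENNReal.ofReal (2 * Real.exp (-P ^ 2 / 2)) := by
    have hX := ev1_X (n := n) b k (MV.smul (measurable_const (a := lam)) (MV.of measurable_snd))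
    refine (measure_le_of_prod (ev1_mp k (MeasurePreserving.id _))
      (measurableSet_lt (hX.nrm.const_mul P) ((ev1_row k).dot hX).abs) Set.univ
      (p := ENNReal.ofReal (2 * Real.exp (-P ^ 2 / 2))) (fun x _ => ?_) (by simp)).trans_eq (by simp)
    refine (measure_mono fun g hg => ?_).trans
      (tail_abs_dot (X (zr (Matrix.of x.1) k) b (lam • x.2)) hP)
    simpa [ev1_zr, dotProduct_comm g] using hg

theorem ev_om (hP : 10 ^ 8 ≤ P) (hn : P ^ 3 ≤ √n) (hb : Box b) (hl : 0 < lam) (k : Fin m) :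
    ((gm (Fin m) (Fin n)).prod (gv (Fin n)))
        {q | Good (zr (Matrix.of q.1) k) (44 / 100) ∧
          √n / 4 ≤ nrm (q.2 - (P ^ 3 / √n) • q.1 k) ∧
          0 < q.1 k ⬝ᵥ X (zr (Matrix.of q.1) k) b (lam • (q.2 - (P ^ 3 / √n) • q.1 k))} ≤
      ENNReal.ofReal ((m + 1) * Real.exp (-P ^ 2 / 2)) := by
    have hP0 : 0 < P := by linarith only [hP]
    have hn0 : 0 < √(n : ℝ) := lt_of_lt_of_le (by positivity) hn
    obtain ⟨w, hw⟩ : ∃ w, w = P ^ 3 / √n := ⟨_, rfl⟩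
    have hw0 : 0 ≤ w := by rw [hw]; positivity
    have hw1 : w ≤ 1 := by rw [hw]; exact (div_le_one hn0).2 hn
    have hw2 : w * √n = P ^ 3 := by rw [hw]; field_simp
    rw [← hw]
    obtain ⟨s, hs⟩ : ∃ s, s = √(1 + w ^ 2) := ⟨_, rfl⟩
    have hs0 : 0 < s := by rw [hs]; positivity
    have hs1 : s ^ 2 = 1 + w ^ 2 := by rw [hs]; exact Real.sq_sqrt (by positivity)
    have hs2 : s ≤ 2 := by (refine le_of_not_gt fun h_nl => ?_; linarith only [h_nl, hw1, hs1, hw0, hs0, mul_nonneg_of_nonpos_of_nonpos (Mathlib.Tactic.Linarith.sub_nonpos_of_le hw0) (Mathlib.Tactic.Linarith.sub_nonpos_of_le hw1), mul_pos_of_neg_of_neg (Mathlib.Tactic.Linarith.sub_neg_of_lt hs0) (Mathlib.Tactic.Linarith.sub_neg_of_lt h_nl)])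
    have hc : MV fun q : (Fin m → Fin n → ℝ) × (Fin n → ℝ) => q.2 - w • q.1 k :=
      (MV.of measurable_snd).sub (MV.smul measurable_const (ev1_row k))
    have hX := ev1_X b k (MV.smul (measurable_const (a := lam)) hc)
    refine (measure_le_of_prod (ev1_mp k (mp_rot (a := 1 / s) (b := w / s) (by field_simp; linarith only [hs1])))
      (ms_and (measurableSet_good ((measurable_zr k).comp measurable_fst) _)
        (ms_and (measurableSet_le measurable_const hc.nrm)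
          (measurableSet_lt measurable_const ((ev1_row k).dot hX))))
      {q | ∃ j, P * nrm q.2 < q.1 j ⬝ᵥ q.2}ᶜ
      (p := ENNReal.ofReal (Real.exp (-P ^ 2 / 2))) (fun x hx => ?_) (by simp)).trans ?_
    · refine (measure_mono fun g hg => ?_).trans
        (tail_dot (X (zr (Matrix.of x.1) k) b (lam • s • x.2)) hP0.le)
      have h1 : (1 / s) • x.2 + (w / s) • g - w • (-(w / s) • x.2 + (1 / s) • g) = s • x.2 := by
        funext i
        simp only [Pi.sub_apply, Pi.add_apply, Pi.smul_apply, smul_eq_mul]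
        field_simp
        rw [hs1]
        ring
      obtain ⟨h2, h3, h4⟩ : Good (zr (Matrix.of x.1) k) (44 / 100) ∧ √n / 4 ≤ nrm (s • x.2) ∧
          0 < (-(w / s) • x.2 + (1 / s) • g) ⬝ᵥ X (zr (Matrix.of x.1) k) b (lam • s • x.2) := by
        rw [← h1, ← ev1_zr x.1 k (-(w / s) • x.2 + (1 / s) • g)]
        simp only [Set.mem_ofPred_eq, Function.update_self] at hg
        exact hg
      rw [nrm_smul, abs_of_pos hs0] at h3
      refine ev1_det k.pos hP hb hl hs0 hs2 h2 (fun j => ?_) hw0 ?_ ?_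
      · by_cases hj : j = k
        · rw [hj, zr, updateRow_self, zero_dotProduct]
          exact mul_nonneg hP0.le (nrm_nonneg _)
        · rw [zr, updateRow_ne hj]
          exact not_lt.1 fun h => hx ⟨j, h⟩
      · have := mul_le_mul_of_nonneg_left h3 hw0
        linarith only [hw2, this]
      · rw [add_dotProduct, smul_dotProduct, smul_dotProduct, smul_eq_mul, smul_eq_mul,
          dotProduct_comm g] at h4
        have h5 := mul_pos hs0 h4
        field_simp at h5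
        linarith only [h5]
    · rw [compl_compl, add_mul, one_mul, ENNReal.ofReal_add (by positivity) (by positivity), add_comm]
      exact add_le_add (ev_coh hP0.le) le_rfl

end Pool.Agent.Work.MP_6af739_lc
end

-- merged part: Pool.Agent.Work.MP_6af739_lc.EvAll
section
/-!
The good event has probability at least 1 - 1/m. The complement is contained in the union of: not Good
(not_good_le), some row with a_k·a_k > 4 n (tail_dot_self_gm, t = 3 √n), |c·c - n| > (3/4) n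
(tail_dot_self, t = 3 √n / 4), ev_coh, ev_u for some k, ev_om for some k. Off these events, with
x = X A b (lam • c) (Good.dom, X_sol, so Aᵀ om = lam • c): dir from Good.dir_low with L = P and
nrm (lam • c) ≥ lam √n/2 = m al/2; u from abs_le_loo, Good.zr, Good.rad, Good.nrm_le; w from
pos_of_lt_om with w = lam P^3/√n (note lam • c - w • A k = lam • (c - (P^3/√n) • a k) and
nrm (c - (P^3/√n) • a k) ≥ √n/2 - 2 P^3 ≥ √n/4). Every exponential is at most exp (-P) ≤ 1/m^24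
(√n ≥ P^5, m ≥ n ≥ P^10), and there are at most 12 m^2 of them.
-/

namespace Pool.Agent.Work.MP_6af739_lc

open Matrix Finset MeasureTheory ProbabilityTheory
open Pool.Agent.Work.MP_6a50bc_pr
open Pool.Agent.Work.MP_5c5849_an (sg av)
open scoped ENNReal

lemma EvAll_num {m n : ℕ} {P : ℝ} (hP : Par m n P) :
    P ^ 5 ≤ √n ∧ P ≤ n ∧ 1 ≤ n ∧ 100 ≤ m ∧ 8 * P ^ 3 ≤ √n ∧ 8 * P ≤ √n := by
  have h0 := hP.big
  have h1 : (1 : ℝ) ≤ P := by linarith only [h0, show (1 : ℝ) ≤ 10 ^ 20 by norm_num]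
  have h2 : P ^ 5 ≤ √n := Real.le_sqrt_of_sq_le (by rw [← pow_mul]; exact hP.pow)
  have h3 : P ≤ n := (le_self_pow₀ h1 (by norm_num)).trans hP.pow
  have h4 : 1 ≤ n := by exact_mod_cast h1.trans h3
  have h5 := hP.mn
  have h6 : 8 ≤ P ^ 2 := by linarith only [h0, mul_nonneg_of_nonpos_of_nonpos (Mathlib.Tactic.Linarith.sub_nonpos_of_le h0) (Mathlib.Tactic.Linarith.sub_nonpos_of_le h0)]
  have h7 : 8 * P ^ 3 ≤ P ^ 5 := by
    calc 8 * P ^ 3 ≤ P ^ 2 * P ^ 3 := by gcongr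
      _ = P ^ 5 := by ring
  have h8 : P ≤ P ^ 3 := le_self_pow₀ h1 (by norm_num)
  exact ⟨h2, h3, h4, by omega, h7.trans h2, by linarith only [h2, h7, h8]⟩

lemma EvAll_det {m n : ℕ} {b : Fin m → ℝ} {lam P : ℝ} (hP : Par m n P) (hb : Box b)
    (hl : 0 < lam) {A : Matrix (Fin m) (Fin n) ℝ} {c : Fin n → ℝ} (hG : Good A (45 / 100))
    (hrow : ∀ k, |A k ⬝ᵥ A k - n| ≤ 3 * √n * √n) (hc : |c ⬝ᵥ c - n| ≤ 3 * √n / 4 * √n)
    (hcoh : ∀ j, A j ⬝ᵥ c ≤ P * nrm c)
    (hu : ∀ k, |A k ⬝ᵥ X (zr A k) b (lam • c)| ≤ P * nrm (X (zr A k) b (lam • c)))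
    (hw : ∀ k, ¬(Good (zr A k) (44 / 100) ∧ √n / 4 ≤ nrm (c - (P ^ 3 / √n) • A k) ∧
      0 < A k ⬝ᵥ X (zr A k) b (lam • (c - (P ^ 3 / √n) • A k)))) :
    GG P lam b A (X A b (lam • c)) := by
  obtain ⟨-, hPn, hn1, hm, h8, -⟩ := EvAll_num hP
  have h0 := hP.big
  have hP0 : 0 < P := by linarith only [h0, show (0 : ℝ) < 10 ^ 20 by norm_num]
  have hm0 : 0 < m := by omega
  have hmR : (0 : ℝ) < m := by exact_mod_cast hm0
  have hnR : (0 : ℝ) < n := by exact_mod_cast hn1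
  have hr : 0 < √(n : ℝ) := Real.sqrt_pos.2 hnR
  have hrr : √(n : ℝ) * √n = n := Real.mul_self_sqrt hnR.le
  have hb0 : ∀ j, 0 < b j := fun j => one_pos.trans_le (hb j).1
  have hG' : Good A (44 / 100) := hG.mono (by norm_num)
  have hx := X_sol (hG'.dom hm0 hb (lam • c))
  set x := X A b (lam • c) with hxd
  have hc' := abs_le.1 hc
  have hcn := nrm_nonneg c
  have hc2 := nrm_sq c
  have hclo : √n / 2 ≤ nrm c := by
    refine le_of_sq_le_sq ?_ hcn
    linarith only [hrr, hc', hc2, hc'.1]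
  have hchi : nrm c ≤ 2 * √n := (nrm_le_iff (by positivity)).2 (by linarith only [hPn, h0, hrr, hc', hc'.2])
  have hrow' : ∀ k, A k ⬝ᵥ A k ≤ 4 * n := fun k => by linarith only [hrr, hrow, (abs_le.1 (hrow k)).2]
  have hlc : nrm (lam • c) = lam * nrm c := by rw [nrm_smul, abs_of_pos hl]
  have hal : 0 < al m n lam := by unfold al; positivity
  refine ⟨hG, hrow', hx.1, ?_, ?_, ?_, fun k => ?_, fun k => ?_⟩
  · rw [hx.2, hlc]; linarith only [hl, hclo, mul_nonneg_of_nonpos_of_nonpos (le_of_lt (Mathlib.Tactic.Linarith.sub_neg_of_lt hl)) (Mathlib.Tactic.Linarith.sub_nonpos_of_le hclo)]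
  · rw [hx.2, hlc]; linarith only [hl, hchi, mul_nonneg_of_nonpos_of_nonpos (le_of_lt (Mathlib.Tactic.Linarith.sub_neg_of_lt hl)) (Mathlib.Tactic.Linarith.sub_nonpos_of_le hchi)]
  · rw [hx.2]
    refine le_trans ?_ (hG.dir_low hm0 hb hx hP0 fun j => ?_)
    · have h1 : min (al m n lam) 1 / (2 * P) ≤ min (1 / (2 * P)) (nrm (lam • c) / (100 * m)) := by
        refine le_min (by gcongr; exact min_le_right _ _) ?_
        calc min (al m n lam) 1 / (2 * P) ≤ al m n lam / (2 * 100) := by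
              gcongr
              · exact min_le_left _ _
              · linarith only [h0, show (100 : ℝ) ≤ 10 ^ 20 by norm_num]
          _ = lam * (√n / 2) / (100 * m) := by unfold al; field_simp
          _ ≤ nrm (lam • c) / (100 * m) := by rw [hlc]; gcongr
      calc nrm (lam • c) * min (al m n lam) 1 / (4 * P)
          = nrm (lam • c) * (min (al m n lam) 1 / (2 * P)) / 2 := by field_simp; ring
        _ ≤ _ := by
          have := nrm_nonneg (lam • c)
          gcongr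
    · rw [dotProduct_smul, smul_eq_mul, hlc]
      linarith only [hl, hcoh, hcoh j, mul_nonneg_of_nonpos_of_nonpos (le_of_lt (Mathlib.Tactic.Linarith.sub_neg_of_lt hl)) (Mathlib.Tactic.Linarith.sub_nonpos_of_le (hcoh j))]
  · have hZ := hG.zr hm k
    have hx' := X_sol (hZ.dom hm0 hb (lam • c))
    have h1 := abs_le_loo hb0 hx k hx'
    have h2 := hZ.rad hm0 hb fun j => g1_feas hx'.1 j
    have h3 := hZ.nrm_le hm0 hb hx'
    have h4 : nrm (X (zr A k) b (lam • c)) ≤ P * min (al m n lam) 1 := by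
      rw [mul_min_of_nonneg _ _ hP0.le]
      refine le_min (h3.trans ?_) (by linarith only [h0, h2, show (150 : ℝ) ≤ 10 ^ 20 by norm_num])
      calc 10 ^ 8 * nrm (lam • c) / m ≤ 10 ^ 8 * (lam * (2 * √n)) / m := by rw [hlc]; gcongr
        _ = 2 * 10 ^ 8 * al m n lam := by unfold al; field_simp
        _ ≤ P * al m n lam := by
          gcongr; linarith only [h0, show (2 * 10 ^ 8 : ℝ) ≤ 10 ^ 20 by norm_num]
    calc |(A *ᵥ x) k| ≤ P * nrm (X (zr A k) b (lam • c)) := h1.trans (hu k)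
      _ ≤ P * (P * min (al m n lam) 1) := by gcongr
      _ = P ^ 2 * min (al m n lam) 1 := by ring
  · by_contra hcon
    have hZ := hG.zr hm k
    refine hw k ⟨hZ, ?_, ?_⟩
    · have h1 := (abs_le.1 (abs_nrm_sub_le c ((P ^ 3 / √n) • A k))).2
      have h2 : nrm (A k) ≤ 2 * √n := (nrm_le_iff (by positivity)).2 (by linarith only [hrr, hrow', hrow' k])
      have h3 : nrm ((P ^ 3 / √n) • A k) ≤ 2 * P ^ 3 := by
        rw [nrm_smul, abs_of_pos (by positivity)]
        calc P ^ 3 / √n * nrm (A k) ≤ P ^ 3 / √n * (2 * √n) := by gcongr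
          _ = 2 * P ^ 3 := by field_simp
      linarith only [h8, hclo, h1, h3]
    · have hx' := X_sol (hZ.dom hm0 hb (lam • (c - (P ^ 3 / √n) • A k)))
      have e : lam • (c - (P ^ 3 / √n) • A k) = lam • c - (P ^ 3 * lam / √n) • A k := by
        rw [smul_sub, smul_smul]; congr 2; ring
      refine pos_of_lt_om hb0 hx k (w := P ^ 3 * lam / √n) ?_ (by positivity) (not_le.1 hcon)
      rw [← e]; exact hx'

theorem not_gg_le {m n : ℕ} {b : Fin m → ℝ} {lam P : ℝ} (hP : Par m n P) (hb : Box b)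
    (hl : 0 < lam) :
    ((gm (Fin m) (Fin n)).prod (gv (Fin n)))
        {q | ¬GG P lam b (Matrix.of q.1) (X (Matrix.of q.1) b (lam • q.2))} ≤
      ENNReal.ofReal (1 / m) := by
  obtain ⟨h5, hPn, hn1, hm, h8, h8'⟩ := EvAll_num hP
  have h0 := hP.big
  have hP0 : 0 < P := by linarith only [h0, show (0 : ℝ) < 10 ^ 20 by norm_num]
  have hmR : (100 : ℝ) ≤ m := by exact_mod_cast hm
  have hmn : (10 : ℝ) ^ 6 * n ≤ m := by exact_mod_cast hP.mn
  set μ := (gm (Fin m) (Fin n)).prod (gv (Fin n)) with hμ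
  set e := Real.exp (-P) with he
  have he0 : 0 < e := Real.exp_pos _
  have hsq : Real.exp (-P ^ 2 / 2) ≤ e := Real.exp_le_exp.2 (by linarith only [h0, mul_nonneg_of_nonpos_of_nonpos (Mathlib.Tactic.Linarith.sub_nonpos_of_le h0) (Mathlib.Tactic.Linarith.sub_nonpos_of_le h0)])
  set E1 : Set ((Fin m → Fin n → ℝ) × (Fin n → ℝ)) :=
    Prod.fst ⁻¹' {a | ¬Good (Matrix.of a) (45 / 100)} with hE1
  set E2 : Set ((Fin m → Fin n → ℝ) × (Fin n → ℝ)) :=
    Prod.fst ⁻¹' {x | ∃ i, 3 * √n * √(Fintype.card (Fin n)) <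
      |x i ⬝ᵥ x i - Fintype.card (Fin n)|} with hE2
  set E3 : Set ((Fin m → Fin n → ℝ) × (Fin n → ℝ)) :=
    Prod.snd ⁻¹' {g | 3 * √n / 4 * √(Fintype.card (Fin n)) <
      |g ⬝ᵥ g - Fintype.card (Fin n)|} with hE3
  set E4 : Set ((Fin m → Fin n → ℝ) × (Fin n → ℝ)) :=
    {q | ∃ j, P * nrm q.2 < q.1 j ⬝ᵥ q.2} with hE4
  set E5 : Fin m → Set ((Fin m → Fin n → ℝ) × (Fin n → ℝ)) := fun k =>
    {q | P * nrm (X (zr (Matrix.of q.1) k) b (lam • q.2)) <
      |q.1 k ⬝ᵥ X (zr (Matrix.of q.1) k) b (lam • q.2)|} with hE5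
  set E6 : Fin m → Set ((Fin m → Fin n → ℝ) × (Fin n → ℝ)) := fun k =>
    {q | Good (zr (Matrix.of q.1) k) (44 / 100) ∧
      √n / 4 ≤ nrm (q.2 - (P ^ 3 / √n) • q.1 k) ∧
      0 < q.1 k ⬝ᵥ X (zr (Matrix.of q.1) k) b (lam • (q.2 - (P ^ 3 / √n) • q.1 k))} with hE6
  have hsub : {q : (Fin m → Fin n → ℝ) × (Fin n → ℝ) |
      ¬GG P lam b (Matrix.of q.1) (X (Matrix.of q.1) b (lam • q.2))} ⊆
      E1 ∪ E2 ∪ E3 ∪ E4 ∪ (⋃ k, E5 k) ∪ ⋃ k, E6 k := by
    intro q hq
    by_contra hcon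
    simp only [Set.mem_union, Set.mem_iUnion, not_or, not_exists, hE1, hE2, hE3, hE4, hE5, hE6,
      Set.mem_preimage, Set.mem_ofPred_eq, not_not, not_lt, Fintype.card_fin] at hcon
    obtain ⟨⟨⟨⟨⟨g1, g2⟩, g3⟩, g4⟩, g5⟩, g6⟩ := hcon
    exact hq (EvAll_det hP hb hl g1 g2 g3 g4 g5 g6)
  have b1 : μ E1 ≤ ENNReal.ofReal e :=
    (measurePreserving_fst.measure_preimage_le _).trans ((not_good_le hn1 hP.mn).trans
      (ENNReal.ofReal_le_ofReal (Real.exp_le_exp.2 (by linarith only [hPn, h0, hmn]))))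
  have b2 : μ E2 ≤ ENNReal.ofReal (3 * m * e) := by
    refine (measurePreserving_fst.measure_preimage_le _).trans
      ((tail_dot_self_gm (3 * √n)).trans (ENNReal.ofReal_le_ofReal ?_))
    rw [Fintype.card_fin]
    gcongr
    exact Real.exp_le_exp.2 (by linarith only [h8', h0])
  have b3 : μ E3 ≤ ENNReal.ofReal (3 * e) := by
    refine (measurePreserving_snd.measure_preimage_le _).trans
      ((tail_dot_self (3 * √n / 4)).trans (ENNReal.ofReal_le_ofReal ?_))
    gcongr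
    exact Real.exp_le_exp.2 (by linarith only [h8', h0])
  have b4 : μ E4 ≤ ENNReal.ofReal (m * e) :=
    (ev_coh hP0.le).trans (ENNReal.ofReal_le_ofReal (by gcongr))
  have hU : ∀ {S : Fin m → Set ((Fin m → Fin n → ℝ) × (Fin n → ℝ))} {t : ℝ},
      (∀ k, μ (S k) ≤ ENNReal.ofReal t) → μ (⋃ k, S k) ≤ ENNReal.ofReal (m * t) := by
    intro S t h
    refine (measure_iUnion_fintype_le _ _).trans ((sum_le_sum fun k _ => h k).trans ?_)
    rw [sum_const, card_univ, Fintype.card_fin, nsmul_eq_mul,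
      ENNReal.ofReal_mul (Nat.cast_nonneg _), ENNReal.ofReal_natCast]
  have b5 : μ (⋃ k, E5 k) ≤ ENNReal.ofReal (m * (2 * e)) :=
    hU fun k => (ev_u hP0.le k).trans (ENNReal.ofReal_le_ofReal (by gcongr))
  have hP3 : 0 < P ^ 3 := by positivity
  have b6 : μ (⋃ k, E6 k) ≤ ENNReal.ofReal (m * ((m + 1) * e)) :=
    hU fun k => (ev_om (by linarith only [h0, show (10 : ℝ) ^ 8 ≤ 10 ^ 20 by norm_num]) (by linarith only [h8, h8', h0]) hb hl
      k).trans (ENNReal.ofReal_le_ofReal (by gcongr))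
  have hme : (m : ℝ) ^ 24 * e ≤ 1 := by
    have := hP.log
    rw [he, Real.exp_neg, ← div_eq_mul_inv, div_le_one (Real.exp_pos _)]
    exact this
  have hm4 : (m : ℝ) ^ 4 * e ≤ 1 :=
    le_trans (by gcongr <;> [linarith only [hPn, h0, hmn]; norm_num]) hme
  calc μ _ ≤ μ (E1 ∪ E2 ∪ E3 ∪ E4 ∪ (⋃ k, E5 k) ∪ ⋃ k, E6 k) := measure_mono hsub
    _ ≤ μ E1 + μ E2 + μ E3 + μ E4 + μ (⋃ k, E5 k) + μ (⋃ k, E6 k) := by
      refine (measure_union_le _ _).trans (add_le_add ?_ le_rfl)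
      refine (measure_union_le _ _).trans (add_le_add ?_ le_rfl)
      refine (measure_union_le _ _).trans (add_le_add ?_ le_rfl)
      refine (measure_union_le _ _).trans (add_le_add ?_ le_rfl)
      exact measure_union_le _ _
    _ ≤ ENNReal.ofReal e + ENNReal.ofReal (3 * m * e) + ENNReal.ofReal (3 * e) +
        ENNReal.ofReal (m * e) + ENNReal.ofReal (m * (2 * e)) +
        ENNReal.ofReal (m * ((m + 1) * e)) := by gcongr
    _ = ENNReal.ofReal (e + 3 * m * e + 3 * e + m * e + m * (2 * e) + m * ((m + 1) * e)) := by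
      rw [ENNReal.ofReal_add, ENNReal.ofReal_add, ENNReal.ofReal_add, ENNReal.ofReal_add,
        ENNReal.ofReal_add] <;> positivity
    _ ≤ ENNReal.ofReal (1 / m) := by
      refine ENNReal.ofReal_le_ofReal ?_
      rw [le_div_iff₀ (by linarith only [hPn, h0, hmn])]
      have h1 : ((m : ℝ) ^ 2 + 7 * m + 4) * m ≤ m ^ 4 := by
        have h2 : (m : ℝ) ^ 2 + 7 * m + 4 ≤ 100 * m ^ 2 := by linarith only [hPn, h0, hmn, hmR, mul_nonneg_of_nonpos_of_nonpos (Mathlib.Tactic.Linarith.sub_nonpos_of_le (Mathlib.Tactic.Linarith.natCast_nonneg ℝ m)) (Mathlib.Tactic.Linarith.sub_nonpos_of_le hmR)]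
        have h3 : 100 * (m : ℝ) ^ 2 ≤ m ^ 3 := by linarith only [hmR, mul_nonneg_of_nonpos_of_nonpos (Mathlib.Tactic.Linarith.sub_nonpos_of_le (sq_nonneg ↑m)) (Mathlib.Tactic.Linarith.sub_nonpos_of_le hmR)]
        calc ((m : ℝ) ^ 2 + 7 * m + 4) * m ≤ (m : ℝ) ^ 3 * m := by gcongr; linarith only [h2, h3]
          _ = (m : ℝ) ^ 4 := by ring
      calc (e + 3 * m * e + 3 * e + m * e + m * (2 * e) + m * ((m + 1) * e)) * m
          = ((m : ℝ) ^ 2 + 7 * m + 4) * m * e := by ring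
        _ ≤ (m : ℝ) ^ 4 * e := by gcongr
        _ ≤ 1 := hm4

end Pool.Agent.Work.MP_6af739_lc
end
end

-- merged part: Pool.Agent.Work.MP_6af739_lc.Stein2
section
-- merged part: Pool.Agent.Work.MP_6af739_lc.Stein0
section
/-!
One-sided Gaussian integration by parts. stein_real: if the integral of |e| is infinite there is nothing
to prove; otherwise p - e is integrable and ibp_real (Ibp.lean) gives ∫ p = ∫ t f + ∫ e; pass to
lintegrals (ofReal_integral_eq_lintegral_ofReal). The sign of f is arbitrary (apply to -f).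
stein_gv: mp_update_gv (Ibp.lean) and lintegral_prod. stein_gm: mp_update (GBasic.lean), then stein_gv
for g ↦ F (update a k g).
-/

namespace Pool.Agent.Work.MP_6af739_lc

open Matrix Finset MeasureTheory ProbabilityTheory
open Pool.Agent.Work.MP_6a50bc_pr
open Pool.Agent.Work.MP_5c5849_an (sg av)
open scoped ENNReal

theorem stein_real {f p e : ℝ → ℝ} (hd : ∀ t, HasDerivAt f (p t - e t) t) (hp : Measurable p)
    (he : Measurable e) {C : ℝ} (hf : ∀ t, |f t| ≤ C) (hp0 : ∀ t, 0 ≤ p t) (hpC : ∀ t, p t ≤ C) :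
    ∫⁻ t, ENNReal.ofReal (p t) ∂(gaussianReal 0 1) ≤
      ∫⁻ t, ENNReal.ofReal |t * f t| ∂(gaussianReal 0 1) +
        ∫⁻ t, ENNReal.ofReal |e t| ∂(gaussianReal 0 1) := by
  by_cases hE : ∫⁻ t, ENNReal.ofReal |e t| ∂(gaussianReal 0 1) = ⊤
  · rw [hE, add_top]
    exact le_top
  have hie : Integrable e (gaussianReal 0 1) := by
    refine ⟨he.aestronglyMeasurable, ?_⟩
    rw [hasFiniteIntegral_iff_norm]
    exact lt_top_iff_ne_top.2 hE
  have hip : Integrable p (gaussianReal 0 1) :=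
    Integrable.of_bound hp.aestronglyMeasurable C
      (ae_of_all _ fun t => by rw [Real.norm_of_nonneg (hp0 t)]; exact hpC t)
  have hfc : Continuous f := continuous_iff_continuousAt.2 fun t => (hd t).continuousAt
  have hif : Integrable f (gaussianReal 0 1) :=
    Integrable.of_bound hfc.aestronglyMeasurable C (ae_of_all _ hf)
  have hid : Integrable (fun t : ℝ => t) (gaussianReal 0 1) :=
    memLp_one_iff_integrable.1 (memLp_id_gaussianReal 1)
  have hit : Integrable (fun t => t * f t) (gaussianReal 0 1) :=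
    hid.mul_bdd hfc.aestronglyMeasurable (ae_of_all _ hf)
  have h1 := ibp_real hd hif (hip.sub hie) hit
  rw [integral_sub hip hie] at h1
  have h2 : ∫ t, t * f t ∂(gaussianReal 0 1) ≤ ∫ t, |t * f t| ∂(gaussianReal 0 1) :=
    integral_mono hit hit.abs fun t => le_abs_self _
  have h3 : ∫ t, e t ∂(gaussianReal 0 1) ≤ ∫ t, |e t| ∂(gaussianReal 0 1) :=
    integral_mono hie hie.abs fun t => le_abs_self _
  rw [← ofReal_integral_eq_lintegral_ofReal hip (ae_of_all _ hp0),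
    ← ofReal_integral_eq_lintegral_ofReal hit.abs (ae_of_all _ fun t => abs_nonneg _),
    ← ofReal_integral_eq_lintegral_ofReal hie.abs (ae_of_all _ fun t => abs_nonneg _)]
  refine le_trans (ENNReal.ofReal_le_ofReal ?_) ENNReal.ofReal_add_le
  linarith only [h1, h2, h3]

theorem stein0_lift {α β γ : Type*} [MeasurableSpace α] [MeasurableSpace β] [MeasurableSpace γ]
    {μ : Measure α} {ν : Measure β} {ρ : Measure γ} [SFinite ν] {φ : α × β → γ}
    (hφ : MeasurePreserving φ (μ.prod ν) ρ) {P Q R : γ → ℝ≥0∞} (hP : Measurable P)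
    (hQ : Measurable Q) (hR : Measurable R)
    (h : ∀ x, ∫⁻ y, P (φ (x, y)) ∂ν ≤ ∫⁻ y, Q (φ (x, y)) ∂ν + ∫⁻ y, R (φ (x, y)) ∂ν) :
    ∫⁻ z, P z ∂ρ ≤ ∫⁻ z, Q z ∂ρ + ∫⁻ z, R z ∂ρ := by
  have hP' : Measurable fun a => P (φ a) := hP.comp hφ.measurable
  have hQ' : Measurable fun a => Q (φ a) := hQ.comp hφ.measurable
  have hR' : Measurable fun a => R (φ a) := hR.comp hφ.measurable
  rw [← hφ.lintegral_comp hP, ← hφ.lintegral_comp hQ, ← hφ.lintegral_comp hR,
    lintegral_prod _ hP'.aemeasurable, lintegral_prod _ hQ'.aemeasurable,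
    lintegral_prod _ hR'.aemeasurable, ← lintegral_add_left hQ'.lintegral_prod_right']
  exact lintegral_mono h

theorem stein_gv {κ : Type*} [Fintype κ] [DecidableEq κ] (i : κ) {F p e : (κ → ℝ) → ℝ}
    (hF : Measurable F) (hp : Measurable p) (he : Measurable e)
    (hd : ∀ x t, HasDerivAt (fun s => F (Function.update x i s))
      (p (Function.update x i t) - e (Function.update x i t)) t)
    {C : ℝ} (hf : ∀ x, |F x| ≤ C) (hp0 : ∀ x, 0 ≤ p x) (hpC : ∀ x, p x ≤ C) :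
    ∫⁻ x, ENNReal.ofReal (p x) ∂(gv κ) ≤
      ∫⁻ x, ENNReal.ofReal |x i * F x| ∂(gv κ) + ∫⁻ x, ENNReal.ofReal |e x| ∂(gv κ) := by
  refine stein0_lift (mp_update_gv i) hp.ennreal_ofReal
    ((measurable_pi_apply i).mul hF).abs.ennreal_ofReal he.abs.ennreal_ofReal fun x => ?_
  have hu : Measurable fun t : ℝ => Function.update x i t := measurable_update x
  simp only [Function.update_self]
  exact stein_real (hd x) (hp.comp hu) (he.comp hu) (fun t => hf _) (fun t => hp0 _) fun t => hpC _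

theorem stein_gm {ι κ : Type*} [Fintype ι] [DecidableEq ι] [Fintype κ] [DecidableEq κ] (k : ι)
    (i : κ) {F p e : (ι → κ → ℝ) → ℝ} (hF : Measurable F) (hp : Measurable p) (he : Measurable e)
    (hd : ∀ a t, HasDerivAt (fun s => F (Function.update a k (Function.update (a k) i s)))
      (p (Function.update a k (Function.update (a k) i t)) -
        e (Function.update a k (Function.update (a k) i t))) t)
    {C : ℝ} (hf : ∀ a, |F a| ≤ C) (hp0 : ∀ a, 0 ≤ p a) (hpC : ∀ a, p a ≤ C) :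
    ∫⁻ a, ENNReal.ofReal (p a) ∂(gm ι κ) ≤
      ∫⁻ a, ENNReal.ofReal |a k i * F a| ∂(gm ι κ) + ∫⁻ a, ENNReal.ofReal |e a| ∂(gm ι κ) := by
  have hm : Measurable fun a : ι → κ → ℝ => a k i * F a := by fun_prop
  refine stein0_lift (mp_update k) hp.ennreal_ofReal hm.abs.ennreal_ofReal
    he.abs.ennreal_ofReal fun a => ?_
  have hu : Measurable fun g : κ → ℝ => Function.update a k g := measurable_update a
  simp only [Function.update_self]
  refine stein_gv i (F := fun g => F (Function.update a k g)) (hF.comp hu) (hp.comp hu)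
    (he.comp hu) (fun g t => ?_) (fun g => hf _) (fun g => hp0 _) fun g => hpC _
  have := hd (Function.update a k g) t
  simp only [Function.update_self, Function.update_idem] at this
  exact this

end Pool.Agent.Work.MP_6af739_lc
end

-- merged part: Pool.Agent.Work.MP_6af739_lc.Stein1
section
/-!
Expected trace of the inverse Hessian. For each i apply stein_gv to F c = X A b (lam • c) i,
p c = lam * (hess⁻¹) i i, e = 0: hasDerivAt_X with a constant matrix and the cost curve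
s ↦ lam • update c i s (derivative lam • Pi.single i 1); bounds from Good.rad, Good.inv_hess_le.
Sum over i: sum |c_i x_i| ≤ nrm c nrm x ≤ min (150 nrm c) (10^8 lam c·c/m) (Good.nrm_le), and
E nrm c ≤ √n, E c·c = n (integral_nrm_le, integral_dot_self in Quad.lean).
-/

namespace Pool.Agent.Work.MP_6af739_lc

open Matrix Finset MeasureTheory ProbabilityTheory
open Pool.Agent.Work.MP_6a50bc_pr
open Pool.Agent.Work.MP_5c5849_an (sg av)
open scoped ENNReal

variable {m n : ℕ} {A : Matrix (Fin m) (Fin n) ℝ} {b : Fin m → ℝ} {c : Fin n → ℝ}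

lemma s1_deriv (hm : 0 < m) (h : Good A (44 / 100)) (hb : Box b) {lam : ℝ} (hl : 0 < lam)
    (c : Fin n → ℝ) (i : Fin n) (t : ℝ) :
    HasDerivAt (fun s => lam⁻¹ * X A b (lam • Function.update c i s) i)
      ((hess A b (X A b (lam • Function.update c i t)))⁻¹ i i - 0) t := by
  obtain ⟨a, rfl⟩ := Matrix.of.surjective A
  refine ((hasDerivAt_pi.1 (hasDerivAt_X (hasDerivAt_const t a)
    ((hasDerivAt_update c i t).const_smul lam) (h.dom hm hb _)) i).const_mul lam⁻¹).congr_deriv ?_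
  simp [mulVec_smul, hl.ne', ← Pi.zero_def]

lemma s1_sum (hm : 0 < m) (h : Good A (44 / 100)) (hb : Box b) {lam : ℝ} (hl : 0 < lam) :
    ∫⁻ c, ENNReal.ofReal (hess A b (X A b (lam • c)))⁻¹.trace ∂(gv (Fin n)) ≤
      ∫⁻ c, ENNReal.ofReal (lam⁻¹ * (nrm c * nrm (X A b (lam • c)))) ∂(gv (Fin n)) := by
  have hX : Measurable fun c : Fin n → ℝ => X A b (lam • c) :=
    (measurable_X b).comp ((measurable_const (a := Matrix.of.symm A)).prodMk
      (measurable_const_smul lam))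
  have hH := (mm_hess b (MM.const A) (MV.of hX)).inv
  have hI := fun c : Fin n → ℝ => (X_sol (h.dom hm hb (lam • c))).1
  have hd : ∀ (c : Fin n → ℝ) i, 0 ≤ (hess A b (X A b (lam • c)))⁻¹ i i ∧
      (hess A b (X A b (lam • c)))⁻¹ i i ≤ 10 ^ 12 / m := fun c i => by
    simpa using h.inv_hess_le hm hb (hI c) (Pi.single i 1)
  have hF : ∀ i, Measurable fun c : Fin n → ℝ => lam⁻¹ * X A b (lam • c) i := fun i =>
    ((measurable_pi_apply i).comp hX).const_mul _
  have h1 := fun i => stein_gv i (hF i) (hH i i) measurable_const (s1_deriv hm h hb hl · i)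
    (C := lam⁻¹ * 150 + 10 ^ 12 / m) (fun c => by
      rw [abs_mul, abs_of_pos (inv_pos.2 hl)]
      exact le_add_of_le_of_nonneg (mul_le_mul_of_nonneg_left ((abs_le_nrm _ i).trans
        (h.rad hm hb (g1_feas (hI c)))) (inv_pos.2 hl).le) (by positivity))
    (fun c => (hd c i).1) fun c => le_add_of_nonneg_of_le (by positivity) (hd c i).2
  simp only [abs_zero, ENNReal.ofReal_zero, lintegral_zero, add_zero] at h1
  calc _ = ∑ i, ∫⁻ c, ENNReal.ofReal ((hess A b (X A b (lam • c)))⁻¹ i i) ∂(gv (Fin n)) := by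
        rw [← lintegral_finsetSum _ fun i _ => (hH i i).ennreal_ofReal]
        exact lintegral_congr fun c => ENNReal.ofReal_sum_of_nonneg fun i _ => (hd c i).1
    _ ≤ ∑ i, ∫⁻ c, ENNReal.ofReal |c i * (lam⁻¹ * X A b (lam • c) i)| ∂(gv (Fin n)) :=
        sum_le_sum fun i _ => h1 i
    _ ≤ _ := by
        refine (lintegral_finsetSum _ fun i _ =>
          ((measurable_pi_apply i).mul (hF i)).abs.ennreal_ofReal).ge.trans
          (lintegral_mono fun c => ?_)
        rw [← ENNReal.ofReal_sum_of_nonneg fun i _ => abs_nonneg _]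
        refine ENNReal.ofReal_le_ofReal ?_
        have h2 := dot_le (fun i => |c i|) fun i => |X A b (lam • c) i|
        have h3 : ∀ v : Fin n → ℝ, (nrm fun i => |v i|) = nrm v := fun v => by
          simp only [nrm, dotProduct, abs_mul_abs_self]
        rw [h3, h3, dotProduct] at h2
        refine le_trans (le_of_eq ?_) (mul_le_mul_of_nonneg_left h2 (inv_pos.2 hl).le)
        rw [mul_sum]
        refine sum_congr rfl fun i _ => ?_
        rw [Pi.mul_apply, abs_mul, abs_mul, abs_of_pos (inv_pos.2 hl), mul_left_comm]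

lemma s1_le {f g : (Fin n → ℝ) → ℝ} {K L : ℝ} (hg : Integrable g (gv (Fin n))) (hK : 0 ≤ K)
    (h0 : ∀ c, 0 ≤ g c) (h : ∀ c, f c ≤ K * g c) (hL : K * ∫ c, g c ∂(gv (Fin n)) ≤ L) :
    ∫⁻ c, ENNReal.ofReal (f c) ∂(gv (Fin n)) ≤ ENNReal.ofReal L := by
  refine (lintegral_mono fun c => ENNReal.ofReal_le_ofReal (h c)).trans ?_
  rw [← ofReal_integral_eq_lintegral_ofReal (hg.const_mul K)
    (ae_of_all _ fun c => mul_nonneg hK (h0 c)), integral_const_mul]
  exact ENNReal.ofReal_le_ofReal hL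

theorem stein_trace (hm : 0 < m) (h : Good A (44 / 100)) (hb : Box b) {lam : ℝ} (hl : 0 < lam) :
    ∫⁻ c, ENNReal.ofReal (hess A b (X A b (lam • c)))⁻¹.trace ∂(gv (Fin n)) ≤
      ENNReal.ofReal (10 ^ 8 * √n * min (al m n lam) 1 / lam) := by
  refine (s1_sum hm h hb hl).trans ?_
  have hS := fun c : Fin n → ℝ => X_sol (h.dom hm hb (lam • c))
  have hm' : (0 : ℝ) < m := by exact_mod_cast hm
  rcases le_total (al m n lam) 1 with k | k
  · refine s1_le (K := 10 ^ 8 / m) integrable_dot_self (by positivity) dot_self_nonneg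
      (fun c => ?_) (le_of_eq ?_)
    · have h1 := h.nrm_le hm hb (hS c)
      rw [nrm_smul, abs_of_pos hl] at h1
      refine (mul_le_mul_of_nonneg_left (mul_le_mul_of_nonneg_left h1 (nrm_nonneg c))
        (inv_pos.2 hl).le).trans_eq ?_
      rw [← nrm_sq]
      field_simp
    · rw [min_eq_left k, al, integral_dot_self, Fintype.card_fin]
      field_simp
      rw [Real.sq_sqrt (Nat.cast_nonneg n)]
  · refine s1_le (K := 150 / lam) (g := nrm) (by simpa using integrable_nrm_pow 1) (by positivity)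
      nrm_nonneg (fun c => ?_) ?_
    · refine (mul_le_mul_of_nonneg_left (mul_le_mul_of_nonneg_left
        (h.rad hm hb (g1_feas (hS c).1)) (nrm_nonneg c)) (inv_pos.2 hl).le).trans_eq ?_
      ring
    · have h1 := integral_nrm_le (κ := Fin n)
      rw [Fintype.card_fin] at h1
      rw [min_eq_right k, mul_one, div_mul_eq_mul_div]
      refine div_le_div_of_nonneg_right ?_ hl.le
      linarith only [h1, Real.sqrt_nonneg (n : ℝ)]

end Pool.Agent.Work.MP_6af739_lc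
end

-- merged part: Pool.Agent.Work.MP_6af739_lc.Stein2
section
/-!
Expected value of phi1. By lintegral_rot (X_rot, phi1_rot, good_rot) assume c = Λ e0, Λ = nrm c > 0; then
phi1 = x_0 * nn with x = X A b c, x_0 ≥ 0 (sol_dot_nonneg). Fix k, let E_k = Good (zr (of a) k) (44/100),
which does not depend on row k; Good (45/100) implies E_k (Good.zr), on E_k we have dom_of_zr,
rad_of_zr, nrm_le_of_zr, inv_slack_le. Apply stein_gm at the entry (k, 0) to
F = 1_{E_k} log (1 + 1/s_k), 0 ≤ F ≤ log (3 + 1800 Λ). By hasDerivAt_X (A' = the matrix unit at (k,0),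
c' = 0): x' = -K (om_k e0 + x_0 s_k⁻² a_k), s_k' = -x_0 - a_k·x' = om_k s_k q_k/Λ - x_0 (1 - P_kk) with
q = qv (qv_eq: a_k · K c = s_k q_k), P_kk = proj (sc) k k = a_k·K a_k / s_k^2. So F' = p - e with
p = 1_{E_k} x_0 (1 - P_kk)/(s_k (1+s_k)), e = 1_{E_k} om_k q_k/(Λ (1+s_k)). E |a_k0| ≤ 1.
Sum over k of |e|: |om_k| ≤ 2 |u_k| + 2 om_k u_k, nrm q ≤ nrm u ≤ fro a * nrm x, sum om_k u_k = c·x ≤ 150 Λ,
so on the union of the E_k the sum is ≤ 2 |u|^2/Λ + 300 nrm u ≤ 3 10^10 fro^2/m + 45000 fro, with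
E fro^2 = m (n+1) ≤ m^2 (integral_fro_sq) and fro ≤ (fro^2/m + m)/2.
-/

namespace Pool.Agent.Work.MP_6af739_lc

open Matrix Finset MeasureTheory ProbabilityTheory
open Pool.Agent.Work.MP_6a50bc_pr
open Pool.Agent.Work.MP_5c5849_an (sg av)
open scoped ENNReal

section Aux

variable {m n : ℕ} {A : Matrix (Fin m) (Fin n) ℝ} {b : Fin m → ℝ} {c x : Fin n → ℝ}

lemma s2_om {β s u : ℝ} (hβ : 1 ≤ β) (hs : 0 < s) (e : s = β - u) :
    0 ≤ (s⁻¹ - β⁻¹) * u ∧ |s⁻¹ - β⁻¹| ≤ 2 * |u| + 2 * ((s⁻¹ - β⁻¹) * u) := by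
  have hβ0 : 0 < β := by linarith
  have h1 : s⁻¹ - β⁻¹ = u / (s * β) := by
    field_simp
    linarith only [e]
  have hp : 0 < s * β := mul_pos hs hβ0
  have h2 : 0 ≤ u / (s * β) * u := by
    rw [div_mul_eq_mul_div]
    exact div_nonneg (mul_self_nonneg u) hp.le
  rw [h1]
  refine ⟨h2, ?_⟩
  rcases le_total (1 / 2) s with h | h
  · have h3 : |u / (s * β)| ≤ 2 * |u| := by
      rw [abs_div, abs_of_pos hp, div_le_iff₀ hp]
      have : 1 ≤ 2 * (s * β) := by linarith only [h, hβ, hs, mul_nonneg_of_nonpos_of_nonpos (Mathlib.Tactic.Linarith.sub_nonpos_of_le hβ) (le_of_lt (Mathlib.Tactic.Linarith.sub_neg_of_lt hs))]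
      linarith only [this, abs_nonneg u, mul_nonneg_of_nonpos_of_nonpos (Mathlib.Tactic.Linarith.sub_nonpos_of_le this) (Mathlib.Tactic.Linarith.sub_nonpos_of_le (abs_nonneg u))]
    linarith only [h2, h3]
  · have h3 : 1 / 2 ≤ u := by linarith only [hβ, e, h]
    have h4 : 0 ≤ u / (s * β) := div_nonneg (by linarith only [hβ, hs, e, h]) hp.le
    rw [abs_of_nonneg h4]
    linarith only [hβ, h4, e, h, abs_nonneg u, mul_nonneg_of_nonpos_of_nonpos (Mathlib.Tactic.Linarith.sub_nonpos_of_le hβ) (Mathlib.Tactic.Linarith.sub_nonpos_of_le h4), Mathlib.Tactic.Linarith.zero_mul_eq (sub_eq_zero_of_eq e) (Mathlib.Tactic.Linarith.sub_nonpos_of_le h4), mul_nonneg_of_nonpos_of_nonpos (Mathlib.Tactic.Linarith.sub_nonpos_of_le h) (Mathlib.Tactic.Linarith.sub_nonpos_of_le h4)]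

lemma s2_sum (hm : 0 < m) (hb : Box b) (hx : Sol A b c x) (hc : 0 < nrm c) (h1 : nrm x ≤ 150)
    (h2 : nrm x ≤ 10 ^ 8 * nrm c / m) :
    ∑ k, |om A b x k * qv A b x k / (nrm c * (1 + slack A b x k))| ≤
      3 * 10 ^ 10 * (fro A ^ 2 / m) + 22500 * (fro A ^ 2 / m + m) := by
  have hm' : (0 : ℝ) < m := Nat.cast_pos.2 hm
  have hq : nrm (qv A b x) ≤ nrm (A *ᵥ x) := by
    refine ((isProj_proj _).nrm_le _).trans (nrm_mono fun j => ?_)
    have := (hb j).1
    simp only [vz]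
    rw [abs_div, abs_of_pos (by linarith only [this] : 0 < b j)]
    exact div_le_self (abs_nonneg _) this
  have hu : nrm (A *ᵥ x) ≤ fro A * nrm x :=
    (nrm_mulVec_le A x).trans (mul_le_mul_of_nonneg_right (opn_le_fro A) (nrm_nonneg x))
  have ho := fun k => s2_om (hb k).1 (hx.1 k) (slack_apply A b x k)
  have hs : ∑ k, om A b x k * (A *ᵥ x) k ≤ nrm c * 150 := by
    have e : ∑ k, om A b x k * (A *ᵥ x) k = c ⬝ᵥ x := by
      rw [← hx.2, mulVec_transpose, ← dotProduct_mulVec]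
      rfl
    rw [e]
    exact (dot_le c x).trans (mul_le_mul_of_nonneg_left h1 hc.le)
  have hd : ∑ k, |(A *ᵥ x) k| * |qv A b x k| ≤ nrm (A *ᵥ x) * nrm (A *ᵥ x) := by
    have h3 := dot_le (fun k => |(A *ᵥ x) k|) fun k => |qv A b x k|
    refine h3.trans (mul_le_mul (nrm_mono fun k => by rw [abs_abs])
      ((nrm_mono fun k => by rw [abs_abs]).trans hq) (nrm_nonneg _) (nrm_nonneg _))
  have hk : ∀ k, |om A b x k * qv A b x k / (nrm c * (1 + slack A b x k))| ≤
      (2 * (|(A *ᵥ x) k| * |qv A b x k|) +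
        2 * nrm (A *ᵥ x) * (om A b x k * (A *ᵥ x) k)) / nrm c := by
    intro k
    have h3 := hx.1 k
    have h4 : |qv A b x k| ≤ nrm (A *ᵥ x) := (abs_le_nrm _ k).trans hq
    have h5 : 0 ≤ om A b x k * (A *ᵥ x) k := (ho k).1
    have h6 : |om A b x k| ≤ 2 * |(A *ᵥ x) k| + 2 * (om A b x k * (A *ᵥ x) k) := (ho k).2
    have h7 := mul_le_mul_of_nonneg_right h6 (abs_nonneg (qv A b x k))
    have h8 := mul_le_mul_of_nonneg_left h4 h5
    rw [abs_div, abs_mul, abs_of_pos (by positivity : 0 < nrm c * (1 + slack A b x k))]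
    refine div_le_div₀ (by have := nrm_nonneg (A *ᵥ x); positivity) (by linarith only [h7, h8]) hc (by linarith only [hc, h3, mul_pos_of_neg_of_neg (Mathlib.Tactic.Linarith.sub_neg_of_lt hc) (Mathlib.Tactic.Linarith.sub_neg_of_lt h3)])
  refine (sum_le_sum fun k _ => hk k).trans ?_
  rw [← sum_div, sum_add_distrib, ← mul_sum, ← mul_sum, div_le_iff₀ hc]
  have n1 := nrm_nonneg (A *ᵥ x)
  have n2 := nrm_nonneg x
  have n3 := fro_nonneg A
  have h3 : nrm (A *ᵥ x) * nrm (A *ᵥ x) ≤ 150 * 10 ^ 8 * (fro A ^ 2 / m) * nrm c :=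
    calc nrm (A *ᵥ x) * nrm (A *ᵥ x) ≤ (fro A * 150) * (fro A * (10 ^ 8 * nrm c / m)) :=
          mul_le_mul (hu.trans (mul_le_mul_of_nonneg_left h1 n3))
            (hu.trans (mul_le_mul_of_nonneg_left h2 n3)) n1 (by positivity)
      _ = _ := by ring
  have h4 : 2 * fro A ≤ fro A ^ 2 / m + m := by
    rw [div_add' _ _ _ hm'.ne', le_div_iff₀ hm']
    linarith only [sq_nonneg (fro A - m), sq_nonneg (fro A - ↑m)]
  have h5 : nrm (A *ᵥ x) ≤ 75 * (fro A ^ 2 / m + m) := by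
    have := hu.trans (mul_le_mul_of_nonneg_left h1 n3)
    linarith only [h4, this]
  have h6 := mul_le_mul_of_nonneg_left hs n1
  have h7 := mul_le_mul_of_nonneg_right h5 hc.le
  linarith only [hd, h3, h6, h7]

lemma s2_diag (A : Matrix (Fin m) (Fin n) ℝ) (b : Fin m → ℝ) (x : Fin n → ℝ) (k : Fin m) :
    proj (sc A b x) k k = (A *ᵥ ((hess A b x)⁻¹ *ᵥ A k)) k / slack A b x k ^ 2 := by
  have h1 : (proj (sc A b x) *ᵥ Pi.single k 1) k = proj (sc A b x) k k := by
    rw [mulVec_single_one]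
    rfl
  have h2 : (sc A b x)ᵀ *ᵥ Pi.single k 1 = (slack A b x k)⁻¹ • A k := by
    rw [mulVec_single_one]
    ext i
    simp [sc, mul_comm]
  rw [← h1, proj_mulVec_eq, ← hess_eq, sc_mulVec, h2, mulVec_smul, mulVec_smul, Pi.smul_apply,
    smul_eq_mul]
  ring

lemma s2_zr (a : Fin m → Fin n → ℝ) (k : Fin m) (v : Fin n → ℝ) :
    zr (Matrix.of (Function.update a k v)) k = zr (Matrix.of a) k := by
  ext j i
  by_cases h : j = k <;> simp [zr, updateRow_apply, h]

lemma s2_deriv (hb : ∀ j, 0 < b j) (a : Fin m → Fin n → ℝ) (k : Fin m) (i : Fin n) (t : ℝ) {L : ℝ}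
    (hL : L ≠ 0) (hc : c = L • Pi.single i 1)
    (hA : A = Matrix.of (Function.update a k (Function.update (a k) i t))) (hD : Dom A b c) :
    HasDerivAt (fun s => Real.log (1 + (slack
      (Matrix.of (Function.update a k (Function.update (a k) i s))) b
      (X (Matrix.of (Function.update a k (Function.update (a k) i s))) b c) k)⁻¹))
      (X A b c i * ((1 - proj (sc A b (X A b c)) k k) /
          (slack A b (X A b c) k * (1 + slack A b (X A b c) k))) -
        om A b (X A b c) k * qv A b (X A b c) k / (L * (1 + slack A b (X A b c) k))) t := by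
  have hr : HasDerivAt (fun s => Function.update (a k) i s) (Pi.single i (1 : ℝ)) t :=
    hasDerivAt_update _ _ _
  have hA' : HasDerivAt (fun s => Function.update a k (Function.update (a k) i s))
      (Pi.single k (Pi.single i (1 : ℝ))) t := by
    refine hasDerivAt_pi.2 fun j => ?_
    by_cases h : j = k
    · subst h
      simpa using hr
    · simpa [h] using hasDerivAt_const t (a j)
  have hx := hasDerivAt_X (cf := fun _ => c) hA' (hasDerivAt_const t c) (hA ▸ hD)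
  rw [← hA] at hx
  have hS := X_sol hD
  have hs := hS.1 k
  have hq := congrFun (qv_eq hD.1 hb hS) k
  have hP := s2_diag A b (X A b c) k
  have e1 : (Matrix.of (Pi.single k (Pi.single i (1 : ℝ)) : Fin m → Fin n → ℝ))ᵀ *ᵥ
      om A b (X A b c) = (om A b (X A b c) k / L) • c := by
    ext l
    rw [hc]
    simp only [mulVec, dotProduct, transpose_apply, of_apply, Pi.smul_apply, smul_eq_mul]
    rw [sum_eq_single k (fun j _ h => by simp [h]) (by simp), Pi.single_eq_same]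
    field_simp
  have e2 : (Aᵀ *ᵥ fun j => (slack A b (X A b c) j)⁻¹ ^ 2 *
      (Matrix.of (Pi.single k (Pi.single i (1 : ℝ)) : Fin m → Fin n → ℝ) *ᵥ X A b c) j) =
      ((slack A b (X A b c) k)⁻¹ ^ 2 * X A b c i) • A k := by
    ext l
    simp only [mulVec, dotProduct, transpose_apply, of_apply, Pi.smul_apply, smul_eq_mul]
    rw [sum_eq_single k (fun j _ h => by simp [h]) (by simp), Pi.single_eq_same,
      sum_eq_single i (fun j _ h => by simp [h]) (by simp), Pi.single_eq_same]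
    ring
  rw [e1, e2] at hx
  generalize hx' : (hess A b (X A b c))⁻¹ *ᵥ (0 - (om A b (X A b c) k / L) • c -
    ((slack A b (X A b c) k)⁻¹ ^ 2 * X A b c i) • A k) = x' at hx
  have e3 : (A *ᵥ x') k = -(om A b (X A b c) k / L * (qv A b (X A b c) k * slack A b (X A b c) k)) -
      X A b c i * proj (sc A b (X A b c)) k k := by
    rw [← hx', hq, hP, sc_mulVec]
    simp only [mulVec_sub, mulVec_smul, mulVec_zero, Pi.sub_apply, Pi.smul_apply, smul_eq_mul,
      Pi.zero_apply]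
    field_simp
    ring
  have hu : HasDerivAt (fun s => slack
      (Matrix.of (Function.update a k (Function.update (a k) i s))) b
      (X (Matrix.of (Function.update a k (Function.update (a k) i s))) b c) k)
      (-(X A b c i + (A *ᵥ x') k)) t := by
    have h1 := (HasDerivAt.fun_sum (u := univ) fun l _ =>
      (hasDerivAt_pi.1 hr l).mul (hasDerivAt_pi.1 hx l)).const_sub (b k)
    refine (h1.congr_of_eventuallyEq (Filter.Eventually.of_forall fun s => ?_)).congr_deriv ?_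
    · simp [slack_apply, mulVec, dotProduct]
    · rw [sum_add_distrib, ← hA, sum_eq_single i (fun j _ h => by simp [h]) (by simp),
        Pi.single_eq_same, one_mul, hA]
      simp [mulVec, dotProduct]
  have h2 := ((hu.fun_inv (by rw [← hA]; exact hs.ne')).const_add 1).log
    (by rw [← hA]; positivity)
  refine h2.congr_deriv ?_
  rw [← hA, e3]
  field_simp
  ring

lemma s2_int (m n : ℕ) (i : Fin n) (L : ℝ) :
    Integrable (fun a : Fin m → Fin n → ℝ => ∑ k, L * ((1 + a k i ^ 2) / 2))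
      (gm (Fin m) (Fin n)) ∧
    ∫ a, ∑ k, L * ((1 + a k i ^ 2) / 2) ∂(gm (Fin m) (Fin n)) = m * L := by
  have h1 : ∀ k : Fin m, Integrable (fun a : Fin m → Fin n → ℝ => a k i ^ 2)
      (gm (Fin m) (Fin n)) := fun k => by
    refine integrable_gm_of_le_pow (Continuous.aestronglyMeasurable (by fun_prop)) 1 2 fun a => ?_
    rw [abs_pow, one_mul]
    refine pow_le_pow_left₀ (abs_nonneg _) ?_ 2
    have := abs_le_fro (Matrix.of a) k i
    rw [of_apply] at this
    linarith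
  have h2 : ∀ k : Fin m, ∫ a, a k i ^ 2 ∂(gm (Fin m) (Fin n)) = 1 := fun k => by
    have h := integral_ip_sq (Matrix.single k i (1 : ℝ))
    have e : ∀ B : Matrix (Fin m) (Fin n) ℝ, ip B (Matrix.single k i (1 : ℝ)) = B k i := fun B => by
      unfold ip
      rw [sum_eq_single k (fun j _ h => by simp [Ne.symm h]) (by simp),
        sum_eq_single i (fun j _ h => by simp [Ne.symm h]) (by simp)]
      simp
    simpa [fro_sq, e] using h
  have h3 : ∀ k : Fin m, Integrable (fun a : Fin m → Fin n → ℝ => L * ((1 + a k i ^ 2) / 2))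
      (gm (Fin m) (Fin n)) := fun k =>
    (((integrable_const (1 : ℝ)).add (h1 k)).div_const 2).const_mul L
  refine ⟨integrable_finsetSum _ fun k _ => h3 k, ?_⟩
  rw [integral_finsetSum _ fun k _ => h3 k]
  have h4 : ∀ k : Fin m, ∫ a, L * ((1 + a k i ^ 2) / 2) ∂(gm (Fin m) (Fin n)) = L := fun k => by
    rw [integral_const_mul, integral_div, integral_add (integrable_const _) (h1 k), h2 k]
    simp
  simp [h4]

lemma s2_axis (hm : 100 ≤ m) (hn : n ≤ m) (hb : Box b) (i : Fin n) {L : ℝ} (hL : 0 < L)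
    (hc : c = L • Pi.single i 1) :
    ∫⁻ a, {a | Good (Matrix.of a) (45 / 100)}.indicator
        (fun a => ENNReal.ofReal (phi1 (Matrix.of a) b (X (Matrix.of a) b c))) a
        ∂(gm (Fin m) (Fin n)) ≤
      ENNReal.ofReal (m * Real.log (3 + 1800 * L) + 10 ^ 11 * m) := by
  have hm0 : 0 < m := by omega
  have hm' : (0 : ℝ) < m := Nat.cast_pos.2 hm0
  have hb0 : ∀ j, 0 < b j := fun j => by linarith only [hb, (hb j).1]
  have hN : nrm c = L := by
    rw [hc, nrm_smul, nrm_eq_one_iff.2 (by simp), abs_of_pos hL, mul_one]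
  have hdot : ∀ y : Fin n → ℝ, c ⬝ᵥ y = L * y i := fun y => by simp [hc]
  let E : Fin m → Set (Fin m → Fin n → ℝ) := fun k => {a | Good (zr (Matrix.of a) k) (44 / 100)}
  let x : (Fin m → Fin n → ℝ) → Fin n → ℝ := fun a => X (Matrix.of a) b c
  let s : (Fin m → Fin n → ℝ) → Fin m → ℝ := fun a => slack (Matrix.of a) b (x a)
  let F : Fin m → (Fin m → Fin n → ℝ) → ℝ := fun k =>
    (E k).indicator fun a => Real.log (1 + (s a k)⁻¹)
  let p : Fin m → (Fin m → Fin n → ℝ) → ℝ := fun k =>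
    (E k).indicator fun a => x a i * ((1 - proj (sc (Matrix.of a) b (x a)) k k) /
      (s a k * (1 + s a k)))
  let e : Fin m → (Fin m → Fin n → ℝ) → ℝ := fun k =>
    (E k).indicator fun a => om (Matrix.of a) b (x a) k * qv (Matrix.of a) b (x a) k /
      (L * (1 + s a k))
  have mE : ∀ k, MeasurableSet (E k) := fun k => measurableSet_good (measurable_zr k) _
  have mx : Measurable x := (measurable_X b).comp (measurable_id.prodMk measurable_const)
  have ms : ∀ k, Measurable fun a => s a k := fun k =>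
    (measurable_pi_apply k).comp (measurable_slack b measurable_id mx)
  have mF : ∀ k, Measurable (F k) := fun k =>
    (Real.measurable_log.comp ((ms k).inv.const_add 1)).indicator (mE k)
  have mp : ∀ k, Measurable (p k) := fun k =>
    (((measurable_pi_apply i).comp mx).mul
      (((mm_sc b (MM.of measurable_id) (MV.of mx)).proj k k).const_sub 1 |>.div
        ((ms k).mul ((ms k).const_add 1)))).indicator (mE k)
  have me : ∀ k, Measurable (e k) := fun k =>
    ((((measurable_pi_apply k).comp (measurable_om b measurable_id mx)).mul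
      ((measurable_pi_apply k).comp (measurable_qv b measurable_id mx))).div
        (((ms k).const_add 1).const_mul L)).indicator (mE k)
  have hS : ∀ k, ∀ a ∈ E k, Sol (Matrix.of a) b c (x a) := fun k a h =>
    X_sol (dom_of_zr hm0 h hb c)
  have hR : ∀ k, ∀ a ∈ E k, nrm (x a) ≤ 150 := fun k a h =>
    rad_of_zr hm0 h hb (g1_feas (hS k a h).1)
  have hI : ∀ k, ∀ a ∈ E k, (s a k)⁻¹ ≤ 2 + 1800 * L := fun k a h => by
    have := inv_slack_le hb (hS k a h) (hR k a h) k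
    rw [hN] at this
    linarith only [this]
  have hlog : 0 ≤ Real.log (3 + 1800 * L) := Real.log_nonneg (by linarith only [hL])
  have hF : ∀ k a, |F k a| ≤ Real.log (3 + 1800 * L) := fun k a => by
    by_cases h : a ∈ E k
    · have h1 : 0 < (s a k)⁻¹ := inv_pos.2 ((hS k a h).1 k)
      simp only [F, Set.indicator_of_mem h]
      rw [abs_of_nonneg (Real.log_nonneg (by linarith only [h1]))]
      exact Real.log_le_log (by linarith only [h1]) (by linarith only [hI, h, hI k a h])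
    · simp only [F, Set.indicator_of_notMem h, abs_zero, hlog]
  have hp : ∀ k a, 0 ≤ p k a ∧ p k a ≤ 150 * (2 + 1800 * L) := fun k a => by
    by_cases h : a ∈ E k
    · have h1 : 0 < s a k := (hS k a h).1 k
      have h2 : 0 ≤ x a i := by
        have := sol_dot_nonneg hb0 (hS k a h)
        rw [hdot] at this
        exact nonneg_of_mul_nonneg_right this hL |> fun h => h
      have h3 : x a i ≤ 150 := (le_abs_self _).trans ((abs_le_nrm _ i).trans (hR k a h))
      have h4 := (isProj_proj (sc (Matrix.of a) b (x a))).diag_nonneg k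
      have h5 := (isProj_proj (sc (Matrix.of a) b (x a))).diag_le_one k
      have h6 : 0 ≤ (1 - proj (sc (Matrix.of a) b (x a)) k k) / (s a k * (1 + s a k)) :=
        div_nonneg (by linarith only [h5]) (by positivity)
      simp only [p, Set.indicator_of_mem h]
      refine ⟨mul_nonneg h2 h6, mul_le_mul h3 (le_trans ?_ (hI k a h)) h6 (by norm_num)⟩
      rw [inv_eq_one_div]
      exact div_le_div₀ zero_le_one (by linarith only [h4]) h1 (by linarith only [h1, mul_pos_of_neg_of_neg (Mathlib.Tactic.Linarith.sub_neg_of_lt h1) (Mathlib.Tactic.Linarith.sub_neg_of_lt h1)])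
    · simp only [p, Set.indicator_of_notMem h]
      exact ⟨le_rfl, by positivity⟩
  have hst : ∀ k, ∫⁻ a, ENNReal.ofReal (p k a) ∂(gm (Fin m) (Fin n)) ≤
      ∫⁻ a, ENNReal.ofReal |a k i * F k a| ∂(gm (Fin m) (Fin n)) +
        ∫⁻ a, ENNReal.ofReal |e k a| ∂(gm (Fin m) (Fin n)) := fun k => by
    refine stein_gm k i (mF k) (mp k) (me k) (fun a t => ?_)
      (C := Real.log (3 + 1800 * L) + 150 * (2 + 1800 * L))
      (fun a => (hF k a).trans (le_add_of_nonneg_right (by positivity))) (fun a => (hp k a).1)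
      fun a => (hp k a).2.trans (le_add_of_nonneg_left hlog)
    have hE : ∀ v, Function.update a k v ∈ E k ↔ a ∈ E k := fun v => by
      simp only [E, Set.mem_ofPred_eq, s2_zr]
    by_cases h : a ∈ E k
    · simp only [F, p, e, Set.indicator_of_mem ((hE _).2 h)]
      exact s2_deriv hb0 a k i t hL.ne' hc rfl (dom_of_zr hm0 ((hE _).2 h) hb c)
    · simp only [F, p, e, Set.indicator_of_notMem (mt (hE _).1 h), sub_zero]
      exact hasDerivAt_const _ _
  have i1 := s2_int m n i (Real.log (3 + 1800 * L))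
  have i2 : Integrable (fun a : Fin m → Fin n → ℝ => fro (Matrix.of a) ^ 2 / m)
      (gm (Fin m) (Fin n)) := by
    refine Integrable.div_const (integrable_gm_of_le_pow ?_ 1 2 fun a => ?_) _
    · refine Continuous.aestronglyMeasurable ?_
      simp only [fro_sq, ip, of_apply]
      fun_prop
    · rw [abs_pow, one_mul, abs_of_nonneg (fro_nonneg _)]
      exact pow_le_pow_left₀ (fro_nonneg _) (by linarith only []) 2
  have i3 : ∫ a, fro (Matrix.of a) ^ 2 / m ∂(gm (Fin m) (Fin n)) = n := by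
    rw [integral_div, integral_fro_sq, Fintype.card_fin, Fintype.card_fin]
    field_simp
  have i5 : Integrable (fun a : Fin m → Fin n → ℝ => 22500 * (fro (Matrix.of a) ^ 2 / m + m))
      (gm (Fin m) (Fin n)) := (i2.add (integrable_const (m : ℝ))).const_mul 22500
  have i4 : Integrable (fun a : Fin m → Fin n → ℝ => 3 * 10 ^ 10 * (fro (Matrix.of a) ^ 2 / m) +
      22500 * (fro (Matrix.of a) ^ 2 / m + m)) (gm (Fin m) (Fin n)) :=
    (i2.const_mul (3 * 10 ^ 10)).add i5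
  have i6 : Integrable (fun a : Fin m → Fin n → ℝ =>
      ∑ k, Real.log (3 + 1800 * L) * ((1 + a k i ^ 2) / 2) +
        (3 * 10 ^ 10 * (fro (Matrix.of a) ^ 2 / m) + 22500 * (fro (Matrix.of a) ^ 2 / m + m)))
      (gm (Fin m) (Fin n)) := i1.1.add i4
  calc _ ≤ ∫⁻ a, ∑ k, ENNReal.ofReal (p k a) ∂(gm (Fin m) (Fin n)) := by
        refine lintegral_mono fun a => ?_
        by_cases h : a ∈ {a | Good (Matrix.of a) (45 / 100)}
        · have hE : ∀ k, a ∈ E k := fun k => Good.zr hm h k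
          have h1 := hS ⟨0, hm0⟩ a (hE _)
          rw [Set.indicator_of_mem h, ← ENNReal.ofReal_sum_of_nonneg fun k _ => (hp k a).1]
          refine ENNReal.ofReal_le_ofReal (le_of_eq ?_)
          simp only [p, Set.indicator_of_mem (hE _)]
          rw [← mul_sum, phi1, h1.2, hdot, hN, mul_div_cancel_left₀ _ hL.ne']
          rfl
        · rw [Set.indicator_of_notMem h]
          exact zero_le
    _ ≤ ∑ k, (∫⁻ a, ENNReal.ofReal |a k i * F k a| ∂(gm (Fin m) (Fin n)) +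
          ∫⁻ a, ENNReal.ofReal |e k a| ∂(gm (Fin m) (Fin n))) := by
        rw [lintegral_finsetSum _ fun k _ => (mp k).ennreal_ofReal]
        exact sum_le_sum fun k _ => hst k
    _ = ∫⁻ a, ENNReal.ofReal (∑ k, |a k i * F k a| + ∑ k, |e k a|) ∂(gm (Fin m) (Fin n)) := by
        have m1 : ∀ k, Measurable fun a : Fin m → Fin n → ℝ => ENNReal.ofReal |a k i * F k a| :=
          fun k => (Measurable.fun_mul (by fun_prop) (mF k)).abs.ennreal_ofReal
        have m2 : ∀ k, Measurable fun a : Fin m → Fin n → ℝ => ENNReal.ofReal |e k a| :=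
          fun k => (me k).abs.ennreal_ofReal
        rw [sum_add_distrib, ← lintegral_finsetSum _ fun k _ => m1 k,
          ← lintegral_finsetSum _ fun k _ => m2 k,
          ← lintegral_add_left (Finset.measurable_fun_sum _ fun k _ => m1 k)]
        refine lintegral_congr fun a => ?_
        rw [ENNReal.ofReal_add (sum_nonneg fun k _ => abs_nonneg _)
          (sum_nonneg fun k _ => abs_nonneg _),
          ENNReal.ofReal_sum_of_nonneg fun k _ => abs_nonneg _,
          ENNReal.ofReal_sum_of_nonneg fun k _ => abs_nonneg _]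
    _ ≤ ∫⁻ a, ENNReal.ofReal (∑ k, Real.log (3 + 1800 * L) * ((1 + a k i ^ 2) / 2) +
          (3 * 10 ^ 10 * (fro (Matrix.of a) ^ 2 / m) + 22500 * (fro (Matrix.of a) ^ 2 / m + m)))
          ∂(gm (Fin m) (Fin n)) := by
        refine lintegral_mono fun a => ENNReal.ofReal_le_ofReal (add_le_add ?_ ?_)
        · refine sum_le_sum fun k _ => ?_
          rw [abs_mul, mul_comm]
          refine mul_le_mul (hF k a) ?_ (abs_nonneg _) hlog
          linarith only [sq_nonneg (|a k i| - 1), sq_abs (a k i), sq_nonneg (|a k i| - (1 : ℝ))]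
        · by_cases h : ∃ k, a ∈ E k
          · obtain ⟨k, h⟩ := h
            refine le_trans (sum_le_sum fun j _ => ?_) (s2_sum hm0 hb (hS k a h) (hN ▸ hL)
              (hR k a h) (nrm_le_of_zr hm0 h hb (hS k a h)))
            rw [hN]
            by_cases h' : a ∈ E j
            · simp only [e, Set.indicator_of_mem h']
              exact le_rfl
            · simp only [e, Set.indicator_of_notMem h', abs_zero, abs_nonneg]
          · rw [sum_eq_zero fun j _ => by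
              simp only [e, Set.indicator_of_notMem (fun h' => h ⟨j, h'⟩), abs_zero]]
            positivity
    _ ≤ _ := by
        rw [← ofReal_integral_eq_lintegral_ofReal i6
          (Filter.Eventually.of_forall fun a => by positivity)]
        refine ENNReal.ofReal_le_ofReal ?_
        rw [integral_add i1.1 i4, i1.2, integral_add (i2.const_mul _) i5,
          integral_const_mul, integral_const_mul,
          integral_add i2 (integrable_const _), i3]
        have : (n : ℝ) ≤ m := Nat.cast_le.2 hn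
        simp only [integral_const, probReal_univ, smul_eq_mul, one_mul]
        linarith only [hm', this]

end Aux

theorem stein_phi1 {m n : ℕ} (hm : 100 ≤ m) (hn : n + 1 ≤ m) {b : Fin m → ℝ} (hb : Box b)
    {c : Fin (n + 1) → ℝ} (hc : c ≠ 0) :
    ∫⁻ a, {a | Good (Matrix.of a) (45 / 100)}.indicator
        (fun a => ENNReal.ofReal (phi1 (Matrix.of a) b (X (Matrix.of a) b c))) a
        ∂(gm (Fin m) (Fin (n + 1))) ≤
      ENNReal.ofReal (m * Real.log (3 + 1800 * nrm c) + 10 ^ 11 * m) := by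
  have hL := nrm_pos hc
  let F : (Fin m → Fin (n + 1) → ℝ) × (Fin (n + 1) → ℝ) → ℝ≥0∞ := fun q =>
    {a | Good (Matrix.of a) (45 / 100)}.indicator
      (fun a => ENNReal.ofReal (phi1 (Matrix.of a) b (X (Matrix.of a) b q.2))) q.1
  have hF : Invar F := fun O hO a x => by
    have h1 : rot O a ∈ {a | Good (Matrix.of a) (45 / 100)} ↔
        a ∈ {a | Good (Matrix.of a) (45 / 100)} := by
      simp only [Set.mem_ofPred_eq, of_rot, good_rot hO]
    by_cases h : a ∈ {a | Good (Matrix.of a) (45 / 100)}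
    · simp only [F, Set.indicator_of_mem h, Set.indicator_of_mem (h1.2 h), of_rot, X_rot hO,
        phi1_rot hO]
    · simp only [F, Set.indicator_of_notMem h, Set.indicator_of_notMem (mt h1.1 h)]
  have hM : Measurable fun a => F (a, c) :=
    (measurable_phi1 b measurable_id
      ((measurable_X b).comp (measurable_id.prodMk measurable_const))).ennreal_ofReal.indicator
      (measurableSet_good measurable_id _)
  have h := lintegral_rot hF (y := nrm c • Pi.single 0 1) hM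
    (by rw [nrm_smul, (nrm_eq_one_iff (v := Pi.single 0 1)).2 (by simp), abs_of_pos hL, mul_one])
  exact h.trans_le (s2_axis hm hn hb 0 hL rfl)

end Pool.Agent.Work.MP_6af739_lc
end
end

-- merged part: Pool.Agent.Work.MP_6af739_lc.ZB1
section
-- merged part: Pool.Agent.Work.MP_6af739_lc.GGF
section
/-!
Numerical consequences of GG. Write α = al m n lam > 0, a = min α 1, lam √n = m α, c = Aᵀ om,
Sol A b c x holds by definition. gg_y: positive side GG.w; if om k < 0 then u_k < 0, s_k > 1 and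
|om k| ≤ |u_k| ≤ P^2 α ≤ P^3 lam/√n (om_eq, n ≤ m). P^3 lam/√n = P^3 α m/n ≤ P^4 α. gg_N: nrm c ≤ 8 √m nrm om
(Good.opT). gg_r_hi: Good.rad, Good.nrm_le. gg_r_lo: GG.dir and c·x ≤ nrm c nrm x.
hat versions (here n + 1 columns): hsig_sq, θ ≤ 1/N since θ N = 1 - 1/σ (hat_theta, h0_dot_h2),
h0·h1 = c·x (h0_dot_h1), 1/(s b) ≤ 1 + P^4 α, a/α ≤ 1, a ≤ 1.
-/

namespace Pool.Agent.Work.MP_6af739_lc

open Matrix Finset MeasureTheory ProbabilityTheory
open Pool.Agent.Work.MP_6a50bc_pr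
open Pool.Agent.Work.MP_5c5849_an (sg av)
open scoped ENNReal

section General

variable {m n : ℕ} {A : Matrix (Fin m) (Fin n) ℝ} {b : Fin m → ℝ} {x : Fin n → ℝ} {P lam : ℝ}
  (hP : Par m n P) (hb : Box b) (hl : 0 < lam) (h : GG P lam b A x)
include hP

lemma ggf_one : (1 : ℝ) ≤ P := le_trans (by norm_num) hP.big

theorem Par.m_pos : 0 < m := by
  have h1 : (1 : ℝ) ≤ P ^ 10 := one_le_pow₀ (le_trans (by norm_num) hP.big)
  have h2 : 1 ≤ n := by exact_mod_cast h1.trans hP.pow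
  have := hP.mn
  omega

theorem Par.le_m : 100 ≤ m := by
  have h1 : (1 : ℝ) ≤ P ^ 10 := one_le_pow₀ (le_trans (by norm_num) hP.big)
  have h2 : 1 ≤ n := by exact_mod_cast h1.trans hP.pow
  have := hP.mn
  omega

theorem Par.pow_le_sqrt : P ^ 5 ≤ √n := by
  refine Real.le_sqrt_of_sq_le ?_
  rw [← pow_mul]
  exact hP.pow

lemma ggf_sq : 0 < √(n : ℝ) :=
  lt_of_lt_of_le (pow_pos (lt_of_lt_of_le one_pos (ggf_one hP)) 5) hP.pow_le_sqrt

lemma ggf_ma : lam * √n = m * al m n lam := by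
  have hm : (0 : ℝ) < m := by exact_mod_cast hP.m_pos
  unfold al
  field_simp

include hl

theorem Par.al_pos : 0 < al m n lam := by
  have hm : (0 : ℝ) < m := by exact_mod_cast hP.m_pos
  have hs := ggf_sq hP
  unfold al
  positivity

include h in
lemma ggf_c : 0 < nrm (Aᵀ *ᵥ om A b x) := by
  have hs := ggf_sq hP
  exact lt_of_lt_of_le (by positivity) h.lo

include hb h

theorem gg_y (k : Fin m) : |om A b x k| ≤ P ^ 3 * lam / √n := by
  have hP1 := ggf_one hP
  have hm : (0 : ℝ) < m := by exact_mod_cast hP.m_pos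
  have hs := ggf_sq hP
  rcases le_or_gt 0 (om A b x k) with h0 | h0
  · rw [abs_of_nonneg h0]; exact h.w k
  have hb0 : ∀ j, 0 < b j := fun j => lt_of_lt_of_le one_pos (hb j).1
  have hs0 := h.int k
  have e := om_eq hb0 h.int k
  have hsb : 0 < slack A b x k * b k := mul_pos hs0 (hb0 k)
  have hu : (A *ᵥ x) k < 0 := by
    rw [e] at h0
    by_contra hc
    exact absurd h0 (not_lt.2 (div_nonneg (not_lt.1 hc) hsb.le))
  have hs1 : 1 ≤ slack A b x k := by rw [slack_apply]; linarith only [hu, hb, (hb k).1]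
  have h1 : 1 ≤ slack A b x k * b k := one_le_mul_of_one_le_of_one_le hs1 (hb k).1
  have h2 : |om A b x k| ≤ |(A *ᵥ x) k| := by
    rw [e, abs_div, abs_of_pos hsb]
    exact div_le_self (abs_nonneg _) h1
  have h3 : |(A *ᵥ x) k| ≤ P ^ 2 * al m n lam :=
    (h.u k).trans (mul_le_mul_of_nonneg_left (min_le_left _ _) (by positivity))
  refine h2.trans (h3.trans ?_)
  have hnm : (n : ℝ) ≤ m := by
    have := hP.mn
    exact_mod_cast (by omega : n ≤ m)
  have hsq : √(n : ℝ) * √n = n := Real.mul_self_sqrt (Nat.cast_nonneg _)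
  rw [al, ← mul_div_assoc, div_le_div_iff₀ hm hs]
  have h4 : (n : ℝ) ≤ P * m := hnm.trans (le_mul_of_one_le_left hm.le hP1)
  calc P ^ 2 * (lam * √n) * √n = P ^ 2 * lam * (√n * √n) := by ring
    _ = P ^ 2 * lam * n := by rw [hsq]
    _ ≤ P ^ 2 * lam * (P * m) := mul_le_mul_of_nonneg_left h4 (by positivity)
    _ = P ^ 3 * lam * m := by ring

theorem gg_om_abs (k : Fin m) : |om A b x k| ≤ P ^ 4 * al m n lam := by
  have hP1 := ggf_one hP
  have hm : (0 : ℝ) < m := by exact_mod_cast hP.m_pos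
  have hs := ggf_sq hP
  refine (gg_y hP hb hl h k).trans ?_
  have hsq : √(n : ℝ) * √n = n := Real.mul_self_sqrt (Nat.cast_nonneg _)
  rw [al, ← mul_div_assoc, div_le_div_iff₀ hs hm]
  calc P ^ 3 * lam * m ≤ P ^ 3 * lam * (P * n) :=
        mul_le_mul_of_nonneg_left hP.rat (by positivity)
    _ = P ^ 4 * lam * (√n * √n) := by rw [hsq]; ring
    _ = P ^ 4 * (lam * √n) * √n := by ring

theorem gg_om_le_lam (k : Fin m) : |om A b x k| ≤ lam := by
  have hP1 := ggf_one hP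
  have hs := ggf_sq hP
  refine (gg_y hP hb hl h k).trans ?_
  rw [div_le_iff₀ hs, mul_comm lam]
  exact mul_le_mul_of_nonneg_right
    ((pow_le_pow_right₀ hP1 (by norm_num)).trans hP.pow_le_sqrt) hl.le

theorem gg_omsq : om A b x ⬝ᵥ om A b x ≤ P ^ 7 * lam ^ 2 := by
  have hP1 := ggf_one hP
  have hs := ggf_sq hP
  have hsq : √(n : ℝ) ^ 2 = n := Real.sq_sqrt (Nat.cast_nonneg _)
  have hn : (0 : ℝ) < n := by rw [← hsq]; positivity
  have h1 : ∀ k, om A b x k * om A b x k ≤ P ^ 6 * lam ^ 2 / n := fun k => by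
    have h2 := gg_y hP hb hl h k
    calc om A b x k * om A b x k = |om A b x k| ^ 2 := by rw [sq_abs, sq]
      _ ≤ (P ^ 3 * lam / √n) ^ 2 := pow_le_pow_left₀ (abs_nonneg _) h2 2
      _ = P ^ 6 * lam ^ 2 / n := by rw [div_pow, hsq]; ring
  calc om A b x ⬝ᵥ om A b x ≤ ∑ _k : Fin m, P ^ 6 * lam ^ 2 / n := sum_le_sum fun k _ => h1 k
    _ = m * (P ^ 6 * lam ^ 2 / n) := by simp
    _ ≤ P * n * (P ^ 6 * lam ^ 2 / n) := mul_le_mul_of_nonneg_right hP.rat (by positivity)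
    _ = P ^ 7 * lam ^ 2 := by field_simp

theorem gg_N : m * al m n lam ^ 2 / 256 ≤ om A b x ⬝ᵥ om A b x := by
  have hm : (0 : ℝ) < m := by exact_mod_cast hP.m_pos
  have ha := hP.al_pos hl
  have h1 := h.lo.trans (h.good.opT (om A b x))
  rw [ggf_ma hP] at h1
  have h2 : (m * al m n lam / 2) ^ 2 ≤ (8 * √m * nrm (om A b x)) ^ 2 :=
    pow_le_pow_left₀ (by positivity) h1 2
  rw [mul_pow, mul_pow, Real.sq_sqrt hm.le, nrm_sq] at h2
  have h3 : m * (m * al m n lam ^ 2 / 256) ≤ m * (om A b x ⬝ᵥ om A b x) := by linarith only [h2]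
  exact le_of_mul_le_mul_left h3 hm

theorem gg_r_hi : nrm x ≤ 2 * 10 ^ 8 * min (al m n lam) 1 := by
  have hm : (0 : ℝ) < m := by exact_mod_cast hP.m_pos
  have hg : Good A (44 / 100) := h.good.mono (by norm_num)
  have h1 := hg.rad hP.m_pos hb (g1_feas h.int)
  have h2 := hg.nrm_le hP.m_pos hb (c := Aᵀ *ᵥ om A b x) ⟨h.int, rfl⟩
  have h3 := h.hi
  rw [ggf_ma hP] at h3
  have h4 : nrm x ≤ 2 * 10 ^ 8 * al m n lam := by
    refine h2.trans ?_
    rw [div_le_iff₀ hm]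
    linarith only [h3]
  rw [mul_min_of_nonneg _ _ (by norm_num : (0 : ℝ) ≤ 2 * 10 ^ 8)]
  exact le_min h4 (by linarith)

theorem gg_r_lo : min (al m n lam) 1 / (4 * P) ≤ nrm x := by
  have hc := ggf_c hP hl h
  have h1 := h.dir.trans (dot_le _ _)
  rw [mul_div_assoc] at h1
  exact le_of_mul_le_mul_left h1 hc

theorem gg_dir :
    min (al m n lam) 1 ≤ 4 * P * ((Aᵀ *ᵥ om A b x) ⬝ᵥ x / nrm (Aᵀ *ᵥ om A b x)) := by
  have hc := ggf_c hP hl h
  have hP1 := ggf_one hP
  have h1 := h.dir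
  rw [div_le_iff₀ (by positivity)] at h1
  rw [← mul_div_assoc, le_div_iff₀ hc]
  linarith

theorem gg_E_lo : m * al m n lam * min (al m n lam) 1 / (8 * P) ≤ (Aᵀ *ᵥ om A b x) ⬝ᵥ x := by
  have hP1 := ggf_one hP
  have ha := hP.al_pos hl
  have h1 := h.lo
  rw [ggf_ma hP] at h1
  refine le_trans ?_ h.dir
  have h0 : 0 ≤ min (al m n lam) 1 / (4 * P) := by positivity
  calc m * al m n lam * min (al m n lam) 1 / (8 * P)
      = m * al m n lam / 2 * (min (al m n lam) 1 / (4 * P)) := by field_simp; ring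
    _ ≤ nrm (Aᵀ *ᵥ om A b x) * (min (al m n lam) 1 / (4 * P)) := mul_le_mul_of_nonneg_right h1 h0
    _ = _ := by ring

theorem gg_E_hi : (Aᵀ *ᵥ om A b x) ⬝ᵥ x ≤ 4 * 10 ^ 8 * (m * al m n lam * min (al m n lam) 1) := by
  have ha := hP.al_pos hl
  have h3 := h.hi
  rw [ggf_ma hP] at h3
  refine (dot_le _ _).trans ?_
  calc nrm (Aᵀ *ᵥ om A b x) * nrm x
      ≤ 2 * (m * al m n lam) * (2 * 10 ^ 8 * min (al m n lam) 1) :=
        mul_le_mul h3 (gg_r_hi hP hb hl h) (nrm_nonneg _) (by positivity)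
    _ = _ := by ring

theorem gg_s_hi (k : Fin m) : slack A b x k ≤ 3 + P ^ 2 := by
  have h1 := (abs_le.1 (h.u k)).1
  have h2 : P ^ 2 * min (al m n lam) 1 ≤ P ^ 2 :=
    mul_le_of_le_one_right (sq_nonneg _) (min_le_right _ _)
  rw [slack_apply]
  linarith [(hb k).2]

theorem gg_sinv (k : Fin m) : (slack A b x k)⁻¹ ≤ 1 + P ^ 4 * al m n lam := by
  have h1 := (le_abs_self _).trans (gg_om_abs hP hb hl h k)
  have h2 : (b k)⁻¹ ≤ 1 := inv_le_one_of_one_le₀ (hb k).1
  unfold om at h1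
  linarith only [h1, h2]

theorem gg_u_lo {k : Fin m} (hk : al m n lam / P ≤ |om A b x k|) :
    min (al m n lam) 1 / (2 * P) ≤ |(A *ᵥ x) k| := by
  have hP1 := ggf_one hP
  have ha := hP.al_pos hl
  by_contra hc
  rw [not_le] at hc
  have hb0 : ∀ j, 0 < b j := fun j => lt_of_lt_of_le one_pos (hb j).1
  have e := om_eq hb0 h.int k
  have h1 : min (al m n lam) 1 / (2 * P) ≤ 1 / 2 := by
    rw [div_le_div_iff₀ (by positivity) (by norm_num)]
    linarith only [hP1, min_le_right (al m n lam) 1]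
  have h2 : 1 / 2 ≤ slack A b x k := by
    rw [slack_apply]; linarith only [hc, h1, hb, (hb k).1, le_abs_self ((A *ᵥ x) k)]
  have h3 : 1 / 2 ≤ slack A b x k * b k := by linarith only [h2, hb, (hb k).1, mul_nonneg_of_nonpos_of_nonpos (Mathlib.Tactic.Linarith.sub_nonpos_of_le h2) (Mathlib.Tactic.Linarith.sub_nonpos_of_le (hb k).left)]
  have h4 : |om A b x k| ≤ 2 * |(A *ᵥ x) k| := by
    rw [e, abs_div, abs_of_pos (by linarith only [h3] : 0 < slack A b x k * b k),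
      div_le_iff₀ (by linarith only [h3])]
    linarith only [h3, abs_nonneg ((A *ᵥ x) k), mul_nonneg_of_nonpos_of_nonpos (Mathlib.Tactic.Linarith.sub_nonpos_of_le h3) (Mathlib.Tactic.Linarith.sub_nonpos_of_le (abs_nonneg ((A *ᵥ x) k)))]
  have h5 : 2 * (min (al m n lam) 1 / (2 * P)) ≤ al m n lam / P := by
    have : 2 * (min (al m n lam) 1 / (2 * P)) = min (al m n lam) 1 / P := by field_simp
    rw [this]
    exact div_le_div_of_nonneg_right (min_le_left _ _) (by linarith only [hP1])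
  linarith only [hk, hc, h4, h5]

end General

variable {m n : ℕ} {b : Fin m → ℝ} {lam : ℝ} {p : ℝ × (Fin m → ℝ)} {G : Matrix (Fin m) (Fin n) ℝ}

variable {P : ℝ} (hP : Par m (n + 1) P) (hb : Box b) (hl : 0 < lam) (hp : Adm b p)
  (h : GG P lam b (Matrix.of (hA b lam p G)) (hx n p))
include hP hb hl hp h

theorem gg_hsig : hsig b lam p ≤ P ^ 4 := by
  have hP1 := ggf_one hP
  have h1 := gg_omsq hP hb hl h
  rw [hat_om] at h1
  have h2 : hw b p ⬝ᵥ hw b p / lam ^ 2 ≤ P ^ 7 := by rwa [div_le_iff₀ (by positivity)]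
  have h3 : (1 : ℝ) ≤ P ^ 7 := one_le_pow₀ hP1
  have h4 : (2 : ℝ) ≤ P := le_trans (by norm_num) hP.big
  refine (pow_le_pow_iff_left₀ (zero_le_one.trans one_le_hsig) (by positivity) two_ne_zero).1 ?_
  rw [hsig_sq]
  linarith only [h2, h4, hP1, h3, mul_nonneg_of_nonpos_of_nonpos (Mathlib.Tactic.Linarith.sub_nonpos_of_le hP1) (Mathlib.Tactic.Linarith.sub_nonpos_of_le h3)]

theorem gg_w (k : Fin m) :
    (hsig b lam p)⁻¹ + hth b lam p * (h0 b p ⬝ᵥ h1 b p) / (hs b p k * b k) ≤ P ^ 7 := by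
  have hP1 := ggf_one hP
  have hm : (0 : ℝ) < m := by exact_mod_cast hP.m_pos
  have ha := hP.al_pos hl
  have hb0 : ∀ j, 0 < b j := fun j => lt_of_lt_of_le one_pos (hb j).1
  have hN := gg_N hP hb hl h
  have hE := gg_E_hi hP hb hl h
  have hs := gg_sinv hP hb hl h k
  rw [hat_om] at hN
  rw [← h0_dot_h1 hb0 hp] at hE
  rw [hat_slack] at hs
  have ht := hat_theta_w (b := b) (p := p) hl
  have ht0 := hth_pos (b := b) (p := p) hl
  have hσ : (hsig b lam p)⁻¹ ≤ 1 := inv_le_one_of_one_le₀ one_le_hsig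
  have hσ0 : 0 ≤ (hsig b lam p)⁻¹ := inv_nonneg.2 (zero_le_one.trans one_le_hsig)
  set α := al m (n + 1) lam
  set a := min α 1
  have ha0 : 0 ≤ a := le_min ha.le zero_le_one
  have ha1 : a ≤ α := min_le_left _ _
  have ha2 : a ≤ 1 := min_le_right _ _
  have h1 : hth b lam p * (m * α ^ 2 / 256) ≤ 1 :=
    (mul_le_mul_of_nonneg_left hN ht0.le).trans (by linarith only [ht, hσ0])
  have h2 : hth b lam p * (m * α) ≤ 256 / α := by
    rw [le_div_iff₀ ha]; linarith only [h1]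
  have h3 : hth b lam p * (h0 b p ⬝ᵥ Pool.Agent.Work.MP_6af739_lc.h1 b p) ≤ 4 * 10 ^ 8 * (256 / α * a) := by
    calc hth b lam p * (h0 b p ⬝ᵥ Pool.Agent.Work.MP_6af739_lc.h1 b p) ≤ hth b lam p * (4 * 10 ^ 8 * (m * α * a)) :=
          mul_le_mul_of_nonneg_left hE ht0.le
      _ = 4 * 10 ^ 8 * (hth b lam p * (m * α) * a) := by ring
      _ ≤ _ := by gcongr
  have h4 : (Pool.Agent.Work.MP_6af739_lc.hs b p k * b k)⁻¹ ≤ 1 + P ^ 4 * α := by
    rw [mul_inv]
    exact (mul_le_of_le_one_right (inv_nonneg.2 (hp.2 k).le)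
      (inv_le_one_of_one_le₀ (hb k).1)).trans hs
  have h5 : hth b lam p * (h0 b p ⬝ᵥ Pool.Agent.Work.MP_6af739_lc.h1 b p) / (Pool.Agent.Work.MP_6af739_lc.hs b p k * b k) ≤
      4 * 10 ^ 8 * (256 / α * a) * (1 + P ^ 4 * α) := by
    rw [div_eq_mul_inv]
    exact mul_le_mul h3 h4 (inv_nonneg.2 (mul_pos (hp.2 k) (hb0 k)).le) (by positivity)
  have h6 : 4 * 10 ^ 8 * (256 / α * a) * (1 + P ^ 4 * α) =
      4 * 10 ^ 8 * 256 * (a / α + P ^ 4 * a) := by field_simp
  have h7 : a / α ≤ 1 := (div_le_one ha).2 ha1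
  have h8 : P ^ 4 * a ≤ P ^ 4 := mul_le_of_le_one_right (by positivity) ha2
  have h9 : (1 : ℝ) ≤ P ^ 4 := one_le_pow₀ hP1
  have h10 : (10 : ℝ) ^ 20 ≤ P ^ 3 := hP.big.trans (le_self_pow₀ hP1 (by norm_num))
  have h11 : 10 ^ 20 * P ^ 4 ≤ P ^ 7 := by
    calc 10 ^ 20 * P ^ 4 ≤ P ^ 3 * P ^ 4 := mul_le_mul_of_nonneg_right h10 (by positivity)
      _ = P ^ 7 := by ring
  linarith only [hσ, h5, h6, h7, h8, h9, h11]

theorem gg_h1 (k : Fin m) : |h1 b p k| ≤ P ^ 5 * al m (n + 1) lam := by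
  have hP1 := ggf_one hP
  have ha := hP.al_pos hl
  have hb0 : ∀ j, 0 < b j := fun j => lt_of_lt_of_le one_pos (hb j).1
  have e1 := gg_om_abs hP hb hl h k
  rw [hat_om, ← hat_h0_div hb0 hp] at e1
  have e2 : h1 b p k = h0 b p k / hs b p k * b k := by
    have := (hb0 k).ne'
    have := (hp.2 k).ne'
    unfold h1 h0
    field_simp
  have e3 : (3 : ℝ) ≤ P := le_trans (by norm_num) hP.big
  rw [e2, abs_mul, abs_of_pos (hb0 k)]
  calc |h0 b p k / hs b p k| * b k ≤ P ^ 4 * al m (n + 1) lam * P :=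
        mul_le_mul e1 ((hb k).2.trans e3) (hb0 k).le (by positivity)
    _ = _ := by ring

theorem gg_hpsi (k : Fin m) : |hpsi b lam p k| ≤ P ^ 12 * al m (n + 1) lam := by
  have hP1 := ggf_one hP
  have ha := hP.al_pos hl
  have hm : (0 : ℝ) < m := by exact_mod_cast hP.m_pos
  have hb0 : ∀ j, 0 < b j := fun j => lt_of_lt_of_le one_pos (hb j).1
  have hE := gg_E_lo hP hb hl h
  rw [← h0_dot_h1 hb0 hp] at hE
  have hE0 : 0 ≤ h0 b p ⬝ᵥ h1 b p := le_trans (by positivity) hE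
  have ht0 := hth_pos (b := b) (p := p) hl
  have hσ0 : 0 ≤ (hsig b lam p)⁻¹ := inv_nonneg.2 (zero_le_one.trans one_le_hsig)
  have e0 : 0 ≤ (hsig b lam p)⁻¹ + hth b lam p * (h0 b p ⬝ᵥ h1 b p) / (hs b p k * b k) :=
    add_nonneg hσ0 (div_nonneg (mul_nonneg ht0.le hE0) (mul_pos (hp.2 k) (hb0 k)).le)
  rw [hpsi_apply hb0 hp, abs_mul, abs_of_nonneg e0]
  calc _ ≤ P ^ 7 * (P ^ 5 * al m (n + 1) lam) :=
        mul_le_mul (gg_w hP hb hl hp h k) (gg_h1 hP hb hl hp h k) (abs_nonneg _) (by positivity)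
    _ = _ := by ring

end Pool.Agent.Work.MP_6af739_lc
end

-- merged part: Pool.Agent.Work.MP_6af739_lc.PL1
section
/-!
Integrals against the measure of the master formula. Apply the second part of MasterP to F = 1,
F = indicator of not GG (gg_rot, measurableSet_gg, not_gg_le), F = indicator of GG times phi1 or times the
trace (phi1_rot, trace_inv_hess_rot). II_bad: badK_le inside the integral over p, lintegral_const_mul',
II_one. II_phi1: on Dom and GG, Aᵀ om = lam • c (X_sol), so lam • c ≠ 0 and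
nrm (lam • c) ≤ 2 lam √(n+1) (GG.lo, GG.hi); bound the integrand by the indicator of this condition on c
times the integrand of stein_phi1, use lintegral_prod_symm, and m P + 10^11 m ≤ 2 P m. II_trace:
lintegral_prod, Good.mono, stein_trace. II_add and II_const_mul: lintegral_add_left,
Measurable.lintegral_prod_right'.
-/

namespace Pool.Agent.Work.MP_6af739_lc

open Matrix Finset MeasureTheory ProbabilityTheory
open Pool.Agent.Work.MP_6a50bc_pr
open Pool.Agent.Work.MP_5c5849_an (sg av)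
open scoped ENNReal

variable {m n : ℕ} {b : Fin m → ℝ} {lam P : ℝ} {ν : Measure (ℝ × (Fin m → ℝ))}

theorem II_mono (hν : MasterP n b lam ν) {Φ Ψ : (ℝ × (Fin m → ℝ)) × (Fin m → Fin n → ℝ) → ℝ≥0∞}
    (h : ∀ z, Adm b z.1 → Φ z ≤ Ψ z) : II b lam ν Φ ≤ II b lam ν Ψ := by
  exact lintegral_mono_ae (hν.1.mono fun p hp => lintegral_mono fun a =>
    mul_le_mul_left (h (p, a) hp) _)

theorem PL1_W {Φ : (ℝ × (Fin m → ℝ)) × (Fin m → Fin n → ℝ) → ℝ≥0∞} (hΦ : Measurable Φ) :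
    Measurable fun z : (ℝ × (Fin m → ℝ)) × (Fin m → Fin n → ℝ) =>
      Φ z * ENNReal.ofReal (hdet b lam z.1 (Matrix.of z.2)) :=
  hΦ.mul (measurable_hdet b lam measurable_fst measurable_snd).ennreal_ofReal

theorem II_add {Φ Ψ : (ℝ × (Fin m → ℝ)) × (Fin m → Fin n → ℝ) → ℝ≥0∞} (hΦ : Measurable Φ) :
    II b lam ν (fun z => Φ z + Ψ z) = II b lam ν Φ + II b lam ν Ψ := by
  simp only [II, add_mul]
  rw [← lintegral_add_left (PL1_W hΦ).lintegral_prod_right']
  exact lintegral_congr fun p => lintegral_add_left ((PL1_W hΦ).comp measurable_prodMk_left) _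

theorem II_const_mul {Φ : (ℝ × (Fin m → ℝ)) × (Fin m → Fin n → ℝ) → ℝ≥0∞} (t : ℝ) :
    II b lam ν (fun z => ENNReal.ofReal t * Φ z) = ENNReal.ofReal t * II b lam ν Φ := by
  simp only [II, mul_assoc, lintegral_const_mul' _ _ ENNReal.ofReal_ne_top]

theorem II_sum {Φ : Fin m → (ℝ × (Fin m → ℝ)) × (Fin m → Fin n → ℝ) → ℝ≥0∞}
    (hΦ : ∀ k, Measurable (Φ k)) :
    II b lam ν (fun z => ∑ k, Φ k z) = ∑ k, II b lam ν (Φ k) := by
  simp only [II, Finset.sum_mul]
  rw [← lintegral_finsetSum _ fun k _ => (PL1_W (hΦ k)).lintegral_prod_right']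
  exact lintegral_congr fun p => lintegral_finsetSum _ fun k _ =>
    (PL1_W (hΦ k)).comp measurable_prodMk_left

theorem measurableSet_GGs (n : ℕ) (P lam : ℝ) (b : Fin m → ℝ) : MeasurableSet (GGs n P lam b) := by
  exact measurableSet_gg b (measurable_hA b lam measurable_fst measurable_snd)
    (measurable_hx measurable_fst) P lam

theorem PL1_le (hν : MasterP n b lam ν)
    {F : (Fin m → Fin (n + 1) → ℝ) × (Fin (n + 1) → ℝ) → ℝ≥0∞} (hF : Measurable F) (hI : Invar F) :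
    II b lam ν (fun z => F (hA b lam z.1 (Matrix.of z.2), hx n z.1)) ≤
      ∫⁻ q, F (q.1, X (Matrix.of q.1) b (lam • q.2))
        ∂((gm (Fin m) (Fin (n + 1))).prod (gv (Fin (n + 1)))) :=
  (hν.2 F hF hI).ge.trans (lintegral_mono fun q => Set.indicator_le_self _ _ q)

/-- a rotation invariant quantity on the good event -/
theorem PL1_gg (hν : MasterP n b lam ν)
    {φ : Matrix (Fin m) (Fin (n + 1)) ℝ → (Fin (n + 1) → ℝ) → ℝ}
    (hφ : Measurable fun q : (Fin m → Fin (n + 1) → ℝ) × (Fin (n + 1) → ℝ) => φ (Matrix.of q.1) q.2)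
    (hI : ∀ O, Orth O → ∀ A x, φ (A * O) (Oᵀ *ᵥ x) = φ A x) :
    II b lam ν ((GGs n P lam b).indicator fun z =>
      ENNReal.ofReal (φ (Matrix.of (hA b lam z.1 (Matrix.of z.2))) (hx n z.1))) ≤
      ∫⁻ q, {q : (Fin m → Fin (n + 1) → ℝ) × (Fin (n + 1) → ℝ) |
          Dom (Matrix.of q.1) b (lam • q.2) ∧
            GG P lam b (Matrix.of q.1) (X (Matrix.of q.1) b (lam • q.2))}.indicator
          (fun q => ENNReal.ofReal (φ (Matrix.of q.1) (X (Matrix.of q.1) b (lam • q.2)))) q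
        ∂((gm (Fin m) (Fin (n + 1))).prod (gv (Fin (n + 1)))) := by
  classical
  refine (hν.2 ({q | GG P lam b (Matrix.of q.1) q.2}.indicator fun q =>
    ENNReal.ofReal (φ (Matrix.of q.1) q.2))
    (hφ.ennreal_ofReal.indicator (measurableSet_gg b measurable_fst measurable_snd P lam))
    fun O hO a x => ?_).ge.trans (lintegral_mono fun q => ?_)
  · simp only [Set.indicator_apply, Set.mem_ofPred_eq, of_rot, gg_rot hO, hI O hO]
  · simp only [Set.indicator_apply, Set.mem_ofPred_eq, ite_and, le_refl]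

theorem II_one (hν : MasterP n b lam ν) :
    II b lam ν (fun _ : (ℝ × (Fin m → ℝ)) × (Fin m → Fin n → ℝ) => 1) ≤ 1 := by
  exact (PL1_le hν (F := fun _ => 1) measurable_const fun _ _ _ _ => rfl).trans (by simp)

theorem II_notGG (hν : MasterP n b lam ν) (hP : Par m (n + 1) P) (hb : Box b) (hl : 0 < lam) :
    II b lam ν ((GGs n P lam b)ᶜ.indicator 1) ≤ ENNReal.ofReal (1 / m) := by
  classical
  refine (PL1_le hν (F := {q | ¬GG P lam b (Matrix.of q.1) q.2}.indicator 1)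
    (measurable_one.indicator (measurableSet_gg b measurable_fst measurable_snd P lam).compl)
    fun O hO a x => ?_).trans ((lintegral_indicator_one_le _).trans (not_gg_le hP hb hl))
  simp only [Set.indicator_apply, Set.mem_ofPred_eq, of_rot, gg_rot hO, Pi.one_apply]

theorem II_bad (hν : MasterP n b lam ν) (hP : 10 ≤ P) (k : Fin m) :
    II b lam ν ({z : (ℝ × (Fin m → ℝ)) × (Fin m → Fin n → ℝ) |
      BadK b z.1 (Matrix.of z.2) P k}.indicator 1) ≤ ENNReal.ofReal (Real.exp (-P)) := by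
  refine (lintegral_mono fun p => badK_le (p := p) hP k).trans ?_
  rw [lintegral_const_mul' _ _ ENNReal.ofReal_ne_top]
  refine mul_le_of_le_one_right' (le_trans (le_of_eq ?_) (II_one hν))
  simp only [II, one_mul]

theorem PL1_bd {α β : Type} [MeasurableSpace α] [MeasurableSpace β] {μ : Measure α}
    [IsProbabilityMeasure μ] {μ' : Measure β} [SFinite μ'] {f : α × β → ℝ≥0∞} {K : ℝ≥0∞}
    (h : ∀ x, ∫⁻ y, f (x, y) ∂μ' ≤ K) : ∫⁻ z, f z ∂μ.prod μ' ≤ K :=
  (lintegral_prod_le f).trans ((lintegral_mono h).trans (by simp))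

theorem II_phi1 (hν : MasterP n b lam ν) (hP : Par m (n + 1) P) (hb : Box b) (hl : 0 < lam)
    (hlog : Real.log (3 + 3600 * (lam * √(n + 1 : ℕ))) ≤ P) :
    II b lam ν ((GGs n P lam b).indicator fun z =>
      ENNReal.ofReal (phi1 (Matrix.of (hA b lam z.1 (Matrix.of z.2))) b (hx n z.1))) ≤
      ENNReal.ofReal (2 * P * m) := by
  refine (PL1_gg hν (φ := fun A x => phi1 A b x) (measurable_phi1 b measurable_fst measurable_snd)
    fun O hO A x => phi1_rot hO x).trans ?_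
  rw [← lintegral_prod_swap]
  refine PL1_bd fun c => ?_
  by_cases hc : lam • c ≠ 0 ∧ nrm (lam • c) ≤ 2 * (lam * √(n + 1 : ℕ))
  · refine le_trans (lintegral_mono fun a => Set.indicator_apply_le' (fun h => ?_) fun _ => zero_le)
      ((stein_phi1 hP.le_m (by have := hP.mn; omega) hb hc.1).trans (ENNReal.ofReal_le_ofReal ?_))
    · rw [Set.indicator_of_mem (s := {a | Good (Matrix.of a) (45 / 100)}) (a := a) h.2.good]
      rfl
    · have h2 : Real.log (3 + 1800 * nrm (lam • c)) ≤ P := (Real.log_le_log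
        (by have := nrm_nonneg (lam • c); positivity) (by linarith only [hc, hc.2])).trans hlog
      have h3 := mul_le_mul_of_nonneg_left h2 (Nat.cast_nonneg m)
      have h4 := mul_le_mul_of_nonneg_right hP.big (Nat.cast_nonneg m)
      have h5 : (0 : ℝ) ≤ m := Nat.cast_nonneg m
      linarith
  · refine le_trans (lintegral_mono (g := fun _ => 0) fun a =>
      (Set.indicator_of_notMem (fun h => hc ?_) _).le) (by simp)
    have e : _ = lam • c := (X_sol h.1).2
    exact ⟨fun h0 => (ggf_c hP hl h.2).ne' (nrm_eq_zero.2 (e.trans h0)), e ▸ h.2.hi⟩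

theorem II_trace (hν : MasterP n b lam ν) (hP : Par m (n + 1) P) (hb : Box b) (hl : 0 < lam) :
    II b lam ν ((GGs n P lam b).indicator fun z =>
      ENNReal.ofReal (hess (Matrix.of (hA b lam z.1 (Matrix.of z.2))) b (hx n z.1))⁻¹.trace) ≤
      ENNReal.ofReal (10 ^ 8 * √(n + 1 : ℕ) * min (al m (n + 1) lam) 1 / lam) := by
  refine (PL1_gg hν (φ := fun A x => (hess A b x)⁻¹.trace)
    (measurable_trace_inv_hess b measurable_fst measurable_snd)
    fun O hO A x => trace_inv_hess_rot hO x).trans (PL1_bd fun a => ?_)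
  by_cases ha : Good (Matrix.of a) (44 / 100)
  · exact (lintegral_mono fun c => Set.indicator_le_self _ _ (a, c)).trans
      (stein_trace hP.m_pos ha hb hl)
  · exact le_trans (lintegral_mono (g := fun _ => 0) fun c =>
      (Set.indicator_of_notMem (fun h => ha (h.2.good.mono (by norm_num))) _).le) (by simp)

end Pool.Agent.Work.MP_6af739_lc
end

-- merged part: Pool.Agent.Work.MP_6af739_lc.TraceL
section
/-!
Trace of inverses of two forms that agree on a subspace of codimension two. Y = X⁻¹ is symmetric with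
0 ≤ e · Y e ≤ |e|^2/μ. By Gram-Schmidt choose η1, η2, each a unit vector or zero, orthogonal, whose span
contains Y φ1 and Y φ2; Pr = 1 - η1 η1ᵀ - η2 η2ᵀ is IsProj. tr Y = tr (Y Pr) + η1·Yη1 + η2·Yη2 and
tr (Y Pr) = tr (Pr Y Pr) = sum_i e·Y e over e = Pr e_i. For such e, z = Y e is orthogonal to φ1, φ2, so
e·Ye = 2 e·z - z·Xz = 2 e'·z' - z'·H z' ≤ e'·H⁻¹ e' with e' = cons 0 e, z' = cons 0 z (complete the
square). The sum of e'·K e' is tr (K' Pr) for the lower right block K' of K = H⁻¹, which is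
tr K' - η1·K'η1 - η2·K'η2 ≤ tr K' ≤ tr K.
-/

namespace Pool.Agent.Work.MP_6af739_lc

open Matrix Finset MeasureTheory ProbabilityTheory
open Pool.Agent.Work.MP_6a50bc_pr
open Pool.Agent.Work.MP_5c5849_an (sg av)
open scoped ENNReal

lemma traceL_sum {ι : Type*} [Fintype ι] {P : Matrix ι ι ℝ} (h : IsProj P) (Y : Matrix ι ι ℝ) :
    ∑ i, P i ⬝ᵥ Y *ᵥ P i = (Y * P).trace := by
  have : ∑ i, P i ⬝ᵥ Y *ᵥ P i = (P * (Y * Pᵀ)).trace := by
    simp only [trace, diag_apply, mul_apply, transpose_apply, dotProduct, mulVec]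
  rw [this, h.symm, trace_mul_comm, Matrix.mul_assoc, h.idem]

lemma traceL_add {ι : Type*} [Fintype ι] {Q : Matrix ι ι ℝ} (h : IsProj Q) (v : ι → ℝ) :
    ∃ R : Matrix ι ι ℝ, IsProj R ∧ R.trace ≤ Q.trace + 1 ∧ R *ᵥ v = v ∧
      ∀ u, Q *ᵥ u = u → R *ᵥ u = u := by
  by_cases hw : co Q v = 0
  · exact ⟨Q, h, by linarith, (sub_eq_zero.1 hw).symm, fun _ k => k⟩
  have h0 := (dot_self_pos hw).ne'
  have h1 := h.mulVec_co v
  have h2 : co Q v ᵥ* Q = 0 := by rw [← mulVec_transpose, h.symm, h1]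
  have h3 := h.co_dot_co v v
  refine ⟨Q + (co Q v ⬝ᵥ co Q v)⁻¹ • vecMulVec (co Q v) (co Q v), ⟨?_, ?_⟩, ?_, ?_, fun u k => ?_⟩
  · rw [transpose_add, transpose_smul, transpose_vecMulVec, h.symm]
  · rw [Matrix.add_mul, Matrix.mul_add, Matrix.mul_add, h.idem, Matrix.mul_smul, Matrix.smul_mul,
      Matrix.smul_mul, Matrix.mul_smul, mul_vecMulVec, vecMulVec_mul, h1, h2,
      vecMulVec_mul_vecMulVec, vecMulVec_smul, smul_smul, smul_smul, mul_assoc,
      inv_mul_cancel₀ h0]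
    simp
  · rw [trace_add, trace_smul, trace_vecMulVec, smul_eq_mul, inv_mul_cancel₀ h0]
  · rw [add_mulVec, smul_mulVec, vecMulVec_mulVec, op_smul_eq_smul, smul_smul,
      dotProduct_comm _ v, ← h3, inv_mul_cancel₀ h0, one_smul, co, add_sub_cancel]
  · have h4 : co Q v ⬝ᵥ u = 0 := by rw [← k, dotProduct_comm, h.dot_co]
    rw [add_mulVec, smul_mulVec, vecMulVec_mulVec, op_smul_eq_smul, h4, zero_smul, smul_zero,
      add_zero, k]

lemma traceL_sq {ι : Type*} [Fintype ι] [DecidableEq ι] {H : Matrix ι ι ℝ} (hH : H.PosSemidef)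
    (hd : H.det ≠ 0) (e z : ι → ℝ) : 2 * (e ⬝ᵥ z) - z ⬝ᵥ H *ᵥ z ≤ e ⬝ᵥ H⁻¹ *ᵥ e := by
  have h1 : Hᵀ = H := by simpa using hH.1.eq
  have h2 : H *ᵥ (H⁻¹ *ᵥ e) = e := by rw [mulVec_mulVec, mul_nonsing_inv _ hd.isUnit, one_mulVec]
  have h3 : H⁻¹ *ᵥ e ⬝ᵥ H *ᵥ z = e ⬝ᵥ z := by
    rw [dotProduct_mulVec, ← mulVec_transpose, h1, h2]
  have h4 := hH.dotProduct_mulVec_nonneg (z - H⁻¹ *ᵥ e)
  rw [star_trivial, mulVec_sub, h2, sub_dotProduct, dotProduct_sub, dotProduct_sub, h3,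
    dotProduct_comm z e, dotProduct_comm _ e] at h4
  linarith only [h4]

lemma traceL_cons {n : ℕ} (K : Matrix (Fin (n + 1)) (Fin (n + 1)) ℝ) (e : Fin n → ℝ) :
    (Fin.cons 0 e : Fin (n + 1) → ℝ) ⬝ᵥ K *ᵥ Fin.cons 0 e =
      e ⬝ᵥ K.submatrix Fin.succ Fin.succ *ᵥ e := by
  simp [dotProduct, mulVec, Fin.sum_univ_succ]

theorem trace_inv_le {n : ℕ} {Xm : Matrix (Fin n) (Fin n) ℝ} {H : Matrix (Fin (n + 1)) (Fin (n + 1)) ℝ}
    (hX : Xmᵀ = Xm) {μ : ℝ} (hμ : 0 < μ) (hlow : ∀ z, μ * (z ⬝ᵥ z) ≤ z ⬝ᵥ Xm *ᵥ z)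
    (hH : H.PosSemidef) (hd : H.det ≠ 0) (φ₁ φ₂ : Fin n → ℝ)
    (h : ∀ z, φ₁ ⬝ᵥ z = 0 → φ₂ ⬝ᵥ z = 0 →
      z ⬝ᵥ Xm *ᵥ z = (Fin.cons 0 z : Fin (n + 1) → ℝ) ⬝ᵥ H *ᵥ Fin.cons 0 z) :
    Xm.det ≠ 0 ∧ Xm⁻¹.trace ≤ H⁻¹.trace + 2 / μ := by
  have hdX : Xm.det ≠ 0 := fun h0 => by
    obtain ⟨z, hz, h1⟩ := exists_mulVec_eq_zero_iff.2 h0
    have h2 := hlow z
    rw [h1, dotProduct_zero] at h2
    exact h2.not_gt (mul_pos hμ (dot_self_pos hz))
  refine ⟨hdX, ?_⟩
  have a1 : ∀ e, Xm *ᵥ (Xm⁻¹ *ᵥ e) = e := fun e => by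
    rw [mulVec_mulVec, mul_nonsing_inv _ hdX.isUnit, one_mulVec]
  have a2 : ∀ e, e ⬝ᵥ Xm⁻¹ *ᵥ e ≤ μ⁻¹ * (e ⬝ᵥ e) := fun e => by
    have b1 := hlow (Xm⁻¹ *ᵥ e)
    have b2 := dot_self_nonneg (e - μ • Xm⁻¹ *ᵥ e)
    rw [a1, dotProduct_comm _ e] at b1
    simp only [sub_dotProduct, dotProduct_sub, smul_dotProduct, dotProduct_smul, smul_eq_mul,
      dotProduct_comm (Xm⁻¹ *ᵥ e) e] at b2
    rw [le_inv_mul_iff₀ hμ]
    linarith only [b2, b1, hμ, mul_le_mul_of_nonneg_left b1 hμ.le]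
  obtain ⟨Q₁, q1, q2, q3, -⟩ := traceL_add (Q := 0) ⟨by simp, by simp⟩ (Xm⁻¹ *ᵥ φ₁)
  obtain ⟨Q, r1, r2, r3, r4⟩ := traceL_add q1 (Xm⁻¹ *ᵥ φ₂)
  rw [trace_zero] at q2
  have a3 : ∀ φ, Q *ᵥ (Xm⁻¹ *ᵥ φ) = Xm⁻¹ *ᵥ φ → ∀ i, φ ⬝ᵥ Xm⁻¹ *ᵥ (1 - Q) i = 0 := fun φ k i => by
    have : ((1 - Q) *ᵥ (Xm⁻¹ *ᵥ φ)) i = 0 := by rw [sub_mulVec, one_mulVec, k, sub_self]; rfl
    rw [dotProduct_mulVec, ← mulVec_transpose, transpose_nonsing_inv, hX, dotProduct_comm]
    exact this
  have a4 : (Xm⁻¹ * Q).trace ≤ 2 / μ := by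
    rw [← traceL_sum r1]
    refine (sum_le_sum fun i _ => a2 (Q i)).trans ?_
    have := traceL_sum r1 1
    simp only [one_mulVec, Matrix.one_mul] at this
    rw [← mul_sum, this, div_eq_inv_mul]
    exact mul_le_mul_of_nonneg_left (by linarith) (inv_pos.2 hμ).le
  have a5 : (Xm⁻¹ * (1 - Q)).trace ≤ (H⁻¹.submatrix Fin.succ Fin.succ * (1 - Q)).trace := by
    rw [← traceL_sum r1.one_sub, ← traceL_sum r1.one_sub]
    refine sum_le_sum fun i _ => ?_
    have b1 := h _ (a3 φ₁ (r4 _ q3) i) (a3 φ₂ r3 i)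
    have b2 := traceL_sq hH hd (Fin.cons 0 ((1 - Q) i)) (Fin.cons 0 (Xm⁻¹ *ᵥ (1 - Q) i))
    have b3 : (Fin.cons 0 ((1 - Q) i) : Fin (n + 1) → ℝ) ⬝ᵥ Fin.cons 0 (Xm⁻¹ *ᵥ (1 - Q) i) =
        (1 - Q) i ⬝ᵥ Xm⁻¹ *ᵥ (1 - Q) i := by
      simp only [dotProduct, Fin.sum_univ_succ, Fin.cons_zero, Fin.cons_succ, zero_mul, zero_add]
    rw [← b1, a1, b3, traceL_cons, dotProduct_comm (Xm⁻¹ *ᵥ (1 - Q) i)] at b2
    linarith only [b2]
  have a6 : ∀ e, 0 ≤ e ⬝ᵥ H⁻¹ *ᵥ e := fun e => by simpa using traceL_sq hH hd e 0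
  have a7 : 0 ≤ (H⁻¹.submatrix Fin.succ Fin.succ * Q).trace := by
    rw [← traceL_sum r1]
    exact sum_nonneg fun i _ => (a6 _).trans_eq (traceL_cons _ _)
  have a8 : H⁻¹.trace = H⁻¹ 0 0 + (H⁻¹.submatrix Fin.succ Fin.succ).trace := by
    simp [trace, Fin.sum_univ_succ]
  have a9 : 0 ≤ H⁻¹ 0 0 := by simpa using a6 (Pi.single 0 1)
  rw [Matrix.mul_sub, Matrix.mul_sub, trace_sub, trace_sub, Matrix.mul_one, Matrix.mul_one] at a5
  linarith only [a4, a5, a7, a8, a9]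

end Pool.Agent.Work.MP_6af739_lc
end

-- merged part: Pool.Agent.Work.MP_6af739_lc.PiDiag
section
/-!
Diagonal entries of projections.
one_sub_proj_diag: X = Xk + g gᵀ with g = M k, z = Xk⁻¹ g, t = g·z ≥ 0, X z = (1+t) g; M is injective
since zr M k is, so X⁻¹ g = z/(1+t) and proj M k k = g · X⁻¹ g = t/(1+t).
Let g0 = P v0, a = v0·g0 = g0·g0, P0 = P - a⁻¹ • g0 g0ᵀ (P0 = P if g0 = 0). P0 is IsProj, P P0 = P0,
v0ᵀ P0 = 0, tr P0 ≥ tr P - 1, P0 k k ≤ P k k.
nu0_le: Q P0 = P0 columnwise by hypothesis, so Q - P0 is IsProj with trace ≤ 2. With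
d_k = max 0 (Q k k - P k k): 0 ≤ d_k ≤ 1 - P k k, d_k ≤ (Q - P0) k k, sum d ≤ 2, and
sum d ψ v0 ≤ U sum d |ψ| ≤ U √(sum d) √(sum d ψ^2).
a0_ge: sum_k P0 k k v0_k^2 = sum_i sum_k (v0_k P0 k i)^2 ≥ κ0 sum_i |P0 e_i|^2 = κ0 tr P0.
-/

namespace Pool.Agent.Work.MP_6af739_lc

open Matrix Finset MeasureTheory ProbabilityTheory
open Pool.Agent.Work.MP_6a50bc_pr
open Pool.Agent.Work.MP_5c5849_an (sg av)
open scoped ENNReal

variable {m n : ℕ}

theorem one_sub_proj_diag {M : Matrix (Fin m) (Fin n) ℝ} {k : Fin m}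
    (h : ((zr M k)ᵀ * zr M k).det ≠ 0) :
    0 ≤ M k ⬝ᵥ ((zr M k)ᵀ * zr M k)⁻¹ *ᵥ M k ∧
      (1 - proj M k k) * (1 + M k ⬝ᵥ ((zr M k)ᵀ * zr M k)⁻¹ *ᵥ M k) = 1 := by
  have hX : Mᵀ * M = (zr M k)ᵀ * zr M k + vecMulVec (M k) (M k) := by
    ext a b
    have h1 : ∀ j, M j a * M j b =
        zr M k j a * zr M k j b + if j = k then M k a * M k b else 0 := fun j => by
      by_cases hj : j = k
      · subst hj
        simp [zr]
      · simp [zr, hj]
    simp only [mul_apply, transpose_apply, Matrix.add_apply, vecMulVec_apply]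
    rw [sum_congr rfl fun j _ => h1 j, sum_add_distrib, sum_ite_eq', if_pos (mem_univ _)]
  have hI : Inj M := fun z hz => inj_of_det h z (by
    ext j
    by_cases hj : j = k
    · subst hj
      simp [zr, mulVec]
    · simpa [zr, mulVec, hj] using congrFun hz j)
  have hd := hI.det_ne_zero
  obtain ⟨z, hz⟩ : ∃ z, z = ((zr M k)ᵀ * zr M k)⁻¹ *ᵥ M k := ⟨_, rfl⟩
  have h2 : ((zr M k)ᵀ * zr M k) *ᵥ z = M k := by
    rw [hz, mulVec_mulVec, mul_nonsing_inv _ (Ne.isUnit h), one_mulVec]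
  rw [← hz]
  have h3 : 0 ≤ M k ⬝ᵥ z := by
    rw [← h2, dotProduct_comm, dot_gram]
    exact sum_nonneg fun j _ => mul_self_nonneg _
  have h4 : (Mᵀ * M) *ᵥ z = (1 + M k ⬝ᵥ z) • M k := by
    rw [hX, add_mulVec, h2, vecMulVec_mulVec, add_smul, one_smul]
    simp
  have h5 : z = (1 + M k ⬝ᵥ z) • (Mᵀ * M)⁻¹ *ᵥ M k := by
    rw [← mulVec_smul, ← h4, mulVec_mulVec, nonsing_inv_mul _ (Ne.isUnit hd), one_mulVec]
  have h6 : proj M k k = M k ⬝ᵥ (Mᵀ * M)⁻¹ *ᵥ M k := by
    rw [proj, Matrix.mul_assoc, dotProduct_mulVec]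
    simp only [mul_apply, transpose_apply, dotProduct, vecMul, mul_sum, sum_mul, mul_assoc]
    exact sum_comm
  have h7 : M k ⬝ᵥ z = (1 + M k ⬝ᵥ z) * proj M k k := by
    rw [h6, ← smul_eq_mul, ← dotProduct_smul, ← h5]
  refine ⟨h3, ?_⟩
  linarith only [h7]

theorem PiDiag_exists {P : Matrix (Fin m) (Fin m) ℝ} (hP : IsProj P) (v0 : Fin m → ℝ) :
    ∃ P0 : Matrix (Fin m) (Fin m) ℝ, IsProj P0 ∧ (∀ i, P *ᵥ (fun k => P0 k i) = fun k => P0 k i) ∧
      (∀ i, v0 ⬝ᵥ (fun k => P0 k i) = 0) ∧ P.trace - 1 ≤ P0.trace ∧ ∀ k, P0 k k ≤ P k k := by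
  obtain ⟨g, hg⟩ : ∃ g, g = P *ᵥ v0 := ⟨_, rfl⟩
  obtain ⟨a, ha⟩ : ∃ a, a = g ⬝ᵥ g := ⟨_, rfl⟩
  have h1 : P *ᵥ g = g := by rw [hg, hP.mulVec_idem]
  have h2 : g ᵥ* P = g := by rw [← mulVec_transpose, hP.symm, h1]
  have h3 : P * vecMulVec g g = vecMulVec g g := by rw [mul_vecMulVec, h1]
  have h4 : vecMulVec g g * P = vecMulVec g g := by rw [vecMulVec_mul, h2]
  have h5 : vecMulVec g g * vecMulVec g g = a • vecMulVec g g := by
    rw [vecMulVec_mul_vecMulVec, ← ha, vecMulVec_smul]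
  have h6 : a⁻¹ * (a⁻¹ * a) = a⁻¹ := by
    by_cases h : a = 0
    · simp [h]
    · rw [inv_mul_cancel₀ h, mul_one]
  have h7 : P * (P - a⁻¹ • vecMulVec g g) = P - a⁻¹ • vecMulVec g g := by
    rw [Matrix.mul_sub, Matrix.mul_smul, hP.idem, h3]
  have h8 : 0 ≤ a := ha ▸ sum_nonneg fun j _ => mul_self_nonneg _
  have h9 : v0 ⬝ᵥ g = a := by rw [ha, hg, ← hP.dot_eq]
  refine ⟨P - a⁻¹ • vecMulVec g g, ⟨?_, ?_⟩, fun i => ?_, fun i => ?_, ?_, fun k => ?_⟩
  · rw [transpose_sub, transpose_smul, transpose_vecMulVec, hP.symm]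
  · rw [Matrix.sub_mul, h7, Matrix.smul_mul, Matrix.mul_sub, Matrix.mul_smul, h4, h5, smul_sub,
      smul_smul, smul_smul, mul_assoc, h6, sub_self, sub_zero]
  · ext k
    exact congrFun (congrFun h7 k) i
  · have h10 : v0 ⬝ᵥ (fun k => (P - a⁻¹ • vecMulVec g g) k i) = g i - a⁻¹ * a * g i := by
      have h11 : ∑ k, v0 k * P k i = g i := by
        rw [hg]
        exact sum_congr rfl fun k _ => by rw [hP.apply_symm k i, mul_comm]
      have h12 : ∑ k, v0 k * (a⁻¹ * (g k * g i)) = a⁻¹ * (v0 ⬝ᵥ g) * g i := by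
        rw [dotProduct, mul_sum, sum_mul]
        exact sum_congr rfl fun k _ => by ring
      rw [h9] at h12
      simp only [dotProduct, Matrix.sub_apply, Matrix.smul_apply, vecMulVec_apply, smul_eq_mul,
        mul_sub, sum_sub_distrib]
      rw [h11, h12]
    rw [h10]
    by_cases h : a = 0
    · rw [dotProduct_self_eq_zero.1 (ha ▸ h : g ⬝ᵥ g = 0)]
      simp
    · rw [inv_mul_cancel₀ h, one_mul, sub_self]
  · rw [trace_sub, trace_smul, trace_vecMulVec, ← ha, smul_eq_mul]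
    have : a⁻¹ * a ≤ 1 := inv_mul_le_one_of_le₀ le_rfl h8
    linarith only [this]
  · have : 0 ≤ a⁻¹ * (g k * g k) := mul_nonneg (inv_nonneg.2 h8) (mul_self_nonneg _)
    simp only [Matrix.sub_apply, Matrix.smul_apply, vecMulVec_apply, smul_eq_mul]
    linarith only [this]

theorem nu0_le {P Q : Matrix (Fin m) (Fin m) ℝ} (hP : IsProj P) (hQ : IsProj Q)
    {v0 ψ : Fin m → ℝ} (h : ∀ w, P *ᵥ w = w → v0 ⬝ᵥ w = 0 → Q *ᵥ w = w)
    (ht : Q.trace ≤ P.trace + 1) {U : ℝ} (hU : ∀ k, |v0 k| ≤ U) (hU0 : 0 ≤ U)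
    (h0 : ∀ k, 0 ≤ ψ k * v0 k) :
    nu0 P v0 ψ ≤ nu0 Q v0 ψ + 2 * U * √(mpsi P ψ) := by
  obtain ⟨P0, h1, h2, h3, h4, h5⟩ := PiDiag_exists hP v0
  have h6 : Q * P0 = P0 := by
    ext k i
    exact congrFun (h _ (h2 i) (h3 i)) k
  have h7 : P0 * Q = P0 := by
    have := congrArg transpose h6
    rwa [transpose_mul, h1.symm, hQ.symm] at this
  have h8 : IsProj (Q - P0) := ⟨by rw [transpose_sub, h1.symm, hQ.symm], by
    rw [Matrix.sub_mul, Matrix.mul_sub, Matrix.mul_sub, h6, h7, hQ.idem, h1.idem, sub_self,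
      sub_zero]⟩
  obtain ⟨d, hd⟩ : ∃ d : Fin m → ℝ, ∀ k, d k = max 0 (Q k k - P k k) := ⟨_, fun _ => rfl⟩
  have d0 : ∀ k, 0 ≤ d k := fun k => hd k ▸ le_max_left _ _
  have d1 : ∀ k, Q k k - P k k ≤ d k := fun k => hd k ▸ le_max_right _ _
  have d2 : ∀ k, d k ≤ 1 - P k k := fun k => hd k ▸ max_le (sub_nonneg.2 (hP.diag_le_one k))
    (sub_le_sub_right (hQ.diag_le_one k) _)
  have d3 : ∀ k, d k ≤ (Q - P0) k k := fun k => hd k ▸ max_le (h8.diag_nonneg k)
    (sub_le_sub_left (h5 k) _)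
  have d4 : ∑ k, d k ≤ 4 := by
    have h9 : ∑ k, d k ≤ (Q - P0).trace := sum_le_sum fun k _ => d3 k
    rw [trace_sub] at h9
    linarith only [ht, h4, h9]
  have d5 : ∑ k, d k * ψ k ^ 2 ≤ mpsi P ψ :=
    sum_le_sum fun k _ => mul_le_mul_of_nonneg_right (d2 k) (sq_nonneg _)
  have d6 : 0 ≤ ∑ k, d k * ψ k ^ 2 := sum_nonneg fun k _ => mul_nonneg (d0 k) (sq_nonneg _)
  have d7 : (∑ k, d k * |ψ k|) ^ 2 ≤ (∑ k, d k) * ∑ k, d k * ψ k ^ 2 :=
    sum_sq_le_sum_mul_sum_of_sq_le_mul _ (fun k _ => d0 k)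
      (fun k _ => mul_nonneg (d0 k) (sq_nonneg _)) fun k _ =>
        le_of_eq (by rw [mul_pow, sq_abs]; ring)
  have d8 : ∑ k, d k * |ψ k| ≤ 2 * √(mpsi P ψ) := by
    refine (abs_le_of_sq_le_sq' (d7.trans ?_) (by positivity)).2
    rw [mul_pow, Real.sq_sqrt (d6.trans d5)]
    linarith only [d5, d4, d6, mul_nonneg_of_nonpos_of_nonpos (Mathlib.Tactic.Linarith.sub_nonpos_of_le d4) (Mathlib.Tactic.Linarith.sub_nonpos_of_le d6)]
  have d9 : nu0 P v0 ψ - nu0 Q v0 ψ ≤ U * ∑ k, d k * |ψ k| := by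
    rw [nu0, nu0, ← sum_sub_distrib, mul_sum]
    refine sum_le_sum fun k _ => ?_
    have e1 : ψ k * v0 k ≤ |ψ k| * U :=
      (le_abs_self _).trans ((abs_mul _ _).trans_le
        (mul_le_mul_of_nonneg_left (hU k) (abs_nonneg _)))
    have e2 := mul_le_mul_of_nonneg_right (d1 k) (h0 k)
    have e3 := mul_le_mul_of_nonneg_left e1 (d0 k)
    linarith
  have := mul_le_mul_of_nonneg_left d8 hU0
  linarith

theorem a0_ge {P : Matrix (Fin m) (Fin m) ℝ} (hP : IsProj P) {v0 : Fin m → ℝ} {κ0 : ℝ}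
    (hκ : 0 ≤ κ0) (h : ∀ w, P *ᵥ w = w → v0 ⬝ᵥ w = 0 → κ0 * (w ⬝ᵥ w) ≤ ∑ j, (v0 j * w j) ^ 2) :
    κ0 * (P.trace - 1) ≤ a0 P v0 := by
  obtain ⟨P0, h1, h2, h3, h4, h5⟩ := PiDiag_exists hP v0
  have h6 : ∑ k, P0 k k * v0 k ^ 2 ≤ a0 P v0 :=
    sum_le_sum fun k _ => mul_le_mul_of_nonneg_right (h5 k) (sq_nonneg _)
  have h7 : ∑ k, P0 k k * v0 k ^ 2 = ∑ i, ∑ k, (v0 k * P0 k i) ^ 2 := by
    rw [sum_comm]
    refine sum_congr rfl fun k _ => ?_
    rw [h1.diag_eq k, sum_mul]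
    exact sum_congr rfl fun i _ => by ring
  have h8 : κ0 * P0.trace ≤ ∑ i, ∑ k, (v0 k * P0 k i) ^ 2 := by
    rw [trace, mul_sum]
    refine sum_le_sum fun i _ => le_trans (le_of_eq ?_) (h _ (h2 i) (h3 i))
    rw [diag_apply, h1.diag_eq i]
    exact congrArg _ (sum_congr rfl fun k _ => by rw [h1.apply_symm i k, sq])
  have := mul_le_mul_of_nonneg_left h4 hκ
  linarith

end Pool.Agent.Work.MP_6af739_lc
end

-- merged part: Pool.Agent.Work.MP_6af739_lc.ZB1
section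
/-!
Lower bound for the diagonal of the complementary projection. For z put g = G z, w = hB g = A (cons 0 z)
(hat_mulVec_cons). |w|^2 ≥ m |z|^2/3000 (Good.low), w_k^2 ≤ 4 (n+1) |z|^2 (GG.row), g·g = w·w + (ω·w)^2/λ^2
(hat_normB), g_k = w_k + σ θ (ω·w) ω_k (hat_unB) with σ θ = 1/(λ^2 (σ+1)) ≤ 1/(2 λ^2), |ω_k| ≤ λ
(gg_om_le_lam). So g·g - g_k^2 ≥ w·w - 2 w_k^2 ≥ m |z|^2/4000, and z · hXk z = sum over j ≠ k of
g_j^2/s_j^2 ≥ m/P^5 |z|^2 (gg_s_hi). trace_inv_le with φ1 = G k, φ2 = Gᵀ ω, H = hess: if g_k = 0 and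
ω·g = 0 then w = g and both forms equal sum g_j^2/s_j^2. So tr hXk⁻¹ ≤ T + 2 P^5/m, and not BadK gives
τ := G k · hXk⁻¹ G k ≤ P^2 T + P^8/m. Finally hG k = G k/s_k and one_sub_proj_diag give
1 - P_kk = s^2/(s^2 + τ).
-/

namespace Pool.Agent.Work.MP_6af739_lc

open Matrix Finset MeasureTheory ProbabilityTheory
open Pool.Agent.Work.MP_6a50bc_pr
open Pool.Agent.Work.MP_5c5849_an (sg av)
open scoped ENNReal

variable {m n : ℕ} {b : Fin m → ℝ} {lam : ℝ} {p : ℝ × (Fin m → ℝ)} {G : Matrix (Fin m) (Fin n) ℝ}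

lemma zb1_form (k : Fin m) (z : Fin n → ℝ) : z ⬝ᵥ hXk b p G k *ᵥ z =
    ∑ j, if j = k then 0 else ((G *ᵥ z) j / hs b p j) ^ 2 := by
  rw [hXk, dot_gram, g1_dot]
  refine sum_congr rfl fun j _ => ?_
  rw [g1_zr]
  split_ifs
  · exact mul_zero _
  · rw [hG, ← mulVec_mulVec, mulVec_diagonal, ← sq, div_eq_inv_mul]

lemma zb1_gap {P : ℝ} (hP : Par m (n + 1) P) (hb : Box b) (hl : 0 < lam)
    (h : GG P lam b (Matrix.of (hA b lam p G)) (hx n p)) (k : Fin m) (z : Fin n → ℝ) :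
    m / 4000 * (z ⬝ᵥ z) ≤ (G *ᵥ z) ⬝ᵥ (G *ᵥ z) - (G *ᵥ z) k ^ 2 := by
  have hz : (Fin.cons 0 z : Fin (n + 1) → ℝ) ⬝ᵥ Fin.cons 0 z = z ⬝ᵥ z := by
    simp only [dotProduct, Fin.sum_univ_succ, Fin.cons_zero, Fin.cons_succ, zero_mul, zero_add]
  have h0 := dot_self_nonneg z
  have h1 := (h.good.mono (θ' := 44 / 100) (by norm_num)).low (Fin.cons 0 z)
  have h2 : (Matrix.of (hA b lam p G) *ᵥ Fin.cons 0 z) k ^ 2 ≤ 4 * (n + 1 : ℕ) * (z ⬝ᵥ z) := by
    have a1 := abs_dot_le (Matrix.of (hA b lam p G) k) (Fin.cons 0 z)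
    have a2 := pow_le_pow_left₀ (abs_nonneg _) a1 2
    rw [sq_abs, mul_pow, nrm_sq, nrm_sq, hz] at a2
    exact a2.trans (mul_le_mul_of_nonneg_right (h.row k) h0)
  rw [hz] at h1
  rw [hat_mulVec_cons] at h1 h2
  have h3 := hat_normB (b := b) (p := p) hl (G *ᵥ z)
  have h4 := congrFun (hat_unB (b := b) (p := p) hl (G *ᵥ z)) k
  have h5 := gg_om_le_lam hP hb hl h k
  rw [hat_om] at h5
  have h6 : ((10 ^ 6 * (n + 1) : ℕ) : ℝ) ≤ m := by exact_mod_cast hP.mn
  have h7 : (10 : ℝ) ^ 6 * ((n + 1 : ℕ) * (z ⬝ᵥ z)) ≤ m * (z ⬝ᵥ z) := by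
    rw [← mul_assoc]
    refine mul_le_mul_of_nonneg_right ?_ h0
    rwa [Nat.cast_mul, Nat.cast_pow, Nat.cast_ofNat] at h6
  rw [Pi.add_apply, Pi.smul_apply, smul_eq_mul] at h4
  have s1 := one_le_hsig (b := b) (lam := lam) (p := p)
  have h8 : hsig b lam p * hth b lam p = 1 / (lam ^ 2 * (hsig b lam p + 1)) := by
    rw [hth]
    field_simp
  have h9 : |hsig b lam p * hth b lam p * lam * hw b p k| ≤ 1 / 2 := by
    rw [abs_mul, h8, abs_of_nonneg (by positivity)]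
    refine (mul_le_mul_of_nonneg_left h5 (by positivity)).trans ?_
    have : 1 / (lam ^ 2 * (hsig b lam p + 1)) * lam * lam = 1 / (hsig b lam p + 1) := by
      field_simp
    rw [this]
    exact one_div_le_one_div_of_le two_pos (by linarith only [s1])
  have h10 := pow_le_pow_left₀ (abs_nonneg _) h9 2
  rw [sq_abs] at h10
  rw [← div_pow] at h3
  have h11 : hsig b lam p * hth b lam p * (hw b p ⬝ᵥ hB b lam p *ᵥ (G *ᵥ z)) * hw b p k =
      hsig b lam p * hth b lam p * lam * hw b p k *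
        ((hw b p ⬝ᵥ hB b lam p *ᵥ (G *ᵥ z)) / lam) := by
    field_simp
  rw [h11] at h4
  rw [h3, h4]
  generalize hsig b lam p * hth b lam p * lam * hw b p k = e at h10
  generalize (hw b p ⬝ᵥ hB b lam p *ᵥ (G *ᵥ z)) / lam = q
  generalize (hB b lam p *ᵥ (G *ᵥ z)) k = u at h2
  have h12 := mul_le_mul_of_nonneg_right h10 (sq_nonneg q)
  have h13 : 0 ≤ (m : ℝ) * (z ⬝ᵥ z) := by positivity
  linarith only [h1, h7, h2, h12, sq_nonneg (u - e * q), sq_nonneg q, sq_nonneg q, sq_nonneg (u - e * q), sq_nonneg u]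

lemma zb1_low {P : ℝ} (hP : Par m (n + 1) P) (hb : Box b) (hl : 0 < lam) (hp : Adm b p)
    (h : GG P lam b (Matrix.of (hA b lam p G)) (hx n p)) (k : Fin m) (z : Fin n → ℝ) :
    m / P ^ 5 * (z ⬝ᵥ z) ≤ z ⬝ᵥ hXk b p G k *ᵥ z := by
  have hP0 : (16000 : ℝ) ≤ P := le_trans (by norm_num) hP.big
  have hP1 : 0 < P := by linarith
  have h0 := dot_self_nonneg z
  have h1 : ∑ j, (if j = k then 0 else (G *ᵥ z) j ^ 2) =
      (G *ᵥ z) ⬝ᵥ (G *ᵥ z) - (G *ᵥ z) k ^ 2 := by
    have : ∀ j, (if j = k then 0 else (G *ᵥ z) j ^ 2) =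
        (G *ᵥ z) j * (G *ᵥ z) j - if j = k then (G *ᵥ z) j ^ 2 else 0 := fun j => by
      split_ifs <;> ring
    simp only [this, sum_sub_distrib, sum_ite_eq', mem_univ, if_true, g1_dot]
  have h2 : (∑ j, if j = k then 0 else (G *ᵥ z) j ^ 2) / (2 * P ^ 2) ^ 2 ≤
      z ⬝ᵥ hXk b p G k *ᵥ z := by
    rw [zb1_form, sum_div]
    refine sum_le_sum fun j _ => ?_
    split_ifs
    · rw [zero_div]
    · have a1 := gg_s_hi hP hb hl h j
      rw [hat_slack] at a1
      rw [div_pow]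
      refine div_le_div_of_nonneg_left (sq_nonneg _) (pow_pos (hp.2 j) 2)
        (pow_le_pow_left₀ (hp.2 j).le ?_ 2)
      linarith only [hP0, a1, mul_nonneg_of_nonpos_of_nonpos (Mathlib.Tactic.Linarith.sub_nonpos_of_le hP0) (Mathlib.Tactic.Linarith.sub_nonpos_of_le hP0)]
  refine le_trans ?_ h2
  rw [h1, le_div_iff₀ (by positivity)]
  refine le_trans ?_ (zb1_gap hP hb hl h k z)
  have h3 : m / P ^ 5 * (z ⬝ᵥ z) * (2 * P ^ 2) ^ 2 = m / (P / 4) * (z ⬝ᵥ z) := by
    field_simp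
    ring
  rw [h3]
  exact mul_le_mul_of_nonneg_right
    (div_le_div_of_nonneg_left (Nat.cast_nonneg m) (by norm_num) (by linarith only [hP0])) h0

theorem one_sub_diag_ge {P : ℝ} (hP : Par m (n + 1) P) (hb : Box b) (hl : 0 < lam) (hp : Adm b p)
    (h : GG P lam b (Matrix.of (hA b lam p G)) (hx n p)) {k : Fin m} (hk : ¬BadK b p G P k) :
    hs b p k ^ 2 / (hs b p k ^ 2 +
        (P ^ 2 * (hess (Matrix.of (hA b lam p G)) b (hx n p))⁻¹.trace + P ^ 8 / m)) ≤
      1 - proj (hG b p G) k k := by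
  have hm : (0 : ℝ) < m := by exact_mod_cast hP.m_pos
  have hP0 : (2 : ℝ) ≤ P := le_trans (by norm_num) hP.big
  have hg := h.good.mono (θ' := 44 / 100) (by norm_num)
  obtain ⟨h1, h2⟩ := trace_inv_le (Xm := hXk b p G k)
    (H := hess (Matrix.of (hA b lam p G)) b (hx n p))
    (by rw [hXk, transpose_mul, transpose_transpose]) (μ := m / P ^ 5) (by positivity)
    (zb1_low hP hb hl hp h k) (by rw [hess_eq]; exact gram_posSemidef' _)
    ((hg.inj hP.m_pos).hess_det h.int) (G k) (Gᵀ *ᵥ hw b p) fun z a1 a2 => by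
      have a3 : hB b lam p *ᵥ (G *ᵥ z) = G *ᵥ z := by
        rw [mulVec_transpose, ← dotProduct_mulVec] at a2
        rw [hB, sub_mulVec, one_mulVec, smul_mulVec, vecMulVec_mulVec, a2]
        simp
      rw [zb1_form, hess_eq, dot_gram, g1_dot]
      refine sum_congr rfl fun j _ => ?_
      rw [sc_mulVec, hat_mulVec_cons, hat_slack, a3]
      split_ifs with e
      · have : (G *ᵥ z) k = 0 := a1
        rw [e, this, zero_div, mul_zero]
      · rw [div_pow, div_mul_div_comm, sq, sq]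
  have h3 : G k ⬝ᵥ (hXk b p G k)⁻¹ *ᵥ G k ≤ P ^ 2 * (hXk b p G k)⁻¹.trace := by
    by_contra h0
    exact hk ⟨h1, not_le.1 h0⟩
  have h4 : P ^ 2 * (2 / (m / P ^ 5)) ≤ P ^ 8 / m := by
    rw [div_div_eq_mul_div, ← mul_div_assoc]
    refine div_le_div_of_nonneg_right ?_ hm.le
    have : 0 < P ^ 7 := by positivity
    linarith only [hP0, this, mul_nonneg_of_nonpos_of_nonpos (Mathlib.Tactic.Linarith.sub_nonpos_of_le hP0) (le_of_lt (Mathlib.Tactic.Linarith.sub_neg_of_lt this))]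
  have h5 := mul_le_mul_of_nonneg_left h2 (sq_nonneg P)
  obtain ⟨h6, h7⟩ := one_sub_proj_diag (M := hG b p G) (k := k) h1
  have h8 : hG b p G k = (hs b p k)⁻¹ • G k := funext fun i => by
    rw [hG, diagonal_mul]; rfl
  have hs0 := hp.2 k
  rw [← hXk, h8, mulVec_smul, smul_dotProduct, dotProduct_smul, smul_eq_mul, smul_eq_mul] at h6 h7
  generalize G k ⬝ᵥ (hXk b p G k)⁻¹ *ᵥ G k = τ at h3 h6 h7
  have h9 : 0 ≤ τ := by
    by_contra h0
    have : (hs b p k)⁻¹ * ((hs b p k)⁻¹ * τ) < 0 :=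
      mul_neg_of_pos_of_neg (inv_pos.2 hs0) (mul_neg_of_pos_of_neg (inv_pos.2 hs0) (not_le.1 h0))
    linarith only [h6, this]
  have h10 : 1 - proj (hG b p G) k k = hs b p k ^ 2 / (hs b p k ^ 2 + τ) := by
    rw [eq_div_iff (by positivity)]
    have e : hs b p k ^ 2 + τ = (1 + (hs b p k)⁻¹ * ((hs b p k)⁻¹ * τ)) * hs b p k ^ 2 := by
      field_simp
    rw [e, ← mul_assoc, h7, one_mul]
  rw [h10]
  exact div_le_div_of_nonneg_left (sq_nonneg _) (by positivity) (by linarith only [h4, h5, h3])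

end Pool.Agent.Work.MP_6af739_lc
end
end
end

-- merged part: Pool.Agent.Work.MP_6af739_lc.Final
section
-- merged part: Pool.Agent.Work.MP_6af739_lc.SignAlg
section
-- merged part: Pool.Agent.Work.MP_6af739_lc.GTilt
section
/-!
A Gaussian matrix weighted by the density of Gᵀ y is a multiple of the law of B G, where
σ^2 = 1 + y·y and B = 1 - t y yᵀ, t = 1/(σ (σ+1)). Facts: B is invertible (inverse 1 + σ t y yᵀ) and
|B g|^2 + (y · B g)^2 = |g|^2 for every vector g; sum this over the columns of G.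
Pass to Fin m × Fin n → ℝ by mp_uncurry or mp_curry, write gv as volume.withDensity dens (gv_eq,
dens_eq). The linear map L : ω ↦ B ω is invertible, so volume.map L = κ • volume with κ finite and
nonzero (Measure.map_linearMap_addHaar_eq_smul_addHaar). Hence there is a constant κ0 with
left side = κ0 * integral of F (B G) for all measurable F; F = 1 identifies κ0.
-/

namespace Pool.Agent.Work.MP_6af739_lc

open Matrix Finset MeasureTheory ProbabilityTheory
open Pool.Agent.Work.MP_6a50bc_pr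
open Pool.Agent.Work.MP_5c5849_an (sg av)
open scoped ENNReal

lemma gtilt_vec {m : ℕ} (y : Fin m → ℝ) {σ t : ℝ} (h1 : 1 ≤ σ) (hσ : σ ^ 2 = 1 + y ⬝ᵥ y)
    (ht : t = 1 / (σ * (σ + 1))) (g : Fin m → ℝ) :
    ((1 - t • vecMulVec y y) *ᵥ g) ⬝ᵥ ((1 - t • vecMulVec y y) *ᵥ g) +
      ((1 - t • vecMulVec y y) *ᵥ g) ⬝ᵥ y * (((1 - t • vecMulVec y y) *ᵥ g) ⬝ᵥ y) = g ⬝ᵥ g := by
  have e : (1 - t • vecMulVec y y) *ᵥ g = g - (t * (y ⬝ᵥ g)) • y := by
    rw [sub_mulVec, one_mulVec, smul_mulVec, vecMulVec_mulVec, op_smul_eq_smul, smul_smul]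
  have h2 : y ⬝ᵥ y = σ ^ 2 - 1 := by linarith only [hσ]
  have h3 : σ ≠ 0 := by linarith
  have h4 : σ + 1 ≠ 0 := by linarith only [h1]
  rw [e]
  simp only [sub_dotProduct, dotProduct_sub, smul_dotProduct, dotProduct_smul, smul_eq_mul,
    dotProduct_comm g y, h2, ht]
  field_simp
  ring

/-- Left multiplication of an array by a matrix. -/
def gtilt_L {m : ℕ} (n : ℕ) (B : Matrix (Fin m) (Fin m) ℝ) :
    (Fin m × Fin n → ℝ) →ₗ[ℝ] (Fin m × Fin n → ℝ) where
  toFun ω q := (B *ᵥ fun k => ω (k, q.2)) q.1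
  map_add' ω ω' := funext fun q => congrFun (mulVec_add B (fun k => ω (k, q.2)) fun k => ω' (k, q.2)) q.1
  map_smul' c ω := funext fun q => congrFun (mulVec_smul B c fun k => ω (k, q.2)) q.1

lemma gtilt_dot {m n : ℕ} (ω : Fin m × Fin n → ℝ) :
    ω ⬝ᵥ ω = ∑ i, (fun k => ω (k, i)) ⬝ᵥ fun k => ω (k, i) :=
  Fintype.sum_prod_type_right _

theorem gauss_tilt {m n : ℕ} (y : Fin m → ℝ) {σ t : ℝ} (h1 : 1 ≤ σ) (hσ : σ ^ 2 = 1 + y ⬝ᵥ y)
    (ht : t = 1 / (σ * (σ + 1))) {F : (Fin m → Fin n → ℝ) → ℝ≥0∞} (hF : Measurable F) :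
    ∫⁻ a, F a * ENNReal.ofReal (dens ((Matrix.of a)ᵀ *ᵥ y)) ∂(gm (Fin m) (Fin n)) =
      (∫⁻ a, ENNReal.ofReal (dens ((Matrix.of a)ᵀ *ᵥ y)) ∂(gm (Fin m) (Fin n))) *
        ∫⁻ a, F (fun j i => (((1 : Matrix (Fin m) (Fin m) ℝ) - t • vecMulVec y y) * Matrix.of a :
          Matrix (Fin m) (Fin n) ℝ) j i) ∂(gm (Fin m) (Fin n)) := by
  set B : Matrix (Fin m) (Fin m) ℝ := 1 - t • vecMulVec y y with hB
  let w : (Fin m × Fin n → ℝ) → Fin n → ℝ := fun ω => (Matrix.of fun j i => ω (j, i))ᵀ *ᵥ y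
  have hw : Measurable w := by
    refine measurable_pi_lambda _ fun i => ?_
    simp only [w, mulVec, dotProduct, transpose_apply, of_apply]
    fun_prop
  have hid : ∀ ω, gtilt_L n B ω ⬝ᵥ gtilt_L n B ω + w (gtilt_L n B ω) ⬝ᵥ w (gtilt_L n B ω) =
      ω ⬝ᵥ ω := by
    intro ω
    rw [gtilt_dot, gtilt_dot ω, dotProduct.eq_1 (w _), ← sum_add_distrib]
    exact sum_congr rfl fun i _ => gtilt_vec y h1 hσ ht fun k => ω (k, i)
  have hdet : LinearMap.det (gtilt_L n B) ≠ 0 := by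
    rw [Ne, LinearMap.det_eq_zero_iff_ker_ne_bot, not_not, LinearMap.ker_eq_bot']
    intro ω h
    have h2 := hid ω
    have h3 : w 0 = 0 := by
      funext i
      simp [w, mulVec, dotProduct]
    rw [h, h3, zero_dotProduct, zero_dotProduct, add_zero] at h2
    exact dotProduct_self_eq_zero.1 h2.symm
  have hL : Measurable (gtilt_L n B) := (gtilt_L n B).continuous_of_finiteDimensional.measurable
  have hmap := Measure.map_linearMap_addHaar_eq_smul_addHaar
    (volume : Measure (Fin m × Fin n → ℝ)) hdet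
  have hc : Measurable fun (ω : Fin m × Fin n → ℝ) (j : Fin m) (i : Fin n) => ω (j, i) :=
    mp_curry.measurable
  have hd : ∀ {κ : Type} [Fintype κ], Measurable fun x : κ → ℝ => ENNReal.ofReal (dens x) := by
    intro κ _
    exact measurable_dens.ennreal_ofReal
  have key : ∀ G : (Fin m → Fin n → ℝ) → ℝ≥0∞, Measurable G →
      ENNReal.ofReal |(LinearMap.det (gtilt_L n B))⁻¹| *
        ∫⁻ a, G a * ENNReal.ofReal (dens ((Matrix.of a)ᵀ *ᵥ y)) ∂(gm (Fin m) (Fin n)) =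
      ENNReal.ofReal ((√(2 * Real.pi))⁻¹ ^ n) *
        ∫⁻ a, G (fun j i => (B * Matrix.of a : Matrix (Fin m) (Fin n) ℝ) j i)
          ∂(gm (Fin m) (Fin n)) := by
    intro G hG
    have m1 : Measurable fun a : Fin m → Fin n → ℝ =>
        G a * ENNReal.ofReal (dens ((Matrix.of a)ᵀ *ᵥ y)) :=
      hG.mul (hd.comp (hw.comp mp_uncurry.measurable))
    have m2 : Measurable fun a : Fin m → Fin n → ℝ =>
        G fun j i => (B * Matrix.of a : Matrix (Fin m) (Fin n) ℝ) j i :=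
      hG.comp (hc.comp (hL.comp mp_uncurry.measurable))
    have m3 : Measurable fun ω : Fin m × Fin n → ℝ =>
        G (fun j i => ω (j, i)) * ENNReal.ofReal (dens (w ω)) := m1.comp hc
    have m4 : Measurable fun ω : Fin m × Fin n → ℝ => G fun j i => gtilt_L n B ω (j, i) :=
      m2.comp hc
    rw [← mp_curry.lintegral_comp m1, ← mp_curry.lintegral_comp m2]
    show _ * ∫⁻ ω, G (fun j i => ω (j, i)) * ENNReal.ofReal (dens (w ω)) ∂(gv (Fin m × Fin n)) =
      _ * ∫⁻ ω, G (fun j i => gtilt_L n B ω (j, i)) ∂(gv (Fin m × Fin n))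
    rw [gv_eq, lintegral_withDensity_eq_lintegral_mul _ hd m3,
      lintegral_withDensity_eq_lintegral_mul _ hd m4, ← smul_eq_mul,
      ← lintegral_smul_measure, ← hmap, lintegral_map (hd.mul m3) hL,
      ← lintegral_const_mul _ (hd.mul m4)]
    refine lintegral_congr fun ω => ?_
    have e : ENNReal.ofReal (dens (gtilt_L n B ω)) * ENNReal.ofReal (dens (w (gtilt_L n B ω))) =
        ENNReal.ofReal ((√(2 * Real.pi))⁻¹ ^ n) * ENNReal.ofReal (dens ω) := by
      rw [← ENNReal.ofReal_mul (by rw [dens_eq]; positivity), ← ENNReal.ofReal_mul (by positivity),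
        dens_eq, dens_eq, dens_eq, ← hid ω, Fintype.card_fin, neg_add, add_div, Real.exp_add]
      ring_nf
    show ENNReal.ofReal (dens (gtilt_L n B ω)) * (G (fun j i => gtilt_L n B ω (j, i)) *
      ENNReal.ofReal (dens (w (gtilt_L n B ω)))) = _ * (ENNReal.ofReal (dens ω) *
        G fun j i => gtilt_L n B ω (j, i))
    rw [mul_comm (G _), ← mul_assoc, e, mul_assoc]
  have k1 := key (fun _ => 1) measurable_const
  simp only [one_mul, lintegral_const, measure_univ, mul_one] at k1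
  have k2 := key F hF
  rw [← k1, mul_assoc] at k2
  exact (ENNReal.mul_right_inj (ENNReal.ofReal_pos.2 (abs_pos.2 (inv_ne_zero hdet))).ne'
    ENNReal.ofReal_ne_top).1 k2

end Pool.Agent.Work.MP_6af739_lc
end

-- merged part: Pool.Agent.Work.MP_6af739_lc.Master
section
/-!
The master formula. Let W (a, x) = indicator of Inter times ofReal (dens (lam⁻¹ • Aᵀ om) lam⁻¹^(n+1) det hess).
(1) lintegral_prod and change_of_var for each a (if of a is not injective both sides vanish: Dom fails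
and det hess = 0 by hess_eq, inj_of_det): left side = ∫ a, ∫ x, F (a,x) W (a,x) = ∫ x, ∫ a (Tonelli).
(2) F W is Invar (Inv.lean; dens (Oᵀ c) = dens c by dens_eq), so by lintegral_rot the inner integral is
the one at the point (nrm x, 0, ..., 0) = hx n (nrm x, a0).
(3) mp_cons: (a0, g) ↦ fun j => Fin.cons (a0 j) (g j) is measure preserving from gv.prod gm to gm
(mp_transpose and measurePreserving_piFinSuccAbove, or mp_pair). For A = [a0 | g], x = r e0: slack = hs,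
om = hw, dens (lam⁻¹ • Aᵀ hw) = gaussianPDFReal 0 1 (a0 · y) * dens (gᵀ y) with y = lam⁻¹ • hw.
(4) gauss_tilt with σ = hsig, t • y yᵀ = hth • hw hwᵀ. Put wt (r, a0) = indicator (all hs > 0) of
ofReal (pdf (a0·y) lam⁻¹^(n+1)) * ∫ g, ofReal (dens (gᵀ y)), which is measurable
(Measurable.lintegral_prod_right'). ν is the image of (volume.prod gv).withDensity (wt (nrm x, a0))
under (x, a0) ↦ (nrm x, a0). It is s-finite, and x ≠ 0 almost everywhere.
-/

namespace Pool.Agent.Work.MP_6af739_lc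

open Matrix Finset MeasureTheory ProbabilityTheory
open Pool.Agent.Work.MP_6a50bc_pr
open Pool.Agent.Work.MP_5c5849_an (sg av)
open scoped ENNReal

lemma Master_mp_row (n : ℕ) :
    MeasurePreserving (fun q : ℝ × (Fin n → ℝ) => (Fin.cons q.1 q.2 : Fin (n + 1) → ℝ))
      ((gaussianReal 0 1).prod (gv (Fin n))) (gv (Fin (n + 1))) := by
  have h := (measurePreserving_piFinSuccAbove (fun _ : Fin (n + 1) => gaussianReal 0 1) 0).symm
  convert h using 1
  · funext q
    simp [MeasurableEquiv.piFinSuccAbove, Fin.insertNthEquiv]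
  · rfl
  · rfl

theorem mp_cons (m n : ℕ) :
    MeasurePreserving
      (fun (q : (Fin m → ℝ) × (Fin m → Fin n → ℝ)) (j : Fin m) =>
        (Fin.cons (q.1 j) (q.2 j) : Fin (n + 1) → ℝ))
      ((gv (Fin m)).prod (gm (Fin m) (Fin n))) (gm (Fin m) (Fin (n + 1))) := by
  exact (measurePreserving_pi _ _ fun _ : Fin m => Master_mp_row n).comp
    (measurePreserving_arrowProdEquivProdArrow ℝ (Fin n → ℝ) (Fin m) (fun _ => gaussianReal 0 1)
      (fun _ => gv (Fin n))).symm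

section Aux

variable {m n : ℕ}

lemma Master_dens_nonneg {κ : Type*} [Fintype κ] (x : κ → ℝ) : 0 ≤ dens x :=
  prod_nonneg fun _ _ => gaussianPDFReal_nonneg _ _ _

/-- The weight of a pair `(a, x)`. -/
noncomputable def Master_W (b : Fin m → ℝ) (lam : ℝ) :
    (Fin m → Fin n → ℝ) × (Fin n → ℝ) → ℝ≥0∞ :=
  {q : (Fin m → Fin n → ℝ) × (Fin n → ℝ) | Inter (Matrix.of q.1) b q.2}.indicator fun q =>
    ENNReal.ofReal (dens (lam⁻¹ • (Matrix.of q.1)ᵀ *ᵥ om (Matrix.of q.1) b q.2) * lam⁻¹ ^ n *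
      (hess (Matrix.of q.1) b q.2).det)

variable {b : Fin m → ℝ} {lam : ℝ}

lemma Master_W_pos {q : (Fin m → Fin n → ℝ) × (Fin n → ℝ)} (h : Inter (Matrix.of q.1) b q.2) :
    Master_W b lam q =
      ENNReal.ofReal (dens (lam⁻¹ • (Matrix.of q.1)ᵀ *ᵥ om (Matrix.of q.1) b q.2) * lam⁻¹ ^ n *
        (hess (Matrix.of q.1) b q.2).det) :=
  Set.indicator_of_mem (s := {q : (Fin m → Fin n → ℝ) × (Fin n → ℝ) |
    Inter (Matrix.of q.1) b q.2}) h _

lemma Master_W_neg {q : (Fin m → Fin n → ℝ) × (Fin n → ℝ)} (h : ¬Inter (Matrix.of q.1) b q.2) :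
    Master_W b lam q = 0 :=
  Set.indicator_of_notMem (s := {q : (Fin m → Fin n → ℝ) × (Fin n → ℝ) |
    Inter (Matrix.of q.1) b q.2}) h _

lemma Master_W_meas (b : Fin m → ℝ) (lam : ℝ) : Measurable (Master_W (n := n) b lam) := by
  refine Measurable.indicator (ENNReal.measurable_ofReal.comp ?_)
    (measurableSet_inter b measurable_fst measurable_snd)
  have hA : MM fun q : (Fin m → Fin n → ℝ) × (Fin n → ℝ) => Matrix.of q.1 := MM.of measurable_fst
  have hx : MV fun q : (Fin m → Fin n → ℝ) × (Fin n → ℝ) => q.2 := MV.of measurable_snd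
  exact ((measurable_dens.comp
    (MV.smul measurable_const (hA.tr.mv (mv_om b hA hx))).meas).mul_const _).mul
    (mm_hess b hA hx).det

lemma Master_W_invar (b : Fin m → ℝ) (lam : ℝ) : Invar (Master_W (n := n) b lam) := by
  intro O hO a x
  by_cases h : Inter (Matrix.of a) b x
  · rw [Master_W_pos (q := (a, x)) h, Master_W_pos (q := (rot O a, Oᵀ *ᵥ x))
      ((inter_rot hO x).2 h)]
    simp only [of_rot]
    rw [grad_rot hO, det_hess_rot hO, ← mulVec_smul, dens_eq, dens_eq, ← nrm_sq, ← nrm_sq]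
    have e : ∀ z : Fin n → ℝ, nrm (Oᵀ *ᵥ z) = nrm z := fun z => by
      rw [nrm, nrm, dotProduct_mulVec, vecMul_transpose, Inv_left hO]
    rw [e]
  · rw [Master_W_neg (q := (a, x)) h, Master_W_neg (q := (rot O a, Oᵀ *ᵥ x))
      fun h' => h ((inter_rot hO x).1 h')]

/-- Step 1. -/
lemma Master_step1 (hl : 0 < lam) {F : (Fin m → Fin n → ℝ) × (Fin n → ℝ) → ℝ≥0∞}
    (hF : Measurable F) :
    ∫⁻ q, {q : (Fin m → Fin n → ℝ) × (Fin n → ℝ) | Dom (Matrix.of q.1) b (lam • q.2)}.indicator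
        (fun q => F (q.1, X (Matrix.of q.1) b (lam • q.2))) q
        ∂((gm (Fin m) (Fin n)).prod (gv (Fin n))) =
      ∫⁻ x, ∫⁻ a, F (a, x) * Master_W b lam (a, x) ∂(gm (Fin m) (Fin n)) := by
  have hs : Measurable fun q : (Fin m → Fin n → ℝ) × (Fin n → ℝ) => (q.1, lam • q.2) :=
    measurable_fst.prodMk (measurable_snd.const_smul lam)
  have h1 : Measurable ({q : (Fin m → Fin n → ℝ) × (Fin n → ℝ) |
      Dom (Matrix.of q.1) b (lam • q.2)}.indicator
        (fun q => F (q.1, X (Matrix.of q.1) b (lam • q.2)))) :=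
    (hF.comp (measurable_fst.prodMk ((measurable_X b).comp hs))).indicator
      (hs (isOpen_dom b).measurableSet)
  rw [lintegral_prod _ h1.aemeasurable, ← lintegral_lintegral_swap
    (f := fun a x => F (a, x) * Master_W b lam (a, x))
    (hF.mul (Master_W_meas b lam)).aemeasurable]
  refine lintegral_congr fun a => ?_
  by_cases hA : Inj (Matrix.of a)
  · have h2 := change_of_var (b := b) hA hl (F := fun x => F (a, x))
      (hF.comp (measurable_const.prodMk measurable_id))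
    refine Eq.trans (lintegral_congr fun c => rfl) (h2.trans (lintegral_congr fun x => ?_))
    by_cases h : Inter (Matrix.of a) b x
    · rw [Master_W_pos (q := (a, x)) h,
        Set.indicator_of_mem (s := {x | Inter (Matrix.of a) b x}) h]
    · rw [Master_W_neg (q := (a, x)) h,
        Set.indicator_of_notMem (s := {x | Inter (Matrix.of a) b x}) h, mul_zero]
  · have l0 : ∀ c, {q : (Fin m → Fin n → ℝ) × (Fin n → ℝ) |
        Dom (Matrix.of q.1) b (lam • q.2)}.indicator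
          (fun q => F (q.1, X (Matrix.of q.1) b (lam • q.2))) (a, c) = 0 := fun c =>
      Set.indicator_of_notMem (fun h => hA h.1) _
    have r0 : ∀ x, F (a, x) * Master_W b lam (a, x) = 0 := fun x => by
      by_cases h : Inter (Matrix.of a) b x
      · have hd : (hess (Matrix.of a) b x).det = 0 := by
          by_contra hd
          rw [hess_eq] at hd
          refine hA fun z hz => inj_of_det hd z (funext fun j => ?_)
          rw [sc_mulVec, hz]
          simp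
        rw [Master_W_pos (q := (a, x)) h]
        simp [hd]
      · rw [Master_W_neg (q := (a, x)) h, mul_zero]
    simp only [l0, r0, lintegral_zero]

/-- The weight of `p = (r, a0)`. -/
noncomputable def Master_wt (n : ℕ) (b : Fin m → ℝ) (lam : ℝ) : ℝ × (Fin m → ℝ) → ℝ≥0∞ :=
  {p : ℝ × (Fin m → ℝ) | ∀ j, 0 < hs b p j}.indicator fun p =>
    ENNReal.ofReal (gaussianPDFReal 0 1 (p.2 ⬝ᵥ lam⁻¹ • hw b p) * lam⁻¹ ^ (n + 1)) *
      ∫⁻ g, ENNReal.ofReal (dens ((Matrix.of g)ᵀ *ᵥ lam⁻¹ • hw b p)) ∂(gm (Fin m) (Fin n))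

lemma Master_wt_meas (n : ℕ) (b : Fin m → ℝ) (lam : ℝ) : Measurable (Master_wt n b lam) := by
  have hy : MV fun p : ℝ × (Fin m → ℝ) => lam⁻¹ • hw b p :=
    MV.smul measurable_const (mv_hw b measurable_id)
  refine Measurable.indicator (Measurable.mul (ENNReal.measurable_ofReal.comp ?_) ?_)
    (ms_all fun j => measurableSet_lt measurable_const (mv_hs b measurable_id j))
  · exact ((measurable_gaussianPDFReal 0 1).comp ((MV.of measurable_snd).dot hy)).mul_const _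
  · refine Measurable.lintegral_prod_right' (f := fun q : (ℝ × (Fin m → ℝ)) × (Fin m → Fin n → ℝ) =>
      ENNReal.ofReal (dens ((Matrix.of q.2)ᵀ *ᵥ lam⁻¹ • hw b q.1))) ?_
    exact ENNReal.measurable_ofReal.comp (measurable_dens.comp
      ((MM.of measurable_snd).tr.mv (MV.smul measurable_const (mv_hw b measurable_fst))).meas)

lemma Master_slack (p : ℝ × (Fin m → ℝ)) (g : Fin m → Fin n → ℝ) :
    slack (Matrix.of fun j => (Fin.cons (p.2 j) (g j) : Fin (n + 1) → ℝ)) b (hx n p) = hs b p := by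
  funext j
  simp [slack, hs, hx, mulVec, dotProduct, Fin.sum_univ_succ, mul_comm]

lemma Master_dens (a0 y : Fin m → ℝ) (g : Fin m → Fin n → ℝ) :
    dens ((Matrix.of fun j => (Fin.cons (a0 j) (g j) : Fin (n + 1) → ℝ))ᵀ *ᵥ y) =
      gaussianPDFReal 0 1 (a0 ⬝ᵥ y) * dens ((Matrix.of g)ᵀ *ᵥ y) := by
  rw [dens, Fin.prod_univ_succ, dens]
  rfl

lemma Master_meas_cons : Measurable fun (q : (Fin m → ℝ) × (Fin m → Fin n → ℝ)) (j : Fin m) =>
    (Fin.cons (q.1 j) (q.2 j) : Fin (n + 1) → ℝ) := (mp_cons m n).measurable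

/-- Steps 3 and 4 for a fixed first column. -/
lemma Master_step3 (hl : 0 < lam) {F : (Fin m → Fin (n + 1) → ℝ) × (Fin (n + 1) → ℝ) → ℝ≥0∞}
    (hF : Measurable F) (p : ℝ × (Fin m → ℝ)) :
    ∫⁻ g, F (fun j => (Fin.cons (p.2 j) (g j) : Fin (n + 1) → ℝ), hx n p) *
        Master_W b lam (fun j => (Fin.cons (p.2 j) (g j) : Fin (n + 1) → ℝ), hx n p)
        ∂(gm (Fin m) (Fin n)) =
      Master_wt n b lam p * ∫⁻ a, F (hA b lam p (Matrix.of a), hx n p) *
        ENNReal.ofReal (hdet b lam p (Matrix.of a)) ∂(gm (Fin m) (Fin n)) := by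
  by_cases h : ∀ j, 0 < hs b p j
  · have hc : Measurable fun (g : Fin m → Fin n → ℝ) (j : Fin m) =>
        (Fin.cons (p.2 j) (g j) : Fin (n + 1) → ℝ) :=
      Master_meas_cons.comp (measurable_const.prodMk measurable_id)
    have hF' : Measurable fun g : Fin m → Fin n → ℝ =>
        F (fun j => (Fin.cons (p.2 j) (g j) : Fin (n + 1) → ℝ), hx n p) *
          ENNReal.ofReal (hess (Matrix.of fun j => (Fin.cons (p.2 j) (g j) : Fin (n + 1) → ℝ)) b
            (hx n p)).det :=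
      (hF.comp (hc.prodMk measurable_const)).mul
        (ENNReal.measurable_ofReal.comp (mm_hess b (MM.of hc) (MV.const _)).det)
    have hσ : hsig b lam p ^ 2 = 1 + (lam⁻¹ • hw b p) ⬝ᵥ (lam⁻¹ • hw b p) := by
      rw [hsig_sq, smul_dotProduct, dotProduct_smul, smul_eq_mul, smul_eq_mul]
      field_simp
    have key := gauss_tilt (n := n) (lam⁻¹ • hw b p) one_le_hsig hσ rfl hF'
    have eB : (1 : Matrix (Fin m) (Fin m) ℝ) - (1 / (hsig b lam p * (hsig b lam p + 1))) •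
        vecMulVec (lam⁻¹ • hw b p) (lam⁻¹ • hw b p) = hB b lam p := by
      rw [hB, smul_vecMulVec, vecMulVec_smul, smul_smul, smul_smul, hth]
      congr 2
      field_simp
    rw [eB] at key
    have e1 : ∀ g : Fin m → Fin n → ℝ,
        F (fun j => (Fin.cons (p.2 j) (g j) : Fin (n + 1) → ℝ), hx n p) *
          Master_W b lam (fun j => (Fin.cons (p.2 j) (g j) : Fin (n + 1) → ℝ), hx n p) =
        ENNReal.ofReal (gaussianPDFReal 0 1 (p.2 ⬝ᵥ lam⁻¹ • hw b p) * lam⁻¹ ^ (n + 1)) *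
          (F (fun j => (Fin.cons (p.2 j) (g j) : Fin (n + 1) → ℝ), hx n p) *
            ENNReal.ofReal (hess (Matrix.of fun j => (Fin.cons (p.2 j) (g j) : Fin (n + 1) → ℝ)) b
              (hx n p)).det *
            ENNReal.ofReal (dens ((Matrix.of g)ᵀ *ᵥ lam⁻¹ • hw b p))) := fun g => by
      have hI : Inter (Matrix.of fun j => (Fin.cons (p.2 j) (g j) : Fin (n + 1) → ℝ)) b
          (hx n p) := fun j => by rw [Master_slack]; exact h j
      have ho : om (Matrix.of fun j => (Fin.cons (p.2 j) (g j) : Fin (n + 1) → ℝ)) b (hx n p) =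
          hw b p := by
        funext j
        rw [om, Master_slack, hw]
      rw [Master_W_pos (q := (fun j => (Fin.cons (p.2 j) (g j) : Fin (n + 1) → ℝ), hx n p)) hI]
      simp only [ho]
      rw [← mulVec_smul, Master_dens]
      have n1 : 0 ≤ gaussianPDFReal 0 1 (p.2 ⬝ᵥ lam⁻¹ • hw b p) * lam⁻¹ ^ (n + 1) :=
        mul_nonneg (gaussianPDFReal_nonneg _ _ _) (pow_nonneg (inv_nonneg.2 hl.le) _)
      rw [mul_right_comm (gaussianPDFReal _ _ _), mul_assoc (_ * _ ^ _), ENNReal.ofReal_mul n1,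
        ENNReal.ofReal_mul (Master_dens_nonneg _)]
      ring
    have hD : Measurable fun g : Fin m → Fin n → ℝ =>
        ENNReal.ofReal (dens ((Matrix.of g)ᵀ *ᵥ lam⁻¹ • hw b p)) :=
      ENNReal.measurable_ofReal.comp (measurable_dens.comp
        ((MM.of measurable_id).tr.mv (MV.const _)).meas)
    rw [lintegral_congr e1, lintegral_const_mul _ (hF'.fun_mul hD), key, Master_wt,
      Set.indicator_of_mem (s := {p : ℝ × (Fin m → ℝ) | ∀ j, 0 < hs b p j}) h, mul_assoc]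
    rfl
  · have e1 : ∀ g : Fin m → Fin n → ℝ,
        Master_W b lam (fun j => (Fin.cons (p.2 j) (g j) : Fin (n + 1) → ℝ), hx n p) = 0 :=
      fun g => Master_W_neg fun hI => h fun j => by
        have := hI j
        rwa [Master_slack] at this
    rw [Master_wt, Set.indicator_of_notMem (s := {p : ℝ × (Fin m → ℝ) | ∀ j, 0 < hs b p j}) h]
    simp only [e1, mul_zero, zero_mul, lintegral_zero]

end Aux

theorem master {m n : ℕ} {b : Fin m → ℝ} (hb : ∀ j, 0 < b j) {lam : ℝ} (hl : 0 < lam) :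
    ∃ ν : Measure (ℝ × (Fin m → ℝ)), SFinite ν ∧ (∀ᵐ p ∂ν, Adm b p) ∧
      ∀ F : (Fin m → Fin (n + 1) → ℝ) × (Fin (n + 1) → ℝ) → ℝ≥0∞, Measurable F → Invar F →
        ∫⁻ q, {q : (Fin m → Fin (n + 1) → ℝ) × (Fin (n + 1) → ℝ) |
            Dom (Matrix.of q.1) b (lam • q.2)}.indicator
              (fun q => F (q.1, X (Matrix.of q.1) b (lam • q.2))) q
            ∂((gm (Fin m) (Fin (n + 1))).prod (gv (Fin (n + 1)))) =
          ∫⁻ p, ∫⁻ a, F (hA b lam p (Matrix.of a), hx n p) *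
            ENNReal.ofReal (hdet b lam p (Matrix.of a)) ∂(gm (Fin m) (Fin n)) ∂ν := by
  have hφ : Measurable fun q : (Fin (n + 1) → ℝ) × (Fin m → ℝ) => (nrm q.1, q.2) :=
    (MV.of measurable_fst).nrm.prodMk measurable_snd
  refine ⟨(((volume : Measure (Fin (n + 1) → ℝ)).prod (gv (Fin m))).map
    fun q => (nrm q.1, q.2)).withDensity (Master_wt n b lam), inferInstance, ?_, fun F hF hI => ?_⟩
  · rw [ae_withDensity_iff (Master_wt_meas n b lam)]
    have h0 : ∀ᵐ x ∂(volume : Measure (Fin (n + 1) → ℝ)), x ≠ 0 :=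
      compl_mem_ae_iff.2 (measure_singleton 0)
    have h1 : ∀ᵐ q ∂((volume : Measure (Fin (n + 1) → ℝ)).prod (gv (Fin m))), q.1 ≠ 0 :=
      Measure.quasiMeasurePreserving_fst.ae h0
    have h2 : ∀ᵐ p ∂(((volume : Measure (Fin (n + 1) → ℝ)).prod (gv (Fin m))).map
        fun q => (nrm q.1, q.2)), 0 < p.1 :=
      (ae_map_iff hφ.aemeasurable (measurableSet_lt measurable_const measurable_fst)).2
        (h1.mono fun q hq => nrm_pos hq)
    refine h2.mono fun p hp hw => ⟨hp, ?_⟩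
    by_contra h
    exact hw (Set.indicator_of_notMem (s := {p : ℝ × (Fin m → ℝ) | ∀ j, 0 < hs b p j}) h _)
  · have hR : Measurable fun p : ℝ × (Fin m → ℝ) => ∫⁻ a, F (hA b lam p (Matrix.of a), hx n p) *
        ENNReal.ofReal (hdet b lam p (Matrix.of a)) ∂(gm (Fin m) (Fin n)) :=
      Measurable.lintegral_prod_right' (f := fun q : (ℝ × (Fin m → ℝ)) × (Fin m → Fin n → ℝ) =>
        F (hA b lam q.1 (Matrix.of q.2), hx n q.1) *
          ENNReal.ofReal (hdet b lam q.1 (Matrix.of q.2)))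
        ((hF.comp ((measurable_hA b lam measurable_fst measurable_snd).prodMk
          (measurable_hx measurable_fst))).mul
          (ENNReal.measurable_ofReal.comp (measurable_hdet b lam measurable_fst measurable_snd)))
    have hFW : Measurable fun q => F q * Master_W b lam q := hF.mul (Master_W_meas b lam)
    have hInv : Invar fun q => F q * Master_W b lam q := fun O hO a x => by
      simp only [hI O hO a x, Master_W_invar b lam O hO a x]
    have hm := (Master_wt_meas n b lam).mul hR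
    rw [Master_step1 hl hF, lintegral_withDensity_eq_lintegral_mul _ (Master_wt_meas n b lam) hR]
    refine Eq.symm ((lintegral_map hm hφ).trans ?_)
    refine (lintegral_prod _ (hm.comp hφ).aemeasurable).trans (lintegral_congr fun x => ?_)
    have hn : nrm x = nrm (hx n (nrm x, (0 : Fin m → ℝ))) :=
      (nrm_hx (n := n) (p := (nrm x, (0 : Fin m → ℝ))) (nrm_nonneg x)).symm
    have hy : Measurable fun a => F (a, hx n (nrm x, (0 : Fin m → ℝ))) *
        Master_W b lam (a, hx n (nrm x, (0 : Fin m → ℝ))) :=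
      hFW.comp (measurable_id.prodMk measurable_const)
    refine Eq.symm ((lintegral_rot hInv (hFW.comp (measurable_id.prodMk measurable_const))
      hn).trans (((mp_cons m n).lintegral_comp hy).symm.trans
        ((lintegral_prod _ (hy.comp (mp_cons m n).measurable).aemeasurable).trans ?_)))
    exact lintegral_congr fun a0 => Master_step3 hl hF (nrm x, a0)

end Pool.Agent.Work.MP_6af739_lc
end

-- merged part: Pool.Agent.Work.MP_6af739_lc.SignAlg
section
/-!
Algebra of rho, xi. Put g0 = P v0, f = co P v1, h = co P ψ; g0 is orthogonal to f and h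
(IsProj.dot_co), g0·g0 = g0·v0 = aa, v1·g0 = b01, v1·f = f·f, v1·h = f·h, ψ·f = h·f, ψ·h = h·h,
v0·f = v0·v1 - b01, v0·h = nu. Expand with add_dotProduct, smul_dotProduct and close by ring.
beta_mul_le: Cauchy-Schwarz for xi·v0, then cancel beta (if beta = 0 use rho_nonneg).
beta_le: nu = h · co P v0, and aa + |co P v0|^2 = |v0|^2 (IsProj.pyth).
-/

namespace Pool.Agent.Work.MP_6af739_lc

open Matrix Finset MeasureTheory ProbabilityTheory
open Pool.Agent.Work.MP_6a50bc_pr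
open Pool.Agent.Work.MP_5c5849_an (sg av)
open scoped ENNReal

variable {ι : Type*} [Fintype ι] {P : Matrix ι ι ℝ} (hP : IsProj P) (v0 v1 ψ : ι → ℝ)
include hP

omit hP in
lemma signalg_cs (v w : ι → ℝ) : (v ⬝ᵥ w) ^ 2 ≤ v ⬝ᵥ v * (w ⬝ᵥ w) := by
  rw [← nrm_sq, ← nrm_sq, ← mul_pow, ← sq_abs]
  exact pow_le_pow_left₀ (abs_nonneg _) (abs_dot_le v w) 2

lemma signalg_co (v w : ι → ℝ) : co P v ⬝ᵥ w = v ⬝ᵥ w - v ⬝ᵥ P *ᵥ w := by
  rw [co, sub_dotProduct, hP.dot_symm]

lemma signalg_co' (v w : ι → ℝ) : co P v ⬝ᵥ w = co P w ⬝ᵥ co P v := by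
  rw [hP.co_dot_co, dotProduct_comm]

theorem aa_nonneg : 0 ≤ aa P v0 := by
  rw [aa, hP.dot_eq]
  exact dot_self_nonneg _

theorem aa_le : aa P v0 ≤ v0 ⬝ᵥ v0 := by
  rw [aa, hP.dot_eq]
  exact hP.dot_self_le v0

theorem beta_nonneg : 0 ≤ beta P v0 ψ := by
  exact add_nonneg (sq_nonneg _) (mul_nonneg (aa_nonneg hP v0) (dot_self_nonneg _))

theorem rho_nonneg : 0 ≤ rho P v0 v1 ψ := by
  exact add_nonneg (dot_self_nonneg _)
    (mul_nonneg (aa_nonneg hP v0) (sub_nonneg.2 (signalg_cs _ _)))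

theorem beta_le : beta P v0 ψ ≤ v0 ⬝ᵥ v0 * (co P ψ ⬝ᵥ co P ψ) := by
  have h1 := signalg_cs (co P v0) (co P ψ)
  rw [beta, nu, signalg_co' hP, aa, hP.dot_eq, hP.pyth v0]
  linarith

theorem abs_b01_le : |b01 P v0 v1| ≤ nrm v0 * nrm v1 := by
  rw [b01, mul_comm]
  exact (abs_dot_le _ _).trans (mul_le_mul_of_nonneg_left (hP.nrm_le v0) (nrm_nonneg _))

theorem abs_nu_mul_le :
    |nu P v0 ψ * (co P v1 ⬝ᵥ co P ψ)| ≤ nrm v0 * nrm v1 * (co P ψ ⬝ᵥ co P ψ) := by
  have h1 := mul_le_mul (abs_dot_le (co P ψ) v0) (abs_dot_le v1 (co P ψ)) (abs_nonneg _)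
    (mul_nonneg (nrm_nonneg _) (nrm_nonneg _))
  rw [abs_mul, nu, hP.co_dot_co v1, ← nrm_sq]
  linarith

theorem xi_dot_v0 : xi P v0 v1 ψ ⬝ᵥ v0 = beta P v0 ψ * (v0 ⬝ᵥ v1) := by
  have h1 : P *ᵥ v0 ⬝ᵥ v0 = aa P v0 := dotProduct_comm _ _
  have h2 : co P v1 ⬝ᵥ v0 = v0 ⬝ᵥ v1 - b01 P v0 v1 := by
    rw [signalg_co hP, dotProduct_comm v1 v0, b01]
  have h3 : co P ψ ⬝ᵥ v0 = nu P v0 ψ := rfl
  simp only [xi, add_dotProduct, smul_dotProduct, smul_eq_mul, h1, h2, h3, beta]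
  ring

theorem xi_dot_v1 : xi P v0 v1 ψ ⬝ᵥ v1 = rho P v0 v1 ψ := by
  have h1 : P *ᵥ v0 ⬝ᵥ v1 = b01 P v0 v1 := dotProduct_comm _ _
  have h2 := signalg_co' hP v1 v1
  have h3 := signalg_co' hP ψ v1
  have h4 : co P ψ ⬝ᵥ co P v1 = co P v1 ⬝ᵥ co P ψ := dotProduct_comm _ _
  simp only [xi, rho, add_dotProduct, smul_dotProduct, dotProduct_add, dotProduct_smul, smul_eq_mul,
    h1, h2, h3, h4, beta]
  ring

theorem xi_dot_psi : xi P v0 v1 ψ ⬝ᵥ ψ =
    (b01 P v0 v1 * (co P ψ ⬝ᵥ co P ψ) + nu P v0 ψ * (co P v1 ⬝ᵥ co P ψ)) * (ψ ⬝ᵥ v0) := by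
  have h1 : P *ᵥ v0 ⬝ᵥ ψ = ψ ⬝ᵥ v0 - nu P v0 ψ := by
    rw [nu, signalg_co hP, dotProduct_comm (P *ᵥ v0)]
    ring
  have h2 : co P v1 ⬝ᵥ ψ = co P v1 ⬝ᵥ co P ψ := (signalg_co' hP v1 ψ).trans (dotProduct_comm _ _)
  have h3 := signalg_co' hP ψ ψ
  simp only [xi, add_dotProduct, smul_dotProduct, smul_eq_mul, h1, h2, h3, beta]
  ring

theorem xi_dot_xi : xi P v0 v1 ψ ⬝ᵥ xi P v0 v1 ψ = beta P v0 ψ * rho P v0 v1 ψ := by
  have h1 : P *ᵥ v0 ⬝ᵥ P *ᵥ v0 = aa P v0 := (hP.dot_eq v0 v0).symm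
  have h2 := hP.dot_co v0
  have h3 : ∀ w, co P w ⬝ᵥ P *ᵥ v0 = 0 := fun w => (dotProduct_comm _ _).trans (h2 w)
  have h4 : co P ψ ⬝ᵥ co P v1 = co P v1 ⬝ᵥ co P ψ := dotProduct_comm _ _
  simp only [xi, rho, add_dotProduct, smul_dotProduct, dotProduct_add, dotProduct_smul, smul_eq_mul,
    h1, h2, h3, h4, beta]
  ring

theorem mulVec_xi : P *ᵥ xi P v0 v1 ψ =
    (b01 P v0 v1 * (co P ψ ⬝ᵥ co P ψ) + nu P v0 ψ * (co P v1 ⬝ᵥ co P ψ)) • P *ᵥ v0 := by
  simp only [xi, Matrix.mulVec_add, Matrix.mulVec_smul, hP.mulVec_idem, hP.mulVec_co, smul_zero,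
    add_zero]

theorem beta_mul_le : beta P v0 ψ * (v0 ⬝ᵥ v1) ^ 2 ≤ rho P v0 v1 ψ * (v0 ⬝ᵥ v0) := by
  have h1 := signalg_cs (xi P v0 v1 ψ) v0
  rw [xi_dot_v0 hP, xi_dot_xi hP] at h1
  rcases (beta_nonneg hP v0 ψ).eq_or_lt with h | h
  · rw [← h, zero_mul]
    exact mul_nonneg (rho_nonneg hP v0 v1 ψ) (dot_self_nonneg _)
  · exact le_of_mul_le_mul_left (by linarith) h

theorem n4_xi_le : n4 (xi P v0 v1 ψ) ≤
    2 * (nrm v0 * nrm v1) * (co P ψ ⬝ᵥ co P ψ * n4 (P *ᵥ v0)) +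
      v0 ⬝ᵥ v0 * (co P ψ ⬝ᵥ co P ψ * n4 (co P v1)) +
      nrm v0 * nrm v1 * (|nu P v0 ψ| * n4 (co P ψ)) +
      v0 ⬝ᵥ v0 * (|co P v1 ⬝ᵥ co P ψ| * n4 (co P ψ)) := by
  have hh := dot_self_nonneg (co P ψ)
  have a1 : |b01 P v0 v1 * (co P ψ ⬝ᵥ co P ψ) + nu P v0 ψ * (co P v1 ⬝ᵥ co P ψ)| ≤
      2 * (nrm v0 * nrm v1) * (co P ψ ⬝ᵥ co P ψ) := by
    refine (abs_add_le _ _).trans ?_
    have := mul_le_mul_of_nonneg_right (abs_b01_le hP v0 v1) hh
    rw [abs_mul, abs_of_nonneg hh]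
    linarith only [this, hP, abs_nu_mul_le hP v0 v1 ψ]
  have a2 : |beta P v0 ψ| ≤ v0 ⬝ᵥ v0 * (co P ψ ⬝ᵥ co P ψ) := by
    rw [abs_of_nonneg (beta_nonneg hP v0 ψ)]
    exact beta_le hP v0 ψ
  have a3 : |nu P v0 ψ * b01 P v0 v1 - aa P v0 * (co P v1 ⬝ᵥ co P ψ)| ≤
      nrm v0 * nrm v1 * |nu P v0 ψ| + v0 ⬝ᵥ v0 * |co P v1 ⬝ᵥ co P ψ| := by
    refine (abs_sub _ _).trans ?_
    rw [abs_mul, abs_mul, abs_of_nonneg (aa_nonneg hP v0)]
    have b1 := mul_le_mul_of_nonneg_left (abs_b01_le hP v0 v1) (abs_nonneg (nu P v0 ψ))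
    have b2 := mul_le_mul_of_nonneg_right (aa_le hP v0) (abs_nonneg (co P v1 ⬝ᵥ co P ψ))
    linarith
  have c1 := mul_le_mul_of_nonneg_right a1 (n4_nonneg (P *ᵥ v0))
  have c2 := mul_le_mul_of_nonneg_right a2 (n4_nonneg (co P v1))
  have c3 := mul_le_mul_of_nonneg_right a3 (n4_nonneg (co P ψ))
  refine ((n4_add_le _ _).trans (add_le_add_left (n4_add_le _ _) _)).trans ?_
  rw [n4_smul, n4_smul, n4_smul]
  linarith only [c1, c2, c3]

end Pool.Agent.Work.MP_6af739_lc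
end

-- merged part: Pool.Agent.Work.MP_6af739_lc.SignMain
section
/-!
The sign lemma. Notation: n2 = v0·v0, E = v0·v1, a = a0 P v0, M = mpsi P ψ, ν0 = nu0 P v0 ψ,
Q = 1 - P, and for signs D: h = co (flip D P) ψ = flip D Q ψ (co_flip), h·h = ψ · flip D Q ψ,
nu = v0 · flip D Q ψ, f·h = v1 · flip D Q ψ, aa = v0 · flip D P v0. T := av beta.
(1) T ≥ ν0^2 (sq_le_av_bil_sq) and T ≥ av (aa * h·h) ≥ a M - √(2 U^2 a) √3 M ≥ a M / 2 (av_bil,
av_bil_var, av_self_sq, av_mul_le, 24 U^2 ≤ a). beta_mul_le gives T E^2 ≤ n2 av rho, n2 > 0. So it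
suffices to prove n2 * av (n4 xi) ≤ 100 B^3 M4 (1 + Z) E T. Use n4_xi_le, nrm v0 nrm v1 ≤ B E (hβ),
a ≤ n2 ≤ B^2 m, n2 ≤ B a, a M ≤ 2 T, M ≤ m Y^2, and av_mul_n4, av_four for the four averages:
av (h·h n4 (P v0)) ≤ 2 M * 2 B M4; av (h·h n4 f) ≤ 2 M * 2 V M4;
av (|nu| n4 h) ≤ (ν0 + 2 U √M) y, av (|f·h| n4 h) ≤ (σ M + 2 V √M) y, where y^4 = 3 μ^2 M,
μ = min Y √M; y ≤ 2 √M and y ≤ 2 Y M4. For the ν0 term: ν0 μ = Z^2 M when M > 0, so
(n2 ν0 y)^4 = 3 n2^4 ν0^2 Z^4 M^3 ≤ 3 B^3 a^3 B^2 m T Z^4 M^3 ≤ 24 B^5 m Z^4 T^4.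
The constants add up to less than 100.
-/

namespace Pool.Agent.Work.MP_6af739_lc

open Matrix Finset MeasureTheory ProbabilityTheory
open Pool.Agent.Work.MP_6a50bc_pr
open Pool.Agent.Work.MP_5c5849_an (sg av)
open scoped ENNReal

open Pool.Agent.Work.MP_5c5849_an (av_add av_sub av_const_mul av_mono av_nonneg av_mul_le)

lemma sm_nu {n2 a M ν μ y B M4 Z T : ℝ} (hn : 0 ≤ n2) (ha : 0 ≤ a) (hM : 0 ≤ M) (hB : 1 ≤ B)
    (h4 : 0 ≤ M4) (hZ : 0 ≤ Z) (hT : 0 ≤ T) (hy : y ^ 4 = 3 * μ ^ 2 * M) (hz : ν * μ = Z ^ 2 * M)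
    (h1 : n2 ≤ B * a) (h2 : n2 ≤ B ^ 2 * M4 ^ 4) (h3 : ν ^ 2 ≤ T) (h5 : a * M ≤ 3 * T) :
    n2 * ν * y ≤ 3 * B ^ 2 * M4 * Z * T := by
  refine le_of_pow_le_pow_left₀ four_ne_zero (by positivity) ?_
  calc (n2 * ν * y) ^ 4 = 3 * n2 ^ 3 * n2 * ν ^ 2 * (ν * μ) ^ 2 * M := by
        rw [mul_pow, hy]
        ring
    _ = 3 * n2 ^ 3 * n2 * ν ^ 2 * Z ^ 4 * M ^ 3 := by
        rw [hz]
        ring
    _ ≤ 3 * (B * a) ^ 3 * (B ^ 2 * M4 ^ 4) * T * Z ^ 4 * M ^ 3 := by gcongr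
    _ = 3 * B ^ 5 * M4 ^ 4 * T * Z ^ 4 * (a * M) ^ 3 := by ring
    _ ≤ 3 * B ^ 8 * M4 ^ 4 * T * Z ^ 4 * (3 * T) ^ 3 := by
        gcongr
        norm_num
    _ = _ := by ring

lemma sm_num {n2 a s ν y B M4 Z T E N U V Y σ A1 A2 A3 A4 : ℝ} (hn : 0 ≤ n2) (ha : 0 ≤ a)
    (hs : 0 ≤ s) (hν : 0 ≤ ν) (hy : 0 ≤ y) (hB : 1 ≤ B) (h4 : 1 ≤ M4) (hZ : 0 ≤ Z) (hT : 0 ≤ T)
    (hE : 0 ≤ E) (hN : 0 ≤ N) (hU : 0 ≤ U) (hV : 0 ≤ V) (hσ : 0 ≤ σ * s ^ 2)
    (c1 : A1 ≤ 2 * s ^ 2 * (2 * B * M4)) (c2 : A2 ≤ 2 * s ^ 2 * (2 * V * M4))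
    (c3 : A3 ≤ (ν + 2 * U * s) * y) (c4 : A4 ≤ (σ * s ^ 2 + 2 * V * s) * y)
    (y1 : y ≤ 2 * s) (y2 : y ≤ 2 * Y * M4) (y3 : n2 * ν * y ≤ 3 * B ^ 2 * M4 * Z * T)
    (d1 : N ≤ B * E) (d2 : n2 ≤ B * a) (d3 : U ≤ B) (d4 : n2 * V ≤ B * E)
    (d5 : n2 * (σ * Y) ≤ B * E) (d6 : a * s ^ 2 ≤ 3 * T) :
    n2 * (2 * N * A1 + n2 * A2 + N * A3 + n2 * A4) ≤ 100 * B ^ 3 * M4 * (1 + Z) * (E * T) := by
  have hB0 : 0 ≤ B := by linarith only [hB]
  have h40 : 0 ≤ M4 := by linarith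
  have k0 : n2 * s ^ 2 ≤ 3 * B * T := by
    clear * - n2 s B T a d2 d6 hB
    calc n2 * s ^ 2 ≤ B * a * s ^ 2 := by gcongr
      _ = B * (a * s ^ 2) := by ring
      _ ≤ B * (3 * T) := by gcongr
      _ = _ := by ring
  have b1 : B ^ 2 * (E * T) ≤ B ^ 2 * M4 * (E * T) := by
    gcongr
    exact le_mul_of_one_le_right (by positivity) h4
  have b2 : B ^ 2 * M4 * (E * T) ≤ B ^ 3 * M4 * (E * T) := by
    clear * - E T B M4 hB h4 hE hT
    gcongr
    norm_num
  have b3 : B ^ 3 * (E * T) ≤ B ^ 3 * M4 * (E * T) := by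
    gcongr
    exact le_mul_of_one_le_right (by positivity) h4
  have b4 : 0 ≤ B ^ 3 * M4 * (E * T) := by positivity
  have b5 : 0 ≤ B ^ 3 * M4 * Z * (E * T) := by positivity
  have t1 : n2 * (2 * N * A1) ≤ 24 * (B ^ 3 * M4 * (E * T)) := by
    clear * - n2 N A1 B M4 E T s c1 hN hn d1 hB h4 k0 hE
    calc n2 * (2 * N * A1) ≤ n2 * (2 * N * (2 * s ^ 2 * (2 * B * M4))) := by gcongr
      _ = 8 * B * M4 * N * (n2 * s ^ 2) := by ring
      _ ≤ 8 * B * M4 * (B * E) * (3 * B * T) := by gcongr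
      _ = _ := by ring
  have t2 : n2 * (n2 * A2) ≤ 12 * (B ^ 2 * M4 * (E * T)) := by
    clear * - n2 A2 M4 B E T V s c2 hn d4 h4 k0 hB hE
    calc n2 * (n2 * A2) ≤ n2 * (n2 * (2 * s ^ 2 * (2 * V * M4))) := by gcongr
      _ = 4 * M4 * (n2 * V) * (n2 * s ^ 2) := by ring
      _ ≤ 4 * M4 * (B * E) * (3 * B * T) := by gcongr
      _ = _ := by ring
  have t3 : n2 * (N * A3) ≤ 3 * (B ^ 3 * M4 * Z * (E * T)) + 12 * (B ^ 3 * (E * T)) := by
    clear * - n2 N A3 B E M4 Z T ν y U s c3 hN hn y1 hU hs d1 y3 hν hy hB hE d3 k0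
    calc n2 * (N * A3) ≤ n2 * (N * ((ν + 2 * U * s) * y)) := by gcongr
      _ = N * (n2 * ν * y) + 2 * N * U * n2 * s * y := by ring
      _ ≤ N * (n2 * ν * y) + 2 * N * U * n2 * s * (2 * s) := by gcongr
      _ = N * (n2 * ν * y) + 4 * N * U * (n2 * s ^ 2) := by ring
      _ ≤ B * E * (3 * B ^ 2 * M4 * Z * T) + 4 * (B * E) * B * (3 * B * T) := by gcongr
      _ = _ := by ring
  have t4 : n2 * (n2 * A4) ≤ 6 * (B ^ 2 * M4 * (E * T)) + 12 * (B ^ 2 * (E * T)) := by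
    clear * - n2 A4 M4 B T E s σ Y V y c4 hn y2 hσ y1 hV hs d5 h4 d4 k0 hB hE
    calc n2 * (n2 * A4) ≤ n2 * (n2 * ((σ * s ^ 2 + 2 * V * s) * y)) := by gcongr
      _ = n2 ^ 2 * (σ * s ^ 2) * y + 2 * n2 ^ 2 * V * s * y := by ring
      _ ≤ n2 ^ 2 * (σ * s ^ 2) * (2 * Y * M4) + 2 * n2 ^ 2 * V * s * (2 * s) := by gcongr
      _ = 2 * M4 * (n2 * s ^ 2) * (n2 * (σ * Y)) + 4 * (n2 * V) * (n2 * s ^ 2) := by ring
      _ ≤ 2 * M4 * (n2 * s ^ 2) * (B * E) + 4 * (B * E) * (n2 * s ^ 2) := by gcongr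
      _ ≤ 2 * M4 * (3 * B * T) * (B * E) + 4 * (B * E) * (3 * B * T) := by gcongr
      _ = _ := by ring
  have e1 : n2 * (2 * N * A1 + n2 * A2 + N * A3 + n2 * A4) =
      n2 * (2 * N * A1) + n2 * (n2 * A2) + n2 * (N * A3) + n2 * (n2 * A4) := by ring
  have e2 : 100 * B ^ 3 * M4 * (1 + Z) * (E * T) =
      100 * (B ^ 3 * M4 * (E * T)) + 100 * (B ^ 3 * M4 * Z * (E * T)) := by ring
  rw [e1, e2]
  linarith only [b1, b2, b3, b4, b5, t1, t2, t3, t4]

lemma sm_sum_nonneg {m : ℕ} {Q : Matrix (Fin m) (Fin m) ℝ} (h : IsProj Q) {w : Fin m → ℝ}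
    (hw : ∀ k, 0 ≤ w k) : 0 ≤ ∑ k, Q k k * w k :=
  sum_nonneg fun k _ => mul_nonneg (h.diag_nonneg k) (hw k)

lemma sm_sq_le {m : ℕ} {w : Fin m → ℝ} {Y : ℝ} (hY : ∀ k, |w k| ≤ Y) : w ⬝ᵥ w ≤ m * Y ^ 2 := by
  have h := sum_le_card_nsmul univ (fun k => w k * w k) (Y ^ 2) fun k _ => by
    rw [← sq, ← sq_abs]
    exact pow_le_pow_left₀ (abs_nonneg _) (hY k) 2
  rwa [card_univ, Fintype.card_fin, nsmul_eq_mul] at h

lemma sm_sum_le {m : ℕ} {Q : Matrix (Fin m) (Fin m) ℝ} (h : IsProj Q) (w : Fin m → ℝ) :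
    ∑ k, Q k k * w k ^ 2 ≤ w ⬝ᵥ w :=
  sum_le_sum fun k _ => by
    rw [← sq]
    exact mul_le_of_le_one_left (sq_nonneg _) (h.diag_le_one k)

theorem sign_main {m : ℕ} {P : Matrix (Fin m) (Fin m) ℝ} (hP : IsProj P) {v0 v1 ψ : Fin m → ℝ}
    {U V Y σ B M4 : ℝ} (h : SignHyp P v0 v1 ψ U V Y σ B) (hB : 1 ≤ B) (h4 : 0 ≤ M4)
    (h4' : M4 ^ 4 = m) :
    av (fun D => v0 ⬝ᵥ v1 * n4 (xi (flip D P) v0 v1 ψ)) ≤
      100 * B ^ 3 * M4 * (1 + zz P v0 ψ Y) * av (fun D => rho (flip D P) v0 v1 ψ) := by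
  have hQ : IsProj (1 - P) := hP.one_sub
  have hd : ∀ k, (1 - P) k k = 1 - P k k := fun k => by rw [Matrix.sub_apply, one_apply_eq]
  have hE := h.hE
  have hv0 : v0 ≠ 0 := fun e => by
    rw [e, zero_dotProduct] at hE
    exact lt_irrefl _ hE
  obtain ⟨k₀, -⟩ := Function.ne_iff.1 hv0
  have hU : 0 ≤ U := (abs_nonneg _).trans (h.hU k₀)
  have hV : 0 ≤ V := (abs_nonneg _).trans (h.hV k₀)
  have hY : 0 ≤ Y := (abs_nonneg _).trans (h.hY k₀)
  have hB0 : 0 ≤ B := by linarith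
  have hm : (1 : ℝ) ≤ m := Nat.one_le_cast.2 k₀.pos
  have h41 : 1 ≤ M4 := le_of_pow_le_pow_left₀ four_ne_zero h4 (by rwa [h4', one_pow])
  have hn : 0 < v0 ⬝ᵥ v0 := by
    rw [← nrm_sq]
    exact pow_pos (nrm_pos hv0) 2
  have eM : ∑ k, (1 - P) k k * ψ k ^ 2 = mpsi P ψ := by simp only [hd, mpsi]
  have eν : ∑ k, (1 - P) k k * (v0 k * ψ k) = nu0 P v0 ψ := by simp only [hd, nu0, mul_comm (v0 _)]
  have ea : ∑ k, P k k * (v0 k * v0 k) = a0 P v0 := by simp only [a0, sq]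
  have eMM : ∑ k, (1 - P) k k * (ψ k * ψ k) = mpsi P ψ := by simp only [← eM, sq]
  have hM : 0 ≤ mpsi P ψ := eM ▸ sm_sum_nonneg hQ fun k => sq_nonneg _
  have hν : 0 ≤ nu0 P v0 ψ := eν ▸ sm_sum_nonneg hQ fun k => mul_comm (ψ k) _ ▸ h.h01 k
  have ha : 0 ≤ a0 P v0 := sm_sum_nonneg hP fun k => sq_nonneg _
  have ha' : a0 P v0 ≤ v0 ⬝ᵥ v0 := sm_sum_le hP v0
  have hMY : mpsi P ψ ≤ m * Y ^ 2 := eM ▸ (sm_sum_le hQ ψ).trans (sm_sq_le h.hY)
  have hS0 : 0 ≤ ∑ k, (1 - P) k k * (v1 k * ψ k) :=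
    sm_sum_nonneg hQ fun k => mul_comm (ψ k) _ ▸ h.h11 k
  have hS1 : ∑ k, (1 - P) k k * (v1 k * ψ k) ≤ σ * mpsi P ψ := by
    rw [← eM, mul_sum]
    refine sum_le_sum fun k _ => ?_
    rw [mul_left_comm σ, mul_comm (v1 k)]
    exact mul_le_mul_of_nonneg_left (h.hσ k) (hQ.diag_nonneg k)
  have ehh : ∀ D v, co (flip D P) v ⬝ᵥ co (flip D P) ψ = v ⬝ᵥ flip D (1 - P) *ᵥ ψ := fun D v => by
    rw [(hP.flip D).co_dot_co, co_flip]
  have enu : ∀ D, nu (flip D P) v0 ψ = v0 ⬝ᵥ flip D (1 - P) *ᵥ ψ := fun D => by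
    rw [nu, co_flip, dotProduct_comm]
  have hhh : av (fun D => (ψ ⬝ᵥ flip D (1 - P) *ᵥ ψ) ^ 2) ≤ (2 * mpsi P ψ) ^ 2 := by
    have h1 := av_self_sq hQ ψ
    rw [eM] at h1
    linarith only [h1, sq_nonneg (mpsi P ψ)]
  have habs : ∀ D, co (flip D P) ψ ⬝ᵥ co (flip D P) ψ = |ψ ⬝ᵥ flip D (1 - P) *ᵥ ψ| := fun D => by
    rw [← ehh, abs_of_nonneg (dot_self_nonneg _)]
  set T := av fun D => beta (flip D P) v0 ψ with hT
  have hT0 : 0 ≤ T := av_nonneg fun D => beta_nonneg (hP.flip D) v0 ψ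
  have hT1 : nu0 P v0 ψ ^ 2 ≤ T := by
    rw [← eν]
    refine (sq_le_av_bil_sq _ _ _).trans (av_mono fun D => ?_)
    rw [beta, enu]
    exact le_add_of_nonneg_right (mul_nonneg (aa_nonneg (hP.flip D) v0) (dot_self_nonneg _))
  have hT2 : a0 P v0 * mpsi P ψ ≤ 3 * T := by
    clear * - m v0 P U hP v1 ψ V Y σ B h ha hM ea hhh T ehh eMM hU
    have h1 := av_bil_var hP v0 h.hU
    rw [ea] at h1
    have h2 := av_mul_le (fun D => a0 P v0 - v0 ⬝ᵥ flip D P *ᵥ v0)
      (fun D => ψ ⬝ᵥ flip D (1 - P) *ᵥ ψ) (a := a0 P v0 / 3) (by positivity) (by positivity) (by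
        refine le_trans (av_mono fun D => le_of_eq (sub_sq_comm _ _)) (h1.trans ?_)
        have h3 := mul_le_mul_of_nonneg_right h.ha ha
        have h5 : ∑ k, P k k * v0 k ^ 2 = a0 P v0 := rfl
        rw [h5]
        linarith only [h3, sq_nonneg (a0 P v0)]) hhh
    simp only [sub_mul] at h2
    rw [av_sub, av_const_mul, av_bil, eMM] at h2
    have h3 : av (fun D => (v0 ⬝ᵥ flip D P *ᵥ v0) * (ψ ⬝ᵥ flip D (1 - P) *ᵥ ψ)) ≤ T :=
      av_mono fun D => by
        rw [beta, ehh, aa]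
        exact le_add_of_nonneg_left (sq_nonneg _)
    linarith only [h2, h3]
  have hR : T * (v0 ⬝ᵥ v1) ^ 2 ≤ av (fun D => rho (flip D P) v0 v1 ψ) * (v0 ⬝ᵥ v0) := by
    rw [hT, ← Pool.Agent.Work.MP_5c5849_an.av_mul_const, ← Pool.Agent.Work.MP_5c5849_an.av_mul_const]
    exact av_mono fun D => beta_mul_le (hP.flip D) v0 v1 ψ
  obtain ⟨s, hs, es, hs'⟩ : ∃ s, 0 ≤ s ∧ s ^ 2 = mpsi P ψ ∧ √(mpsi P ψ) = s :=
    ⟨_, Real.sqrt_nonneg _, Real.sq_sqrt hM, rfl⟩
  have hμ : 0 ≤ min Y s := le_min hY hs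
  obtain ⟨y, hy, ey⟩ : ∃ y, 0 ≤ y ∧ y ^ 4 = 3 * min Y s ^ 2 * mpsi P ψ :=
    ⟨√√(3 * min Y s ^ 2 * mpsi P ψ), Real.sqrt_nonneg _, by
      clear * - Y s m P ψ hM
      rw [show (4 : ℕ) = 2 * 2 from rfl, pow_mul, Real.sq_sqrt (Real.sqrt_nonneg _),
        Real.sq_sqrt (by positivity)]⟩
  have hz : nu0 P v0 ψ * min Y s = zz P v0 ψ Y ^ 2 * mpsi P ψ := by
    clear * - m P v0 ψ Y s hs' hν hY hs hM es
    rw [zz, hs', Real.sq_sqrt (by positivity)]
    rcases hM.eq_or_lt with e | e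
    · have e2 : s = 0 := pow_eq_zero_iff two_ne_zero |>.1 (es.trans e.symm)
      rw [e2, min_eq_right hY, mul_zero, zero_div, zero_mul]
    · rw [div_mul_cancel₀ _ e.ne']
  have hh4 : av (fun D => ∑ k, co (flip D P) ψ k ^ 4) ≤ y ^ 4 := by
    simp only [co_flip]
    refine (av_four hQ h.hY).trans (le_of_eq ?_)
    rw [ey, eM]
    rcases le_total Y s with e | e
    · rw [min_eq_left e, min_eq_left (es ▸ pow_le_pow_left₀ hY e 2)]
    · rw [min_eq_right e, min_eq_right (es ▸ pow_le_pow_left₀ hs e 2), es]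
  have y1 : y ≤ 2 * s := by
    refine le_of_pow_le_pow_left₀ four_ne_zero (by positivity) ?_
    have h1 := mul_le_mul_of_nonneg_right (pow_le_pow_left₀ hμ (min_le_right Y s) 2) (sq_nonneg s)
    rw [ey, ← es]
    linarith only [h1, sq_nonneg (s ^ 2)]
  have y2 : y ≤ 2 * Y * M4 := by
    clear * - y Y M4 hY h41 s m P ψ hμ hMY hM hm ey h4'
    refine le_of_pow_le_pow_left₀ four_ne_zero (by positivity) ?_
    have h1 := mul_le_mul (pow_le_pow_left₀ hμ (min_le_left Y s) 2) hMY hM (sq_nonneg Y)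
    have h2 : 0 ≤ Y ^ 4 * m := by positivity
    rw [ey, mul_pow, h4']
    linarith only [h1, h2]
  have c1 : av (fun D => co (flip D P) ψ ⬝ᵥ co (flip D P) ψ * n4 (flip D P *ᵥ v0)) ≤
      2 * s ^ 2 * (2 * B * M4) := by
    clear * - m P ψ v0 s B M4 habs hB h41 hhh es U hP v1 V Y σ h hU ha' ha hm h4' hn
    simp only [habs]
    refine av_mul_n4 (by positivity) (by positivity) (es ▸ hhh) ((av_four hP h.hU).trans ?_)
    have h5 : ∑ k, P k k * v0 k ^ 2 = a0 P v0 := rfl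
    have h1 := mul_le_mul ((min_le_left (U ^ 2) (a0 P v0)).trans (pow_le_pow_left₀ hU h.hUB 2))
      (ha'.trans h.hn) ha (sq_nonneg B)
    have h2 : 0 ≤ B ^ 4 * m := by positivity
    rw [h5, mul_pow, h4']
    linarith only [h1, h2]
  have c2 : av (fun D => co (flip D P) ψ ⬝ᵥ co (flip D P) ψ * n4 (co (flip D P) v1)) ≤
      2 * s ^ 2 * (2 * V * M4) := by
    clear * - m P ψ v1 s V M4 habs hV h41 hhh es hQ v0 U Y σ B h hm h4'
    simp only [habs]
    simp only [co_flip]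
    refine av_mul_n4 (by positivity) (by positivity) (es ▸ hhh) ((av_four hQ h.hV).trans ?_)
    have h1 := mul_le_mul (min_le_left (V ^ 2) (∑ k, (1 - P) k k * v1 k ^ 2))
      ((sm_sum_le hQ v1).trans (sm_sq_le h.hV)) (sm_sum_nonneg hQ fun k => sq_nonneg _) (sq_nonneg V)
    have h2 : 0 ≤ V ^ 4 * m := by positivity
    rw [mul_pow, h4']
    linarith only [h1, h2]
  have c3 : av (fun D => |nu (flip D P) v0 ψ| * n4 (co (flip D P) ψ)) ≤
      (nu0 P v0 ψ + 2 * U * s) * y := by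
    clear * - m P v0 ψ U s y hν hU hs hy enu hQ v1 V Y σ B h eν eM es hh4
    refine av_mul_n4 (by positivity) hy ?_ hh4
    simp only [enu]
    refine (av_bil_sq hQ ψ h.hU).trans ?_
    rw [eν, eM, ← es]
    have h1 : 0 ≤ nu0 P v0 ψ * (U * s) := by positivity
    linarith only [h1, sq_nonneg (U * s)]
  have hσ : 0 ≤ σ * s ^ 2 := es ▸ hS0.trans hS1
  have c4 : av (fun D => |co (flip D P) v1 ⬝ᵥ co (flip D P) ψ| * n4 (co (flip D P) ψ)) ≤
      (σ * s ^ 2 + 2 * V * s) * y := by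
    clear * - m P v1 ψ σ s V y hσ hV hs hy ehh hQ v0 U Y B h hS0 hS1 eM es hh4
    refine av_mul_n4 (by positivity) hy ?_ hh4
    simp only [ehh]
    refine (av_bil_sq hQ ψ h.hV).trans ?_
    have h2 := pow_le_pow_left₀ hS0 hS1 2
    rw [← es] at h2
    rw [eM, ← es]
    have h1 : 0 ≤ σ * s ^ 2 * (V * s) := by positivity
    linarith only [h2, h1, sq_nonneg (V * s)]
  have d1 : nrm v0 * nrm v1 ≤ B * v0 ⬝ᵥ v1 := by
    refine le_of_pow_le_pow_left₀ two_ne_zero (by positivity) ?_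
    rw [mul_pow, mul_pow, nrm_sq, nrm_sq]
    refine le_trans ?_ h.hβ
    rw [mul_assoc]
    exact mul_le_mul_of_nonneg_left (sm_sq_le h.hV) hn.le
  have hZ : 0 ≤ zz P v0 ψ Y := Real.sqrt_nonneg _
  have key := sm_num hn.le ha hs hν hy hB h41 hZ hT0 hE.le
    (mul_nonneg (nrm_nonneg v0) (nrm_nonneg v1)) hU hV hσ c1 c2 c3 c4 y1 y2
    (sm_nu hn.le ha hM hB h4 hZ hT0 ey hz h.haB (h4' ▸ h.hn) hT1 hT2) d1 h.haB h.hUB h.hVB h.hYB
    (es ▸ hT2)
  have hX := av_mono fun D => n4_xi_le (hP.flip D) v0 v1 ψ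
  rw [av_add, av_add, av_add, av_const_mul, av_const_mul, av_const_mul, av_const_mul] at hX
  rw [av_const_mul]
  refine le_of_mul_le_mul_left ?_ hn
  have hK : 0 ≤ 100 * B ^ 3 * M4 * (1 + zz P v0 ψ Y) := by positivity
  have k1 := mul_le_mul_of_nonneg_left ((mul_le_mul_of_nonneg_left hX hn.le).trans key) hE.le
  have k2 := mul_le_mul_of_nonneg_left hR hK
  linarith only [k1, k2]

end Pool.Agent.Work.MP_6af739_lc
end
end

-- merged part: Pool.Agent.Work.MP_6af739_lc.QF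
section
/-!
Formula for the tangent. M = mM, P = proj Gt, E = v0·v1, ψ = ε v1 + θ E v2, xi = α g0 + β f1 + γ h.
(a) xi is in the range of M: for any v, P v = Gt z with z = (GtᵀGt)⁻¹ Gtᵀ v (proj_mulVec_eq), so
P v - θ (v0 · P v) v2 is in the range (mM_mulVec with t = 0), and v1 is (t = r, z = 0). With
h = ε f1 + θ E f2, the leftover multiple of v2 is θ (α aa - β b01 + γ nu) = 0, using
nu = E (1 - θ B02) - ε b01 with B02 = v0 · P v2 (from hθ). So proj M xi = xi (proj_mulVec).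
(b) Mᵀ (E • xi) = Mᵀ (rho • v0) by mM_transpose_mulVec: first entry xi_dot_v1; the others use
Gtᵀ xi = Gtᵀ P xi = α Gtᵀ v0 (transpose_mulVec_proj, mulVec_xi), θ E v2·xi = ψ·xi - ε rho,
xi_dot_psi and ψ·v0 = E. Then apply M (MᵀM)⁻¹.
-/

namespace Pool.Agent.Work.MP_6af739_lc

open Matrix Finset MeasureTheory ProbabilityTheory
open Pool.Agent.Work.MP_6a50bc_pr
open Pool.Agent.Work.MP_5c5849_an (sg av)
open scoped ENNReal

variable {m n : ℕ} {r θ ε : ℝ} {Gt : Matrix (Fin m) (Fin n) ℝ} {v0 v1 v2 : Fin m → ℝ}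

lemma QF_range (s : ℝ) (y : Fin m → ℝ) (hr : r ≠ 0) : ∃ z, mM r θ Gt v0 v1 v2 *ᵥ z =
    s • v1 + proj Gt *ᵥ y - (θ * (v0 ⬝ᵥ proj Gt *ᵥ y)) • v2 :=
  ⟨Fin.cons (s * r) ((Gtᵀ * Gt)⁻¹ *ᵥ (Gtᵀ *ᵥ y)), by
    rw [mM_mulVec, ← proj_mulVec_eq, mul_div_cancel_right₀ _ hr]⟩

lemma QF_psi_dot (hθ : θ * (v0 ⬝ᵥ v2) + ε = 1) :
    (ε • v1 + (θ * (v0 ⬝ᵥ v1)) • v2) ⬝ᵥ v0 = v0 ⬝ᵥ v1 := by
  rw [add_dotProduct, smul_dotProduct, smul_dotProduct, dotProduct_comm v1, dotProduct_comm v2,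
    smul_eq_mul, smul_eq_mul]
  linear_combination (v0 ⬝ᵥ v1) * hθ

lemma QF_xi_range (hr : r ≠ 0) (hθ : θ * (v0 ⬝ᵥ v2) + ε = 1) :
    ∃ z, mM r θ Gt v0 v1 v2 *ᵥ z = xi (proj Gt) v0 v1 (ε • v1 + (θ * (v0 ⬝ᵥ v1)) • v2) := by
  have hP := isProj_proj Gt
  have hψ := QF_psi_dot (v1 := v1) hθ
  obtain ⟨ψ, eψ⟩ : ∃ ψ, ψ = ε • v1 + (θ * (v0 ⬝ᵥ v1)) • v2 := ⟨_, rfl⟩
  rw [← eψ] at hψ ⊢
  obtain ⟨α, eα⟩ : ∃ α, α = b01 (proj Gt) v0 v1 * (co (proj Gt) ψ ⬝ᵥ co (proj Gt) ψ) +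
    nu (proj Gt) v0 ψ * (co (proj Gt) v1 ⬝ᵥ co (proj Gt) ψ) := ⟨_, rfl⟩
  obtain ⟨γ, eγ⟩ : ∃ γ, γ = nu (proj Gt) v0 ψ * b01 (proj Gt) v0 v1 -
    aa (proj Gt) v0 * (co (proj Gt) v1 ⬝ᵥ co (proj Gt) ψ) := ⟨_, rfl⟩
  obtain ⟨z, hz⟩ := QF_range (θ := θ) (Gt := Gt) (v0 := v0) (v1 := v1) (v2 := v2)
    (beta (proj Gt) v0 ψ + γ * ε) (α • v0 - beta (proj Gt) v0 ψ • v1 - γ • ψ) hr
  refine ⟨z, hz.trans ?_⟩
  have e1 : v0 ⬝ᵥ proj Gt *ᵥ v1 = b01 (proj Gt) v0 v1 := by
    rw [b01, hP.dot_symm, dotProduct_comm]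
  have e2 : v0 ⬝ᵥ proj Gt *ᵥ ψ = v0 ⬝ᵥ v1 - nu (proj Gt) v0 ψ := by
    rw [nu, co, sub_dotProduct, hψ, dotProduct_comm]
    ring
  have e3 : v0 ⬝ᵥ proj Gt *ᵥ (α • v0 - beta (proj Gt) v0 ψ • v1 - γ • ψ) =
      -(γ * (v0 ⬝ᵥ v1)) := by
    rw [mulVec_sub, mulVec_sub, mulVec_smul, mulVec_smul, mulVec_smul, dotProduct_sub,
      dotProduct_sub, dotProduct_smul, dotProduct_smul, dotProduct_smul, e1, e2, smul_eq_mul,
      smul_eq_mul, smul_eq_mul, ← aa, eα, eγ, beta]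
    ring
  rw [e3, xi, ← eα, ← eγ, mulVec_sub, mulVec_sub, mulVec_smul, mulVec_smul, mulVec_smul, co, co]
  generalize proj Gt *ᵥ ψ = q
  generalize beta (proj Gt) v0 ψ = β
  rw [eψ]
  module

lemma QF_exists {w : Fin m → ℝ} (hw : proj Gt *ᵥ w = w) (h0 : v0 ⬝ᵥ w = 0) :
    ∃ z, mM r θ Gt v0 v1 v2 *ᵥ z = w :=
  ⟨Fin.cons 0 ((Gtᵀ * Gt)⁻¹ *ᵥ (Gtᵀ *ᵥ w)), by
    rw [mM_mulVec, ← proj_mulVec_eq, hw, h0]
    simp⟩

theorem q_formula (hr : r ≠ 0) (hG : (Gtᵀ * Gt).det ≠ 0) (hθ : θ * (v0 ⬝ᵥ v2) + ε = 1)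
    (hM : ((mM r θ Gt v0 v1 v2)ᵀ * mM r θ Gt v0 v1 v2).det ≠ 0) :
    rho (proj Gt) v0 v1 (ε • v1 + (θ * (v0 ⬝ᵥ v1)) • v2) • proj (mM r θ Gt v0 v1 v2) *ᵥ v0 =
      (v0 ⬝ᵥ v1) • xi (proj Gt) v0 v1 (ε • v1 + (θ * (v0 ⬝ᵥ v1)) • v2) := by
  have hP := isProj_proj Gt
  have hψ := QF_psi_dot (v1 := v1) hθ
  obtain ⟨z, hz⟩ := QF_xi_range (Gt := Gt) (v1 := v1) hr hθ
  have h1 := xi_dot_v1 hP v0 v1 (ε • v1 + (θ * (v0 ⬝ᵥ v1)) • v2)
  have h2 := xi_dot_psi hP v0 v1 (ε • v1 + (θ * (v0 ⬝ᵥ v1)) • v2)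
  have h3 := mulVec_xi hP v0 v1 (ε • v1 + (θ * (v0 ⬝ᵥ v1)) • v2)
  rw [hψ] at h2
  generalize b01 (proj Gt) v0 v1 * (co (proj Gt) (ε • v1 + (θ * (v0 ⬝ᵥ v1)) • v2) ⬝ᵥ
    co (proj Gt) (ε • v1 + (θ * (v0 ⬝ᵥ v1)) • v2)) +
    nu (proj Gt) v0 (ε • v1 + (θ * (v0 ⬝ᵥ v1)) • v2) *
      (co (proj Gt) v1 ⬝ᵥ co (proj Gt) (ε • v1 + (θ * (v0 ⬝ᵥ v1)) • v2)) = α at h2 h3
  generalize rho (proj Gt) v0 v1 (ε • v1 + (θ * (v0 ⬝ᵥ v1)) • v2) = ρ at h1 ⊢
  generalize xi (proj Gt) v0 v1 (ε • v1 + (θ * (v0 ⬝ᵥ v1)) • v2) = ξ at hz h1 h2 h3 ⊢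
  rw [dotProduct_add, dotProduct_smul, dotProduct_smul, h1, smul_eq_mul, smul_eq_mul] at h2
  have h4 : Gtᵀ *ᵥ ξ = α • Gtᵀ *ᵥ v0 := by
    rw [← transpose_mulVec_proj hG, h3, mulVec_smul, transpose_mulVec_proj hG]
  have key : (mM r θ Gt v0 v1 v2)ᵀ *ᵥ (ρ • v0) =
      (mM r θ Gt v0 v1 v2)ᵀ *ᵥ ((v0 ⬝ᵥ v1) • ξ) := by
    rw [mM_transpose_mulVec, mM_transpose_mulVec]
    have a1 : v1 ⬝ᵥ ρ • v0 = v1 ⬝ᵥ (v0 ⬝ᵥ v1) • ξ := by
      rw [dotProduct_smul, dotProduct_smul, dotProduct_comm v1 ξ, h1, dotProduct_comm v1 v0,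
        smul_eq_mul, smul_eq_mul, mul_comm]
    have a2 : Gtᵀ *ᵥ (ρ • v0) - (θ * (v2 ⬝ᵥ ρ • v0)) • Gtᵀ *ᵥ v0 =
        Gtᵀ *ᵥ ((v0 ⬝ᵥ v1) • ξ) - (θ * (v2 ⬝ᵥ (v0 ⬝ᵥ v1) • ξ)) • Gtᵀ *ᵥ v0 := by
      rw [mulVec_smul, mulVec_smul, h4, dotProduct_smul, dotProduct_smul, smul_smul, ← sub_smul,
        ← sub_smul, dotProduct_comm v2 v0, dotProduct_comm v2 ξ, smul_eq_mul, smul_eq_mul]
      congr 1
      linear_combination h2 - ρ * hθ
    rw [a1, a2]
  rw [← mulVec_smul, proj_mulVec_eq, key, ← proj_mulVec_eq, mulVec_smul, ← hz, proj_mulVec hM]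

theorem proj_mM_fix (hM : ((mM r θ Gt v0 v1 v2)ᵀ * mM r θ Gt v0 v1 v2).det ≠ 0) {w : Fin m → ℝ}
    (hw : proj Gt *ᵥ w = w) (h0 : v0 ⬝ᵥ w = 0) : proj (mM r θ Gt v0 v1 v2) *ᵥ w = w := by
  obtain ⟨z, hz⟩ := QF_exists (r := r) (θ := θ) (v1 := v1) (v2 := v2) hw h0
  rw [← hz, proj_mulVec hM]

theorem exists_mM_eq {w : Fin m → ℝ} (hw : proj Gt *ᵥ w = w) (h0 : v0 ⬝ᵥ w = 0) :
    ∃ z, mM r θ Gt v0 v1 v2 *ᵥ z = w := by
  exact QF_exists hw h0

end Pool.Agent.Work.MP_6af739_lc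
end

-- merged part: Pool.Agent.Work.MP_6af739_lc.Final
section
-- merged part: Pool.Agent.Work.MP_6af739_lc.SignInt
section
/-!
The sign lemma under the integral in G, for a fixed admissible p. By mp_flip, for measurable Φ ≥ 0 the
integral of Φ equals the integral of G ↦ (sum over D of Φ (D G)) / 2^m; so it suffices to compare, for
each G with EInv (einv_flip, hZ_flip), av_D [n4 (qv_D) hdet_D] ≤ K av_D [hdet_D], where
K = min (P^21 √m) (100 (P^21)^3 M4 (1 + hZ)), and hdet ≥ 0 (hess_eq, gram_det_nonneg).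
First bound: n4 qv ≤ nrm h0 ≤ P^21 √m (n4_le_nrm, IsProj.nrm_le, hat_vz, SignHyp.hn).
Second bound: if det (hGᵀ hG) = 0 all hdet_D vanish (gram_flip, det_zero_of, hat_sc). Otherwise put
κ = det (hGᵀ hG)/(r^2 E^2) > 0, E = h0·h1 > 0: hdet_D = κ rho_D (det_formula, hat_theta, proj_flip)
and n4 (qv_D) hdet_D ≤ κ E n4 (xi_D) (q_formula and n4_smul if hdet_D ≠ 0, trivial otherwise);
conclude by sign_main.
-/

namespace Pool.Agent.Work.MP_6af739_lc

open Matrix Finset MeasureTheory ProbabilityTheory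
open Pool.Agent.Work.MP_6a50bc_pr
open Pool.Agent.Work.MP_5c5849_an (sg av)
open scoped ENNReal

variable {m n : ℕ} {b : Fin m → ℝ} {lam : ℝ} {p : ℝ × (Fin m → ℝ)} {G : Matrix (Fin m) (Fin n) ℝ}

lemma SignInt_avg {α ι : Type*} [MeasurableSpace α] {μ : Measure α} [Fintype ι] [Nonempty ι]
    (T : ι → α → α) (hT : ∀ D, MeasurePreserving (T D) μ μ) {Φ Ψ : α → ℝ≥0∞} (hΦ : Measurable Φ)
    (hΨ : Measurable Ψ) (h : ∀ a, ∑ D, Φ (T D a) ≤ ∑ D, Ψ (T D a)) :
    ∫⁻ a, Φ a ∂μ ≤ ∫⁻ a, Ψ a ∂μ := by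
  have key : ∀ F : α → ℝ≥0∞, Measurable F →
      ∫⁻ a, ∑ D, F (T D a) ∂μ = (Fintype.card ι : ℝ≥0∞) * ∫⁻ a, F a ∂μ := fun F hF => by
    rw [lintegral_finsetSum (f := fun D a => F (T D a)) _ fun D _ => hF.comp (hT D).measurable]
    simp only [fun D => (hT D).lintegral_comp hF, sum_const, card_univ, nsmul_eq_mul]
  have h1 := lintegral_mono (μ := μ) h
  rw [key Φ hΦ, key Ψ hΨ] at h1
  exact (ENNReal.mul_le_mul_iff_right (by simp) (ENNReal.natCast_ne_top _)).1 h1

lemma SignInt_det (G : Matrix (Fin m) (Fin n) ℝ) : 0 ≤ hdet b lam p G := by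
  rw [hdet, hess_eq]
  exact gram_det_nonneg _

lemma SignInt_one {P : ℝ} (hP : 1 ≤ P) (h : EInv b lam p G P) (G' : Matrix (Fin m) (Fin n) ℝ) :
    n4 (qv (Matrix.of (hA b lam p G')) b (hx n p)) ≤ P ^ 21 * √m := by
  refine (n4_le_nrm _).trans (((isProj_proj _).nrm_le _).trans ?_)
  rw [hat_vz, nrm_le_iff (by positivity), mul_pow, Real.sq_sqrt (Nat.cast_nonneg _)]
  exact h.hn

lemma SignInt_two (hb : ∀ j, 0 < b j) (hp : Adm b p) (hl : 0 < lam) {P M4 : ℝ} (hP : 1 ≤ P)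
    (h4 : 0 ≤ M4) (h4' : M4 ^ 4 = m) (h : EInv b lam p G P) :
    ∑ D : Fin m → Fin 2, n4 (qv (Matrix.of (hA b lam p (diagonal (sg D) * G))) b (hx n p)) *
        hdet b lam p (diagonal (sg D) * G) ≤
      100 * (P ^ 21) ^ 3 * M4 * (1 + hZ b lam p G P) * ∑ D : Fin m → Fin 2, hdet b lam p (diagonal (sg D) * G) := by
  have hd : ∀ G' : Matrix (Fin m) (Fin n) ℝ, hdet b lam p G' =
      ((mM p.1 (hth b lam p) (hG b p G') (h0 b p) (h1 b p) (h2 b p))ᵀ *
        mM p.1 (hth b lam p) (hG b p G') (h0 b p) (h1 b p) (h2 b p)).det := fun G' => by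
    rw [hdet, hess_eq, hat_sc hb hp]
  by_cases hG0 : ((hG b p G)ᵀ * hG b p G).det = 0
  · have : ∀ D : Fin m → Fin 2, hdet b lam p (diagonal (sg D) * G) = 0 := fun D => by
      rw [hd]
      exact det_zero_of (by rwa [hG_flip, gram_flip])
    simp [this]
  have hE : 0 < h0 b p ⬝ᵥ h1 b p := h.hE
  have hr : 0 < p.1 := hp.1
  have hκ : 0 < ((hG b p G)ᵀ * hG b p G).det / (p.1 ^ 2 * (h0 b p ⬝ᵥ h1 b p) ^ 2) :=
    div_pos ((gram_det_nonneg _).lt_of_ne' hG0) (by positivity)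
  have hGD : ∀ D : Fin m → Fin 2, ((hG b p (diagonal (sg D) * G))ᵀ * hG b p (diagonal (sg D) * G)).det ≠ 0 :=
    fun D => by rwa [hG_flip, gram_flip]
  have e1 : ∀ D : Fin m → Fin 2, hdet b lam p (diagonal (sg D) * G) =
      ((hG b p G)ᵀ * hG b p G).det / (p.1 ^ 2 * (h0 b p ⬝ᵥ h1 b p) ^ 2) *
        rho (flip D (proj (hG b p G))) (h0 b p) (h1 b p) (hpsi b lam p) := fun D => by
    have k := det_formula hr.ne' (hGD D) (hat_theta hb hp hl) (v1 := h1 b p)
    rw [← hd, hG_flip, gram_flip, proj_flip] at k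
    rw [div_mul_eq_mul_div, eq_div_iff (by positivity)]
    exact k
  have e2 : ∀ D : Fin m → Fin 2, n4 (qv (Matrix.of (hA b lam p (diagonal (sg D) * G))) b (hx n p)) *
      hdet b lam p (diagonal (sg D) * G) ≤
      ((hG b p G)ᵀ * hG b p G).det / (p.1 ^ 2 * (h0 b p ⬝ᵥ h1 b p) ^ 2) * (h0 b p ⬝ᵥ h1 b p *
        n4 (xi (flip D (proj (hG b p G))) (h0 b p) (h1 b p) (hpsi b lam p))) := fun D => by
    by_cases h0' : hdet b lam p (diagonal (sg D) * G) = 0
    · rw [h0', mul_zero]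
      exact mul_nonneg hκ.le (mul_nonneg hE.le (n4_nonneg _))
    have k := congrArg n4 (q_formula hr.ne' (hGD D) (hat_theta hb hp hl) (hd _ ▸ h0'))
    rw [n4_smul, n4_smul, abs_of_nonneg (rho_nonneg (isProj_proj _) _ _ _), abs_of_pos hE,
      ← hat_sc hb hp, hG_flip, proj_flip] at k
    rw [e1, qv, hat_vz, mul_left_comm, mul_comm (n4 _)]
    exact (congrArg _ k).le
  have k := sign_main (isProj_proj _) h (one_le_pow₀ hP) h4 h4'
  rw [av, av, ← mul_div_assoc, div_le_div_iff_of_pos_right (by positivity)] at k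
  refine (sum_le_sum fun D _ => e2 D).trans ?_
  simp only [e1]
  rw [← mul_sum _ _ (_ / _), ← mul_sum _ _ (_ / _), mul_left_comm]
  exact mul_le_mul_of_nonneg_left k hκ.le

theorem sign_int (hb : ∀ j, 0 < b j) (hp : Adm b p) (hl : 0 < lam) {P M4 : ℝ} (hP : 1 ≤ P)
    (h4 : 0 ≤ M4) (h4' : M4 ^ 4 = m) :
    ∫⁻ a, {a | EInv b lam p (Matrix.of a) P}.indicator
        (fun a => ENNReal.ofReal (n4 (qv (Matrix.of (hA b lam p (Matrix.of a))) b (hx n p)))) a *
        ENNReal.ofReal (hdet b lam p (Matrix.of a)) ∂(gm (Fin m) (Fin n)) ≤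
      ∫⁻ a, ENNReal.ofReal
          (min (P ^ 21 * √m) (100 * (P ^ 21) ^ 3 * M4 * (1 + hZ b lam p (Matrix.of a) P))) *
        ENNReal.ofReal (hdet b lam p (Matrix.of a)) ∂(gm (Fin m) (Fin n)) := by
  have mA : Measurable fun a : Fin m → Fin n → ℝ => hA b lam p (Matrix.of a) :=
    measurable_hA b lam measurable_const measurable_id
  have mD : Measurable fun a : Fin m → Fin n → ℝ => ENNReal.ofReal (hdet b lam p (Matrix.of a)) :=
    (measurable_hdet b lam measurable_const measurable_id).ennreal_ofReal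
  have mZ : Measurable fun a : Fin m → Fin n → ℝ => hZ b lam p (Matrix.of a) P :=
    measurable_hZ b lam measurable_const measurable_id P
  refine SignInt_avg _ mp_flip (((continuous_n4.measurable.comp
    (measurable_qv b mA measurable_const)).ennreal_ofReal.indicator
      (measurableSet_einv b lam measurable_const measurable_id P)).mul mD)
    ((measurable_const.min ((mZ.const_add 1).const_mul _)).ennreal_ofReal.mul mD) fun a => ?_
  change ∑ D : Fin m → Fin 2, {a | EInv b lam p (Matrix.of a) P}.indicator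
        (fun a => ENNReal.ofReal (n4 (qv (Matrix.of (hA b lam p (Matrix.of a))) b (hx n p)))) _ *
        ENNReal.ofReal (hdet b lam p (diagonal (sg D) * Matrix.of a)) ≤
      ∑ D : Fin m → Fin 2, ENNReal.ofReal (min (P ^ 21 * √m)
        (100 * (P ^ 21) ^ 3 * M4 * (1 + hZ b lam p (diagonal (sg D) * Matrix.of a) P))) *
        ENNReal.ofReal (hdet b lam p (diagonal (sg D) * Matrix.of a))
  by_cases h : EInv b lam p (Matrix.of a) P
  swap
  · refine (sum_eq_zero fun D _ => ?_).trans_le zero_le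
    rw [Set.indicator_of_notMem, zero_mul]
    exact fun k => h ((einv_flip D P).1 k)
  have hZ0 : 0 ≤ hZ b lam p (Matrix.of a) P := Real.sqrt_nonneg _
  have hK : 0 ≤ min (P ^ 21 * √m) (100 * (P ^ 21) ^ 3 * M4 * (1 + hZ b lam p (Matrix.of a) P)) :=
    le_min (by positivity) (by positivity)
  simp only [hZ_flip, ← ENNReal.ofReal_mul hK]
  rw [← ENNReal.ofReal_sum_of_nonneg fun D _ => mul_nonneg hK (SignInt_det _), ← mul_sum]
  refine (sum_congr rfl fun D _ => ?_).trans_le (((ENNReal.ofReal_sum_of_nonneg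
    (f := fun D : Fin m → Fin 2 => n4 (qv (Matrix.of (hA b lam p (diagonal (sg D) * Matrix.of a))) b (hx n p)) *
      hdet b lam p (diagonal (sg D) * Matrix.of a))
    fun D _ => mul_nonneg (n4_nonneg _) (SignInt_det _)).symm).trans_le
      (ENNReal.ofReal_le_ofReal ?_))
  · rw [Set.indicator_of_mem, ENNReal.ofReal_mul (n4_nonneg _)]
    · rfl
    · exact (einv_flip D P).2 h
  · rw [min_mul_of_nonneg _ _ (sum_nonneg fun D _ => SignInt_det _)]
    refine le_min ?_ (SignInt_two hb hp hl hP h4 h4' h)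
    rw [mul_sum]
    exact sum_le_sum fun D _ => mul_le_mul_of_nonneg_right (SignInt_one hP h _) (SignInt_det _)

end Pool.Agent.Work.MP_6af739_lc
end

-- merged part: Pool.Agent.Work.MP_6af739_lc.ZB2
section
/-!
Lower bound for mpsi. T = trace of hess⁻¹ ≥ 0 (Good.inv_hess_le), τ = P^2 T + P^8/m, α = al, a = min α 1.
Let S be the set of k with α/P ≤ |ω_k|. From gg_N and gg_om_abs: card S * P^8 α^2 ≥ m α^2/256 - m α^2/P^2,
so card S ≥ m/P^9. For k in S: ψ_k^2 ≥ h1_k^2/σ^2 ≥ h1_k^2/P^8 (hpsi_apply, gg_hsig), h1_k = u/s, so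
(1 - P_kk) ψ_k^2 ≥ P^(-8) u^2/(s^2 + τ); s^2 = u^2/(b ω)^2 ≤ u^2 P^2/α^2 (om_eq) and τ ≤ τ 4 P^2 u^2/a^2
(gg_u_lo), so u^2/(s^2+τ) ≥ a^2/(4 P^2 (a^2/α^2 + τ)).
-/

namespace Pool.Agent.Work.MP_6af739_lc

open Matrix Finset MeasureTheory ProbabilityTheory
open Pool.Agent.Work.MP_6a50bc_pr
open Pool.Agent.Work.MP_5c5849_an (sg av)
open scoped ENNReal

variable {m n : ℕ} {b : Fin m → ℝ} {lam : ℝ} {p : ℝ × (Fin m → ℝ)} {G : Matrix (Fin m) (Fin n) ℝ}

lemma ZB2_one {s u β α a P τ d w : ℝ} (hs : 0 < s) (hβ : 1 ≤ β) (hα : 0 < α) (ha : 0 ≤ a)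
    (hP : 0 < P) (hτ : 0 ≤ τ) (h1 : α / P ≤ |u / (s * β)|) (h2 : a / (2 * P) ≤ |u|)
    (h3 : s ^ 2 / (s ^ 2 + τ) ≤ d) (h4 : 1 ≤ P ^ 4 * w) :
    a ^ 2 ≤ 4 * P ^ 10 * ((a / α) ^ 2 + τ) * (d * (w * (u / s)) ^ 2) := by
  have h0 : 0 < s ^ 2 + τ := by positivity
  have e1 : (α * s) ^ 2 ≤ P ^ 2 * u ^ 2 := by
    rw [abs_div, abs_of_pos (by positivity : 0 < s * β), div_le_div_iff₀ hP (by positivity)] at h1
    rw [← sq_abs u, ← mul_pow]
    refine pow_le_pow_left₀ (by positivity) ?_ 2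
    linarith only [h1, hβ, hα, hs, mul_le_mul_of_nonneg_left hβ (mul_pos hα hs).le]
  have e2 : a ^ 2 ≤ 4 * P ^ 2 * u ^ 2 := by
    rw [div_le_iff₀ (by positivity)] at h2
    have := pow_le_pow_left₀ ha h2 2
    rw [mul_pow, sq_abs] at this
    linarith only [this]
  have e3 : a ^ 2 * (s ^ 2 + τ) ≤ 4 * P ^ 2 * ((a / α) ^ 2 + τ) * u ^ 2 := by
    have f1 : a ^ 2 * s ^ 2 = (a / α) ^ 2 * (α * s) ^ 2 := by field_simp
    have f2 := mul_le_mul_of_nonneg_left e1 (sq_nonneg (a / α))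
    have f3 := mul_le_mul_of_nonneg_right e2 hτ
    have f4 : 0 ≤ (a / α) ^ 2 * (P ^ 2 * u ^ 2) := by positivity
    linarith only [f1, f2, f3, f4]
  have e4 : u ^ 2 ≤ P ^ 8 * (d * (w * (u / s)) ^ 2) * (s ^ 2 + τ) := by
    rw [div_le_iff₀ h0] at h3
    have f1 : (P ^ 4 * w) ^ 2 * u ^ 2 = P ^ 8 * (w * (u / s)) ^ 2 * s ^ 2 := by field_simp
    have f2 := mul_le_mul_of_nonneg_right (one_le_pow₀ (n := 2) h4) (sq_nonneg u)
    have f3 := mul_le_mul_of_nonneg_left h3 (by positivity : 0 ≤ P ^ 8 * (w * (u / s)) ^ 2)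
    linarith only [f1, f2, f3]
  have e5 := mul_le_mul_of_nonneg_left e4 (by positivity : 0 ≤ 4 * P ^ 2 * ((a / α) ^ 2 + τ))
  refine le_of_mul_le_mul_right ?_ h0
  linarith only [e3, e5]

lemma ZB2_card {ω : Fin m → ℝ} {α P : ℝ} (hα : 0 < α) (hP : 10 ^ 20 ≤ P)
    (h1 : ∀ k, |ω k| ≤ P ^ 4 * α) (h2 : m * α ^ 2 / 256 ≤ ω ⬝ᵥ ω) :
    m / P ^ 9 ≤ ((univ.filter fun k => α / P ≤ |ω k|).card : ℝ) := by
  have hP0 : 0 < P := lt_of_lt_of_le (by norm_num) hP
  have h3 : ω ⬝ᵥ ω ≤ ∑ k, ((α / P) ^ 2 + if α / P ≤ |ω k| then (P ^ 4 * α) ^ 2 else 0) := by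
    refine Finset.sum_le_sum fun k _ => ?_
    rw [← sq, ← sq_abs]
    split_ifs with h
    · exact (pow_le_pow_left₀ (abs_nonneg _) (h1 k) 2).trans (le_add_of_nonneg_left (sq_nonneg _))
    · rw [add_zero]
      exact pow_le_pow_left₀ (abs_nonneg _) (not_le.1 h).le 2
  rw [Finset.sum_add_distrib, ← Finset.sum_filter, Finset.sum_const, Finset.sum_const, card_univ,
    Fintype.card_fin, nsmul_eq_mul, nsmul_eq_mul] at h3
  generalize ((univ.filter fun k => α / P ≤ |ω k|).card : ℝ) = c at h3 ⊢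
  have hm : (0 : ℝ) ≤ m := Nat.cast_nonneg m
  have h4 : m / 256 * α ^ 2 ≤ (m / P ^ 2 + c * P ^ 8) * α ^ 2 := by
    have e : (m / P ^ 2 + c * P ^ 8) * α ^ 2 = m * (α / P) ^ 2 + c * (P ^ 4 * α) ^ 2 := by
      field_simp
    linarith only [h2, h3, e]
  have h5 := le_of_mul_le_mul_right h4 (by positivity)
  have h6 : (m : ℝ) / P ^ 2 ≤ m / 512 := div_le_div_of_nonneg_left hm (by norm_num) (by linarith only [hP, mul_nonneg_of_nonpos_of_nonpos (Mathlib.Tactic.Linarith.sub_nonpos_of_le hP) (Mathlib.Tactic.Linarith.sub_nonpos_of_le hP)])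
  have h7 : (m : ℝ) / P ≤ m / 512 := div_le_div_of_nonneg_left hm (by norm_num) (by linarith only [hP])
  have h8 : m / P ≤ c * P ^ 8 := by linarith only [h5, h6, h7]
  rw [div_le_iff₀ hP0] at h8
  rw [div_le_iff₀ (by positivity)]
  linarith only [h8]

theorem mpsi_ge {P : ℝ} (hP : Par m (n + 1) P) (hb : Box b) (hl : 0 < lam) (hp : Adm b p)
    (h : GG P lam b (Matrix.of (hA b lam p G)) (hx n p)) (hk : ∀ k, ¬BadK b p G P k) :
    m * min (al m (n + 1) lam) 1 ^ 2 ≤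
      P ^ 20 * ((min (al m (n + 1) lam) 1 / al m (n + 1) lam) ^ 2 +
        P ^ 2 * (hess (Matrix.of (hA b lam p G)) b (hx n p))⁻¹.trace + P ^ 8 / m) *
        mpsi (proj (hG b p G)) (hpsi b lam p) := by
  have hP0 : 0 < P := lt_of_lt_of_le (by norm_num) hP.big
  have hb0 : ∀ j, 0 < b j := fun j => one_pos.trans_le (hb j).1
  have hα := hP.al_pos hl
  have ha : 0 ≤ min (al m (n + 1) lam) 1 := le_min hα.le zero_le_one
  have hT : 0 ≤ (hess (Matrix.of (hA b lam p G)) b (hx n p))⁻¹.trace :=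
    Finset.sum_nonneg fun i _ => by
      simpa using ((h.good.mono (by norm_num)).inv_hess_le hP.m_pos hb h.int (Pi.single i 1)).1
  have hE : 0 ≤ h0 b p ⬝ᵥ h1 b p := by
    rw [h0_dot_h1 (lam := lam) (G := G) hb0 hp]
    exact le_trans (by positivity) (gg_E_lo hP hb hl h)
  have hσ := gg_hsig hP hb hl hp h
  have hσ0 : 0 < hsig b lam p := one_pos.trans_le one_le_hsig
  have hd : ∀ k, 0 ≤ (1 - proj (hG b p G) k k) * hpsi b lam p k ^ 2 := fun k =>
    mul_nonneg (sub_nonneg.2 ((isProj_proj _).diag_le_one k)) (sq_nonneg _)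
  rw [add_assoc]
  generalize hτ : P ^ 2 * (hess (Matrix.of (hA b lam p G)) b (hx n p))⁻¹.trace + P ^ 8 / m = τ
  have hτ0 : 0 ≤ τ := by rw [← hτ]; positivity
  have h2 := g1_sum (f := fun k => 4 * P ^ 10 * ((min (al m (n + 1) lam) 1 / al m (n + 1) lam) ^ 2
      + τ) * ((1 - proj (hG b p G) k k) * hpsi b lam p k ^ 2))
    (fun k => mul_nonneg (by positivity) (hd k)) (sq_nonneg (min (al m (n + 1) lam) 1))
    (ZB2_card hα hP.big (gg_om_abs hP hb hl h) (gg_N hP hb hl h)) fun k hk' => by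
      have k1 := (Finset.mem_filter.1 hk').2
      have k2 := gg_u_lo hP hb hl h k1
      have k3 := one_sub_diag_ge hP hb hl hp h (hk k)
      rw [om_eq hb0 h.int, hat_slack, hat_mulVec] at k1
      rw [hat_mulVec] at k2
      rw [hτ] at k3
      rw [hpsi_apply hb0 hp]
      refine ZB2_one (hp.2 k) (hb k).1 hα ha hP0 hτ0 k1 k2 k3 ?_
      have k4 : 1 ≤ P ^ 4 * (hsig b lam p)⁻¹ := by
        rw [← div_eq_mul_inv, one_le_div hσ0]
        exact hσ
      have k5 : 0 ≤ hth b lam p * (h0 b p ⬝ᵥ h1 b p) / (hs b p k * b k) :=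
        div_nonneg (mul_nonneg (hth_pos hl).le hE) (mul_pos (hp.2 k) (hb0 k)).le
      exact k4.trans (mul_le_mul_of_nonneg_left (le_add_of_nonneg_right k5) (by positivity))
  rw [← Finset.mul_sum, div_mul_eq_mul_div, div_le_iff₀ (by positivity)] at h2
  have h3 : 0 ≤ P ^ 19 * ((min (al m (n + 1) lam) 1 / al m (n + 1) lam) ^ 2 + τ) *
      mpsi (proj (hG b p G)) (hpsi b lam p) :=
    mul_nonneg (by positivity) (Finset.sum_nonneg fun k _ => hd k)
  have h4 := mul_le_mul_of_nonneg_right (le_trans (by norm_num : (4 : ℝ) ≤ 10 ^ 20) hP.big) h3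
  rw [mpsi] at h4 ⊢
  linarith only [h2, h4]

end Pool.Agent.Work.MP_6af739_lc
end

-- merged part: Pool.Agent.Work.MP_6af739_lc.EInvOf
section
/-!
The good event implies the sign-invariant event. det: GG gives Inj, so det hess ≠ 0 (Inj.hess_det,
hess_eq, hat_sc) and det_zero_of. Fields of SignHyp with a = min α 1, r = p.1, n2 = h0·h0, E = h0·h1:
ψ_k = w_k h1_k with 1/σ ≤ w_k (hpsi_apply; E > 0), h1_k h0_k ≥ 0. a0 ≥ (n - 1) r^2/10^19 by a0_ge
(trace_proj; a fixed vector w of proj hG orthogonal to h0 is sc z by exists_mM_eq and hat_sc, then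
Good.vz_low, hat_vz, nrm_hx). r ≥ a/(4P), n + 1 ≥ P^10, m ≤ P (n+1), n2 ≤ |A x|^2 ≤ 50 m r^2,
r ≤ 150, r ≤ 2 10^8 a, E ≥ m α a/(8 P), σ ≤ P^4, P ≥ 10^20.
-/

namespace Pool.Agent.Work.MP_6af739_lc

open Matrix Finset MeasureTheory ProbabilityTheory
open Pool.Agent.Work.MP_6a50bc_pr
open Pool.Agent.Work.MP_5c5849_an (sg av)
open scoped ENNReal

lemma einv_num_a {P N r a A0 : ℝ} (hP : 10 ^ 20 ≤ P) (hN : P ^ 10 ≤ N) (ha : 0 ≤ a)
    (hr : a / (4 * P) ≤ r) (hA : r ^ 2 / 10 ^ 19 * (N - 2) ≤ A0) : 24 * (P ^ 2 * a) ^ 2 ≤ A0 := by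
  have hP0 : 0 < P := lt_of_lt_of_le (by norm_num) hP
  have hP1 : 1 ≤ P := le_trans (by norm_num) hP
  have h1 : a ≤ 4 * P * r := by rwa [div_le_iff₀' (by positivity)] at hr
  have h2 : a ^ 2 ≤ (4 * P * r) ^ 2 := pow_le_pow_left₀ ha h1 2
  have h6 : 1 ≤ P ^ 6 := one_le_pow₀ hP1
  have h4 : (10 ^ 20 : ℝ) ^ 4 ≤ P ^ 4 := pow_le_pow_left₀ (by norm_num) hP 4
  have h5 : 384 * 10 ^ 19 * P ^ 6 ≤ N - 2 := by
    have : (10 ^ 20 : ℝ) ^ 4 * P ^ 6 ≤ P ^ 4 * P ^ 6 := mul_le_mul_of_nonneg_right h4 (by positivity)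
    have e : P ^ 4 * P ^ 6 = P ^ 10 := by ring
    linarith only [hN, h6, this]
  calc 24 * (P ^ 2 * a) ^ 2 = 24 * P ^ 4 * a ^ 2 := by ring
    _ ≤ 24 * P ^ 4 * (4 * P * r) ^ 2 := by gcongr
    _ = r ^ 2 / 10 ^ 19 * (384 * 10 ^ 19 * P ^ 6) := by ring
    _ ≤ r ^ 2 / 10 ^ 19 * (N - 2) := by gcongr
    _ ≤ A0 := hA

lemma einv_num_b {P N M r n2 A0 : ℝ} (hP : 10 ^ 20 ≤ P) (hN : P ^ 10 ≤ N) (hM : M ≤ P * N)
    (hn : n2 ≤ 50 * M * r ^ 2) (hA : r ^ 2 / 10 ^ 19 * (N - 2) ≤ A0) : n2 ≤ P ^ 21 * A0 := by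
  have hP0 : 0 < P := lt_of_lt_of_le (by norm_num) hP
  have hP1 : 1 ≤ P := le_trans (by norm_num) hP
  have h10 : P ≤ P ^ 10 := le_self_pow₀ hP1 (by norm_num)
  have hN4 : N / 2 ≤ N - 2 := by linarith only [hP, hN, h10]
  have hN0 : 0 ≤ N := by linarith only [hP, hN, h10]
  have h4 : (10 ^ 20 : ℝ) ^ 20 ≤ P ^ 20 := pow_le_pow_left₀ (by norm_num) hP 20
  have h5 : (10 ^ 21 : ℝ) ≤ P ^ 20 := le_trans (by norm_num) h4
  calc n2 ≤ 50 * M * r ^ 2 := hn
    _ ≤ 50 * (P * N) * r ^ 2 := by gcongr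
    _ = 10 ^ 21 * P * (r ^ 2 / 10 ^ 19 * (N / 2)) := by ring
    _ ≤ P ^ 20 * P * (r ^ 2 / 10 ^ 19 * (N - 2)) := by gcongr
    _ = P ^ 21 * (r ^ 2 / 10 ^ 19 * (N - 2)) := by ring
    _ ≤ P ^ 21 * A0 := by gcongr

variable {m n : ℕ} {b : Fin m → ℝ} {lam : ℝ} {p : ℝ × (Fin m → ℝ)} {G : Matrix (Fin m) (Fin n) ℝ}

variable {P : ℝ} (hP : Par m (n + 1) P) (hb : Box b) (hl : 0 < lam) (hp : Adm b p)
  (h : GG P lam b (Matrix.of (hA b lam p G)) (hx n p))
include hP hb hl hp h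

theorem gg_det_mM :
    ((mM p.1 (hth b lam p) (hG b p G) (h0 b p) (h1 b p) (h2 b p))ᵀ *
      mM p.1 (hth b lam p) (hG b p G) (h0 b p) (h1 b p) (h2 b p)).det ≠ 0 := by
  have hb' : ∀ j, 0 < b j := fun j => lt_of_lt_of_le one_pos (hb j).1
  have hI : Inj (Matrix.of (hA b lam p G)) :=
    Good.inj hP.m_pos (h.good.mono (by norm_num))
  have := hI.hess_det h.int
  rwa [hess_eq, hat_sc hb' hp] at this

theorem gg_det_hG : ((hG b p G)ᵀ * hG b p G).det ≠ 0 := by
  exact fun h0 => gg_det_mM hP hb hl hp h (det_zero_of h0)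

theorem einv_of_gg : EInv b lam p G P := by
  have hb' : ∀ j, 0 < b j := fun j => lt_of_lt_of_le one_pos (hb j).1
  have hP0 : 0 < P := lt_of_lt_of_le (by norm_num) hP.big
  have hP1 : 1 ≤ P := le_trans (by norm_num) hP.big
  have hm : 0 < m := hP.m_pos
  have hm' : (0 : ℝ) < m := Nat.cast_pos.2 hm
  have hα : 0 < al m (n + 1) lam := hP.al_pos hl
  have hg : Good (Matrix.of (hA b lam p G)) (44 / 100) := h.good.mono (by norm_num)
  have hr : 0 < p.1 := hp.1
  have hx2 : hx n p ⬝ᵥ hx n p = p.1 ^ 2 := by rw [← nrm_sq, nrm_hx hr.le]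
  have hrlo := gg_r_lo hP hb hl h
  have hrhi := gg_r_hi hP hb hl h
  have hElo := gg_E_lo hP hb hl h
  have hσ := gg_hsig hP hb hl hp h
  have hσ1 : 1 ≤ hsig b lam p := one_le_hsig
  have hV := gg_h1 hP hb hl hp h
  have hY := gg_hpsi hP hb hl hp h
  have hu := h.u
  have hop := h.good.1 (hx n p)
  rw [nrm_hx hr.le] at hrlo hrhi
  rw [← h0_dot_h1 hb' hp] at hElo
  rw [hat_mulVec] at hu hop
  rw [hx2] at hop
  have hA0 : p.1 ^ 2 / 10 ^ 19 * (((n + 1 : ℕ) : ℝ) - 2) ≤ a0 (proj (hG b p G)) (h0 b p) := by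
    have h1 := a0_ge (isProj_proj (hG b p G)) (v0 := h0 b p) (κ0 := p.1 ^ 2 / 10 ^ 19)
      (by positivity) (fun w hw h0w => by
        obtain ⟨z, hz⟩ := exists_mM_eq (r := p.1) (θ := hth b lam p) (v1 := h1 b p)
          (v2 := h2 b p) hw h0w
        have := hg.vz_low hm hb h.int z
        rwa [hat_sc hb' hp, hz, hat_vz, hx2] at this)
    rw [trace_proj (gg_det_hG hP hb hl hp h), Fintype.card_fin] at h1
    have e : ((n + 1 : ℕ) : ℝ) - 2 = (n : ℝ) - 1 := by push_cast; ring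
    rwa [e]
  have h0le : ∀ k, |h0 b p k| ≤ |p.1 * p.2 k| := fun k => by
    rw [h0, abs_div, abs_of_pos (hb' k)]
    exact div_le_self (abs_nonneg _) (hb k).1
  have hn2 : h0 b p ⬝ᵥ h0 b p ≤ 50 * m * p.1 ^ 2 := by
    refine le_trans ?_ hop
    rw [← nrm_sq, ← nrm_sq]
    exact pow_le_pow_left₀ (nrm_nonneg _) (nrm_mono h0le) 2
  generalize hαe : al m (n + 1) lam = α at *
  have ha0 : 0 < min α 1 := lt_min hα one_pos
  have ha1 : min α 1 ≤ 1 := min_le_right _ _
  unfold EInv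
  rw [hαe]
  generalize min α 1 = a at *
  have hE : 0 < h0 b p ⬝ᵥ h1 b p := lt_of_lt_of_le (by positivity) hElo
  have hw : ∀ k, ∃ w, 1 ≤ hsig b lam p * w ∧ 0 ≤ w ∧ hpsi b lam p k = w * h1 b p k := fun k => by
    have h1 : 0 ≤ hth b lam p * (h0 b p ⬝ᵥ h1 b p) / (hs b p k * b k) :=
      div_nonneg (mul_nonneg (hth_pos hl).le hE.le) (mul_pos (hp.2 k) (hb' k)).le
    have h2 : 0 < hsig b lam p := lt_of_lt_of_le one_pos hσ1
    refine ⟨_, ?_, add_nonneg (inv_pos.2 h2).le h1, hpsi_apply hb' hp k⟩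
    rw [mul_add, mul_inv_cancel₀ h2.ne']
    exact le_add_of_nonneg_right (mul_nonneg h2.le h1)
  have hn3 : h0 b p ⬝ᵥ h0 b p ≤ P * m * a ^ 2 :=
    calc h0 b p ⬝ᵥ h0 b p ≤ 50 * m * p.1 ^ 2 := hn2
      _ ≤ 50 * m * (2 * 10 ^ 8 * a) ^ 2 := by gcongr
      _ = 2 * 10 ^ 18 * m * a ^ 2 := by ring
      _ ≤ P * m * a ^ 2 := by clear * - a m P n hP hm ha0; gcongr; exact le_trans (by norm_num) hP.big
  have ha2 : a ^ 2 ≤ a := by linarith only [hr, ha1, hrhi, mul_nonneg_of_nonpos_of_nonpos (le_of_lt (Mathlib.Tactic.Linarith.sub_neg_of_lt hr)) (Mathlib.Tactic.Linarith.sub_nonpos_of_le ha1), mul_nonneg_of_nonpos_of_nonpos (Mathlib.Tactic.Linarith.sub_nonpos_of_le hrhi) (Mathlib.Tactic.Linarith.sub_nonpos_of_le ha1)]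
  have hn4 : h0 b p ⬝ᵥ h0 b p ≤ P * m * a := hn3.trans (by gcongr)
  have hE2 : m * α * a ≤ P ^ 2 * (h0 b p ⬝ᵥ h1 b p) := by
    clear * - m α a P b p hP0 hElo n hP hE
    rw [div_le_iff₀' (by positivity)] at hElo
    refine hElo.trans ?_
    rw [sq]
    gcongr
    exact le_trans (by norm_num) hP.big
  have hpw : ∀ i j : ℕ, i ≤ j → P ^ i ≤ P ^ j := fun i j hij => pow_le_pow_right₀ hP1 hij
  refine ⟨fun k => (h0le k).trans (hu k), hV, hY, fun k => ?_, fun k => ?_, fun k => ?_, hE,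
    einv_num_a hP.big hP.pow ha0.le hrlo hA0, ?_, einv_num_b hP.big hP.pow hP.rat hn2 hA0,
    ?_, ?_, ?_, ?_⟩
  · obtain ⟨w, -, hw0, e⟩ := hw k
    rw [e, mul_assoc]
    refine mul_nonneg hw0 ?_
    rw [h0, h1, div_mul_div_comm]
    exact div_nonneg (mul_self_nonneg _) (mul_pos (hp.2 k) (hb' k)).le
  · obtain ⟨w, -, hw0, e⟩ := hw k
    rw [e, mul_assoc]
    exact mul_nonneg hw0 (mul_self_nonneg _)
  · obtain ⟨w, hw1, hw0, e⟩ := hw k
    rw [e]
    calc w * h1 b p k * h1 b p k = 1 * (w * h1 b p k ^ 2) := by ring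
      _ ≤ hsig b lam p * w * (w * h1 b p k ^ 2) := by clear * - w m b p k lam hw1 hw0; gcongr
      _ = hsig b lam p * (w * h1 b p k) ^ 2 := by ring
  · calc P ^ 2 * a ≤ P ^ 21 * 1 := by gcongr; norm_num
      _ = P ^ 21 := mul_one _
  · calc h0 b p ⬝ᵥ h0 b p ≤ P * m * a := hn4
      _ ≤ P * m * 1 := by gcongr
      _ = P ^ 1 * m := by ring
      _ ≤ P ^ 42 * m := by gcongr; norm_num
      _ = (P ^ 21) ^ 2 * m := by ring
  · calc h0 b p ⬝ᵥ h0 b p * m * (P ^ 5 * α) ^ 2 ≤ P * m * a ^ 2 * m * (P ^ 5 * α) ^ 2 := by clear * - P α m b p a hn3 hm hP0 hα; gcongr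
      _ = P ^ 11 * (m * α * a) ^ 2 := by ring
      _ ≤ P ^ 38 * (P ^ 2 * (h0 b p ⬝ᵥ h1 b p)) ^ 2 := by clear * - P m α a b p hP1 hm hα ha0 hE2 hP0; gcongr; norm_num
      _ = (P ^ 21) ^ 2 * (h0 b p ⬝ᵥ h1 b p) ^ 2 := by ring
  · calc h0 b p ⬝ᵥ h0 b p * (P ^ 5 * α) ≤ P * m * a * (P ^ 5 * α) := by gcongr
      _ = P ^ 6 * (m * α * a) := by ring
      _ ≤ P ^ 19 * (P ^ 2 * (h0 b p ⬝ᵥ h1 b p)) := by clear * - P m α a b p hP1 hE2 hm hα ha0 hP0; gcongr; norm_num
      _ = P ^ 21 * (h0 b p ⬝ᵥ h1 b p) := by ring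
  · calc h0 b p ⬝ᵥ h0 b p * (hsig b lam p * (P ^ 12 * α))
        ≤ P * m * a * (P ^ 4 * (P ^ 12 * α)) := by clear * - m b p P a lam α hn4 hσ hP0 hα hσ1 hm ha0; gcongr
      _ = P ^ 17 * (m * α * a) := by ring
      _ ≤ P ^ 19 * (P ^ 2 * (h0 b p ⬝ᵥ h1 b p)) := by clear * - P m α a b p hP1 hE2 hm hα ha0 hP0; gcongr; norm_num
      _ = P ^ 21 * (h0 b p ⬝ᵥ h1 b p) := by ring

end Pool.Agent.Work.MP_6af739_lc
end

-- merged part: Pool.Agent.Work.MP_6af739_lc.ZB3
section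
/-!
Pointwise bound for Z. M = mpsi > 0 (mpsi_ge), μ = min Y √M with Y = P^12 α, Z^2 = ν0 μ/M.
nu0_le with Q = proj (sc) = proj mM (hat_sc, proj_mM_fix, trace_proj, gg_det_mM, gg_det_hG):
ν0 ≤ νW + 2 U √M, U = P^2 a ≤ P^2, so Z^2 ≤ 2 P^2 + νW μ/M. νW ≤ P^14 a^2 nn, as
ψ_k h0_k = w_k u^2/(s b) ≤ P^7 P^4 a^2/s and 1 + s ≤ P^3 (gg_w, GG.u, gg_s_hi). a nn ≤ 4 P phi1 (gg_dir).
Let τ1 = (a/α)^2 + P^2 T, τ2 = P^8/m. If τ2 ≤ τ1: μ ≤ Y, 1/M ≤ 2 P^20 τ1/(m a^2) and
α τ1 ≤ a P^2 (1 + (α/a) T), so νW μ/M ≤ 8 P^49 (phi1/m)(1 + (α/a) T). Otherwise μ ≤ √M and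
1/√M ≤ 2 P^14/(m a), so νW μ/M ≤ 8 P^29 phi1/m. Finish with √(x y) ≤ (x + y)/2.
-/

namespace Pool.Agent.Work.MP_6af739_lc

open Matrix Finset MeasureTheory ProbabilityTheory
open Pool.Agent.Work.MP_6a50bc_pr
open Pool.Agent.Work.MP_5c5849_an (sg av)
open scoped ENNReal

variable {m n : ℕ} {b : Fin m → ℝ} {lam : ℝ} {p : ℝ × (Fin m → ℝ)} {G : Matrix (Fin m) (Fin n) ℝ}

theorem zb3_real {P m α a T M ν0 νW N φ : ℝ} (hP : 10 ≤ P) (hm : 0 < m) (ha0 : 0 < a)
    (ha1 : a ≤ 1) (haα : a ≤ α) (hT : 0 ≤ T) (hN : 0 ≤ N)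
    (h1 : m * a ^ 2 ≤ P ^ 20 * ((a / α) ^ 2 + P ^ 2 * T + P ^ 8 / m) * M)
    (h2 : ν0 ≤ νW + 2 * (P ^ 2 * a) * √M) (h3 : νW ≤ P ^ 14 * a ^ 2 * N)
    (h4 : a * N ≤ 4 * P * φ) :
    √(ν0 * min (P ^ 12 * α) √M / M) ≤ P ^ 25 * (2 + φ / m + α / a * T) := by
  have hP0 : 0 < P := by linarith only [hP]
  have hP1 : 1 ≤ P := by linarith only [hP]
  have hα : 0 < α := ha0.trans_le haα
  obtain hφ : 0 ≤ φ := by
    have : 0 ≤ 4 * P * φ := le_trans (by positivity) h4
    exact nonneg_of_mul_nonneg_right this (by positivity)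
  obtain hM : 0 < M := by
    by_contra hc
    have hc : M ≤ 0 := not_lt.1 hc
    have e1 : P ^ 20 * ((a / α) ^ 2 + P ^ 2 * T + P ^ 8 / m) * M ≤ 0 :=
      mul_nonpos_of_nonneg_of_nonpos (by positivity) hc
    have e2 : 0 < m * a ^ 2 := by positivity
    linarith only [h1, e1, e2]
  obtain ⟨R, hR⟩ : ∃ R, R = √M := ⟨_, rfl⟩
  have hR0 : 0 < R := hR ▸ Real.sqrt_pos.2 hM
  have hRR : R * R = M := hR ▸ Real.mul_self_sqrt hM.le
  rw [← hR] at h2 ⊢
  obtain ⟨μ, hμ⟩ : ∃ μ, μ = min (P ^ 12 * α) R := ⟨_, rfl⟩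
  have hμ0 : 0 ≤ μ := hμ ▸ le_min (by positivity) hR0.le
  have hμ1 : μ ≤ P ^ 12 * α := hμ ▸ min_le_left _ _
  have hμ2 : μ ≤ R := hμ ▸ min_le_right _ _
  rw [← hμ]
  obtain ⟨x, hx⟩ : ∃ x, x = φ / m := ⟨_, rfl⟩
  obtain ⟨y, hy⟩ : ∃ y, y = α / a * T := ⟨_, rfl⟩
  have hx0 : 0 ≤ x := hx ▸ div_nonneg hφ hm.le
  have hy0 : 0 ≤ y := by rw [hy]; positivity
  have hφx : φ = m * x := by rw [hx]; field_simp
  rw [← hx, ← hy]
  obtain k1 : νW ≤ 4 * P ^ 15 * a * (m * x) := by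
    calc νW ≤ P ^ 14 * a * (a * N) := by linarith only [h3]
      _ ≤ P ^ 14 * a * (4 * P * φ) := by gcongr
      _ = 4 * P ^ 15 * a * (m * x) := by rw [hφx]; ring
  obtain k2 : m * a * μ ≤ 2 * P ^ 34 * (1 + y) * M := by
    clear * - P m a α T μ y M h1 hP hM ha0 hα haα hy hP1 hμ1 hμ0 hT R hm hRR hR0 hμ2 hy0
    rcases le_total (P ^ 8 / m) ((a / α) ^ 2 + P ^ 2 * T) with hc | hc
    · have e1 : m * a ^ 2 ≤ P ^ 20 * (2 * ((a / α) ^ 2 + P ^ 2 * T)) * M := by
        refine h1.trans ?_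
        gcongr
        linarith only [hc]
      obtain e2 : α * ((a / α) ^ 2 + P ^ 2 * T) ≤ a * (P ^ 2 * (1 + y)) := by
        clear * - α a ha0 hα haα T y hy P hP1
        have f1 : α * (a / α) ^ 2 = a * (a / α) := by field_simp
        have f2 : a / α ≤ 1 := (div_le_one hα).2 haα
        have f3 : α * T = a * y := by rw [hy]; field_simp
        have f4 : 1 ≤ P ^ 2 := one_le_pow₀ hP1
        have f5 : a * (a / α) ≤ a * P ^ 2 := mul_le_mul_of_nonneg_left (f2.trans f4) ha0.le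
        calc α * ((a / α) ^ 2 + P ^ 2 * T) = a * (a / α) + P ^ 2 * (α * T) := by
              rw [← f1]; ring
          _ ≤ a * P ^ 2 + P ^ 2 * (a * y) := by rw [f3]; linarith only [f5]
          _ = a * (P ^ 2 * (1 + y)) := by ring
      refine le_of_mul_le_mul_left ?_ ha0
      calc a * (m * a * μ) = m * a ^ 2 * μ := by ring
        _ ≤ (P ^ 20 * (2 * ((a / α) ^ 2 + P ^ 2 * T)) * M) * (P ^ 12 * α) := by gcongr
        _ = 2 * P ^ 32 * M * (α * ((a / α) ^ 2 + P ^ 2 * T)) := by ring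
        _ ≤ 2 * P ^ 32 * M * (a * (P ^ 2 * (1 + y))) := by gcongr
        _ = a * (2 * P ^ 34 * (1 + y) * M) := by ring
    · have e1 : m * a ^ 2 ≤ P ^ 20 * (2 * (P ^ 8 / m)) * M := by
        refine h1.trans ?_
        gcongr
        linarith only [hc]
      obtain e2 : (m * a) ^ 2 ≤ (2 * P ^ 14 * R) ^ 2 := by
        clear * - m a P M R e1 hm hM hP hRR
        calc (m * a) ^ 2 = m * (m * a ^ 2) := by ring
          _ ≤ m * (P ^ 20 * (2 * (P ^ 8 / m)) * M) := by gcongr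
          _ = 2 * (P ^ 28 * M) := by field_simp
          _ ≤ 4 * (P ^ 28 * M) := by gcongr; norm_num
          _ = (2 * P ^ 14 * R) ^ 2 := by rw [← hRR]; ring
      have e3 : m * a ≤ 2 * P ^ 14 * R := le_of_sq_le_sq e2 (by positivity)
      have e4 : P ^ 14 ≤ P ^ 34 := pow_le_pow_right₀ hP1 (by norm_num)
      calc m * a * μ ≤ 2 * P ^ 14 * R * R := by gcongr
        _ = 2 * P ^ 14 * 1 * M := by rw [← hRR]; ring
        _ ≤ 2 * P ^ 34 * (1 + y) * M := by gcongr; linarith only [hy0]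
  obtain k3 : ν0 * μ / M ≤ 2 * P ^ 2 + 8 * P ^ 49 * (x * (1 + y)) := by
    clear * - ν0 μ M P x y hM R m a νW h2 k1 hμ0 k2 hP hx0 ha1 hR0 hμ2 hRR
    rw [div_le_iff₀ hM]
    calc ν0 * μ ≤ (4 * P ^ 15 * a * (m * x) + 2 * (P ^ 2 * a) * R) * μ := by gcongr; linarith only [h2, k1]
      _ = 4 * P ^ 15 * x * (m * a * μ) + 2 * P ^ 2 * a * R * μ := by ring
      _ ≤ 4 * P ^ 15 * x * (2 * P ^ 34 * (1 + y) * M) + 2 * P ^ 2 * 1 * R * R := by gcongr
      _ = (2 * P ^ 2 + 8 * P ^ 49 * (x * (1 + y))) * M := by rw [← hRR]; ring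
  refine Real.sqrt_le_iff.2 ⟨by positivity, k3.trans ?_⟩
  have e1 : 1 + 4 * (x * (1 + y)) ≤ (2 + x + y) ^ 2 := by linarith only [hx0, hy0, sq_nonneg (x - (1 + y)), sq_nonneg (x - ((1 : ℝ) + y))]
  obtain e2 : 2 * P ^ 2 ≤ P ^ 50 := by
    clear * - P hP1 hP
    have f1 : P ^ 3 ≤ P ^ 50 := pow_le_pow_right₀ hP1 (by norm_num)
    have f2 : 2 * P ^ 2 ≤ P * P ^ 2 := by gcongr; linarith only [hP]
    calc 2 * P ^ 2 ≤ P * P ^ 2 := f2
      _ = P ^ 3 := by ring
      _ ≤ P ^ 50 := f1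
  obtain e3 : 8 * P ^ 49 ≤ 4 * P ^ 50 := by
    clear * - P hP
    calc 8 * P ^ 49 = 4 * (2 * P ^ 49) := by ring
      _ ≤ 4 * (P * P ^ 49) := by gcongr; linarith only [hP]
      _ = 4 * P ^ 50 := by ring
  calc 2 * P ^ 2 + 8 * P ^ 49 * (x * (1 + y)) ≤ P ^ 50 + 4 * P ^ 50 * (x * (1 + y)) := by clear * - P x y e2 e3 hx0 hy0; gcongr
    _ = P ^ 50 * (1 + 4 * (x * (1 + y))) := by ring
    _ ≤ P ^ 50 * (2 + x + y) ^ 2 := by gcongr
    _ = (P ^ 25 * (2 + x + y)) ^ 2 := by ring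

theorem zb3_nn_nonneg (hp : Adm b p) : 0 ≤ nn (Matrix.of (hA b lam p G)) b (hx n p) := by
  refine sum_nonneg fun k _ => div_nonneg (sub_nonneg.2 ((isProj_proj _).diag_le_one k)) ?_
  have := hat_inter (n := n) (lam := lam) (G := G) hp k
  positivity

theorem zb3_nuW {P : ℝ} (hP : Par m (n + 1) P) (hb : Box b) (hl : 0 < lam) (hp : Adm b p)
    (h : GG P lam b (Matrix.of (hA b lam p G)) (hx n p)) :
    nu0 (proj (sc (Matrix.of (hA b lam p G)) b (hx n p))) (h0 b p) (hpsi b lam p) ≤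
      P ^ 14 * min (al m (n + 1) lam) 1 ^ 2 * nn (Matrix.of (hA b lam p G)) b (hx n p) := by
  have hb0 : ∀ j, 0 < b j := fun j => one_pos.trans_le (hb j).1
  have hP1 : (10 : ℝ) ≤ P := le_trans (by norm_num) hP.big
  rw [nu0, nn, mul_sum]
  refine sum_le_sum fun k _ => ?_
  have hd := sub_nonneg.2 ((isProj_proj (sc (Matrix.of (hA b lam p G)) b (hx n p))).diag_le_one k)
  have hw := gg_w hP hb hl hp h k
  have hu := h.u k
  have hs' := gg_s_hi hP hb hl h k
  rw [hat_mulVec] at hu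
  beta_reduce at hu
  rw [hat_slack] at hs' ⊢
  rw [hpsi_apply hb0 hp k]
  generalize (hsig b lam p)⁻¹ + hth b lam p * (h0 b p ⬝ᵥ h1 b p) / (hs b p k * b k) = w at hw
  generalize 1 - proj (sc (Matrix.of (hA b lam p G)) b (hx n p)) k k = d at hd
  generalize min (al m (n + 1) lam) 1 = a at hu
  have hs0 := hp.2 k
  have hbk := (hb k).1
  simp only [h0, h1]
  generalize hs b p k = s at hs0 hs'
  generalize p.1 * p.2 k = u at hu
  generalize b k = β at hbk
  have hP0 : 0 < P := by linarith only [hP1]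
  have e1 : u ^ 2 ≤ (P ^ 2 * a) ^ 2 := by
    rw [← sq_abs u]
    exact pow_le_pow_left₀ (abs_nonneg u) hu 2
  have e2 : 1 + s ≤ P ^ 3 := by linarith only [hP1, hs', sq_nonneg P, mul_nonneg_of_nonpos_of_nonpos (Mathlib.Tactic.Linarith.sub_nonpos_of_le (sq_nonneg P)) (Mathlib.Tactic.Linarith.sub_nonpos_of_le hP1), mul_nonneg_of_nonpos_of_nonpos (Mathlib.Tactic.Linarith.sub_nonpos_of_le hP1) (Mathlib.Tactic.Linarith.sub_nonpos_of_le hP1)]
  have e3 : w * (u / s) * (u / β) ≤ P ^ 14 * a ^ 2 * (1 / (s * (1 + s))) := by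
    clear * - w u s β P a hbk hs0 hw e1 hP1 e2
    calc w * (u / s) * (u / β) = w * (u ^ 2 / (s * β)) := by field_simp
      _ ≤ P ^ 7 * (u ^ 2 / (s * β)) := by gcongr
      _ ≤ P ^ 7 * ((P ^ 2 * a) ^ 2 / (s * 1)) := by gcongr
      _ = P ^ 11 * a ^ 2 * (1 / (s * (1 + s))) * (1 + s) := by field_simp
      _ ≤ P ^ 11 * a ^ 2 * (1 / (s * (1 + s))) * P ^ 3 := by gcongr
      _ = P ^ 14 * a ^ 2 * (1 / (s * (1 + s))) := by ring
  calc d * (w * (u / s) * (u / β)) ≤ d * (P ^ 14 * a ^ 2 * (1 / (s * (1 + s)))) := by gcongr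
    _ = P ^ 14 * a ^ 2 * (d / (s * (1 + s))) := by ring

theorem hZ_le {P : ℝ} (hP : Par m (n + 1) P) (hb : Box b) (hl : 0 < lam) (hp : Adm b p)
    (h : GG P lam b (Matrix.of (hA b lam p G)) (hx n p)) (hk : ∀ k, ¬BadK b p G P k) :
    hZ b lam p G P ≤ P ^ 25 * (2 + phi1 (Matrix.of (hA b lam p G)) b (hx n p) / m +
      al m (n + 1) lam / min (al m (n + 1) lam) 1 *
        (hess (Matrix.of (hA b lam p G)) b (hx n p))⁻¹.trace) := by
  have hb0 : ∀ j, 0 < b j := fun j => one_pos.trans_le (hb j).1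
  have hP1 : (10 : ℝ) ≤ P := le_trans (by norm_num) hP.big
  have hα := hP.al_pos hl
  have hm : (0 : ℝ) < m := by exact_mod_cast hP.m_pos
  have ha0 : 0 < min (al m (n + 1) lam) 1 := lt_min hα one_pos
  have hE := einv_of_gg hP hb hl hp h
  have hd1 := gg_det_mM hP hb hl hp h
  have hd2 := gg_det_hG hP hb hl hp h
  have hT : 0 ≤ (hess (Matrix.of (hA b lam p G)) b (hx n p))⁻¹.trace := by
    rw [hess_eq]
    exact (gram_posSemidef' _).inv.trace_nonneg
  have hN := zb3_nn_nonneg (n := n) (lam := lam) (G := G) hp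
  have h2 : nu0 (proj (hG b p G)) (h0 b p) (hpsi b lam p) ≤
      nu0 (proj (sc (Matrix.of (hA b lam p G)) b (hx n p))) (h0 b p) (hpsi b lam p) +
        2 * (P ^ 2 * min (al m (n + 1) lam) 1) * √(mpsi (proj (hG b p G)) (hpsi b lam p)) := by
    refine nu0_le (isProj_proj _) (isProj_proj _) ?_ ?_ hE.hU (by positivity) hE.h01
    · intro w hw h0
      rw [hat_sc hb0 hp]
      exact proj_mM_fix hd1 hw h0
    · rw [hat_sc hb0 hp, trace_proj hd1, trace_proj hd2]
      simp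
  refine zb3_real hP1 hm ha0 (min_le_right _ _) (min_le_left _ _) hT hN
    (mpsi_ge hP hb hl hp h hk) h2 (zb3_nuW hP hb hl hp h) ?_
  rw [phi1, ← mul_assoc]
  exact mul_le_mul_of_nonneg_right (gg_dir hP hb hl h) hN

end Pool.Agent.Work.MP_6af739_lc
end

-- merged part: Pool.Agent.Work.MP_6af739_lc.PerLam
section
/-!
The expected 4-norm of the tangent at a fixed parameter. Take ν from master. Good implies Dom (Good.dom,
Good.mono), so the left side is II of F0 = indicator of Good times ofReal (n4 qv) (good_rot, qv_rot).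
For admissible p: F0 ≤ ofReal (1200 √m) * 1_(not GG) + 1_EInv ofReal (n4 qv) (Good.n4_qv_le, hat_inter,
einv_of_gg). sign_int bounds II of the last term by II of ofReal (min ..) (lintegral_mono_ae). Next
ofReal (min ..) ≤ ofReal (P^21 √m) * (1_(not GG) + sum_k 1_(BadK k)) + ofReal (100 P^63 M4 (1 + 2 P^25))
+ ofReal (100 P^88 M4/m) * 1_GG phi1 + ofReal (100 P^88 M4 α/a) * 1_GG trace by hZ_le
(ENNReal.ofReal_add_le). Use PL1: √m ≤ m, m √m exp (-P) ≤ 1, (α/a) 10^8 √(n+1) a/lam = 10^8 (n+1)/m ≤ P,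
1 ≤ M4.
-/

namespace Pool.Agent.Work.MP_6af739_lc

open Matrix Finset MeasureTheory ProbabilityTheory
open Pool.Agent.Work.MP_6a50bc_pr
open Pool.Agent.Work.MP_5c5849_an (sg av)
open scoped ENNReal

lemma PerLam_mul {t y K : ℝ} {x : ℝ≥0∞} (ht : 0 ≤ t) (hx : x ≤ ENNReal.ofReal y)
    (h : t * y ≤ K) : ENNReal.ofReal t * x ≤ ENNReal.ofReal K := by
  refine (mul_le_mul_right hx _).trans ?_
  rw [← ENNReal.ofReal_mul ht]
  exact ENNReal.ofReal_le_ofReal h

lemma PerLam_six {K P : ℝ} (hK : 0 ≤ K) (hP : 6 ≤ P) {x1 x2 x3 x4 x5 x6 : ℝ≥0∞}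
    (h1 : x1 ≤ ENNReal.ofReal K) (h2 : x2 ≤ ENNReal.ofReal K) (h3 : x3 ≤ ENNReal.ofReal K)
    (h4 : x4 ≤ ENNReal.ofReal K) (h5 : x5 ≤ ENNReal.ofReal K) (h6 : x6 ≤ ENNReal.ofReal K) :
    x1 + (x2 + (x3 + (x4 + (x5 + x6)))) ≤ ENNReal.ofReal (P * K) := by
  refine (add_le_add h1 (add_le_add h2 (add_le_add h3 (add_le_add h4 (add_le_add h5 h6))))).trans ?_
  rw [← ENNReal.ofReal_add hK hK, ← ENNReal.ofReal_add hK (by positivity),
    ← ENNReal.ofReal_add hK (by positivity), ← ENNReal.ofReal_add hK (by positivity),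
    ← ENNReal.ofReal_add hK (by positivity)]
  exact ENNReal.ofReal_le_ofReal (by linarith only [hK, hP, mul_nonneg_of_nonpos_of_nonpos (Mathlib.Tactic.Linarith.sub_nonpos_of_le hK) (Mathlib.Tactic.Linarith.sub_nonpos_of_le hP)])

lemma PerLam_pt {m n : ℕ} {b : Fin m → ℝ} {lam P M4 : ℝ} (hP : Par m (n + 1) P) (hb : Box b)
    (hl : 0 < lam) (h4 : 0 ≤ M4) (z : (ℝ × (Fin m → ℝ)) × (Fin m → Fin n → ℝ)) (hz : Adm b z.1) :
    ENNReal.ofReal
        (min (P ^ 21 * √m) (100 * (P ^ 21) ^ 3 * M4 * (1 + hZ b lam z.1 (Matrix.of z.2) P))) ≤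
      ENNReal.ofReal (P ^ 21 * √m) * (GGs n P lam b)ᶜ.indicator 1 z +
      (ENNReal.ofReal (P ^ 21 * √m) * (∑ k, {z : (ℝ × (Fin m → ℝ)) × (Fin m → Fin n → ℝ) |
        BadK b z.1 (Matrix.of z.2) P k}.indicator 1 z) +
      (ENNReal.ofReal (100 * P ^ 63 * M4 * (1 + 2 * P ^ 25)) * 1 +
      (ENNReal.ofReal (100 * P ^ 88 * M4 / m) * (GGs n P lam b).indicator (fun z =>
        ENNReal.ofReal (phi1 (Matrix.of (hA b lam z.1 (Matrix.of z.2))) b (hx n z.1))) z +
      ENNReal.ofReal (100 * P ^ 88 * M4 * (al m (n + 1) lam / min (al m (n + 1) lam) 1)) *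
        (GGs n P lam b).indicator (fun z => ENNReal.ofReal
          (hess (Matrix.of (hA b lam z.1 (Matrix.of z.2))) b (hx n z.1))⁻¹.trace) z))) := by
  have hP1 : 1 ≤ P := ggf_one hP
  have hal := hP.al_pos hl
  by_cases hg : z ∈ GGs n P lam b
  swap
  · refine le_add_right ?_
    rw [Set.indicator_of_mem (Set.mem_compl hg), Pi.one_apply, mul_one]
    exact ENNReal.ofReal_le_ofReal (min_le_left _ _)
  refine le_add_left ?_
  by_cases hk : ∃ k, BadK b z.1 (Matrix.of z.2) P k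
  · obtain ⟨k, hk⟩ := hk
    refine le_add_right ((ENNReal.ofReal_le_ofReal (min_le_left _ _)).trans ?_)
    refine le_mul_of_one_le_right' (le_trans (le_of_eq ?_) (single_le_sum
      (f := fun k => {z : (ℝ × (Fin m → ℝ)) × (Fin m → Fin n → ℝ) |
        BadK b z.1 (Matrix.of z.2) P k}.indicator
        (1 : (ℝ × (Fin m → ℝ)) × (Fin m → Fin n → ℝ) → ℝ≥0∞) z)
      (fun _ _ => zero_le) (mem_univ k)))
    exact (Set.indicator_of_mem (s := {z : (ℝ × (Fin m → ℝ)) × (Fin m → Fin n → ℝ) |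
      BadK b z.1 (Matrix.of z.2) P k}) hk
        (1 : (ℝ × (Fin m → ℝ)) × (Fin m → Fin n → ℝ) → ℝ≥0∞)).symm
  refine le_add_left ?_
  have h1 := hZ_le hP hb hl hz hg (not_exists.1 hk)
  rw [Set.indicator_of_mem hg, Set.indicator_of_mem hg, mul_one,
    ← ENNReal.ofReal_mul (by positivity), ← ENNReal.ofReal_mul (by positivity)]
  refine le_trans (ENNReal.ofReal_le_ofReal ((min_le_right _ _).trans ?_))
    (ENNReal.ofReal_add_le.trans (add_le_add le_rfl ENNReal.ofReal_add_le))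
  refine (mul_le_mul_of_nonneg_left (add_le_add_right h1 1) (by positivity)).trans (le_of_eq ?_)
  ring

theorem per_lam {m n : ℕ} {b : Fin m → ℝ} {lam P M4 : ℝ} (hP : Par m (n + 1) P) (hb : Box b)
    (hl : 0 < lam) (hlog : Real.log (3 + 3600 * (lam * √(n + 1 : ℕ))) ≤ P) (h4 : 0 ≤ M4)
    (h4' : M4 ^ 4 = m) :
    ∫⁻ q, {q : (Fin m → Fin (n + 1) → ℝ) × (Fin (n + 1) → ℝ) |
        Good (Matrix.of q.1) (45 / 100)}.indicator
          (fun q => ENNReal.ofReal (n4 (qv (Matrix.of q.1) b (X (Matrix.of q.1) b (lam • q.2))))) q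
        ∂((gm (Fin m) (Fin (n + 1))).prod (gv (Fin (n + 1)))) ≤
      ENNReal.ofReal (P ^ 92 * M4) := by
  have hb0 : ∀ j, 0 < b j := fun j => zero_lt_one.trans_le (hb j).1
  obtain ⟨ν, -, hν1, hν2⟩ := master (n := n) hb0 hl
  have hν : MasterP n b lam ν := ⟨hν1, hν2⟩
  have hP1 : 1 ≤ P := ggf_one hP
  have hm : 0 < m := hP.m_pos
  have hm1 : (1 : ℝ) ≤ m := by exact_mod_cast hm
  have hal := hP.al_pos hl
  have hbig := hP.big
  obtain ⟨F, hF⟩ : ∃ F : (Fin m → Fin (n + 1) → ℝ) × (Fin (n + 1) → ℝ) → ℝ≥0∞, F =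
      {q : (Fin m → Fin (n + 1) → ℝ) × (Fin (n + 1) → ℝ) | Good (Matrix.of q.1) (45 / 100)}.indicator
        fun q => ENNReal.ofReal (n4 (qv (Matrix.of q.1) b q.2)) := ⟨_, rfl⟩
  have hF1 : ∀ q, Good (Matrix.of q.1) (45 / 100) →
      F q = ENNReal.ofReal (n4 (qv (Matrix.of q.1) b q.2)) := fun q hq => by
    rw [hF]
    exact Set.indicator_of_mem (s := {q : (Fin m → Fin (n + 1) → ℝ) × (Fin (n + 1) → ℝ) |
      Good (Matrix.of q.1) (45 / 100)}) hq _
  have hF2 : ∀ q, ¬ Good (Matrix.of q.1) (45 / 100) → F q = 0 := fun q hq => by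
    rw [hF]
    exact Set.indicator_of_notMem (s := {q : (Fin m → Fin (n + 1) → ℝ) × (Fin (n + 1) → ℝ) |
      Good (Matrix.of q.1) (45 / 100)}) hq _
  have hFm : Measurable F := by
    rw [hF]
    exact (continuous_n4.measurable.comp
      (measurable_qv b measurable_fst measurable_snd)).ennreal_ofReal.indicator
      (measurableSet_good measurable_fst _)
  have hFi : Invar F := fun O hO a x => by
    by_cases hq : Good (Matrix.of a) (45 / 100)
    · rw [hF1 (a, x) hq, hF1 (rot O a, Oᵀ *ᵥ x) ((good_rot hO _).2 hq)]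
      exact congrArg (fun v => ENNReal.ofReal (n4 v)) (qv_rot hO x)
    · rw [hF2 (a, x) hq, hF2 (rot O a, Oᵀ *ᵥ x) fun h => hq ((good_rot hO _).1 h)]
  refine le_trans (lintegral_mono fun q => ?_) ((hν2 F hFm hFi).trans_le ?_)
  · by_cases hq : Good (Matrix.of q.1) (45 / 100)
    · rw [Set.indicator_of_mem (s := {q : (Fin m → Fin (n + 1) → ℝ) × (Fin (n + 1) → ℝ) |
        Good (Matrix.of q.1) (45 / 100)}) hq,
        Set.indicator_of_mem (s := {q : (Fin m → Fin (n + 1) → ℝ) × (Fin (n + 1) → ℝ) |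
        Dom (Matrix.of q.1) b (lam • q.2)}) ((hq.mono (by norm_num)).dom hm hb _),
        hF1 (q.1, X (Matrix.of q.1) b (lam • q.2)) hq]
    · rw [Set.indicator_of_notMem (s := {q : (Fin m → Fin (n + 1) → ℝ) × (Fin (n + 1) → ℝ) |
        Good (Matrix.of q.1) (45 / 100)}) hq]
      exact zero_le
  have hN : Measurable ((GGs n P lam b)ᶜ.indicator
      (1 : (ℝ × (Fin m → ℝ)) × (Fin m → Fin n → ℝ) → ℝ≥0∞)) :=
    measurable_one.indicator (measurableSet_GGs n P lam b).compl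
  have hB : ∀ k, Measurable ({z : (ℝ × (Fin m → ℝ)) × (Fin m → Fin n → ℝ) |
      BadK b z.1 (Matrix.of z.2) P k}.indicator
        (1 : (ℝ × (Fin m → ℝ)) × (Fin m → Fin n → ℝ) → ℝ≥0∞)) := fun k =>
    measurable_one.indicator (measurableSet_badK b measurable_fst measurable_snd P k)
  have hPh : Measurable ((GGs n P lam b).indicator fun z =>
      ENNReal.ofReal (phi1 (Matrix.of (hA b lam z.1 (Matrix.of z.2))) b (hx n z.1))) :=
    (measurable_phi1 b (measurable_hA b lam measurable_fst measurable_snd)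
      (measurable_hx measurable_fst)).ennreal_ofReal.indicator (measurableSet_GGs n P lam b)
  have s1 : II b lam ν (fun z => F (hA b lam z.1 (Matrix.of z.2), hx n z.1)) ≤
      II b lam ν fun z => ENNReal.ofReal (1200 * √m) * (GGs n P lam b)ᶜ.indicator 1 z +
        {a | EInv b lam z.1 (Matrix.of a) P}.indicator (fun a =>
          ENNReal.ofReal (n4 (qv (Matrix.of (hA b lam z.1 (Matrix.of a))) b (hx n z.1)))) z.2 := by
    refine II_mono hν fun z hz => ?_
    by_cases hq : Good (Matrix.of (hA b lam z.1 (Matrix.of z.2))) (45 / 100)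
    · rw [hF1 (hA b lam z.1 (Matrix.of z.2), hx n z.1) hq]
      by_cases hg : z ∈ GGs n P lam b
      · rw [Set.indicator_of_mem (s := {a | EInv b lam z.1 (Matrix.of a) P})
          (einv_of_gg hP hb hl hz hg)]
        exact le_add_self
      · refine le_add_right ?_
        rw [Set.indicator_of_mem (Set.mem_compl hg), Pi.one_apply, mul_one]
        exact ENNReal.ofReal_le_ofReal ((hq.mono (by norm_num)).n4_qv_le hm hb (hat_inter hz))
    · rw [hF2 (hA b lam z.1 (Matrix.of z.2), hx n z.1) hq]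
      exact zero_le
  have s2 : II b lam ν (fun z : (ℝ × (Fin m → ℝ)) × (Fin m → Fin n → ℝ) =>
      {a | EInv b lam z.1 (Matrix.of a) P}.indicator (fun a =>
          ENNReal.ofReal (n4 (qv (Matrix.of (hA b lam z.1 (Matrix.of a))) b (hx n z.1)))) z.2) ≤
      II b lam ν fun z : (ℝ × (Fin m → ℝ)) × (Fin m → Fin n → ℝ) => ENNReal.ofReal
        (min (P ^ 21 * √m) (100 * (P ^ 21) ^ 3 * M4 * (1 + hZ b lam z.1 (Matrix.of z.2) P))) :=
    lintegral_mono_ae (hν1.mono fun p hp => sign_int hb0 hp hl hP1 h4 h4')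
  have s3 := II_mono hν (PerLam_pt hP hb hl h4)
  rw [II_add (hN.const_mul _), II_add ((Finset.measurable_fun_sum _ fun k _ => hB k).const_mul _),
    II_add measurable_const, II_add (hPh.const_mul _), II_const_mul, II_const_mul, II_const_mul,
    II_const_mul, II_const_mul, II_sum hB] at s3
  rw [II_add (hN.const_mul _), II_const_mul] at s1
  refine s1.trans ((add_le_add le_rfl (s2.trans s3)).trans ?_)
  have hM : 1 ≤ M4 := by
    by_contra h
    have := pow_lt_one₀ h4 (not_le.1 h) (n := 4) (by norm_num)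
    linarith only [h4', hm1, this]
  have hsq : √(m : ℝ) ≤ m := Real.sqrt_le_self_iff.2 (Or.inr hm1)
  have hsm : √(m : ℝ) * (1 / m) ≤ 1 := by
    rw [mul_one_div, div_le_one (by positivity)]
    exact hsq
  have hK : ∀ (j : ℕ) (c : ℝ), j ≤ 90 → c ≤ 10 ^ 20 → c * P ^ j * M4 ≤ P ^ 91 * M4 := by
    intro j c hj hc
    refine mul_le_mul_of_nonneg_right ?_ h4
    rw [pow_succ' P 90]
    exact mul_le_mul (hc.trans hbig) (pow_le_pow_right₀ hP1 hj) (by positivity) (by positivity)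
  have hK' : P ^ 21 ≤ P ^ 91 * M4 := le_trans (by linarith only [hM, hP1, pow_pos (one_pos.trans_le hP1) 21, mul_nonneg_of_nonpos_of_nonpos (Mathlib.Tactic.Linarith.sub_nonpos_of_le hM) (le_of_lt (Mathlib.Tactic.Linarith.sub_neg_of_lt (pow_pos (LT.lt.trans_le one_pos hP1) (21 : ℕ))))])
    (hK 21 1 (by norm_num) (by norm_num))
  rw [pow_succ' P 91, mul_assoc P]
  refine PerLam_six (by positivity) (le_trans (by norm_num) hbig)
    (PerLam_mul (by positivity) (II_notGG hν hP hb hl) ?_)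
    (PerLam_mul (by positivity) (II_notGG hν hP hb hl) ?_)
    (PerLam_mul (y := m * Real.exp (-P)) (by positivity) ?_ ?_)
    (PerLam_mul (y := 1) (by positivity) ((II_one hν).trans_eq ENNReal.ofReal_one.symm) ?_)
    (PerLam_mul (by positivity) (II_phi1 hν hP hb hl hlog) ?_)
    (PerLam_mul (by positivity) (II_trace hν hP hb hl) ?_)
  · refine le_trans ?_ (hK 0 1200 (by norm_num) (by norm_num))
    rw [pow_zero]
    linarith only [hM, hsm]
  · refine le_trans ?_ hK'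
    rw [mul_assoc]
    exact mul_le_of_le_one_right (by positivity) hsm
  · refine (sum_le_sum fun k _ => II_bad hν (le_trans (by norm_num) hbig) k).trans ?_
    rw [sum_const, card_univ, Fintype.card_fin, nsmul_eq_mul, ENNReal.ofReal_mul (by positivity),
      ENNReal.ofReal_natCast]
  · refine le_trans ?_ hK'
    rw [mul_assoc]
    refine mul_le_of_le_one_right (by positivity) ?_
    rw [Real.exp_neg, ← mul_assoc, mul_inv_le_iff₀ (Real.exp_pos _), one_mul]
    refine le_trans ?_ ((pow_le_pow_right₀ hm1 (show 2 ≤ 24 by norm_num)).trans hP.log)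
    linarith only [hsq, mul_nonneg_of_nonpos_of_nonpos (Mathlib.Tactic.Linarith.sub_nonpos_of_le (Mathlib.Tactic.Linarith.natCast_nonneg ℝ m)) (Mathlib.Tactic.Linarith.sub_nonpos_of_le hsq)]
  · refine le_trans ?_ (hK 88 300 (by norm_num) (by norm_num))
    have h1 : 1 + 2 * P ^ 25 ≤ 3 * P ^ 25 := by linarith only [hP1, one_le_pow₀ (n := 25) hP1]
    rw [mul_one]
    refine (mul_le_mul_of_nonneg_left h1 (by positivity)).trans (le_of_eq ?_)
    ring
  · refine le_trans (le_of_eq ?_) (hK 89 200 (by norm_num) (by norm_num))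
    field_simp
    ring
  · refine le_trans ?_ (hK 88 (10 ^ 10) (by norm_num) (by norm_num))
    have h1 : ((n + 1 : ℕ) : ℝ) / m ≤ 1 := by
      rw [div_le_one (by positivity), Nat.cast_le]
      have := hP.mn
      omega
    have h2 : 0 < min (al m (n + 1) lam) 1 := lt_min hal one_pos
    have h3 : al m (n + 1) lam * √(n + 1 : ℕ) = lam * (((n + 1 : ℕ) : ℝ) / m) := by
      rw [al, div_mul_eq_mul_div, mul_assoc, Real.mul_self_sqrt (Nat.cast_nonneg _), mul_div_assoc]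
    have h5 : 100 * P ^ 88 * M4 * (al m (n + 1) lam / min (al m (n + 1) lam) 1) *
        (10 ^ 8 * √(n + 1 : ℕ) * min (al m (n + 1) lam) 1 / lam) =
        10 ^ 10 * P ^ 88 * M4 * (al m (n + 1) lam * √(n + 1 : ℕ) / lam) := by
      field_simp
      ring
    rw [h5, h3, mul_div_cancel_left₀ _ hl.ne']
    exact mul_le_of_le_one_right (by positivity) h1

end Pool.Agent.Work.MP_6af739_lc
end

-- merged part: Pool.Agent.Work.MP_6af739_lc.JInt
section
/-!
Expected path integral for a fixed unit cost c. Let Q s = ∫ a, 1_Good ofReal (n4 (qv (X (exp s • c)))),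
measurable in s. For c1 ≠ 0 and any s, the integral over a with the cost exp s • c1 equals
Q (s + log (nrm c1)) (lintegral_rot for F (a, y) = 1_Good ofReal (n4 (qv (X (of a) b y))); X_rot, qv_rot,
good_rot). Let T be the shell √(n+1)/2 ≤ nrm c1 ≤ 2 √(n+1), gv T ≥ 1/2 (tail_dot_self with t = 3 √(n+1)/4).
With t0 = log (1/10^8), t1 = 20 log m, s0 = t0 - log (2 √(n+1)), s1 = t1 - log (√(n+1)/2): for c1 in T,
∫ over Ioc t0 t1 of Q ≤ ∫ over Ioc s0 s1 of Q (s + log (nrm c1)) (translation invariance,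
lintegral_add_right_eq_self with indicators). Integrate over T, swap (lintegral_lintegral_swap), and apply
per_lam with lam = exp s for s ≤ s1 (lam √(n+1) ≤ 2 m^20, 3 + 7200 m^20 ≤ m^24 ≤ exp P; lintegral_prod_symm).
s1 - s0 ≤ P and t1 - t0 ≤ P because 24 log m ≤ P and P ≥ 10^20. So ∫ Q ≤ 2 P P^92 M4.
JJ_le only uses Good.n4_qv_le, Good.dom, X_sol and the length of the interval.
-/

namespace Pool.Agent.Work.MP_6af739_lc

open Matrix Finset MeasureTheory ProbabilityTheory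
open Pool.Agent.Work.MP_6a50bc_pr
open Pool.Agent.Work.MP_5c5849_an (sg av)
open scoped ENNReal

variable {m n : ℕ} {b : Fin m → ℝ} {P : ℝ}

lemma ji_meas (b : Fin m → ℝ) :
    Measurable fun q : (Fin m → Fin n → ℝ) × (Fin n → ℝ) =>
      n4 (qv (Matrix.of q.1) b (X (Matrix.of q.1) b q.2)) :=
  continuous_n4.measurable.comp (measurable_qv b measurable_fst (measurable_X b))

lemma ji_meas_exp (c : Fin n → ℝ) : Measurable fun t : ℝ => Real.exp t • c :=
  (Real.continuous_exp.smul continuous_const).measurable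

lemma ji_len (hP : 10 ^ 20 ≤ P) (hlog : 24 * Real.log m ≤ P) :
    20 * Real.log m - Real.log (1 / 10 ^ 8) + 3 ≤ P := by
  have h1 : Real.log (1 / 10 ^ 8) = -(8 * Real.log 10) := by
    rw [one_div, Real.log_inv, Real.log_pow]
    norm_num
  have h2 : Real.log 10 ≤ 10 - 1 := Real.log_le_sub_one_of_pos (by norm_num)
  rw [h1]
  linarith only [hP, hlog, h2]

theorem measurable_JJ (b : Fin m → ℝ) (c : Fin n → ℝ) :
    Measurable fun a : Fin m → Fin n → ℝ => JJ (Matrix.of a) b c := by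
  have h : Measurable fun z : (Fin m → Fin n → ℝ) × ℝ => ENNReal.ofReal
      (1 + 4 * n4 (qv (Matrix.of z.1) b (X (Matrix.of z.1) b (Real.exp z.2 • c)))) :=
    (measurable_const.add (((ji_meas b).comp (measurable_fst.prodMk
      ((ji_meas_exp c).comp measurable_snd))).const_mul 4)).ennreal_ofReal
  exact h.lintegral_prod_right'

theorem JJ_le (hm : 0 < m) {A : Matrix (Fin m) (Fin n) ℝ} (h : Good A (44 / 100)) (hb : Box b)
    (c : Fin n → ℝ) (hP : 10 ^ 20 ≤ P) (hlog : 24 * Real.log m ≤ P) :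
    JJ A b c ≤ ENNReal.ofReal (P ^ 2 * √m) := by
  have h1 : (1 : ℝ) ≤ √m := Real.one_le_sqrt.2 (by exact_mod_cast hm)
  have h2 := ji_len hP hlog
  have h3 : JJ A b c ≤ ∫⁻ _ in Set.Ioc (Real.log (1 / 10 ^ 8)) (20 * Real.log m),
      ENNReal.ofReal (4801 * √m) := by
    refine lintegral_mono fun t => ENNReal.ofReal_le_ofReal ?_
    have := h.n4_qv_le hm hb (X_sol (h.dom hm hb (Real.exp t • c))).1
    linarith only [h1, this]
  refine h3.trans ?_
  rw [setLIntegral_const, Real.volume_Ioc, ← ENNReal.ofReal_mul (by positivity)]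
  refine ENNReal.ofReal_le_ofReal ?_
  have h4 : 4801 * √(m : ℝ) * (20 * Real.log m - Real.log (1 / 10 ^ 8)) ≤ 4801 * √m * P :=
    mul_le_mul_of_nonneg_left (by linarith only [h2]) (by positivity)
  have h5 : 0 ≤ √(m : ℝ) * P := mul_nonneg (by linarith only [h1]) (by linarith only [hP])
  linarith only [hP, h4, h1, h5, mul_nonneg_of_nonpos_of_nonpos (Mathlib.Tactic.Linarith.sub_nonpos_of_le (sq_nonneg ((1 : ℝ) * P))) (Mathlib.Tactic.Linarith.sub_nonpos_of_le h1), mul_nonneg_of_nonpos_of_nonpos (Mathlib.Tactic.Linarith.sub_nonpos_of_le hP) (Mathlib.Tactic.Linarith.sub_nonpos_of_le hP), mul_nonneg_of_nonpos_of_nonpos (Mathlib.Tactic.Linarith.sub_nonpos_of_le hP) (Mathlib.Tactic.Linarith.sub_nonpos_of_le h5)]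

lemma ji_avg {Y : Type*} [MeasurableSpace Y] {ν : Measure Y} [SFinite ν] {Q : ℝ → ℝ≥0∞}
    {G : ℝ × Y → ℝ≥0∞} (hG : Measurable G) {T : Set Y} (hT : MeasurableSet T)
    {t0 t1 r0 r1 : ℝ} {K : ℝ≥0∞}
    (h1 : ∀ y ∈ T, ∃ r, r0 ≤ r ∧ r ≤ r1 ∧ ∀ s, G (s, y) = Q (s + r))
    (h2 : ∀ s ≤ t1 - r0, ∫⁻ y, G (s, y) ∂ν ≤ K) :
    (∫⁻ t in Set.Ioc t0 t1, Q t) * ν T ≤ K * ENNReal.ofReal (t1 - r0 - (t0 - r1)) := by
  have a1 : ∀ y ∈ T, ∫⁻ t in Set.Ioc t0 t1, Q t ≤
      ∫⁻ s in Set.Ioc (t0 - r1) (t1 - r0), G (s, y) := by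
    intro y hy
    obtain ⟨r, b0, b1, b2⟩ := h1 y hy
    rw [← lintegral_indicator measurableSet_Ioc, ← lintegral_indicator measurableSet_Ioc,
      ← lintegral_add_right_eq_self _ r]
    refine lintegral_mono fun s => ?_
    by_cases hs : s + r ∈ Set.Ioc t0 t1
    · have : s ∈ Set.Ioc (t0 - r1) (t1 - r0) := ⟨by linarith [hs.1], by linarith [hs.2]⟩
      rw [Set.indicator_of_mem hs, Set.indicator_of_mem this, b2]
    · rw [Set.indicator_of_notMem hs]
      exact zero_le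
  calc (∫⁻ t in Set.Ioc t0 t1, Q t) * ν T = ∫⁻ _ in T, (∫⁻ t in Set.Ioc t0 t1, Q t) ∂ν :=
        (setLIntegral_const _ _).symm
    _ ≤ ∫⁻ y in T, (∫⁻ s in Set.Ioc (t0 - r1) (t1 - r0), G (s, y)) ∂ν :=
        setLIntegral_mono' hT a1
    _ ≤ ∫⁻ y, (∫⁻ s in Set.Ioc (t0 - r1) (t1 - r0), G (s, y)) ∂ν := setLIntegral_le_lintegral _ _
    _ = ∫⁻ s in Set.Ioc (t0 - r1) (t1 - r0), ∫⁻ y, G (s, y) ∂ν :=
        (lintegral_lintegral_swap (f := fun s y => G (s, y)) hG.aemeasurable).symm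
    _ ≤ ∫⁻ _ in Set.Ioc (t0 - r1) (t1 - r0), K :=
        setLIntegral_mono' measurableSet_Ioc fun s hs => h2 s hs.2
    _ = _ := by rw [setLIntegral_const, Real.volume_Ioc]

/-- The integrand as a function of the matrix and of the cost. -/
noncomputable def jiF (b : Fin m → ℝ) (q : (Fin m → Fin n → ℝ) × (Fin n → ℝ)) : ℝ≥0∞ :=
  {q : (Fin m → Fin n → ℝ) × (Fin n → ℝ) | Good (Matrix.of q.1) (45 / 100)}.indicator
    (fun q => ENNReal.ofReal (n4 (qv (Matrix.of q.1) b (X (Matrix.of q.1) b q.2)))) q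

lemma jiF_meas (b : Fin m → ℝ) : Measurable (jiF (n := n) b) :=
  (ji_meas b).ennreal_ofReal.indicator (measurableSet_good measurable_fst _)

lemma jiF_of {a : Fin m → Fin n → ℝ} (h : Good (Matrix.of a) (45 / 100)) (y : Fin n → ℝ) :
    jiF b (a, y) = ENNReal.ofReal (n4 (qv (Matrix.of a) b (X (Matrix.of a) b y))) :=
  Set.indicator_of_mem (s := {q : (Fin m → Fin n → ℝ) × (Fin n → ℝ) |
    Good (Matrix.of q.1) (45 / 100)}) (a := (a, y)) h _

lemma jiF_not {a : Fin m → Fin n → ℝ} (h : ¬Good (Matrix.of a) (45 / 100)) (y : Fin n → ℝ) :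
    jiF b (a, y) = 0 :=
  Set.indicator_of_notMem (s := {q : (Fin m → Fin n → ℝ) × (Fin n → ℝ) |
    Good (Matrix.of q.1) (45 / 100)}) (a := (a, y)) h _

lemma jiF_invar (b : Fin m → ℝ) : Invar (jiF (n := n) b) := by
  intro O hO a y
  by_cases h : Good (Matrix.of a) (45 / 100)
  · have h' : Good (Matrix.of (rot O a)) (45 / 100) := by
      rw [of_rot]
      exact (good_rot hO _).2 h
    rw [jiF_of h, jiF_of h', of_rot, X_rot hO, qv_rot hO]
  · have h' : ¬Good (Matrix.of (rot O a)) (45 / 100) := by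
      rw [of_rot]
      exact mt (good_rot hO _).1 h
    rw [jiF_not h, jiF_not h']

/-- The integrand averaged over the matrix. -/
noncomputable def jiQ (b : Fin m → ℝ) (y : Fin n → ℝ) : ℝ≥0∞ :=
  ∫⁻ a, jiF b (a, y) ∂(gm (Fin m) (Fin n))

lemma jiQ_meas (b : Fin m → ℝ) : Measurable (jiQ (n := n) b) :=
  (jiF_meas b).lintegral_prod_left'

lemma jiQ_rot (b : Fin m → ℝ) {x y : Fin n → ℝ} (h : nrm x = nrm y) : jiQ b x = jiQ b y :=
  lintegral_rot (jiF_invar b) ((jiF_meas b).comp measurable_prodMk_right) h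

lemma jiQ_lam (hP : Par m (n + 1) P) (hb : Box b) {M4 : ℝ} (h4 : 0 ≤ M4) (h4' : M4 ^ 4 = m)
    {s : ℝ} (hs : s ≤ 20 * Real.log m - Real.log (√(n + 1 : ℕ) / 2)) :
    ∫⁻ y, jiQ b (Real.exp s • y) ∂(gv (Fin (n + 1))) ≤ ENNReal.ofReal (P ^ 92 * M4) := by
  have hm : (100 : ℝ) ≤ m := by exact_mod_cast hP.le_m
  have hq := ggf_sq hP
  have h1 : Real.exp s * √(n + 1 : ℕ) ≤ 2 * (m : ℝ) ^ 20 := by
    have e := Real.exp_le_exp.2 hs
    rw [Real.exp_sub, Real.exp_log (by positivity), show (20 : ℝ) = (20 : ℕ) by norm_num,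
      Real.exp_nat_mul, Real.exp_log (by linarith only [hm]), le_div_iff₀ (by positivity)] at e
    linarith only [e]
  have h2 : 3 + 7200 * (m : ℝ) ^ 20 ≤ (m : ℝ) ^ 24 := by
    have b1 : (100 : ℝ) ^ 4 ≤ (m : ℝ) ^ 4 := pow_le_pow_left₀ (by norm_num) hm 4
    have b2 : (1 : ℝ) ≤ (m : ℝ) ^ 20 := one_le_pow₀ (by linarith only [hm])
    rw [show (m : ℝ) ^ 24 = (m : ℝ) ^ 4 * (m : ℝ) ^ 20 by ring]
    linarith only [b1, b2, mul_nonneg_of_nonpos_of_nonpos (Mathlib.Tactic.Linarith.sub_nonpos_of_le b1) (Mathlib.Tactic.Linarith.sub_nonpos_of_le b2)]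
  have h3 : Real.log (3 + 3600 * (Real.exp s * √(n + 1 : ℕ))) ≤ P := by
    rw [Real.log_le_iff_le_exp (by positivity)]
    linarith only [h1, h2, hP, hP.log]
  refine le_trans (le_of_eq ?_) (per_lam hP hb (Real.exp_pos s) h3 h4 h4')
  have hme : Measurable fun q : (Fin m → Fin (n + 1) → ℝ) × (Fin (n + 1) → ℝ) =>
      jiF b (q.1, Real.exp s • q.2) :=
    (jiF_meas b).comp (measurable_fst.prodMk (measurable_snd.const_smul (Real.exp s)))
  refine (lintegral_prod_symm _ hme.aemeasurable).symm.trans (lintegral_congr fun q => ?_)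
  by_cases h : Good (Matrix.of q.1) (45 / 100)
  · rw [jiF_of h, Set.indicator_of_mem (by exact h)]
  · rw [jiF_not h, Set.indicator_of_notMem (by exact h)]

lemma ji_shell (hP : Par m n P) : (1 / 2 : ℝ≥0∞) ≤
    gv (Fin n) {y | √n / 2 ≤ nrm y ∧ nrm y ≤ 2 * √n} := by
  have h0 := hP.big
  have h1 := hP.pow_le_sqrt
  have h2 : P ≤ P ^ 5 := le_self_pow₀ (by linarith only [h0]) (by norm_num)
  have hq := ggf_sq hP
  have hs : √(n : ℝ) ^ 2 = n := Real.sq_sqrt (Nat.cast_nonneg n)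
  have hT : MeasurableSet {y : Fin n → ℝ | √n / 2 ≤ nrm y ∧ nrm y ≤ 2 * √n} :=
    ms_and (measurableSet_le measurable_const (MV.of measurable_id).nrm)
      (measurableSet_le (MV.of measurable_id).nrm measurable_const)
  have h3 : gv (Fin n) {y : Fin n → ℝ | √n / 2 ≤ nrm y ∧ nrm y ≤ 2 * √n}ᶜ ≤ 1 / 2 := by
    refine le_trans (measure_mono fun y hy => ?_)
      ((tail_dot_self (κ := Fin n) (3 * √n / 4)).trans ?_)
    · rw [Set.mem_ofPred_eq, Fintype.card_fin, ← nrm_sq, lt_abs]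
      have h5 := nrm_nonneg y
      rcases not_and_or.1 hy with h | h
      · right
        linarith only [hs, h, h0, h1, h2, h5, not_le.1 h, mul_nonneg_of_nonpos_of_nonpos (Mathlib.Tactic.Linarith.sub_nonpos_of_le h0) (le_of_lt (Mathlib.Tactic.Linarith.sub_neg_of_lt (lt_of_not_ge h))), mul_nonneg_of_nonpos_of_nonpos (Mathlib.Tactic.Linarith.sub_nonpos_of_le h1) (le_of_lt (Mathlib.Tactic.Linarith.sub_neg_of_lt (lt_of_not_ge h))), mul_nonneg_of_nonpos_of_nonpos (Mathlib.Tactic.Linarith.sub_nonpos_of_le h2) (le_of_lt (Mathlib.Tactic.Linarith.sub_neg_of_lt (lt_of_not_ge h))), mul_nonneg_of_nonpos_of_nonpos (Mathlib.Tactic.Linarith.sub_nonpos_of_le h5) (le_of_lt (Mathlib.Tactic.Linarith.sub_neg_of_lt (lt_of_not_ge h)))]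
      · left
        linarith only [h0, h1, h2, hs, h, h5, not_le.1 h, mul_nonneg_of_nonpos_of_nonpos (Mathlib.Tactic.Linarith.sub_nonpos_of_le h0) (Mathlib.Tactic.Linarith.sub_nonpos_of_le h5), mul_nonneg_of_nonpos_of_nonpos (Mathlib.Tactic.Linarith.sub_nonpos_of_le h0) (le_of_lt (Mathlib.Tactic.Linarith.sub_neg_of_lt (lt_of_not_ge h))), mul_nonneg_of_nonpos_of_nonpos (Mathlib.Tactic.Linarith.sub_nonpos_of_le h1) (Mathlib.Tactic.Linarith.sub_nonpos_of_le h5), mul_nonneg_of_nonpos_of_nonpos (Mathlib.Tactic.Linarith.sub_nonpos_of_le h1) (le_of_lt (Mathlib.Tactic.Linarith.sub_neg_of_lt (lt_of_not_ge h))), mul_nonneg_of_nonpos_of_nonpos (Mathlib.Tactic.Linarith.sub_nonpos_of_le h2) (Mathlib.Tactic.Linarith.sub_nonpos_of_le h5), mul_nonneg_of_nonpos_of_nonpos (Mathlib.Tactic.Linarith.sub_nonpos_of_le h2) (le_of_lt (Mathlib.Tactic.Linarith.sub_neg_of_lt (lt_of_not_ge h))), mul_nonneg_of_nonpos_of_nonpos (Mathlib.Tactic.Linarith.sub_nonpos_of_le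 h5) (le_of_lt (Mathlib.Tactic.Linarith.sub_neg_of_lt (lt_of_not_ge h)))]
    · rw [show (1 / 2 : ℝ≥0∞) = ENNReal.ofReal (1 / 2) by
        rw [ENNReal.ofReal_div_of_pos two_pos]; simp]
      refine ENNReal.ofReal_le_ofReal ?_
      have h6 := Real.add_one_le_exp (3 * √(n : ℝ) / 4 / 4)
      rw [neg_div, Real.exp_neg, ← div_eq_mul_inv, div_le_iff₀ (Real.exp_pos _)]
      linarith only [h0, h1, h2, h6]
  rw [prob_compl_eq_one_sub hT] at h3
  have h4 := tsub_le_iff_tsub_le.1 h3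
  rwa [one_div, ENNReal.one_sub_inv_two, ← one_div] at h4

lemma ji_main (hP : Par m (n + 1) P) (hb : Box b) {c : Fin (n + 1) → ℝ} (hc : nrm c = 1)
    {M4 : ℝ} (h4 : 0 ≤ M4) (h4' : M4 ^ 4 = m) (hlog : 24 * Real.log m ≤ P) :
    ∫⁻ t in Set.Ioc (Real.log (1 / 10 ^ 8)) (20 * Real.log m), jiQ b (Real.exp t • c) ≤
      ENNReal.ofReal (2 * P ^ 93 * M4) := by
  have hq := ggf_sq hP
  have hP0 : 0 < P := lt_of_lt_of_le one_pos (ggf_one hP)
  have hG : Measurable fun z : ℝ × (Fin (n + 1) → ℝ) => jiQ b (Real.exp z.1 • z.2) :=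
    (jiQ_meas b).comp (measurable_fst.exp.smul measurable_snd)
  have hT : MeasurableSet {y : Fin (n + 1) → ℝ | √(n + 1 : ℕ) / 2 ≤ nrm y ∧
      nrm y ≤ 2 * √(n + 1 : ℕ)} :=
    ms_and (measurableSet_le measurable_const (MV.of measurable_id).nrm)
      (measurableSet_le (MV.of measurable_id).nrm measurable_const)
  have h := ji_avg (ν := gv (Fin (n + 1))) (Q := fun t => jiQ b (Real.exp t • c)) hG hT
    (t0 := Real.log (1 / 10 ^ 8)) (t1 := 20 * Real.log m) (r0 := Real.log (√(n + 1 : ℕ) / 2))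
    (r1 := Real.log (2 * √(n + 1 : ℕ))) (K := ENNReal.ofReal (P ^ 92 * M4)) ?_
    fun s hs => jiQ_lam hP hb h4 h4' hs
  · have h1 := (mul_le_mul_right (ji_shell hP) _).trans h
    have h2 : Real.log (2 * √(n + 1 : ℕ)) - Real.log (√(n + 1 : ℕ) / 2) ≤ 3 := by
      rw [← Real.log_div (by positivity) (by positivity),
        show 2 * √(n + 1 : ℕ) / (√(n + 1 : ℕ) / 2) = (4 : ℝ) by field_simp; norm_num]
      linarith only [Real.log_le_sub_one_of_pos (show (0 : ℝ) < 4 by norm_num)]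
    have h3 := ji_len hP.big hlog
    have h5 := h1.trans (mul_le_mul_right (ENNReal.ofReal_le_ofReal (by linarith only [h2, h3] : _ ≤ P)) _)
    rw [mul_one_div, ENNReal.div_le_iff two_ne_zero ENNReal.ofNat_ne_top,
      ← ENNReal.ofReal_mul (by positivity), ← ENNReal.ofReal_ofNat 2,
      ← ENNReal.ofReal_mul (by positivity)] at h5
    refine h5.trans (le_of_eq ?_)
    congr 1
    ring
  · intro y hy
    have hy0 : 0 < nrm y := lt_of_lt_of_le (by positivity) hy.1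
    refine ⟨Real.log (nrm y), Real.log_le_log (by positivity) hy.1, Real.log_le_log hy0 hy.2,
      fun s => jiQ_rot b ?_⟩
    rw [nrm_smul, nrm_smul, hc, mul_one, Real.exp_add, Real.exp_log hy0,
      abs_of_pos (Real.exp_pos s), abs_of_pos (mul_pos (Real.exp_pos s) hy0)]

theorem lintegral_JJ_le (hP : Par m (n + 1) P) (hb : Box b) {c : Fin (n + 1) → ℝ} (hc : nrm c = 1)
    {M4 : ℝ} (h4 : 0 ≤ M4) (h4' : M4 ^ 4 = m) :
    ∫⁻ a, {a | Good (Matrix.of a) (45 / 100)}.indicator (fun a => JJ (Matrix.of a) b c) a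
        ∂(gm (Fin m) (Fin (n + 1))) ≤ ENNReal.ofReal (P ^ 94 * M4) := by
  have hm : (100 : ℝ) ≤ m := by exact_mod_cast hP.le_m
  have h0 := hP.big
  have hP0 : 0 < P := lt_of_lt_of_le one_pos (ggf_one hP)
  have hlog : 24 * Real.log m ≤ P := by
    have := Real.log_le_log (by positivity) hP.log
    rwa [Real.log_pow, Real.log_exp, Nat.cast_ofNat] at this
  have hM : 1 ≤ M4 := by
    refine le_of_pow_le_pow_left₀ (by norm_num : 4 ≠ 0) h4 ?_
    rw [h4', one_pow]
    linarith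
  have hme : Measurable fun z : (Fin m → Fin (n + 1) → ℝ) × ℝ =>
      jiF b (z.1, Real.exp z.2 • c) :=
    (jiF_meas b).comp (measurable_fst.prodMk ((ji_meas_exp c).comp measurable_snd))
  have h1 : ∀ a : Fin m → Fin (n + 1) → ℝ,
      {a | Good (Matrix.of a) (45 / 100)}.indicator (fun a => JJ (Matrix.of a) b c) a ≤
        ENNReal.ofReal P + 4 * ∫⁻ t in Set.Ioc (Real.log (1 / 10 ^ 8)) (20 * Real.log m),
          jiF b (a, Real.exp t • c) := by
    intro a
    by_cases h : Good (Matrix.of a) (45 / 100)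
    · rw [Set.indicator_of_mem (by exact h), ← lintegral_const_mul' _ _ ENNReal.ofNat_ne_top]
      have e : JJ (Matrix.of a) b c = ∫⁻ t in Set.Ioc (Real.log (1 / 10 ^ 8)) (20 * Real.log m),
          (1 + 4 * jiF b (a, Real.exp t • c)) := by
        refine lintegral_congr fun t => ?_
        rw [jiF_of h, ENNReal.ofReal_add zero_le_one (mul_nonneg (by norm_num) (n4_nonneg _)),
          ENNReal.ofReal_one, ENNReal.ofReal_mul (by norm_num), ENNReal.ofReal_ofNat]
      rw [e, lintegral_add_left measurable_const, setLIntegral_const, Real.volume_Ioc, one_mul]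
      exact add_le_add_left (ENNReal.ofReal_le_ofReal (by linarith only [h0, hlog, ji_len h0 hlog])) _
    · rw [Set.indicator_of_notMem (by exact h)]
      exact zero_le
  refine (lintegral_mono h1).trans ?_
  rw [lintegral_add_left measurable_const, lintegral_const, measure_univ, mul_one,
    lintegral_const_mul' _ _ ENNReal.ofNat_ne_top,
    lintegral_lintegral_swap (f := fun a t => jiF b (a, Real.exp t • c)) hme.aemeasurable]
  refine (add_le_add_right (mul_le_mul_right (ji_main hP hb hc h4 h4' hlog) 4) _).trans ?_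
  rw [← ENNReal.ofReal_ofNat 4, ← ENNReal.ofReal_mul (by norm_num),
    ← ENNReal.ofReal_add hP0.le (by positivity)]
  refine ENNReal.ofReal_le_ofReal ?_
  have h2 : P ≤ P ^ 93 := le_self_pow₀ (by linarith only [h0]) (by norm_num)
  have h3 : P ^ 93 ≤ P ^ 93 * M4 := le_mul_of_one_le_right (by positivity) hM
  have h5 : 9 * (P ^ 93 * M4) ≤ P * (P ^ 93 * M4) :=
    mul_le_mul_of_nonneg_right (by linarith) (by positivity)
  calc P + 4 * (2 * P ^ 93 * M4) ≤ 9 * (P ^ 93 * M4) := by linarith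
    _ ≤ P * (P ^ 93 * M4) := h5
    _ = P ^ 94 * M4 := by ring

end Pool.Agent.Work.MP_6af739_lc
end

-- merged part: Pool.Agent.Work.MP_6af739_lc.Count
section
/-!
Counting iterations. lam_i = (iter i).1 > 0, lam_(i+1) = (1 + a_i) lam_i with 0 < a_i ≤ 1/10.
On Ioc (log lam_i) (log lam_(i+1)) the integrand is at least 1/(10 a_i) (step_lower with
l = exp t, y = X A b (l • c), X_sol) and the length is log (1 + a_i) ≥ a_i / 2. So each interval
contributes at least 1/20 (setLIntegral_mono' or setLIntegral_const, no measurability of the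
integrand is needed). Induction on N with Set.Ioc_union_Ioc_eq_Ioc and lintegral_union.
-/

namespace Pool.Agent.Work.MP_6af739_lc

open Matrix Finset MeasureTheory ProbabilityTheory
open Pool.Agent.Work.MP_6a50bc_pr
open Pool.Agent.Work.MP_5c5849_an (sg av)
open scoped ENNReal

variable {m n : ℕ} {A : Matrix (Fin m) (Fin n) ℝ} {b : Fin m → ℝ} {c : Fin n → ℝ}

theorem Count_succ (i : ℕ) :
    (iter A b c (i + 1)).1 = (1 + stepLen A b c (iter A b c i)) * (iter A b c i).1 := rfl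

theorem iter_fst_mono (hA : Inj A) (hb : ∀ j, 0 < b j) (hc : c ≠ 0) :
    Monotone fun i => (iter A b c i).1 := by
  refine monotone_nat_of_le_succ fun i => ?_
  have h1 := (near_iter hA hb hc i).1
  have h2 := stepLen_pos (A := A) (b := b) (c := c) (iter A b c i)
  rw [Count_succ]
  nlinarith

theorem Count_log {a : ℝ} (h0 : 0 < a) (h1 : a ≤ 1) : a / 2 ≤ Real.log (1 + a) := by
  have h2 := Real.one_sub_inv_le_log_of_pos (x := 1 + a) (by linarith)
  refine le_trans ?_ h2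
  rw [le_sub_comm, inv_le_comm₀ (by linarith) (by linarith only [h1]), ← one_div,
    div_le_iff₀ (by linarith only [h1])]
  linarith only [h0, h1, mul_nonneg_of_nonpos_of_nonpos (le_of_lt (Mathlib.Tactic.Linarith.sub_neg_of_lt h0)) (Mathlib.Tactic.Linarith.sub_nonpos_of_le h1)]

theorem Count_step (hA : Inj A) (hb : ∀ j, 0 < b j) (hc : c ≠ 0)
    (hD : ∀ l : ℝ, Dom A b (l • c)) (i : ℕ) : ENNReal.ofReal (1 / 20) ≤
      ∫⁻ t in Set.Ioc (Real.log (iter A b c i).1) (Real.log (iter A b c (i + 1)).1),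
        ENNReal.ofReal (1 + 4 * n4 (qv A b (X A b (Real.exp t • c)))) := by
  obtain ⟨h0, hn, -⟩ := near_iter hA hb hc i
  have ha := stepLen_pos (A := A) (b := b) (c := c) (iter A b c i)
  have ha' := stepLen_le (A := A) (b := b) (c := c) (iter A b c i)
  rw [Count_succ]
  set a := stepLen A b c (iter A b c i) with hdef
  have h1 : 0 < (1 + a) * (iter A b c i).1 := by positivity
  refine le_trans ?_ (setLIntegral_mono' (f := fun _ => ENNReal.ofReal (1 / (10 * a)))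
    measurableSet_Ioc fun t ht => ENNReal.ofReal_le_ofReal ?_)
  · rw [setLIntegral_const, Real.volume_Ioc, ← ENNReal.ofReal_mul (by positivity),
      Real.log_mul (by positivity) h0.ne', add_sub_cancel_right]
    refine ENNReal.ofReal_le_ofReal ?_
    have h2 := Count_log ha (by linarith only [ha, ha'])
    rw [div_mul_eq_mul_div, one_mul, le_div_iff₀ (by positivity)]
    linarith only [h2]
  · have h2 := step_lower hA hb hn h0 (l := Real.exp t)
      ((Real.log_le_iff_le_exp h0).1 ht.1.le) ((Real.le_log_iff_exp_le h1).1 ht.2) (X_sol (hD _))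
    rw [div_le_iff₀ (by positivity)]
    change 1 / 10 ≤ a * _ at h2
    linarith only [h2]

theorem count (hA : Inj A) (hb : ∀ j, 0 < b j) (hc : c ≠ 0) (hD : ∀ l : ℝ, Dom A b (l • c))
    (N : ℕ) : ENNReal.ofReal (N / 20) ≤
      ∫⁻ t in Set.Ioc (Real.log (iter A b c 0).1) (Real.log (iter A b c N).1),
        ENNReal.ofReal (1 + 4 * n4 (qv A b (X A b (Real.exp t • c)))) := by
  induction N with
  | zero => simp
  | succ N ih =>
    have hm := iter_fst_mono hA hb hc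
    have hp : ∀ i, 0 < (iter A b c i).1 := fun i => (near_iter hA hb hc i).1
    have h1 : Real.log (iter A b c 0).1 ≤ Real.log (iter A b c N).1 :=
      Real.log_le_log (hp 0) (hm (Nat.zero_le N))
    have h2 : Real.log (iter A b c N).1 ≤ Real.log (iter A b c (N + 1)).1 :=
      Real.log_le_log (hp N) (hm (Nat.le_succ N))
    rw [← Set.Ioc_union_Ioc_eq_Ioc h1 h2,
      lintegral_union measurableSet_Ioc (Set.Ioc_disjoint_Ioc_of_le le_rfl)]
    refine le_trans ?_ (add_le_add ih (Count_step hA hb hc hD N))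
    rw [← ENNReal.ofReal_add (by positivity) (by norm_num)]
    refine ENNReal.ofReal_le_ofReal (le_of_eq ?_)
    push_cast
    ring

end Pool.Agent.Work.MP_6af739_lc
end

-- merged part: Pool.Agent.Work.MP_6af739_lc.Det1
section
/-!
Deterministic assembly. N = stopTime; m.choose n stops, so N stops (Nat.sInf_mem), N ≤ choose and no
i < N stops (Nat.notMem_of_lt_sInf). output_correct: passes_correct in the first two branches; in the last
one N = choose, and a bounded objective would give a strict basis (exists_strict, Strict.passes) which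
is e i for some i < choose. lam0_ge: the sum in iter 0 is ≤ √m nrm (sc A b 0 (hess⁻¹ c)) (sum_abs_le,
sc_mulVec), whose square is m c·hess⁻¹ c ≤ 10^12 (hess_eq, dot_gram, Good.inv_hess_le); it is positive
by near_iter. stop_le_of: if N ≥ 1, iteration N - 1 does not stop, so guess ≠ B and guess_eq
(D = 1300 m, since sum slack/b ≤ m + sum |u| ≤ m + √m 8 √m 150) forces lam_(N-1) < L; then count
and lintegral_mono_set. stop_le: if NB = ⊤ trivial (√m > 0). Otherwise let i be least with not BadT (tt m i)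
(if BadT held for all i the sum would be ⊤); NB ≥ i; apply stop_le_of with t = tt m i,
L = m^20 exp i, log L = 20 log m + i, split the interval at 20 log m and bound the integrand on the second
piece by 1 + 4800 √m ≤ 5000 √m (Good.n4_qv_le).
-/

namespace Pool.Agent.Work.MP_6af739_lc

open Matrix Finset MeasureTheory ProbabilityTheory
open Pool.Agent.Work.MP_6a50bc_pr
open Pool.Agent.Work.MP_5c5849_an (sg av)
open scoped ENNReal

variable {m n : ℕ} {A : Matrix (Fin m) (Fin n) ℝ} {b : Fin m → ℝ} {c : Fin n → ℝ}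

theorem stopTime_le (e : ℕ → Finset (Fin m)) : stopTime A b c e ≤ m.choose n := by
  exact Nat.sInf_le (show Stops A b c e _ from Or.inr (Or.inr rfl))

theorem output_correct (hG : GenPos A b c) (hb : ∀ j, 0 < b j) {e : ℕ → Finset (Fin m)}
    (he : ∀ B : Finset (Fin m), B.card = n → ∃ i < m.choose n, e i = B) :
    Correct A b c (output A b c e) := by
  have hN : Stops A b c e (stopTime A b c e) :=
    Nat.sInf_mem (s := {i | Stops A b c e i}) ⟨m.choose n, Or.inr (Or.inr rfl)⟩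
  unfold output
  split_ifs with h1 h2
  · exact passes_correct h1
  · exact passes_correct h2
  · intro M
    by_contra hM
    push Not at hM
    obtain ⟨B, hB⟩ := exists_strict hG (fun j => (hb j).le) ⟨M, hM⟩
    obtain ⟨i, hi, rfl⟩ := he B hB.1.2.1
    have h3 : stopTime A b c e ≤ i := Nat.sInf_le (show Stops A b c e i from Or.inr (Or.inl hB.passes))
    rcases hN with h | h | h
    · exact h1 h
    · exact h2 h
    · omega

theorem Good.exists_strict (hm : 0 < m) (h : Good A (44 / 100)) (hb : Box b) (hG : GenPos A b c) :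
    ∃ B, Strict A b c B := by
  exact Pool.Agent.Work.MP_6af739_lc.exists_strict hG (fun j => zero_le_one.trans (hb j).1)
    ⟨nrm c * 150, fun x hx => (dot_le c x).trans
      (mul_le_mul_of_nonneg_left (h.rad hm hb hx) (nrm_nonneg c))⟩

theorem lam0_ge (hm : 0 < m) (h : Good A (44 / 100)) (hb : Box b) (hc : nrm c = 1) :
    1 / 10 ^ 8 ≤ (iter A b c 0).1 := by
  have hb0 : ∀ j, 0 < b j := fun j => zero_lt_one.trans_le (hb j).1
  have hc0 : c ≠ 0 := fun e => by simp [e] at hc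
  have hA := h.inj hm
  have hp := (near_iter hA hb0 hc0 0).1
  have hs : ∀ j, slack A b 0 j = b j := fun j => by simp [slack]
  have hI : Inter A b 0 := fun j => by rw [hs]; exact hb0 j
  have hm' : (0 : ℝ) < m := Nat.cast_pos.2 hm
  change 0 < (1 / 100) / ∑ j, |(A *ᵥ ((hess A b 0)⁻¹ *ᵥ c)) j / b j| at hp
  change _ ≤ (1 / 100) / ∑ j, |(A *ᵥ ((hess A b 0)⁻¹ *ᵥ c)) j / b j|
  have h1 : ∑ j, |(A *ᵥ ((hess A b 0)⁻¹ *ᵥ c)) j / b j| =
      ∑ j, |(sc A b 0 *ᵥ ((hess A b 0)⁻¹ *ᵥ c)) j| :=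
    sum_congr rfl fun j _ => by rw [sc_mulVec, hs]
  rw [h1] at hp ⊢
  have h2 := sum_abs_le (sc A b 0 *ᵥ ((hess A b 0)⁻¹ *ᵥ c))
  have h3 := (h.inv_hess_le hm hb hI c).2
  have h4 : nrm (sc A b 0 *ᵥ ((hess A b 0)⁻¹ *ᵥ c)) ^ 2 = c ⬝ᵥ (hess A b 0)⁻¹ *ᵥ c := by
    rw [nrm_sq, ← p1_tdot, newton_dir hA hI]
  rw [← h4, ← nrm_sq, hc] at h3
  rw [Fintype.card_fin] at h2
  generalize nrm (sc A b 0 *ᵥ ((hess A b 0)⁻¹ *ᵥ c)) = r at h2 h3
  generalize ∑ j, |(sc A b 0 *ᵥ ((hess A b 0)⁻¹ *ᵥ c)) j| = S at hp h2 ⊢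
  have hS : 0 < S := by
    by_contra k
    exact absurd hp (not_lt.2 (div_nonpos_of_nonneg_of_nonpos (by norm_num) (not_lt.1 k)))
  have h5 : (√(m : ℝ) * r) ^ 2 ≤ (10 ^ 6) ^ 2 := by
    rw [mul_pow, Real.sq_sqrt hm'.le]
    rw [one_pow, mul_one, le_div_iff₀ hm'] at h3
    linarith only [h3]
  have h6 := (abs_le_of_sq_le_sq' h5 (by positivity)).2
  rw [le_div_iff₀ hS]
  linarith only [h2, h6]

theorem stop_le_of (hm : 0 < m) (h : Good A (44 / 100)) (hb : Box b) (hc : nrm c = 1)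
    {B : Finset (Fin m)} (hB : Strict A b c B) {t L : ℝ} (ht : 0 < t)
    (hs : ∀ j ∉ B, t ≤ slack A b (candX A b B) j) (hy : ∀ j ∈ B, t ≤ candY A c B j)
    (hL : 2 * (1300 * (m : ℝ)) ^ 2 ≤ L * t * t) (e : ℕ → Finset (Fin m)) :
    (stopTime A b c e : ℝ≥0∞) + 1 ≤ 2 + 20 *
      ∫⁻ s in Set.Ioc (Real.log (1 / 10 ^ 8)) (Real.log L),
        ENNReal.ofReal (1 + 4 * n4 (qv A b (X A b (Real.exp s • c)))) := by
  have hb0 : ∀ j, 0 < b j := fun j => zero_lt_one.trans_le (hb j).1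
  have hc0 : c ≠ 0 := fun e => by simp [e] at hc
  have hA := h.inj hm
  have hm' : (0 : ℝ) < m := Nat.cast_pos.2 hm
  rcases hN : stopTime A b c e with _ | k
  · rw [Nat.cast_zero, zero_add]
    exact le_add_right one_le_two
  have hk : ¬ Stops A b c e k :=
    Nat.notMem_of_lt_sInf (s := {i | Stops A b c e i}) (show k < stopTime A b c e by omega)
  obtain ⟨h0, hn, -⟩ := near_iter hA hb0 hc0 k
  have hD : m + ∑ j, slack A b (candX A b B) j / b j ≤ 1300 * (m : ℝ) := by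
    have h1 : ∑ j, slack A b (candX A b B) j / b j ≤ ∑ j, (1 + |(A *ᵥ candX A b B) j|) := by
      refine sum_le_sum fun j _ => ?_
      rw [div_le_iff₀ (hb0 j), slack_apply]
      linarith only [hb, (hb j).1, neg_abs_le ((A *ᵥ candX A b B) j), abs_nonneg ((A *ᵥ candX A b B) j), mul_nonneg_of_nonpos_of_nonpos (Mathlib.Tactic.Linarith.sub_nonpos_of_le (hb j).left) (Mathlib.Tactic.Linarith.sub_nonpos_of_le (abs_nonneg ((A *ᵥ candX A b B) j)))]
    have h2 := sum_abs_le (A *ᵥ candX A b B)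
    have h3 := h.op (candX A b B)
    have h4 := h.rad hm hb hB.passes.1
    have h5 : √(m : ℝ) * √(m : ℝ) = m := Real.mul_self_sqrt hm'.le
    have h6 : 0 ≤ √(m : ℝ) := Real.sqrt_nonneg _
    rw [sum_add_distrib, sum_const, card_univ, Fintype.card_fin, nsmul_eq_mul, mul_one] at h1
    rw [Fintype.card_fin] at h2
    have h7 : √(m : ℝ) * nrm (A *ᵥ candX A b B) ≤ √(m : ℝ) * (8 * √(m : ℝ) * 150) :=
      mul_le_mul_of_nonneg_left (h3.trans (mul_le_mul_of_nonneg_left h4 (by positivity))) h6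
    linarith only [hm', h1, h2, h5, h7]
  have hlt : (iter A b c k).1 ≤ L := by
    by_contra hh
    refine hk (Or.inl ?_)
    rw [guess_eq hb0 hB hn (X_sol (h.dom hm hb _)) h0 ht ht (by positivity) hs hy hD
      (hL.trans (by gcongr; exact (not_le.1 hh).le))]
    exact hB.passes
  have h1 := (count hA hb0 hc0 (fun l => h.dom hm hb _) k).trans (lintegral_mono_set
    (Set.Ioc_subset_Ioc (Real.log_le_log (by norm_num) (lam0_ge hm h hb hc))
      (Real.log_le_log h0 hlt)))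
  have h2 : (20 : ℝ≥0∞) * ENNReal.ofReal (k / 20) = k := by
    rw [← ENNReal.ofReal_ofNat, ← ENNReal.ofReal_mul (by norm_num), mul_div_cancel₀ _ (by norm_num),
      ENNReal.ofReal_natCast]
  calc ((k + 1 : ℕ) : ℝ≥0∞) + 1 = 2 + 20 * ENNReal.ofReal (k / 20) := by
        rw [h2]; push_cast; ring
    _ ≤ _ := by gcongr

theorem stop_le (hm : 0 < m) {a : Fin m → Fin n → ℝ} (h : Good (Matrix.of a) (45 / 100))
    (hb : Box b) (hc : nrm c = 1) (hG : GenPos (Matrix.of a) b c) (e : ℕ → Finset (Fin m)) :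
    (stopTime (Matrix.of a) b c e : ℝ≥0∞) + 1 ≤
      2 + 20 * JJ (Matrix.of a) b c + ENNReal.ofReal (10 ^ 5 * √m) * NB b c a := by
  classical
  have h' := h.mono (show (44 / 100 : ℝ) ≤ 45 / 100 by norm_num)
  have hm' : (0 : ℝ) < m := Nat.cast_pos.2 hm
  have hm1 : (1 : ℝ) ≤ √m := Real.one_le_sqrt.2 (Nat.one_le_cast.2 hm)
  obtain ⟨B, hB⟩ := h'.exists_strict hm hb hG
  by_cases hex : ∃ i, ¬ BadT (Matrix.of a) b c (tt m i)
  swap
  · push Not at hex
    have h1 : NB b c a = ⊤ := by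
      rw [NB, ← ENNReal.tsum_const_eq_top_of_ne_zero (α := ℕ) one_ne_zero]
      exact tsum_congr fun i => Set.indicator_of_mem
        (show a ∈ {a : Fin m → Fin n → ℝ | BadT (Matrix.of a) b c (tt m i)} from hex i) _
    rw [h1, ENNReal.mul_top (ENNReal.ofReal_pos.2 (by positivity)).ne', add_top]
    exact le_top
  have h1 : (Nat.find hex : ℝ≥0∞) ≤ NB b c a := by
    refine le_trans (le_of_eq ?_) (ENNReal.sum_le_tsum (range (Nat.find hex)))
    rw [sum_congr rfl fun i hi => Set.indicator_of_mem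
      (show a ∈ {a : Fin m → Fin n → ℝ | BadT (Matrix.of a) b c (tt m i)} from
        not_not.1 (Nat.find_min hex (mem_range.1 hi))) _]
    simp
  have h2 := Nat.find_spec hex
  generalize Nat.find hex = i at h1 h2
  have ht : 0 < tt m i := by unfold tt; positivity
  have h3 := stop_le_of hm h' hb hc hB (t := tt m i) (L := (m : ℝ) ^ 20 * Real.exp i) ht
    (fun j hj => le_of_not_ge fun k => h2 ⟨h, B, hB, Or.inl ⟨j, hj, k⟩⟩)
    (fun j hj => le_of_not_ge fun k => h2 ⟨h, B, hB, Or.inr ⟨j, hj, k⟩⟩) (by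
      have e1 : Real.exp i * (Real.exp (-(i : ℝ) / 2) * Real.exp (-(i : ℝ) / 2)) = 1 := by
        rw [← Real.exp_add, ← Real.exp_add, ← Real.exp_zero]; congr 1; ring
      have e2 : (m : ℝ) ^ 20 * Real.exp i * tt m i * tt m i = 2000 ^ 2 * (m : ℝ) ^ 2 *
          (Real.exp i * (Real.exp (-(i : ℝ) / 2) * Real.exp (-(i : ℝ) / 2))) := by
        unfold tt; field_simp
      rw [e2, e1]
      linarith only [sq_nonneg (m : ℝ), sq_nonneg ↑m]) e
  rw [Real.log_mul (by positivity) (by positivity), Real.log_pow, Real.log_exp] at h3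
  refine h3.trans ?_
  rw [add_assoc]
  refine add_le_add le_rfl ?_
  have h4 : ∫⁻ s in Set.Ioc (20 * Real.log m) (20 * Real.log m + i),
      ENNReal.ofReal (1 + 4 * n4 (qv (Matrix.of a) b (X (Matrix.of a) b (Real.exp s • c)))) ≤
      ENNReal.ofReal (5000 * √m) * i := by
    refine le_trans (lintegral_mono (g := fun _ => ENNReal.ofReal (5000 * √m)) fun s =>
      ENNReal.ofReal_le_ofReal ?_) (le_of_eq ?_)
    · have := h'.n4_qv_le hm hb (X_sol (h'.dom hm hb (Real.exp s • c))).1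
      linarith only [hm1, this]
    · rw [setLIntegral_const, Real.volume_Ioc, add_sub_cancel_left, ENNReal.ofReal_natCast]
  have h5 : ENNReal.ofReal (10 ^ 5 * √m) = 20 * ENNReal.ofReal (5000 * √m) := by
    rw [← ENNReal.ofReal_ofNat, ← ENNReal.ofReal_mul (by norm_num)]
    congr 1; ring
  rw [h5, mul_assoc, ← mul_add]
  gcongr
  refine le_trans (lintegral_mono_set (Set.Ioc_subset_Ioc_union_Ioc (b := 20 * Real.log m)))
    ((lintegral_union_le _ _ _).trans (add_le_add le_rfl (h4.trans ?_)))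
  gcongr

end Pool.Agent.Work.MP_6af739_lc
end

-- merged part: Pool.Agent.Work.MP_6af739_lc.Scale
section
/-!
Equivariance of the algorithm under scaling of A, b, c by positive numbers σ, β, τ: the state (λ, x)
becomes ((σ/(β τ)) λ, (β/σ) • x). slack scales by β, grad by σ/β, hess by (σ/β)^2 (prove
(t • H)⁻¹ = t⁻¹ • H⁻¹ for t ≠ 0, both cases of IsUnit H.det), dir by β/σ, stepLen is unchanged,
candX scales by β/σ, candY by τ/σ, Passes and guess are unchanged.
-/

namespace Pool.Agent.Work.MP_6af739_lc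

open Matrix Finset MeasureTheory ProbabilityTheory
open Pool.Agent.Work.MP_6a50bc_pr
open Pool.Agent.Work.MP_5c5849_an (sg av)
open scoped ENNReal

variable {m n : ℕ} {A : Matrix (Fin m) (Fin n) ℝ} {b : Fin m → ℝ} {c : Fin n → ℝ}

variable {σ β τ : ℝ} (hσ : 0 < σ) (hβ : 0 < β) (hτ : 0 < τ)
include hσ hβ hτ

omit hσ hβ hτ in
theorem smul_inv_eq {t : ℝ} (ht : t ≠ 0) (H : Matrix (Fin n) (Fin n) ℝ) :
    (t • H)⁻¹ = t⁻¹ • H⁻¹ := by
  by_cases h : IsUnit H.det
  · refine Matrix.inv_eq_right_inv ?_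
    rw [smul_mul_smul_comm, mul_inv_cancel₀ ht, mul_nonsing_inv _ h, one_smul]
  · rw [nonsing_inv_apply_not_isUnit _ h, smul_zero, nonsing_inv_apply_not_isUnit]
    rw [det_smul, isUnit_iff_ne_zero, not_not, not_not.1 (isUnit_iff_ne_zero.not.1 h), mul_zero]

omit hβ hτ in
theorem mulVec_scale (x : Fin n → ℝ) : (σ • A) *ᵥ ((β / σ) • x) = β • (A *ᵥ x) := by
  rw [smul_mulVec, mulVec_smul, smul_smul, mul_div_cancel₀ _ hσ.ne']

omit hβ hτ in
theorem slack_scale (x : Fin n → ℝ) :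
    slack (σ • A) (β • b) ((β / σ) • x) = β • slack A b x := by
  rw [slack, slack, mulVec_scale hσ, smul_sub]

omit hβ hτ in
theorem grad_scale (x : Fin n → ℝ) :
    grad (σ • A) (β • b) ((β / σ) • x) = (σ / β) • grad A b x := by
  rw [grad, grad, slack_scale hσ, transpose_smul, smul_mulVec, div_eq_mul_inv, mul_smul,
    ← mulVec_smul _ β⁻¹]
  congr 2
  funext j
  simp [mul_comm]

omit hβ hτ in
theorem hess_scale (x : Fin n → ℝ) :
    hess (σ • A) (β • b) ((β / σ) • x) = (σ / β) ^ 2 • hess A b x := by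
  have h : (diagonal fun j => ((β • slack A b x) j)⁻¹ ^ 2) =
      β⁻¹ ^ 2 • diagonal fun j => (slack A b x j)⁻¹ ^ 2 := by
    rw [← diagonal_smul]
    congr 1
    funext j
    simp [mul_comm, mul_pow]
  rw [hess, hess, slack_scale hσ, transpose_smul, h]
  simp only [Matrix.smul_mul, Matrix.mul_smul, smul_smul]
  congr 1
  ring

omit hτ in
theorem hinv_scale (x z : Fin n → ℝ) :
    (hess (σ • A) (β • b) ((β / σ) • x))⁻¹ *ᵥ ((σ / β) • z) = (β / σ) • ((hess A b x)⁻¹ *ᵥ z) := by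
  rw [hess_scale hσ, smul_inv_eq (by positivity), smul_mulVec, mulVec_smul, smul_smul]
  congr 1
  field_simp

omit hσ in
theorem cost_scale (l : ℝ) : (σ / (β * τ) * l) • τ • c = (σ / β) • l • c := by
  rw [smul_smul, smul_smul]
  congr 1
  field_simp

theorem dir_scale (p : ℝ × (Fin n → ℝ)) :
    dir (σ • A) (β • b) (τ • c) (σ / (β * τ) * p.1, (β / σ) • p.2) = (β / σ) • dir A b c p := by
  rw [dir, dir, cost_scale hβ hτ, hinv_scale hσ hβ]

theorem stepLen_scale (p : ℝ × (Fin n → ℝ)) :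
    stepLen (σ • A) (β • b) (τ • c) (σ / (β * τ) * p.1, (β / σ) • p.2) = stepLen A b c p := by
  simp only [stepLen, dir_scale hσ hβ hτ, slack_scale hσ, mulVec_scale hσ, Pi.smul_apply,
    smul_eq_mul, mul_div_mul_left _ _ hβ.ne']

theorem predict_scale (p : ℝ × (Fin n → ℝ)) :
    predict (σ • A) (β • b) (τ • c) (σ / (β * τ) * p.1, (β / σ) • p.2) =
      (σ / (β * τ) * (predict A b c p).1, (β / σ) • (predict A b c p).2) := by
  simp only [predict, dir_scale hσ hβ hτ, stepLen_scale hσ hβ hτ, smul_add, smul_comm (β / σ),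
    mul_left_comm]

theorem correct_step_scale (p : ℝ × (Fin n → ℝ)) :
    correct (σ • A) (β • b) (τ • c) (σ / (β * τ) * p.1, (β / σ) • p.2) =
      (σ / (β * τ) * (correct A b c p).1, (β / σ) • (correct A b c p).2) := by
  have h := grad_scale (A := A) (b := b) (β := β) hσ 0
  rw [smul_zero] at h
  simp only [correct]
  rw [h, grad_scale hσ, cost_scale hβ hτ, ← smul_sub, ← smul_sub, hinv_scale hσ hβ, smul_sub]

omit hβ hτ in
theorem gram_scale (B : Finset (Fin m)) :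
    ((σ • A)ᵀ * ind B * (σ • A))⁻¹ = (σ * σ)⁻¹ • (Aᵀ * ind B * A)⁻¹ := by
  rw [← smul_inv_eq (by positivity), transpose_smul]
  simp only [Matrix.smul_mul, Matrix.mul_smul, smul_smul]

omit hβ hτ in
theorem candX_scale (B : Finset (Fin m)) :
    candX (σ • A) (β • b) B = (β / σ) • candX A b B := by
  simp only [candX, gram_scale hσ, smul_mulVec, mulVec_smul, smul_smul]
  rw [transpose_smul, smul_mulVec, mulVec_smul, smul_smul]
  congr 1
  field_simp

omit hβ hτ in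
theorem candY_scale (B : Finset (Fin m)) :
    candY (σ • A) (τ • c) B = (τ / σ) • candY A c B := by
  simp only [candY, gram_scale hσ, smul_mulVec, mulVec_smul, smul_smul]
  congr 1
  field_simp

theorem passes_scale (B : Finset (Fin m)) :
    Passes (σ • A) (β • b) (τ • c) B ↔ Passes A b c B := by
  have h1 : (σ • A)ᵀ *ᵥ ((τ / σ) • candY A c B) = τ • (Aᵀ *ᵥ candY A c B) := by
    rw [transpose_smul, smul_mulVec, mulVec_smul, smul_smul, mul_div_cancel₀ _ hσ.ne']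
  have h2 : β * (τ / σ) = τ * (β / σ) := by ring
  simp only [Passes, candX_scale hσ, candY_scale hσ, mulVec_scale hσ, h1, Pi.smul_apply,
    smul_eq_mul, mul_le_mul_iff_right₀ hβ, mul_nonneg_iff_of_pos_left (div_pos hτ hσ),
    smul_right_inj hτ.ne', smul_dotProduct, dotProduct_smul, ← mul_assoc]
  rw [mul_comm (τ / σ), mul_comm (β / σ), h2, mul_right_inj' (by positivity)]

omit hτ in
theorem guess_scale (x : Fin n → ℝ) : guess (σ • A) (β • b) ((β / σ) • x) = guess A b x := by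
  simp only [guess, slack_scale hσ, Pi.smul_apply, smul_eq_mul, mul_le_mul_iff_right₀ hβ]

omit hτ in
theorem inter_scale {x : Fin n → ℝ} (h : Inter A b x) : Inter (σ • A) (β • b) ((β / σ) • x) := by
  intro j
  rw [slack_scale hσ]
  exact mul_pos hβ (h j)

theorem iter_scale (i : ℕ) : iter (σ • A) (β • b) (τ • c) i =
    (σ / (β * τ) * (iter A b c i).1, (β / σ) • (iter A b c i).2) := by
  induction i with
  | zero =>
    have h := hinv_scale (A := A) (b := b) hσ hβ 0 ((β * τ / σ) • c)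
    rw [smul_zero, smul_smul, show σ / β * (β * τ / σ) = τ by field_simp] at h
    simp only [iter, h, mulVec_scale hσ, mulVec_smul _ (β * τ / σ), Pi.smul_apply, smul_eq_mul,
      mul_div_mul_left _ _ hβ.ne', smul_zero, mul_div_assoc (β * τ / σ), abs_mul,
      abs_of_pos (show 0 < β * τ / σ by positivity), ← mul_sum]
    congr 1
    rw [div_mul_eq_div_div_swap, div_eq_mul_inv _ (β * τ / σ), inv_div, mul_comm]
  | succ i ih => rw [iter, iter, ih, predict_scale hσ hβ hτ, correct_step_scale hσ hβ hτ]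

theorem inter_iter_scale (i : ℕ) (h : Inter A b (iter A b c i).2) :
    Inter (σ • A) (β • b) (iter (σ • A) (β • b) (τ • c) i).2 := by
  rw [iter_scale hσ hβ hτ]
  exact inter_scale hσ hβ h

theorem inter_predict_scale (i : ℕ) (h : Inter A b (predict A b c (iter A b c i)).2) :
    Inter (σ • A) (β • b) (predict (σ • A) (β • b) (τ • c) (iter (σ • A) (β • b) (τ • c) i)).2 := by
  rw [iter_scale hσ hβ hτ, predict_scale hσ hβ hτ]
  exact inter_scale hσ hβ h

theorem stopTime_scale (e : ℕ → Finset (Fin m)) :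
    stopTime (σ • A) (β • b) (τ • c) e = stopTime A b c e := by
  simp only [stopTime, Stops, iter_scale hσ hβ hτ, guess_scale hσ hβ, passes_scale hσ hβ hτ]

theorem correct_scale (e : ℕ → Finset (Fin m)) (h : Correct A b c (output A b c e)) :
    Correct (σ • A) (β • b) (τ • c) (output (σ • A) (β • b) (τ • c) e) := by
  have key : ∀ o : Option (Fin n → ℝ), Correct A b c o →
      Correct (σ • A) (β • b) (τ • c) (o.map fun x => (β / σ) • x) := by
    have h0 : ∀ (x : Fin n → ℝ), (∀ j, ((σ • A) *ᵥ ((β / σ) • x)) j ≤ (β • b) j) ↔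
        ∀ j, (A *ᵥ x) j ≤ b j := fun x => by
      simp only [mulVec_scale hσ, Pi.smul_apply, smul_eq_mul, mul_le_mul_iff_right₀ hβ]
    have h1 : ∀ x : Fin n → ℝ, (τ • c) ⬝ᵥ ((β / σ) • x) = τ * (β / σ) * (c ⬝ᵥ x) := fun x => by
      rw [smul_dotProduct, dotProduct_smul, smul_eq_mul, smul_eq_mul, mul_assoc]
    have h2 : 0 < τ * (β / σ) := by positivity
    rintro (_ | x) ho
    · intro M
      obtain ⟨x, hx, hM⟩ := ho (M / (τ * (β / σ)))
      refine ⟨_, (h0 x).2 hx, ?_⟩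
      rwa [h1, ← div_lt_iff₀' h2]
    · refine ⟨(h0 x).2 ho.1, fun x' hx' => ?_⟩
      obtain ⟨y, rfl⟩ : ∃ y, x' = (β / σ) • y :=
        ⟨(β / σ)⁻¹ • x', (smul_inv_smul₀ (by positivity) _).symm⟩
      rw [h1, h1]
      exact mul_le_mul_of_nonneg_left (ho.2 y ((h0 y).1 hx')) h2.le
  convert key _ h
  unfold output
  rw [stopTime_scale hσ hβ hτ, iter_scale hσ hβ hτ, guess_scale hσ hβ, candX_scale hσ,
    candX_scale hσ]
  by_cases h1 : Passes A b c (guess A b (iter A b c (stopTime A b c e)).2)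
  · rw [if_pos h1, if_pos ((passes_scale hσ hβ hτ _).2 h1)]; rfl
  rw [if_neg h1, if_neg ((passes_scale hσ hβ hτ _).not.2 h1)]
  by_cases h2 : Passes A b c (e (stopTime A b c e))
  · rw [if_pos h2, if_pos ((passes_scale hσ hβ hτ _).2 h2)]; rfl
  · rw [if_neg h2, if_neg ((passes_scale hσ hβ hτ _).not.2 h2)]; rfl

end Pool.Agent.Work.MP_6af739_lc
end

-- merged part: Pool.Agent.Work.MP_6af739_lc.Final
section
/-! Final assembly. -/

namespace Pool.Agent.Work.MP_6af739_lc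

open Matrix Finset MeasureTheory ProbabilityTheory
open Pool.Agent.Work.MP_6a50bc_pr
open Pool.Agent.Work.MP_5c5849_an (sg av)
open scoped ENNReal

variable {m n : ℕ}

/-- The majorant for normalised data. -/
noncomputable def TT (b : Fin m → ℝ) (c : Fin n → ℝ) (a : Fin m → Fin n → ℝ) : ℝ≥0∞ :=
  2 + 20 * {a | Good (Matrix.of a) (45 / 100)}.indicator (fun a => JJ (Matrix.of a) b c) a +
    ENNReal.ofReal (10 ^ 5 * √m) * NB b c a +
    ((m.choose n : ℝ≥0∞) + 1) * {a | ¬Good (Matrix.of a) (45 / 100)}.indicator 1 a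

lemma measurable_TT (b : Fin m → ℝ) (c : Fin n → ℝ) : Measurable (TT b c) := by
  have hG : MeasurableSet {a : Fin m → Fin n → ℝ | Good (Matrix.of a) (45 / 100)} :=
    measurableSet_good measurable_id _
  unfold TT
  refine ((measurable_const.add (((measurable_JJ b c).indicator hG).const_mul _)).add
    ((measurable_NB b c).const_mul _)).add ((measurable_one.indicator hG.compl).const_mul _)

lemma stop_le_TT (hm : 0 < m) {b : Fin m → ℝ} (hb : Box b) {c : Fin n → ℝ} (hc : nrm c = 1)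
    {a : Fin m → Fin n → ℝ} (hG : GenPos (Matrix.of a) b c) (e : ℕ → Finset (Fin m)) :
    (stopTime (Matrix.of a) b c e : ℝ≥0∞) + 1 ≤ TT b c a := by
  by_cases h : Good (Matrix.of a) (45 / 100)
  · refine (stop_le hm h hb hc hG e).trans ?_
    unfold TT
    rw [Set.indicator_of_mem (show a ∈ {a | Good (Matrix.of a) (45 / 100)} from h)]
    exact le_self_add
  · unfold TT
    rw [Set.indicator_of_mem (show a ∈ {a | ¬Good (Matrix.of a) (45 / 100)} from h)]
    refine le_trans ?_ le_add_self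
    rw [Pi.one_apply, mul_one]
    gcongr
    exact_mod_cast stopTime_le e

lemma JJ_mean {n : ℕ} (hm : 10 ^ 20 * (n + 1) ≤ m) {b : Fin m → ℝ} (hb : Box b)
    {c : Fin (n + 1) → ℝ} (hc : nrm c = 1) {P M4 : ℝ} (hP : 10 ^ 20 ≤ P)
    (hrat : (m : ℝ) ≤ P * (n + 1 : ℕ)) (hlog : 24 * Real.log m ≤ P) (h4 : 0 ≤ M4)
    (h4' : M4 ^ 4 = m) :
    ∫⁻ a, {a | Good (Matrix.of a) (45 / 100)}.indicator (fun a => JJ (Matrix.of a) b c) a
        ∂(gm (Fin m) (Fin (n + 1))) ≤ ENNReal.ofReal (P ^ 94 * M4) := by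
  have hm0 : 0 < m := by omega
  have hm1 : (0 : ℝ) < m := by exact_mod_cast hm0
  have hP1 : 1 ≤ P := le_trans (by norm_num) hP
  by_cases h10 : P ^ 10 ≤ (n + 1 : ℕ)
  · refine lintegral_JJ_le ⟨hP, hrat, h10, by omega, ?_⟩ hb hc h4 h4'
    rw [← Real.exp_log (pow_pos hm1 24), Real.log_pow]
    exact Real.exp_le_exp.2 (by exact_mod_cast hlog)
  · push Not at h10
    have h1 : M4 ≤ P ^ 3 := by
      refine le_of_pow_le_pow_left₀ (by norm_num : 4 ≠ 0) (by positivity) ?_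
      rw [h4', ← pow_mul]
      calc (m : ℝ) ≤ P * P ^ 10 := hrat.trans (by gcongr)
        _ = P ^ 11 := by ring
        _ ≤ P ^ (3 * 4) := pow_le_pow_right₀ hP1 (by norm_num)
    have h2 : √(m : ℝ) = M4 * M4 := by
      rw [← h4', show M4 ^ 4 = (M4 * M4) ^ 2 by ring, Real.sqrt_sq (by positivity)]
    calc _ ≤ ∫⁻ _, ENNReal.ofReal (P ^ 2 * √m) ∂(gm (Fin m) (Fin (n + 1))) := by
          refine lintegral_mono fun a => ?_
          by_cases h : Good (Matrix.of a) (45 / 100)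
          · rw [Set.indicator_of_mem (show a ∈ {a | Good (Matrix.of a) (45 / 100)} from h)]
            exact JJ_le hm0 (h.mono (by norm_num)) hb c hP hlog
          · rw [Set.indicator_of_notMem (show a ∉ {a | Good (Matrix.of a) (45 / 100)} from h)]
            exact zero_le
      _ ≤ _ := by
          rw [lintegral_const, measure_univ, mul_one, h2]
          refine ENNReal.ofReal_le_ofReal ?_
          calc P ^ 2 * (M4 * M4) ≤ P ^ 2 * (P ^ 3 * M4) := by gcongr
            _ = P ^ 5 * M4 := by ring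
            _ ≤ P ^ 94 * M4 := by gcongr; norm_num

lemma TT_mean {n : ℕ} (hm : 10 ^ 20 * (n + 1) ≤ m) {b : Fin m → ℝ} (hb : Box b)
    {c : Fin (n + 1) → ℝ} (hc : nrm c = 1) {P M4 : ℝ} (hP : 10 ^ 20 ≤ P)
    (hrat : (m : ℝ) ≤ P * (n + 1 : ℕ)) (hlog : 24 * Real.log m ≤ P) (h4 : 0 ≤ M4)
    (h4' : M4 ^ 4 = m) (μ : Matrix (Fin m) (Fin (n + 1)) ℝ) :
    ∫⁻ a, TT b c (fun j i => μ j i + a j i) ∂(gm (Fin m) (Fin (n + 1))) ≤
      ENNReal.ofReal (Real.exp (fro μ ^ 2 / 2 + fro μ * √(Real.log m)) * M4 * P ^ 96) := by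
  have hm0 : 0 < m := by omega
  have hm1 : (1 : ℝ) ≤ m := by exact_mod_cast hm0
  have hP1 : 1 ≤ P := le_trans (by norm_num) hP
  have hM1 : 1 ≤ M4 := by
    refine le_of_pow_le_pow_left₀ (by norm_num : 4 ≠ 0) h4 ?_
    rw [h4', one_pow]; exact hm1
  have hG : MeasurableSet {a : Fin m → Fin (n + 1) → ℝ | Good (Matrix.of a) (45 / 100)} :=
    measurableSet_good measurable_id _
  have hs : Measurable fun (a : Fin m → Fin (n + 1) → ℝ) (j : Fin m) (i : Fin (n + 1)) =>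
      μ j i + a j i := by fun_prop
  set E := Real.exp (fro μ ^ 2 / 2 + fro μ * √(Real.log m)) with hE
  have hE0 : Real.exp (fro μ ^ 2 / 2) ≤ E :=
    Real.exp_le_exp.2 (le_add_of_nonneg_right (mul_nonneg (fro_nonneg μ) (Real.sqrt_nonneg _)))
  have hE1 : 1 ≤ E := le_trans (Real.one_le_exp (by positivity)) hE0
  have hF : Measurable fun a : Fin m → Fin (n + 1) → ℝ =>
      {a | Good (Matrix.of a) (45 / 100)}.indicator (fun a => JJ (Matrix.of a) b c) a :=
    (measurable_JJ b c).indicator hG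
  have h1 := shift_bdd μ hF (K := ENNReal.ofReal (P ^ 2 * √m)) (fun a => by
    by_cases h : Good (Matrix.of a) (45 / 100)
    · rw [Set.indicator_of_mem (show a ∈ {a | Good (Matrix.of a) (45 / 100)} from h)]
      exact JJ_le hm0 (h.mono (by norm_num)) hb c hP hlog
    · rw [Set.indicator_of_notMem (show a ∉ {a | Good (Matrix.of a) (45 / 100)} from h)]
      exact zero_le) (Real.sqrt_nonneg (Real.log m))
  have h2 := JJ_mean hm hb hc hP hrat hlog h4 h4'
  have h3 : Real.exp (-√(Real.log m) ^ 2 / 2) = (√(m : ℝ))⁻¹ := by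
    rw [Real.sq_sqrt (Real.log_nonneg hm1), Real.sqrt_eq_rpow, Real.rpow_def_of_pos (by linarith only [hm1]),
      ← Real.exp_neg]
    congr 1; ring
  have hsq : 0 < √(m : ℝ) := Real.sqrt_pos.2 (by linarith only [hm1])
  have h4a : ∫⁻ a, {a | Good (Matrix.of a) (45 / 100)}.indicator (fun a => JJ (Matrix.of a) b c)
      (fun j i => μ j i + a j i) ∂(gm (Fin m) (Fin (n + 1))) ≤
      ENNReal.ofReal (E * (P ^ 94 * M4) + P ^ 2) := by
    refine h1.trans ?_
    rw [ENNReal.ofReal_add (by positivity) (by positivity),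
      ← ENNReal.ofReal_mul (by positivity : 0 ≤ P ^ 2 * √(m : ℝ)), h3, mul_assoc,
      mul_inv_cancel₀ hsq.ne', mul_one, ENNReal.ofReal_mul (p := E) (by positivity)]
    gcongr
  have h5 := NB_shift (by omega) hm hb hc μ
  have h6 := choose_shift (by omega) hm μ
  have h7 : ∫⁻ a, {a | ¬Good (Matrix.of a) (45 / 100)}.indicator (1 : (Fin m → Fin (n + 1) → ℝ) → ℝ≥0∞)
      (fun j i => μ j i + a j i) ∂(gm (Fin m) (Fin (n + 1))) =
      gm (Fin m) (Fin (n + 1)) {a | ¬Good (Matrix.of fun j i => μ j i + a j i) (45 / 100)} := by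
    exact lintegral_indicator_one (μ := gm (Fin m) (Fin (n + 1))) (hs hG.compl)
  unfold TT
  rw [lintegral_add_left, lintegral_add_left, lintegral_add_left measurable_const, lintegral_const,
    measure_univ, mul_one, lintegral_const_mul' _ _ (by simp),
    lintegral_const_mul' _ _ ENNReal.ofReal_ne_top, lintegral_const_mul' _ _ (by simp), h7]
  · refine le_trans (add_le_add (add_le_add (add_le_add le_rfl (mul_le_mul_right h4a 20)) h5)
      h6) ?_
    rw [show (2 : ℝ≥0∞) = ENNReal.ofReal 2 by simp, show (20 : ℝ≥0∞) = ENNReal.ofReal 20 by simp,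
      ← ENNReal.ofReal_mul (by norm_num), ← ENNReal.ofReal_add (by norm_num) (by positivity),
      ← ENNReal.ofReal_add (by positivity) (by positivity),
      ← ENNReal.ofReal_add (by positivity) (by positivity)]
    refine ENNReal.ofReal_le_ofReal ?_
    have a1 : P ^ 2 ≤ P ^ 94 := pow_le_pow_right₀ hP1 (by norm_num)
    have a2 : 1 ≤ P ^ 94 := one_le_pow₀ hP1
    set W := E * (P ^ 94 * M4) with hW
    have a3 : P ^ 94 ≤ W := by
      calc P ^ 94 = 1 * (P ^ 94 * 1) := by ring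
        _ ≤ W := by rw [hW]; gcongr
    have a4 : E ≤ W := by
      calc E = E * (1 * 1) := by ring
        _ ≤ W := by rw [hW]; gcongr
    have a5 : 100 * W ≤ E * M4 * P ^ 96 := by
      have : (100 : ℝ) ≤ P ^ 2 := by linarith only [hP, mul_nonneg_of_nonpos_of_nonpos (Mathlib.Tactic.Linarith.sub_nonpos_of_le hP) (Mathlib.Tactic.Linarith.sub_nonpos_of_le hP)]
      calc 100 * W ≤ P ^ 2 * W := by gcongr
        _ = E * M4 * P ^ 96 := by rw [hW]; ring
    linarith only [hE0, a1, a2, a3, a4, a5]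
  · exact measurable_const.add ((hF.comp hs).const_mul _)
  · exact (measurable_const.add ((hF.comp hs).const_mul _)).add
      (((measurable_NB b c).comp hs).const_mul _)

theorem main : ∃ (C : ℝ) (κ : ℕ), ∀ (m n : ℕ), 1 ≤ n → C * n ≤ m →
    ∀ e : ℕ → Finset (Fin m), (∀ B : Finset (Fin m), B.card = n → ∃ i < m.choose n, e i = B) →
    ∀ (A₀ : Matrix (Fin m) (Fin n) ℝ) (b : Fin m → ℝ) (c : Fin n → ℝ) (σ β : ℝ),
    0 < σ → 0 < β → (∀ j, β ≤ b j ∧ b j ≤ 3 * β) → c ≠ 0 →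
    ∃ T : (Fin m → Fin n → ℝ) → ℝ≥0∞, Measurable T ∧
      (∀ᵐ G ∂(Measure.pi fun _ : Fin m => Measure.pi fun _ : Fin n => gaussianReal 0 1),
        (∀ i j, 0 < slack (A₀ + σ • Matrix.of G) b (iter (A₀ + σ • Matrix.of G) b c i).2 j ∧
          0 < slack (A₀ + σ • Matrix.of G) b
            (predict (A₀ + σ • Matrix.of G) b c (iter (A₀ + σ • Matrix.of G) b c i)).2 j) ∧
        Correct (A₀ + σ • Matrix.of G) b c (output (A₀ + σ • Matrix.of G) b c e) ∧
        (stopTime (A₀ + σ • Matrix.of G) b c e : ℝ≥0∞) + 1 ≤ T G) ∧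
      ∫⁻ G, T G ∂(Measure.pi fun _ : Fin m => Measure.pi fun _ : Fin n => gaussianReal 0 1) ≤
        ENNReal.ofReal (Real.exp ((√(∑ j, ∑ i, A₀ j i ^ 2) / σ) ^ 2 / 2 +
            √(∑ j, ∑ i, A₀ j i ^ 2) / σ * √(Real.log m)) *
          (m : ℝ) ^ (1 / 4 : ℝ) * ((m : ℝ) / n * Real.log m) ^ κ) := by
  refine ⟨10 ^ 20, 96, fun m n hn hm e he A₀ b c σ β hσ hβ hb hc => ?_⟩
  obtain ⟨n, rfl⟩ : ∃ k, n = k + 1 := ⟨n - 1, by omega⟩
  have hm' : 10 ^ 20 * (n + 1) ≤ m := by exact_mod_cast hm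
  have hm0 : 0 < m := by omega
  have hm1 : (0 : ℝ) < m := by exact_mod_cast hm0
  have hn0 : (0 : ℝ) < (n + 1 : ℕ) := by positivity
  set τ := nrm c with hτ
  have hτ0 : 0 < τ := nrm_pos hc
  set b' : Fin m → ℝ := β⁻¹ • b
  set c' : Fin (n + 1) → ℝ := τ⁻¹ • c
  set μ : Matrix (Fin m) (Fin (n + 1)) ℝ := σ⁻¹ • A₀ with hμ
  have hb' : Box b' := fun j => by
    have h := hb j
    simp only [b', Pi.smul_apply, smul_eq_mul]
    constructor
    · rw [le_inv_mul_iff₀ hβ]; linarith only [h, h.1]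
    · rw [inv_mul_le_iff₀ hβ]; linarith only [h, h.2]
  have hb0 : ∀ j, 0 < b' j := fun j => lt_of_lt_of_le one_pos (hb' j).1
  have hc' : nrm c' = 1 := by
    rw [nrm_smul, abs_of_pos (inv_pos.2 hτ0), inv_mul_cancel₀ hτ0.ne']
  have hc0 : c' ≠ 0 := fun h => by simp [h] at hc'
  have eb : b = β • b' := by simp [b', smul_smul, mul_inv_cancel₀ hβ.ne']
  have ec : c = τ • c' := by simp [c', smul_smul, mul_inv_cancel₀ hτ0.ne']
  have eA : ∀ G : Fin m → Fin (n + 1) → ℝ,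
      A₀ + σ • Matrix.of G = σ • Matrix.of fun j i => μ j i + G j i := fun G => by
    ext j i
    simp [hμ, mul_add, ← mul_assoc, mul_inv_cancel₀ hσ.ne']
  have hs : Measurable fun (a : Fin m → Fin (n + 1) → ℝ) (j : Fin m) (i : Fin (n + 1)) =>
      μ j i + a j i := by fun_prop
  refine ⟨fun G => TT b' c' fun j i => μ j i + G j i, (measurable_TT b' c').comp hs, ?_, ?_⟩
  · have h := ae_shift μ (ae_genPos (m := m) (n := n + 1) (by omega) (fun j => (hb0 j).ne') hc0)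
    filter_upwards [h] with G hG
    rw [eA G, eb, ec]
    refine ⟨fun i j => ⟨?_, ?_⟩, ?_, ?_⟩
    · exact inter_iter_scale hσ hβ hτ0 i (near_iter hG.1 hb0 hc0 i).2.1.1 j
    · exact inter_predict_scale hσ hβ hτ0 i (near_iter hG.1 hb0 hc0 i).2.2 j
    · exact correct_scale hσ hβ hτ0 e (output_correct hG hb0 he)
    · rw [stopTime_scale hσ hβ hτ0]
      exact stop_le_TT hm0 hb' hc' hG e
  · have hρ : (10 : ℝ) ^ 20 ≤ m / (n + 1 : ℕ) := by rw [le_div_iff₀ hn0]; exact hm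
    have hl : 1 ≤ Real.log m := by
      rw [Real.le_log_iff_exp_le hm1]
      have : (3 : ℝ) ≤ m := by exact_mod_cast (by omega : 3 ≤ m)
      linarith only [hm, hn0, this, Real.exp_one_lt_d9]
    have hf : fro μ = √(∑ j, ∑ i, A₀ j i ^ 2) / σ := by
      rw [hμ, fro_smul, abs_of_pos (inv_pos.2 hσ), div_eq_inv_mul, fro, ip]
      simp only [sq]
    rw [← hf]
    refine TT_mean hm' hb' hc' (by linarith only [hρ, hl, mul_nonneg_of_nonpos_of_nonpos (Mathlib.Tactic.Linarith.sub_nonpos_of_le hρ) (Mathlib.Tactic.Linarith.sub_nonpos_of_le hl)]) ?_ (by linarith only [hρ, hl, mul_nonneg_of_nonpos_of_nonpos (Mathlib.Tactic.Linarith.sub_nonpos_of_le hρ) (Mathlib.Tactic.Linarith.sub_nonpos_of_le hl)]) (by positivity) ?_ μ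
    · calc (m : ℝ) = m / (n + 1 : ℕ) * 1 * (n + 1 : ℕ) := by field_simp
        _ ≤ _ := by gcongr
    · rw [← Real.rpow_natCast, ← Real.rpow_mul hm1.le]; norm_num

end Pool.Agent.Work.MP_6af739_lc
end
end
end
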