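import Pool.Agent.Work.MP_6af739_lc.SymFinal

/-!
A predictor-corrector interior-point method solves `max c·x, A x ≤ b` with Gaussian perturbed `A` and
`c` in `m^(1/4) ((m/n) log m)^κ` expected iterations, up to a factor depending on
`ν = |(A₀, c₀)|_F^2 / (σ^2 √n)`.
-/

namespace Pool.Agent.Work.MP_6af739_lc.ParkedQuarterSmoothed

open MeasureTheory ProbabilityTheory Pool.Agent.Work.MP_6af739_lc
open scoped ENNReal

theorem result : ∃ (C : ℝ) (κ : ℕ), ∀ (m n : ℕ), 1 ≤ n → C * n ≤ m →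
    ∀ e : ℕ → Finset (Fin m), (∀ B : Finset (Fin m), B.card = n → ∃ i < m.choose n, e i = B) →
    ∀ (A₀ : Matrix (Fin m) (Fin n) ℝ) (b : Fin m → ℝ) (c₀ : Fin n → ℝ) (σ β ν : ℝ),
    0 < σ → 0 < β → (∀ j, β ≤ b j ∧ b j ≤ 3 * β) →
    ν = (∑ j, ∑ i, A₀ j i ^ 2 + ∑ i, c₀ i ^ 2) / (σ ^ 2 * √n) →
    ∃ T : (Fin m → Fin n → ℝ) × (Fin n → ℝ) → ℝ≥0∞, Measurable T ∧
      (∀ᵐ q ∂((Measure.pi fun _ : Fin m => Measure.pi fun _ : Fin n => gaussianReal 0 1).prod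
          (Measure.pi fun _ : Fin n => gaussianReal 0 1)),
        ∀ (A : Matrix (Fin m) (Fin n) ℝ) (c : Fin n → ℝ), A = A₀ + σ • Matrix.of q.1 →
          c = c₀ + σ • q.2 →
        (∀ i j, 0 < slack A b (iter A b c i).2 j ∧
          0 < slack A b (predict A b c (iter A b c i)).2 j) ∧
        Correct A b c (output A b c e) ∧ (stopTime A b c e : ℝ≥0∞) + 1 ≤ T q) ∧
      ∫⁻ q, T q ∂((Measure.pi fun _ : Fin m => Measure.pi fun _ : Fin n => gaussianReal 0 1).prod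
          (Measure.pi fun _ : Fin n => gaussianReal 0 1)) ≤
        ENNReal.ofReal (Real.exp (2 * ν ^ 2 + ν * √(Real.log m)) *
          (m : ℝ) ^ (1 / 4 : ℝ) * ((m : ℝ) / n * Real.log m) ^ κ) :=
  main2

end Pool.Agent.Work.MP_6af739_lc.ParkedQuarterSmoothed
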